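import Pool.Agent.WanRH.DegOne

/-!
# Rationality of the zeta function: `(1-X)(1-qX) Z` is a polynomial
-/

set_option linter.unusedSectionVars false
set_option linter.unusedVariables false

namespace Pool.Agent.WanRH

universe u v w

open Place

section Rational

variable {k : Type u} {F : Type v} [Field k] [Finite k] [Field F] [Algebra k F]
  [IsFunctionField k F]

lemma coeff_zeta' (m : ℕ) :
    PowerSeries.coeff m (zeta k F) = ((eff (goodDeg k F) m).card : ℤ) := by
  unfold zeta
  rw [PowerSeries.coeff_mk]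
  congr 1
  have h : (eff (goodDeg k F) m : Set (Place k F →₀ ℕ)) =
      {D : Place k F →₀ ℕ | (D.sum fun x n => n * x.degree) = m} := by
    ext D
    rw [Finset.mem_coe, mem_eff]
    rfl
  rw [← Set.ncard_coe_finset, h]
  rfl

variable (k F) in
/-- Principal divisors. -/
noncomputable def principal : AddSubgroup (Div k F) where
  carrier := {E | ∃ f : F, f ≠ 0 ∧ E = pdiv f}
  add_mem' := by
    rintro _ _ ⟨f, hf, rfl⟩ ⟨g, hg, rfl⟩
    exact ⟨f * g, mul_ne_zero hf hg, (pdiv_mul hf hg).symm⟩
  zero_mem' := ⟨1, one_ne_zero, by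
    have := pdiv_const (k := k) (F := F) 1
    rw [map_one] at this
    exact this.symm⟩
  neg_mem' := by
    rintro _ ⟨f, hf, rfl⟩
    exact ⟨f⁻¹, inv_ne_zero hf, (pdiv_inv f).symm⟩

lemma mem_principal (E : Div k F) : E ∈ principal k F ↔ ∃ f : F, f ≠ 0 ∧ E = pdiv f := Iff.rfl

variable (k F) in
/-- The class of a divisor. -/
noncomputable def cl : Div k F →+ Div k F ⧸ principal k F := QuotientAddGroup.mk' _

lemma cl_eq_iff (D E : Div k F) : cl k F D = cl k F E ↔ ∃ f : F, f ≠ 0 ∧ E = D + pdiv f := by
  unfold cl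
  rw [QuotientAddGroup.mk'_apply, QuotientAddGroup.mk'_apply, QuotientAddGroup.eq, mem_principal]
  refine exists_congr fun f => and_congr_right fun _ => ?_
  rw [neg_add_eq_iff_eq_add]

open Classical in
/-- The set of classes of effective divisors of degree `m`. -/
noncomputable def clEff (k : Type u) (F : Type v) [Field k] [Finite k] [Field F] [Algebra k F]
    [IsFunctionField k F] (m : ℕ) : Finset (Div k F ⧸ principal k F) :=
  (eff (goodDeg k F) m).image fun E => cl k F (toDiv E)

variable (k F) in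
/-- The exact count of effective divisors of large degree. -/
theorem eff_card_eq : ∃ (h : ℕ) (g : ℤ) (d : ℕ), g ≤ d ∧ ∀ j : ℕ,
    (Nat.card k - 1) * (eff (goodDeg k F) (d + j)).card =
      h * (Nat.card k ^ ((d + 1 - g).toNat + j) - 1) := by
  classical
  obtain ⟨g, d₀, hR⟩ := riemann_dim k F
  obtain ⟨D₁, hD₁⟩ := exists_deg_one k F
  set d : ℕ := max d₀.toNat g.toNat with hd
  have hd₀ : d₀ ≤ d := by
    have := Int.self_le_toNat d₀
    have h2 : d₀.toNat ≤ d := le_max_left _ _
    omega
  have hg : g ≤ d := by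
    have := Int.self_le_toNat g
    have h2 : g.toNat ≤ d := le_max_right _ _
    omega
  -- all classes of degree `m ≥ d` are effective
  have hmem : ∀ m : ℕ, d ≤ m → ∀ D : Div k F, D.deg = m → cl k F D ∈ clEff k F m := by
    intro m hm D hD
    have hm' : (d : ℤ) ≤ m := by exact_mod_cast hm
    have hfr := hR D (by rw [hD]; omega)
    rw [hD] at hfr
    have hpos : 0 < Module.finrank k (LL D) := by
      have : (0 : ℤ) < Module.finrank k (LL D) := by rw [hfr]; omega
      exact_mod_cast this
    obtain ⟨f, hf0, hf⟩ := exists_ne_zero_mem_LL hpos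
    have h0 : 0 ≤ D + pdiv f := (mem_LL_iff hf0).mp hf
    obtain ⟨E, hE⟩ := exists_toDiv_eq _ h0
    unfold clEff
    rw [Finset.mem_image]
    refine ⟨E, ?_, ?_⟩
    · rw [mem_eff]
      have : (effDeg Place.degree E : ℤ) = m := by
        rw [← deg_toDiv, hE, Div.deg_add, deg_pdiv, add_zero, hD]
      exact_mod_cast this
    · exact ((cl_eq_iff _ _).mpr ⟨f, hf0, hE⟩).symm
  have hmem' : ∀ m : ℕ, ∀ c ∈ clEff k F m, ∃ D : Div k F, D.deg = m ∧ cl k F D = c := by
    intro m c hc
    unfold clEff at hc
    obtain ⟨E, hE, rfl⟩ := Finset.mem_image.mp hc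
    refine ⟨toDiv E, ?_, rfl⟩
    rw [deg_toDiv, (mem_eff _ _ _).mp hE]
  -- the number of classes
  have hcardcl : ∀ j : ℕ, (clEff k F (d + j)).card = (clEff k F d).card := by
    intro j
    have himg : (clEff k F d).image (fun c => c + cl k F (j • D₁)) = clEff k F (d + j) := by
      ext c
      rw [Finset.mem_image]
      constructor
      · rintro ⟨c', hc', rfl⟩
        obtain ⟨D, hD, rfl⟩ := hmem' d c' hc'
        rw [← map_add]
        apply hmem _ (by omega)
        rw [Div.deg_add, Div.deg_nsmul, hD, hD₁]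
        push_cast
        ring
      · intro hc
        obtain ⟨D, hD, rfl⟩ := hmem' (d + j) c hc
        refine ⟨cl k F (D - j • D₁), ?_, ?_⟩
        · apply hmem _ le_rfl
          rw [Div.deg_sub, Div.deg_nsmul, hD, hD₁]
          push_cast
          ring
        · rw [← map_add, sub_add_cancel]
    rw [← himg, Finset.card_image_of_injective _ (add_left_injective _)]
  refine ⟨(clEff k F d).card, g, d, hg, fun j => ?_⟩
  -- fibres
  have hfib : ∀ c ∈ clEff k F (d + j), (Nat.card k - 1) *
      ((eff (goodDeg k F) (d + j)).filter (fun E => cl k F (toDiv E) = c)).card =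
        Nat.card k ^ ((d + 1 - g).toNat + j) - 1 := by
    intro c hc
    obtain ⟨D, hD, rfl⟩ := hmem' (d + j) c hc
    have h1 := ncard_linSys D
    have hfr := hR D (by rw [hD]; push_cast; omega)
    rw [hD] at hfr
    have h2 : Module.finrank k (LL D) = (d + 1 - g).toNat + j := by
      push_cast at hfr
      omega
    rw [h2] at h1
    rw [← h1]
    congr 1
    rw [← Set.ncard_coe_finset]
    congr 1
    ext E
    rw [Finset.mem_coe, Finset.mem_filter, mem_eff]
    constructor
    · rintro ⟨-, h3⟩
      exact (cl_eq_iff _ _).mp h3.symm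
    · intro h3
      refine ⟨?_, ((cl_eq_iff _ _).mpr h3).symm⟩
      have h4 := effDeg_of_mem_linSys h3
      rw [hD] at h4
      exact_mod_cast h4
  have hsum : (eff (goodDeg k F) (d + j)).card = ∑ c ∈ clEff k F (d + j),
      ((eff (goodDeg k F) (d + j)).filter (fun E => cl k F (toDiv E) = c)).card :=
    Finset.card_eq_sum_card_image _ _
  rw [hsum, Finset.mul_sum, Finset.sum_congr rfl hfib, Finset.sum_const, hcardcl, smul_eq_mul]

/-- **Rationality of the zeta function.** -/
theorem exists_numerator (k : Type u) (F : Type v) [Field k] [Finite k] [Field F] [Algebra k F]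
    [IsFunctionField k F] : ∃ P : Polynomial ℤ, IsZetaNumerator k F P := by
  obtain ⟨h, g, d, hg, hcount⟩ := eff_card_eq k F
  set q := Nat.card k with hq
  have hq1 : 1 < q := Finite.one_lt_card
  set e := ((d : ℤ) + 1 - g).toNat with he
  set a : ℕ → ℤ := fun m => ((eff (goodDeg k F) m).card : ℤ) with ha
  have hcount' : ∀ j, ((q : ℤ) - 1) * a (d + j) = h * ((q : ℤ) ^ (e + j) - 1) := by
    intro j
    have h1 := hcount j
    have h2 : 1 ≤ q ^ (e + j) := Nat.one_le_pow _ _ (by omega)
    zify [h2, hq1.le] at h1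
    exact h1
  set W : PowerSeries ℤ :=
    (1 - PowerSeries.X) * (1 - PowerSeries.C (q : ℤ) * PowerSeries.X) * zeta k F with hW
  have hWexp : W = zeta k F - PowerSeries.C ((q : ℤ) + 1) * (PowerSeries.X * zeta k F) +
      PowerSeries.C (q : ℤ) * (PowerSeries.X * (PowerSeries.X * zeta k F)) := by
    rw [hW, map_add, map_one]
    ring
  have hcoef : ∀ m, PowerSeries.coeff (m + 2) W = a (m + 2) - ((q : ℤ) + 1) * a (m + 1) +
      q * a m := by
    intro m
    rw [hWexp, map_add, map_sub, PowerSeries.coeff_C_mul, PowerSeries.coeff_C_mul,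
      PowerSeries.coeff_succ_X_mul, PowerSeries.coeff_succ_X_mul, PowerSeries.coeff_succ_X_mul,
      coeff_zeta', coeff_zeta', coeff_zeta']
  have hzero : ∀ j, PowerSeries.coeff (d + j + 2) W = 0 := by
    intro j
    rw [hcoef]
    have h0 := hcount' j
    have h1 := hcount' (j + 1)
    have h2 := hcount' (j + 2)
    rw [← add_assoc] at h1 h2
    have hne : ((q : ℤ) - 1) ≠ 0 := by
      have : (1 : ℤ) < q := by exact_mod_cast hq1
      omega
    apply mul_left_cancel₀ hne
    rw [mul_zero]
    have h3 : (q : ℤ) ^ (e + (j + 1)) = q * (q : ℤ) ^ (e + j) := by ring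
    have h4 : (q : ℤ) ^ (e + (j + 2)) = q * (q * (q : ℤ) ^ (e + j)) := by ring
    rw [h3] at h1
    rw [h4] at h2
    linear_combination h2 - ((q : ℤ) + 1) * h1 + (q : ℤ) * h0
  refine ⟨PowerSeries.trunc (d + 2) W, ?_⟩
  unfold IsZetaNumerator
  rw [← hq, ← hW]
  ext m
  rw [Polynomial.coeff_coe, PowerSeries.coeff_trunc]
  split_ifs with hm
  · rfl
  · push Not at hm
    obtain ⟨j, rfl⟩ := Nat.exists_eq_add_of_le hm
    have := hzero j
    rw [show d + 2 + j = d + j + 2 by ring]
    exact this.symm

end Rational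

end Pool.Agent.WanRH
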