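import Pool.Agent.WanRH.Fin

/-!
# Coefficients of a factor with constant term `1` lie in the splitting field
-/

namespace Pool.Agent.WanRH

open Polynomial

section Factor

variable {F : Type*} {Ω : Type*} [Field F] [Field Ω] [Algebra F Ω] [IsAlgClosed Ω]

/-- If `L ∣ P` over an algebraically closed field, `L(0) = 1`, then the coefficients of `L` lie
in the field generated by the roots of `P`. -/
lemma coeff_mem_adjoin_rootSet {P : F[X]} (hP : P ≠ 0) {L : Polynomial Ω}
    (hdvd : L ∣ P.map (algebraMap F Ω)) (hL : L.coeff 0 = 1) (i : ℕ) :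
    L.coeff i ∈ IntermediateField.adjoin F (P.rootSet Ω) := by
  classical
  set E := IntermediateField.adjoin F (P.rootSet Ω) with hE
  have hP' : P.map (algebraMap F Ω) ≠ 0 := by
    rwa [Polynomial.map_ne_zero_iff (algebraMap F Ω).injective]
  have hL0 : L ≠ 0 := by
    rintro rfl
    simp at hL
  have hsplit : L.Splits := IsAlgClosed.splits L
  have hroots : ∀ r ∈ L.roots, r ∈ E := by
    intro r hr
    apply IntermediateField.subset_adjoin
    rw [mem_rootSet']
    refine ⟨hP', ?_⟩
    rw [mem_roots hL0] at hr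
    obtain ⟨M, hM⟩ := hdvd
    rw [aeval_def, eval₂_eq_eval_map, hM, eval_mul, hr.eq_zero, zero_mul]
  have hlead : L.leadingCoeff ∈ E := by
    have h1 := hsplit.coeff_zero_eq_leadingCoeff_mul_prod_roots
    rw [hL] at h1
    have h2 : (L.roots.prod) ∈ E := by
      exact multiset_prod_mem _ hroots
    have h3 : ((-1) ^ L.natDegree * L.roots.prod) ∈ E :=
      E.mul_mem (pow_mem (neg_mem (one_mem _)) _) h2
    have h4 : L.leadingCoeff = ((-1) ^ L.natDegree * L.roots.prod)⁻¹ := by
      refine eq_inv_of_mul_eq_one_left ?_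
      calc L.leadingCoeff * ((-1) ^ L.natDegree * L.roots.prod)
          = (-1) ^ L.natDegree * L.leadingCoeff * L.roots.prod := by ring
        _ = 1 := h1.symm
    rw [h4]
    exact E.inv_mem h3
  have hlift : L ∈ Polynomial.lifts (algebraMap E Ω) := by
    rw [hsplit.eq_prod_roots]
    refine Subsemiring.mul_mem _ ?_ ?_
    · exact C'_mem_lifts ⟨⟨_, hlead⟩, rfl⟩
    · refine multiset_prod_mem _ ?_
      intro f hf
      rw [Multiset.mem_map] at hf
      obtain ⟨r, hr, rfl⟩ := hf
      rw [lifts_iff_coeff_lifts]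
      intro n
      refine ⟨(X - C (⟨r, hroots r hr⟩ : E)).coeff n, ?_⟩
      rw [← coeff_map]
      simp
  rw [lifts_iff_coeff_lifts] at hlift
  obtain ⟨e, he⟩ := hlift i
  rw [← he]
  exact e.2

/-- The field generated by the roots of `P` is a splitting field of `P`. -/
lemma finrank_adjoin_rootSet (P : F[X]) :
    Module.finrank F (IntermediateField.adjoin F (P.rootSet Ω)) =
      Module.finrank F P.SplittingField := by
  have : IsSplittingField F (IntermediateField.adjoin F (P.rootSet Ω)) P :=
    IntermediateField.adjoin_rootSet_isSplittingField (IsAlgClosed.splits _)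
  exact (IsSplittingField.algEquiv (IntermediateField.adjoin F (P.rootSet Ω)) P).toLinearEquiv.finrank_eq

instance finiteDimensional_adjoin_rootSet (P : F[X]) :
    FiniteDimensional F (IntermediateField.adjoin F (P.rootSet Ω)) := by
  have : IsSplittingField F (IntermediateField.adjoin F (P.rootSet Ω)) P :=
    IntermediateField.adjoin_rootSet_isSplittingField (IsAlgClosed.splits _)
  exact IsSplittingField.finiteDimensional _ P

end Factor

section Combine

variable (p : ℕ) [hp : Fact p.Prime] {Ω : Type*} [Field Ω] [Algebra ℚ_[p] Ω] [IsAlgClosed Ω]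

/-- Combination of the two previous results. -/
theorem totient_le_finrank_splittingField [Algebra.IsIntegral ℚ_[p] Ω] {n v N : ℕ}
    (hN : N = p ^ (n + 1)) {ζ : Ω}
    (hζ : IsPrimitiveRoot ζ N) {ι : Type*}
    [Fintype ι] (φ : ι → ZMod N)
    (hsep : ∀ i j, (φ i).val % p ^ n = (φ j).val % p ^ n → φ i = φ j)
    (i₀ : ι) (hi₀ : ¬ p ^ (v + 1) ∣ (φ i₀).val)
    (P : ℚ_[p][X]) (hP : P ≠ 0) {L : Polynomial Ω} (hdvd : L ∣ P.map (algebraMap ℚ_[p] Ω))
    (hL : L.coeff 0 = 1) (m : ℕ) (hm : L.coeff m = ∑ i, ζ ^ (φ i).val) :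
    Nat.totient N ≤ Module.finrank ℚ_[p] P.SplittingField * (Fintype.card ι * p ^ v) := by
  rw [← finrank_adjoin_rootSet (Ω := Ω) P]
  refine fin_bound' p hN hζ φ hsep i₀ hi₀ _ ?_
  rw [← hm]
  exact coeff_mem_adjoin_rootSet hP hdvd hL m

end Combine

end Pool.Agent.WanRH
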