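import Mathlib

/-!
# Generating functions of weighted multisets, and Euler products

`X` is a type of points with degrees `d : X → ℕ`; `gen d h c` is the generating series
`∑_D c(D) s^{deg D}` over effective divisors `D : X →₀ ℕ`.
-/

namespace Pool.Agent.WanRH

open Finset

universe u v

section Gen

variable {X : Type u} {R : Type v} [CommRing R]

/-- The degree of an effective divisor. -/
def effDeg (d : X → ℕ) (D : X →₀ ℕ) : ℕ := D.sum fun x n => n * d x

/-- Hypotheses on the degree function: positive, with finitely many points of bounded degree. -/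
structure GoodDeg (d : X → ℕ) : Prop where
  pos : ∀ x, 0 < d x
  fin : ∀ m, {x | d x ≤ m}.Finite

variable {d : X → ℕ}

lemma effDeg_add (D D' : X →₀ ℕ) : effDeg d (D + D') = effDeg d D + effDeg d D' := by
  classical
  unfold effDeg
  rw [Finsupp.sum_add_index']
  · intro a; simp
  · intro a b c; ring

lemma effDeg_single (x : X) (n : ℕ) : effDeg d (Finsupp.single x n) = n * d x := by
  unfold effDeg
  rw [Finsupp.sum_single_index]; simp

@[simp] lemma effDeg_zero : effDeg d (0 : X →₀ ℕ) = 0 := by simp [effDeg]

lemma mul_le_effDeg (D : X →₀ ℕ) (x : X) : D x * d x ≤ effDeg d D := by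
  classical
  by_cases hx : x ∈ D.support
  · unfold effDeg Finsupp.sum
    exact Finset.single_le_sum (f := fun x => D x * d x) (fun _ _ => Nat.zero_le _) hx
  · rw [Finsupp.notMem_support_iff.mp hx]; simp

lemma finite_eff (h : GoodDeg d) (m : ℕ) : {D : X →₀ ℕ | effDeg d D = m}.Finite := by
  classical
  refine Set.Finite.subset ((h.fin m).toFinset.finsupp fun _ => Finset.range (m + 1)).finite_toSet ?_
  intro D hD
  simp only [Set.mem_ofPred_eq] at hD
  simp only [Finset.mem_coe, Finset.mem_finsupp_iff]
  constructor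
  · intro x hx
    have h1 := mul_le_effDeg (d := d) D x
    have h2 : 1 ≤ D x := Nat.one_le_iff_ne_zero.mpr (Finsupp.mem_support_iff.mp hx)
    simp only [Set.Finite.mem_toFinset, Set.mem_ofPred_eq]
    nlinarith
  · intro x _
    have h1 := mul_le_effDeg (d := d) D x
    have h2 := h.pos x
    simp only [Finset.mem_range]
    nlinarith

/-- The finite set of effective divisors of degree `m`. -/
noncomputable def eff (h : GoodDeg d) (m : ℕ) : Finset (X →₀ ℕ) := (finite_eff h m).toFinset

@[simp] lemma mem_eff (h : GoodDeg d) (m : ℕ) (D : X →₀ ℕ) : D ∈ eff h m ↔ effDeg d D = m := by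
  simp [eff]

/-- The value of a completely multiplicative weight on an effective divisor. -/
def wt (c : X → R) (D : X →₀ ℕ) : R := D.prod fun x n => c x ^ n

lemma wt_add (c : X → R) (D D' : X →₀ ℕ) : wt c (D + D') = wt c D * wt c D' := by
  classical
  unfold wt
  rw [Finsupp.prod_add_index']
  · intro a; simp
  · intro a b c; ring

@[simp] lemma wt_zero (c : X → R) : wt c 0 = 1 := by simp [wt]

@[simp] lemma wt_single (c : X → R) (x : X) (n : ℕ) : wt c (Finsupp.single x n) = c x ^ n := by
  unfold wt
  rw [Finsupp.prod_single_index]; simp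

/-- The generating series of weighted effective divisors. -/
noncomputable def gen (h : GoodDeg d) (c : X → R) : PowerSeries R :=
  PowerSeries.mk fun m => ∑ D ∈ eff h m, wt c D

@[simp] lemma coeff_gen (h : GoodDeg d) (c : X → R) (m : ℕ) :
    PowerSeries.coeff m (gen h c) = ∑ D ∈ eff h m, wt c D := by
  simp [gen]

lemma wt_eq_zero_of (c : X → R) {D : X →₀ ℕ} {x : X} (hx : D x ≠ 0) (hc : c x = 0) :
    wt c D = 0 := by
  unfold wt Finsupp.prod
  refine Finset.prod_eq_zero (Finsupp.mem_support_iff.mpr hx) ?_
  show c x ^ D x = 0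
  rw [hc, zero_pow hx]

lemma wt_update_of_eq_zero [DecidableEq X] (c : X → R) {D : X →₀ ℕ} {x : X} (a : R)
    (hx : D x = 0) : wt (Function.update c x a) D = wt c D := by
  unfold wt Finsupp.prod
  refine Finset.prod_congr rfl fun y hy => ?_
  have : y ≠ x := by
    rintro rfl
    exact (Finsupp.mem_support_iff.mp hy) hx
  simp only
  rw [Function.update_of_ne this]

/-- Removing one Euler factor. -/
lemma gen_remove [DecidableEq X] (h : GoodDeg d) (c : X → R) (x : X) :
    gen h c * (1 - PowerSeries.C (c x) * PowerSeries.X ^ d x) =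
      gen h (Function.update c x 0) := by
  ext m
  have hcx : gen h c * (1 - PowerSeries.C (c x) * PowerSeries.X ^ d x)
      = gen h c - PowerSeries.C (c x) * (gen h c * PowerSeries.X ^ d x) := by ring
  rw [hcx, map_sub, PowerSeries.coeff_C_mul, PowerSeries.coeff_mul_X_pow', coeff_gen h c m,
    coeff_gen h (Function.update c x 0) m]
  have hsplit : ∑ D ∈ eff h m, wt c D =
      ∑ D ∈ (eff h m).filter (fun D => D x = 0), wt c D +
      ∑ D ∈ (eff h m).filter (fun D => ¬ D x = 0), wt c D :=
    (Finset.sum_filter_add_sum_filter_not _ _ _).symm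
  have h1 : ∑ D ∈ eff h m, wt (Function.update c x 0) D =
      ∑ D ∈ (eff h m).filter (fun D => D x = 0), wt c D := by
    rw [Finset.sum_filter]
    refine Finset.sum_congr rfl fun D _ => ?_
    split_ifs with hD
    · exact wt_update_of_eq_zero c 0 hD
    · exact wt_eq_zero_of _ hD (by simp)
  have h2 : ∑ D ∈ (eff h m).filter (fun D => ¬ D x = 0), wt c D =
      c x * (if d x ≤ m then PowerSeries.coeff (m - d x) (gen h c) else 0) := by
    split_ifs with hm
    · rw [coeff_gen, Finset.mul_sum]
      symm
      refine Finset.sum_bij' (fun D _ => D + Finsupp.single x 1)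
        (fun D _ => D - Finsupp.single x 1) ?_ ?_ ?_ ?_ ?_
      · intro D hD
        simp only [mem_eff] at hD
        simp only [Finset.mem_filter, mem_eff, effDeg_add, effDeg_single, hD, Finsupp.coe_add,
          Pi.add_apply, Finsupp.single_eq_same]
        omega
      · intro D hD
        simp only [Finset.mem_filter, mem_eff] at hD
        have hle : Finsupp.single x 1 ≤ D := by
          rw [Finsupp.single_le_iff]; omega
        have : D - Finsupp.single x 1 + Finsupp.single x 1 = D := tsub_add_cancel_of_le hle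
        have h3 := congrArg (effDeg d) this
        rw [effDeg_add, effDeg_single, hD.1] at h3
        simp only [mem_eff]
        omega
      · intro D _
        exact add_tsub_cancel_right _ _
      · intro D hD
        simp only [Finset.mem_filter, mem_eff] at hD
        have hle : Finsupp.single x 1 ≤ D := by
          rw [Finsupp.single_le_iff]; omega
        exact tsub_add_cancel_of_le hle
      · intro D _
        rw [wt_add, wt_single]; ring
    · rw [mul_zero]
      refine Finset.sum_eq_zero fun D hD => ?_
      simp only [Finset.mem_filter, mem_eff] at hD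
      exfalso
      have h1 := mul_le_effDeg (d := d) D x
      have h2 : 1 ≤ D x := Nat.one_le_iff_ne_zero.mpr hD.2
      nlinarith
  rw [hsplit, h1, h2]
  ring

/-- If all weights of points of degree `≤ m` vanish, the series is `1` up to order `m`. -/
lemma coeff_gen_of_zero (h : GoodDeg d) (c : X → R) (m : ℕ) (hc : ∀ x, d x ≤ m → c x = 0)
    (j : ℕ) (hj : j ≤ m) : PowerSeries.coeff j (gen h c) = if j = 0 then 1 else 0 := by
  classical
  rw [coeff_gen]
  have hz : ∀ D ∈ eff h j, D ≠ 0 → wt c D = 0 := by
    intro D hD hne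
    obtain ⟨x, hx⟩ := Finsupp.ne_iff.mp hne
    simp only [Finsupp.coe_zero, Pi.zero_apply] at hx
    refine wt_eq_zero_of c hx (hc x ?_)
    have h1 := mul_le_effDeg (d := d) D x
    have h2 : 1 ≤ D x := Nat.one_le_iff_ne_zero.mpr hx
    simp only [mem_eff] at hD
    nlinarith
  split_ifs with h0
  · subst h0
    rw [Finset.sum_eq_single 0]
    · simp
    · intro D hD hne
      exact hz D hD hne
    · intro h1
      exact absurd (by simp) h1
  · refine Finset.sum_eq_zero fun D hD => hz D hD ?_
    rintro rfl
    simp only [mem_eff, effDeg_zero] at hD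
    exact h0 hD.symm

/-- Removing finitely many Euler factors. -/
lemma gen_mul_prod [DecidableEq X] (h : GoodDeg d) (c : X → R) (F : Finset X) :
    gen h c * ∏ x ∈ F, (1 - PowerSeries.C (c x) * PowerSeries.X ^ d x) =
      gen h (fun x => if x ∈ F then 0 else c x) := by
  induction F using Finset.induction_on with
  | empty => simp
  | insert x F hx ih =>
    rw [Finset.prod_insert hx]
    have : gen h c * ((1 - PowerSeries.C (c x) * PowerSeries.X ^ d x) *
        ∏ x ∈ F, (1 - PowerSeries.C (c x) * PowerSeries.X ^ d x)) =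
      (gen h c * ∏ x ∈ F, (1 - PowerSeries.C (c x) * PowerSeries.X ^ d x)) *
        (1 - PowerSeries.C (c x) * PowerSeries.X ^ d x) := by ring
    rw [this, ih]
    have hc : c x = (fun y => if y ∈ F then 0 else c y) x := by simp [hx]
    rw [hc, gen_remove]
    congr 1
    ext y
    by_cases hy : y = x
    · subst hy; simp
    · rw [Function.update_of_ne hy]
      simp [Finset.mem_insert, hy]

end Gen

section Euler

variable {X : Type u} {R : Type v} [CommRing R]

/-- `G` has the Euler product `∏_x e(x)^{-1}`: for every `m`, for all sufficiently large finite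
sets `F` of points, `G · ∏_{x ∈ F} e(x) ≡ 1` up to order `m`. -/
def HasEuler (G : PowerSeries R) (e : X → PowerSeries R) : Prop :=
  ∀ m : ℕ, ∃ F₀ : Finset X, ∀ F : Finset X, F₀ ⊆ F →
    ∀ j ≤ m, PowerSeries.coeff j (G * ∏ x ∈ F, e x) = if j = 0 then 1 else 0

lemma coeff_mul_of_one (m : ℕ) (A B : PowerSeries R)
    (hA : ∀ j ≤ m, PowerSeries.coeff j A = if j = 0 then 1 else 0)
    (j : ℕ) (hj : j ≤ m) : PowerSeries.coeff j (A * B) = PowerSeries.coeff j B := by
  classical
  rw [PowerSeries.coeff_mul, Finset.sum_eq_single (0, j)]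
  · rw [hA 0 (Nat.zero_le _)]; simp
  · rintro ⟨a, b⟩ hab hne
    have hab' : a + b = j := Finset.HasAntidiagonal.mem_antidiagonal.mp hab
    have ha : a ≠ 0 := by
      rintro rfl
      apply hne
      rw [zero_add] at hab'
      rw [hab']
    rw [hA a (by omega), if_neg ha, zero_mul]
  · intro h0
    exact absurd (by simp) h0

lemma HasEuler.mul {G G' : PowerSeries R} {e e' : X → PowerSeries R} (h : HasEuler G e)
    (h' : HasEuler G' e') : HasEuler (G * G') (fun x => e x * e' x) := by
  classical
  intro m
  obtain ⟨F₁, h1⟩ := h m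
  obtain ⟨F₂, h2⟩ := h' m
  refine ⟨F₁ ∪ F₂, fun F hF j hj => ?_⟩
  rw [Finset.prod_mul_distrib]
  have : G * G' * ((∏ x ∈ F, e x) * ∏ x ∈ F, e' x) =
      (G * ∏ x ∈ F, e x) * (G' * ∏ x ∈ F, e' x) := by ring
  rw [this, coeff_mul_of_one m _ _ (h1 F (Finset.union_subset_left hF)) j hj]
  exact h2 F (Finset.union_subset_right hF) j hj

lemma HasEuler.one : HasEuler (1 : PowerSeries R) (fun _ : X => 1) := by
  intro m
  refine ⟨∅, fun F _ j _ => ?_⟩
  simp [PowerSeries.coeff_one]

lemma HasEuler.prod {ι : Type*} (s : Finset ι) {G : ι → PowerSeries R}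
    {e : ι → X → PowerSeries R} (h : ∀ i ∈ s, HasEuler (G i) (e i)) :
    HasEuler (∏ i ∈ s, G i) (fun x => ∏ i ∈ s, e i x) := by
  classical
  induction s using Finset.induction_on with
  | empty => simpa using HasEuler.one
  | insert a s ha ih =>
    simp only [Finset.prod_insert ha]
    exact (h a (Finset.mem_insert_self _ _)).mul
      (ih fun i hi => h i (Finset.mem_insert_of_mem hi))

lemma HasEuler.unique {G G' : PowerSeries R} {e : X → PowerSeries R} (h : HasEuler G e)
    (h' : HasEuler G' e) : G = G' := by
  classical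
  ext m
  obtain ⟨F₁, h1⟩ := h m
  obtain ⟨F₂, h2⟩ := h' m
  set F := F₁ ∪ F₂
  have e1 := coeff_mul_of_one m _ G' (h1 F Finset.subset_union_left) m le_rfl
  have e2 := coeff_mul_of_one m _ G (h2 F Finset.subset_union_right) m le_rfl
  rw [← e1, ← e2]
  congr 1
  ring

lemma hasEuler_gen {d : X → ℕ} (h : GoodDeg d) (c : X → R) :
    HasEuler (gen h c) (fun x => 1 - PowerSeries.C (c x) * PowerSeries.X ^ d x) := by
  classical
  intro m
  refine ⟨(h.fin m).toFinset, fun F hF j hj => ?_⟩
  rw [gen_mul_prod]
  refine coeff_gen_of_zero h _ m (fun x hx => ?_) j hj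
  rw [if_pos]
  exact hF (by simpa using hx)

/-- Push-forward of an Euler product along a map with finite fibres which does not
increase degrees. -/
lemma hasEuler_gen_push {Y : Type*} {d : X → ℕ} {d' : Y → ℕ} (h : GoodDeg d) (h' : GoodDeg d')
    (π : Y → X) (hπ : ∀ y, d (π y) ≤ d' y) (hfib : ∀ x, (π ⁻¹' {x}).Finite) (c : Y → R) :
    HasEuler (gen h' c)
      (fun x => ∏ y ∈ (hfib x).toFinset, (1 - PowerSeries.C (c y) * PowerSeries.X ^ d' y)) := by
  classical
  intro m
  refine ⟨(h.fin m).toFinset, fun F hF j hj => ?_⟩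
  have hprod : ∏ x ∈ F, ∏ y ∈ (hfib x).toFinset,
      (1 - PowerSeries.C (c y) * PowerSeries.X ^ d' y) =
      ∏ y ∈ F.biUnion (fun x => (hfib x).toFinset),
        (1 - PowerSeries.C (c y) * PowerSeries.X ^ d' y) := by
    rw [Finset.prod_biUnion]
    intro a _ b _ hab
    simp only [Function.onFun, Finset.disjoint_left, Set.Finite.mem_toFinset, Set.mem_preimage,
      Set.mem_singleton_iff]
    intro y h1 h2
    exact hab (h1.symm.trans h2)
  rw [hprod, gen_mul_prod]
  refine coeff_gen_of_zero h' _ m (fun y hy => ?_) j hj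
  rw [if_pos]
  simp only [Finset.mem_biUnion, Set.Finite.mem_toFinset, Set.mem_preimage,
    Set.mem_singleton_iff, exists_eq_right']
  exact hF (by simpa using (hπ y).trans hy)

end Euler

end Pool.Agent.WanRH
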