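import Pool.Agent.WanRH.Hol
import Pool.Agent.WanRH.Gen

/-!
# Counting effective divisors in ray classes; vanishing of high coefficients of L-series
-/

set_option linter.unusedSectionVars false
set_option linter.unusedVariables false

namespace Pool.Agent.WanRH

open Place

universe u v

section Count

variable {k : Type u} {F : Type v} [Field k] [Finite k] [Field F] [Algebra k F]
  [IsFunctionField k F]

variable (k F) in
lemma goodDeg : GoodDeg (Place.degree : Place k F → ℕ) :=
  ⟨fun x => x.degree_pos, fun m => finite_degree_le m⟩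

/-- Effective divisors as divisors. -/
noncomputable def toDiv (D : Place k F →₀ ℕ) : Div k F := D.mapRange (fun n : ℕ => (n : ℤ)) rfl

@[simp] lemma toDiv_apply (D : Place k F →₀ ℕ) (x : Place k F) : toDiv D x = D x := by
  unfold toDiv
  rw [Finsupp.mapRange_apply]

lemma toDiv_injective : Function.Injective (toDiv : (Place k F →₀ ℕ) → Div k F) := by
  intro D D' h
  ext x
  have := DFunLike.congr_fun h x
  rw [toDiv_apply, toDiv_apply] at this
  exact_mod_cast this

lemma deg_toDiv (D : Place k F →₀ ℕ) : Div.deg (toDiv D) = effDeg Place.degree D := by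
  unfold Div.deg toDiv effDeg
  rw [Finsupp.sum_mapRange_index (by intro a; simp)]
  unfold Finsupp.sum
  push_cast
  rfl

/-- A divisor which is nonnegative everywhere comes from an effective divisor. -/
lemma exists_toDiv_eq (E : Div k F) (hE : ∀ x, 0 ≤ E x) : ∃ D : Place k F →₀ ℕ, toDiv D = E := by
  refine ⟨E.mapRange Int.toNat rfl, ?_⟩
  ext x
  rw [toDiv_apply, Finsupp.mapRange_apply, Int.toNat_of_nonneg (hE x)]

variable (T : Finset (Place k F))

/-- The divisor `∑_{x ∈ T} x`. -/
noncomputable def tdiv : Div k F := ∑ x ∈ T, Finsupp.single x 1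

lemma tdiv_apply [DecidableEq (Place k F)] (x : Place k F) :
    tdiv T x = if x ∈ T then 1 else 0 := by
  unfold tdiv
  rw [Finsupp.finsetSum_apply]
  simp only [Finsupp.single_apply]
  rw [Finset.sum_ite_eq' T x (fun _ => (1 : ℤ))]

lemma Div.deg_smul (n : ℤ) (D : Div k F) : Div.deg (n • D) = n * Div.deg D := by
  unfold Div.deg
  rw [Finsupp.sum_smul_index' (by intro a; simp)]
  unfold Finsupp.sum
  rw [Finset.mul_sum]
  refine Finset.sum_congr rfl fun x _ => ?_
  show n • D x * (x.degree : ℤ) = n * (D x * (x.degree : ℤ))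
  rw [smul_eq_mul, mul_assoc]

variable {T}

/-- The relation of equivalence with respect to the modulus. -/
def RayEq (T : Finset (Place k F)) (m' : ℕ) (E E' : Div k F) : Prop :=
  ∃ a : F, a ≠ 0 ∧ (∀ x ∈ T, a - 1 ∈ x.fil m') ∧ E' = E + pdiv a

lemma ord_eq_zero_of_ray {m' : ℕ} (hm' : 0 < m') {a : F} {x : Place k F}
    (ha : a - 1 ∈ x.fil m') : x.ord a = 0 := by
  refine (Place.ord_eq_of_sub_mem one_ne_zero x.ord_one ?_).2
  refine x.fil_anti ?_ ha
  omega

lemma ray_inv {m' : ℕ} (hm' : 0 < m') {a : F} (ha0 : a ≠ 0) {x : Place k F}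
    (ha : a - 1 ∈ x.fil m') : a⁻¹ - 1 ∈ x.fil m' := by
  have h1 : a⁻¹ - 1 = a⁻¹ * (-(a - 1)) := by
    rw [neg_sub, mul_sub, mul_one, inv_mul_cancel₀ ha0]
  rw [h1]
  have h2 := mul_mem_fil x (x.mem_fil_ord a⁻¹) (Submodule.neg_mem _ ha)
  rwa [x.ord_inv, ord_eq_zero_of_ray hm' ha, neg_zero, zero_add] at h2

lemma RayEq.symm' {m' : ℕ} (hm' : 0 < m') {E E' : Div k F} (h : RayEq T m' E E') :
    RayEq T m' E' E := by
  obtain ⟨a, ha0, ha, rfl⟩ := h
  refine ⟨a⁻¹, inv_ne_zero ha0, fun x hx => ray_inv hm' ha0 (ha x hx), ?_⟩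
  ext x
  simp only [Finsupp.coe_add, Pi.add_apply, pdiv_apply, x.ord_inv]
  ring

lemma RayEq.add_right {m' : ℕ} {E E' : Div k F} (h : RayEq T m' E E') (D : Div k F) :
    RayEq T m' (E + D) (E' + D) := by
  obtain ⟨a, ha0, ha, rfl⟩ := h
  exact ⟨a, ha0, ha, by abel⟩

/-- Uniform count of effective divisors in a ray class. -/
theorem exists_count (hT : T.Nonempty) (m' : ℕ) (hm' : 0 < m') :
    ∃ d₁ : ℤ, ∀ d : ℤ, d₁ ≤ d → ∃ C : ℕ, 0 < C ∧ ∀ E : Div k F, (∀ x ∈ T, E x = 0) →
      Div.deg E = d → {D : Place k F →₀ ℕ | RayEq T m' E (toDiv D)}.ncard = C := by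
  classical
  obtain ⟨g, d₀, h1, h2⟩ := riemann k F
  refine ⟨d₀ + m' * Div.deg (tdiv T), fun d hd => ?_⟩
  refine ⟨Nat.card k ^ (d - m' * Div.deg (tdiv T) + 1 - g).toNat, by
    have : 0 < Nat.card k := Nat.card_pos
    positivity, ?_⟩
  intro E hET hEd
  set M : Div k F := E - (m' : ℤ) • tdiv T with hM
  have hMx : ∀ x, M x = E x - m' * (if x ∈ T then 1 else 0) := by
    intro x
    rw [hM, Finsupp.coe_sub, Pi.sub_apply, Finsupp.coe_smul, Pi.smul_apply, tdiv_apply, smul_eq_mul]
  have hMdeg : Div.deg M = d - m' * Div.deg (tdiv T) := by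
    rw [hM, Div.deg_sub, Div.deg_smul, hEd]
  have hMle : M ≤ E := by
    intro x
    rw [hMx]; split_ifs <;> omega
  -- a base point
  obtain ⟨a₀, ha₀L, ha₀⟩ := h2 E M hMle (by rw [hMdeg]; linarith)
    (fun x => if x ∈ T then 1 else 0) (by
      intro x
      split_ifs with hx
      · rw [hET x hx, neg_zero]; exact x.one_mem_fil
      · exact Submodule.zero_mem _)
  have ha₀T : ∀ x ∈ T, a₀ - 1 ∈ x.fil m' := by
    intro x hx
    have := ha₀ x
    rw [if_pos hx, hMx, hET x hx, if_pos hx] at this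
    refine x.fil_anti ?_ this
    omega
  -- bijection with LL M
  have hcard : Nat.card (LL M) = Nat.card k ^ (d - m' * Div.deg (tdiv T) + 1 - g).toNat := by
    rw [Module.natCard_eq_pow_finrank (K := k)]
    congr 1
    have := h1 M (by rw [hMdeg]; linarith)
    rw [hMdeg] at this
    omega
  rw [← hcard]
  have hne : ∀ b ∈ LL M, a₀ + b ≠ 0 ∧ ∀ x ∈ T, (a₀ + b) - 1 ∈ x.fil m' := by
    intro b hb
    have h3 : ∀ x ∈ T, (a₀ + b) - 1 ∈ x.fil m' := by
      intro x hx
      have h4 := mem_LL.mp hb x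
      rw [hMx, hET x hx, if_pos hx] at h4
      have h5 : (a₀ + b) - 1 = (a₀ - 1) + b := by ring
      rw [h5]
      refine Submodule.add_mem _ (ha₀T x hx) (x.fil_anti ?_ h4)
      omega
    refine ⟨?_, h3⟩
    intro h0
    obtain ⟨x, hx⟩ := hT
    have h6 := h3 x hx
    rw [h0, zero_sub] at h6
    have h7 := Place.le_ord_of_mem_fil (by simp) h6
    rw [x.ord_neg, x.ord_one] at h7
    omega
  have hEff : ∀ b ∈ LL M, ∃ D : Place k F →₀ ℕ, toDiv D = E + pdiv (a₀ + b) := by
    intro b hb
    apply exists_toDiv_eq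
    intro x
    have hb' : a₀ + b ∈ LL E := by
      refine Submodule.add_mem _ ha₀L (mem_LL.mpr fun y => y.fil_anti ?_ (mem_LL.mp hb y))
      have := hMle y
      omega
    have h3 := Place.le_ord_of_mem_fil (hne b hb).1 (mem_LL.mp hb' x)
    simp only [Finsupp.coe_add, Pi.add_apply, pdiv_apply]
    omega
  choose! Φ hΦ using hEff
  have hset : {D : Place k F →₀ ℕ | RayEq T m' E (toDiv D)} = Φ '' (LL M : Set F) := by
    ext D
    simp only [Set.mem_ofPred_eq, Set.mem_image, SetLike.mem_coe]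
    constructor
    · rintro ⟨a, ha0, haT, hD⟩
      have hb : a - a₀ ∈ LL M := by
        rw [mem_LL]
        intro x
        by_cases hx : x ∈ T
        · have h4 : a - a₀ = (a - 1) - (a₀ - 1) := by ring
          rw [h4, hMx, if_pos hx, hET x hx]
          refine Submodule.sub_mem _ (x.fil_anti ?_ (haT x hx)) (x.fil_anti ?_ (ha₀T x hx)) <;> omega
        · rw [hMx, if_neg hx, mul_zero, sub_zero]
          refine Submodule.sub_mem _ ?_ (mem_LL.mp ha₀L x)
          have h5 := DFunLike.congr_fun hD x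
          rw [toDiv_apply, Finsupp.coe_add, Pi.add_apply, pdiv_apply] at h5
          refine Or.inr ?_
          have : (0 : ℤ) ≤ D x := by positivity
          omega
      refine ⟨a - a₀, hb, ?_⟩
      apply toDiv_injective
      rw [hΦ _ hb, hD]
      congr 2
      ring
    · rintro ⟨b, hb, rfl⟩
      exact ⟨a₀ + b, (hne b hb).1, (hne b hb).2, hΦ b hb⟩
  have hinj : Set.InjOn Φ (LL M : Set F) := by
    intro b hb b' hb' hbb
    -- injectivity
    have h3 : pdiv (k := k) (a₀ + b) = pdiv (a₀ + b') := by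
      have e1 := hΦ b hb
      have e2 := hΦ b' hb'
      rw [hbb, e2] at e1
      exact (add_left_cancel e1).symm
    set c := (a₀ + b) * (a₀ + b')⁻¹ with hc
    have hc0 : c ≠ 0 := mul_ne_zero (hne b hb).1 (inv_ne_zero (hne b' hb').1)
    have hcord : ∀ x : Place k F, x.ord c = 0 := by
      intro x
      rw [hc, x.ord_mul (hne b hb).1 (inv_ne_zero (hne b' hb').1), x.ord_inv]
      have := DFunLike.congr_fun h3 x
      simp only [pdiv_apply] at this
      rw [this]; ring
    obtain ⟨e, he⟩ := mem_range_of_forall_mem_ring (k := k) c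
      (fun x => x.mem_ring_iff.mpr (Or.inr (hcord x).ge))
    obtain ⟨x, hx⟩ := hT
    -- c ≡ 1 at x
    have h4 : c - 1 ∈ x.fil m' := by
      have h5 : c - 1 = (a₀ + b')⁻¹ * (((a₀ + b) - 1) - ((a₀ + b') - 1)) := by
        rw [hc]
        have := (hne b' hb').1
        field_simp
        ring
      rw [h5]
      have h6 := mul_mem_fil x (x.mem_fil_ord (a₀ + b')⁻¹)
        (Submodule.sub_mem _ ((hne b hb).2 x hx) ((hne b' hb').2 x hx))
      rwa [x.ord_inv, ord_eq_zero_of_ray hm' ((hne b' hb').2 x hx), neg_zero, zero_add] at h6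
    have h7 : c - 1 = algebraMap k F (e - 1) := by
      rw [map_sub, map_one, he]
    have h8 : c - 1 = 0 := by
      by_contra hne0
      have h9 := Place.le_ord_of_mem_fil hne0 h4
      rw [h7, x.ord_const] at h9
      omega
    have h9 : c = 1 := sub_eq_zero.mp h8
    have h10 : a₀ + b = a₀ + b' := by
      rw [hc] at h9
      exact eq_of_mul_inv_eq_one h9
    exact add_left_cancel h10
  rw [hset, hinj.ncard_image]
  rfl

end Count

end Pool.Agent.WanRH
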