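import Pool.Agent.WanRH.Lin
import Pool.Agent.WanRH.Count

/-!
# Bounds for the number of effective divisors; rationality of the zeta function
-/

set_option linter.unusedSectionVars false
set_option linter.unusedVariables false

namespace Pool.Agent.WanRH

universe u v w

open Place

section Lin

variable {k : Type u} {F : Type v} [Field k] [Finite k] [Field F] [Algebra k F]
  [IsFunctionField k F]

/-- The effective divisors linearly equivalent to `D`, as functions to `ℕ`. -/
def linSys (D : Div k F) : Set (Place k F →₀ ℕ) := {E | ∃ f : F, f ≠ 0 ∧ toDiv E = D + pdiv f}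

lemma image_linSys (D : Div k F) : toDiv '' linSys D = effLin D := by
  ext E
  constructor
  · rintro ⟨E', ⟨f, hf0, hf⟩, rfl⟩
    exact ⟨fun x => by rw [toDiv_apply]; simp, f, hf0, hf⟩
  · rintro ⟨hE, f, hf0, hf⟩
    obtain ⟨E', rfl⟩ := exists_toDiv_eq E hE
    exact ⟨E', ⟨f, hf0, hf⟩, rfl⟩

lemma ncard_linSys (D : Div k F) :
    (Nat.card k - 1) * (linSys D).ncard = Nat.card k ^ Module.finrank k (LL D) - 1 := by
  rw [← card_effLin D, ← Set.ncard_image_of_injective _ toDiv_injective, image_linSys]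
  rfl

lemma effDeg_of_mem_linSys {D : Div k F} {E : Place k F →₀ ℕ} (h : E ∈ linSys D) :
    (effDeg Place.degree E : ℤ) = D.deg := by
  obtain ⟨f, -, hf⟩ := h
  rw [← deg_toDiv, hf, Div.deg_add, deg_pdiv, add_zero]

lemma linSys_finite (D : Div k F) : (linSys D).Finite := by
  by_cases h : (linSys D).Nonempty
  · obtain ⟨E₀, hE₀⟩ := h
    refine (finite_eff (goodDeg k F) (effDeg Place.degree E₀)).subset ?_
    intro E hE
    have h1 := effDeg_of_mem_linSys hE
    have h2 := effDeg_of_mem_linSys hE₀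
    rw [← h2] at h1
    exact_mod_cast h1
  · rw [Set.not_nonempty_iff_eq_empty.mp h]; exact Set.finite_empty

lemma ncard_linSys_le {D : Div k F} (hD : 0 ≤ D) {m : ℕ} (hm : D.deg ≤ m) :
    (linSys D).ncard ≤ Nat.card k ^ (m + 1) := by
  have h1 := ncard_linSys D
  have h2 := finrank_LL_le_of_nonneg hD
  have h3 : Module.finrank k (LL D) ≤ m + 1 := by omega
  have h4 : Nat.card k ^ Module.finrank k (LL D) ≤ Nat.card k ^ (m + 1) :=
    Nat.pow_le_pow_right Nat.card_pos h3
  have h5 : 0 < Nat.card k - 1 := by have := Finite.one_lt_card (α := k); omega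
  calc (linSys D).ncard ≤ (Nat.card k - 1) * (linSys D).ncard := Nat.le_mul_of_pos_left _ h5
    _ = Nat.card k ^ Module.finrank k (LL D) - 1 := h1
    _ ≤ Nat.card k ^ (m + 1) := by omega

lemma toDiv_add (D D' : Place k F →₀ ℕ) : toDiv (D + D') = toDiv D + toDiv D' := by
  ext x
  rw [toDiv_apply, Finsupp.add_apply, Finsupp.add_apply, toDiv_apply, toDiv_apply]
  push_cast
  rfl

lemma toDiv_nonneg (D : Place k F →₀ ℕ) : 0 ≤ toDiv D := fun x => by rw [toDiv_apply]; simp

variable (k F) in
theorem eff_card_le : ∃ C : ℕ, ∀ m, (eff (goodDeg k F) m).card ≤ C * Nat.card k ^ (m + 1) := by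
  classical
  obtain ⟨g, d₀, hR⟩ := riemann_dim k F
  obtain ⟨x₀, -⟩ := exists_place_notMem (k := k) (F := F) ∅
  set e := x₀.degree with he
  have hepos : 0 < e := x₀.degree_pos
  set d₁ : ℕ := max d₀.toNat g.toNat with hd₁
  set 𝓔 := (Finset.range (d₁ + e)).biUnion (fun i => eff (goodDeg k F) i) with h𝓔
  refine ⟨𝓔.card, fun m => ?_⟩
  by_cases hm : m < d₁ + e
  · have h1 : eff (goodDeg k F) m ⊆ 𝓔 := fun D hD =>
      Finset.mem_biUnion.mpr ⟨m, Finset.mem_range.mpr hm, hD⟩
    exact (Finset.card_le_card h1).trans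
      (Nat.le_mul_of_pos_right _ (pow_pos Nat.card_pos _))
  · push Not at hm
    set n := (m - d₁) / e with hn
    have hn1 : n * e + (m - d₁) % e = m - d₁ := by
      rw [hn, mul_comm]; exact Nat.div_add_mod _ _
    have hn2 : (m - d₁) % e < e := Nat.mod_lt _ hepos
    have hn3 : n * e + d₁ ≤ m := by omega
    set Z : Place k F →₀ ℕ := Finsupp.single x₀ n with hZ
    have hZdeg : Div.deg (toDiv Z) = n * e := by
      rw [deg_toDiv, hZ, effDeg_single]
      push_cast
      rfl
    have hsub : eff (goodDeg k F) m ⊆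
        (𝓔.filter (fun E' => effDeg Place.degree E' + n * e = m)).biUnion
          (fun E' => (linSys_finite (toDiv (E' + Z))).toFinset) := by
      intro E hE
      rw [mem_eff] at hE
      set A : Div k F := toDiv E - toDiv Z with hA
      have hAdeg : A.deg = m - n * e := by
        rw [hA, Div.deg_sub, hZdeg, deg_toDiv, hE]
      have hlow : (d₁ : ℤ) ≤ A.deg := by
        rw [hAdeg]
        have : ((n * e + d₁ : ℕ) : ℤ) ≤ m := by exact_mod_cast hn3
        push_cast at this
        linarith
      have hd₀ : d₀ ≤ d₁ := by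
        have := Int.self_le_toNat d₀
        have h2 : d₀.toNat ≤ d₁ := le_max_left _ _
        omega
      have hg : g ≤ d₁ := by
        have := Int.self_le_toNat g
        have h2 : g.toNat ≤ d₁ := le_max_right _ _
        omega
      have hfr := hR A (hd₀.trans hlow)
      have hpos : 0 < Module.finrank k (LL A) := by
        have : (0 : ℤ) < Module.finrank k (LL A) := by rw [hfr]; omega
        exact_mod_cast this
      obtain ⟨f, hf0, hf⟩ := exists_ne_zero_mem_LL hpos
      have h0 : 0 ≤ A + pdiv f := (mem_LL_iff hf0).mp hf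
      obtain ⟨E', hE'⟩ := exists_toDiv_eq _ h0
      have hdegE' : (effDeg Place.degree E' : ℤ) = m - n * e := by
        rw [← deg_toDiv, hE', Div.deg_add, deg_pdiv, add_zero, hAdeg]
      have hdeg2 : effDeg Place.degree E' + n * e = m := by
        have : ((effDeg Place.degree E' + n * e : ℕ) : ℤ) = m := by
          push_cast
          linarith
        exact_mod_cast this
      refine Finset.mem_biUnion.mpr ⟨E', Finset.mem_filter.mpr ⟨?_, hdeg2⟩, ?_⟩
      · refine Finset.mem_biUnion.mpr ⟨effDeg Place.degree E', Finset.mem_range.mpr ?_, ?_⟩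
        · omega
        · rw [mem_eff]
      · rw [Set.Finite.mem_toFinset]
        refine ⟨f⁻¹, inv_ne_zero hf0, ?_⟩
        rw [toDiv_add, hE', pdiv_inv, hA]
        abel
    calc (eff (goodDeg k F) m).card ≤ _ := Finset.card_le_card hsub
      _ ≤ ∑ E' ∈ 𝓔.filter (fun E' => effDeg Place.degree E' + n * e = m),
          (linSys_finite (toDiv (E' + Z))).toFinset.card := Finset.card_biUnion_le
      _ ≤ ∑ E' ∈ 𝓔.filter (fun E' => effDeg Place.degree E' + n * e = m),
          Nat.card k ^ (m + 1) := by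
        refine Finset.sum_le_sum fun E' hE' => ?_
        rw [← Set.ncard_eq_toFinset_card _ (linSys_finite (toDiv (E' + Z)))]
        refine ncard_linSys_le (toDiv_nonneg _) ?_
        rw [deg_toDiv, effDeg_add, hZ, effDeg_single]
        have := (Finset.mem_filter.mp hE').2
        exact_mod_cast this.le
      _ = (𝓔.filter (fun E' => effDeg Place.degree E' + n * e = m)).card *
          Nat.card k ^ (m + 1) := by rw [Finset.sum_const, smul_eq_mul]
      _ ≤ 𝓔.card * Nat.card k ^ (m + 1) :=
        Nat.mul_le_mul_right _ (Finset.card_filter_le _ _)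

variable (k F) in
theorem eff_card_ge : ∃ c m₀ : ℕ, 0 < c ∧ ∀ D : Div k F, ∀ m : ℕ, m₀ ≤ m → D.deg = m →
    Nat.card k ^ m ≤ c * (eff (goodDeg k F) m).card := by
  classical
  obtain ⟨g, d₀, hR⟩ := riemann_dim k F
  have hq : 0 < Nat.card k := Nat.card_pos
  have hq1 : 1 < Nat.card k := Finite.one_lt_card
  refine ⟨Nat.card k ^ g.toNat, max d₀.toNat g.toNat, pow_pos hq _, ?_⟩
  intro D m hm hD
  have hd₀ : d₀ ≤ m := by
    have := Int.self_le_toNat d₀
    have h2 := (le_max_left d₀.toNat g.toNat).trans hm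
    omega
  have hg : g ≤ m := by
    have := Int.self_le_toNat g
    have h2 := (le_max_right d₀.toNat g.toNat).trans hm
    omega
  have hfr := hR D (by rw [hD]; exact hd₀)
  rw [hD] at hfr
  obtain ⟨l, hl⟩ : ∃ l : ℕ, Module.finrank k (LL D) = l + 1 :=
    ⟨Module.finrank k (LL D) - 1, by omega⟩
  have h1 := ncard_linSys D
  rw [hl] at h1
  have hle : (linSys D).ncard ≤ (eff (goodDeg k F) m).card := by
    rw [← Set.ncard_coe_finset]
    refine Set.ncard_le_ncard ?_ (Finset.finite_toSet _)
    intro E hE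
    rw [Finset.mem_coe, mem_eff]
    have := effDeg_of_mem_linSys hE
    rw [hD] at this
    exact_mod_cast this
  have h2 : Nat.card k ^ l ≤ (linSys D).ncard := by
    have h3 : (Nat.card k - 1) * Nat.card k ^ l ≤ (Nat.card k - 1) * (linSys D).ncard := by
      rw [h1, Nat.sub_mul, one_mul, pow_succ]
      have h4 : 0 < Nat.card k ^ l := pow_pos hq _
      rw [mul_comm (Nat.card k) (Nat.card k ^ l)]
      omega
    exact Nat.le_of_mul_le_mul_left h3 (by omega)
  calc Nat.card k ^ m ≤ Nat.card k ^ (g.toNat + l) := by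
        apply Nat.pow_le_pow_right hq
        have := Int.self_le_toNat g
        omega
    _ = Nat.card k ^ g.toNat * Nat.card k ^ l := pow_add _ _ _
    _ ≤ Nat.card k ^ g.toNat * (eff (goodDeg k F) m).card :=
      Nat.mul_le_mul_left _ (h2.trans hle)

variable (k F) in
lemma exists_min_deg : ∃ δ : ℕ, 0 < δ ∧ (∀ x : Place k F, δ ∣ x.degree) ∧
    ∃ D : Div k F, D.deg = δ := by
  classical
  obtain ⟨x₀, -⟩ := exists_place_notMem (k := k) (F := F) ∅
  have hex : ∃ δ : ℕ, 0 < δ ∧ ∃ D : Div k F, D.deg = δ :=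
    ⟨x₀.degree, x₀.degree_pos, Finsupp.single x₀ 1, by rw [Div.deg_single, one_mul]⟩
  obtain ⟨hpos, D, hD⟩ := Nat.find_spec hex
  set δ := Nat.find hex with hδ
  refine ⟨δ, hpos, fun x => ?_, D, hD⟩
  by_contra hnd
  have hr : 0 < x.degree % δ := Nat.pos_of_ne_zero fun h => hnd (Nat.dvd_of_mod_eq_zero h)
  have hlt : x.degree % δ < δ := Nat.mod_lt _ hpos
  refine Nat.find_min hex hlt ⟨hr, Finsupp.single x 1 - (x.degree / δ) • D, ?_⟩
  rw [Div.deg_sub, Div.deg_single, one_mul, Div.deg_nsmul, hD]
  have := Nat.div_add_mod x.degree δ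
  have h2 : ((δ * (x.degree / δ) + x.degree % δ : ℕ) : ℤ) = x.degree := by exact_mod_cast this
  push_cast at h2 ⊢
  linarith

end Lin

end Pool.Agent.WanRH
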