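import Pool.Agent.WanRH.Level

/-!
# Level data and compatibility between levels
-/

set_option linter.unusedSectionVars false
set_option linter.unusedVariables false

namespace Pool.Agent.WanRH

open Place

universe u v w w'

section Data

variable {k : Type u} {K : Type v} {L : Type w} [Field k] [Finite k]
  [Field K] [Algebra k K] [IsFunctionField k K]
  [Field L] [Algebra k L] [IsFunctionField k L]
  [Algebra K L] [IsScalarTower k K L] [FiniteDimensional K L] [IsGalois K L]

/-- Choice of a generator of the Galois group and of Frobenius exponents. -/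
structure LevelData (L : Type w) [Field L] [Algebra k L] [IsFunctionField k L]
    [Algebra K L] [IsScalarTower k K L] [FiniteDimensional K L] (S : Finset (Place k K)) (N : ℕ) where
  /-- generator -/
  σ : L ≃ₐ[K] L
  gen : ∀ τ : L ≃ₐ[K] L, τ ∈ Subgroup.zpowers σ
  ord : orderOf σ = N
  /-- Frobenius exponents -/
  j : Place k K → ℕ
  j_mem : ∀ x ∈ S, j x = 0
  frob : ∀ y : Place k L, y.down K ∉ S → IsFrob (σ ^ j (y.down K)) y

lemma exists_levelData [IsCyclic (L ≃ₐ[K] L)] (S : Finset (Place k K))
    (hun : ∀ y : Place k L, y.down K ∉ S → Unram K y) :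
    Nonempty (LevelData L S (Module.finrank K L)) := by
  classical
  obtain ⟨σ, hσ⟩ := IsCyclic.exists_generator (α := L ≃ₐ[K] L)
  have hex : ∀ x : Place k K, ∃ e : ℕ, (x ∈ S → e = 0) ∧
      (x ∉ S → ∀ y : Place k L, y.down K = x → IsFrob (σ ^ e) y) := by
    intro x
    by_cases hx : x ∈ S
    · exact ⟨0, fun _ => rfl, fun h => absurd hx h⟩
    · obtain ⟨y, hy⟩ := down_surjective k K L x
      subst hy
      obtain ⟨φ, hφ⟩ := exists_isFrob (K := K) y
      have h1 := hσ φ
      rw [mem_zpowers_iff_mem_range_orderOf, Finset.mem_image] at h1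
      obtain ⟨e, -, he⟩ := h1
      refine ⟨e, fun h => absurd h hx, fun _ y' hy' => ?_⟩
      obtain ⟨τ, hτ⟩ := exists_act_eq (K := K) hy'.symm
      have h2 := hφ.conj τ
      have hcomm : τ * φ * τ⁻¹ = φ := by
        obtain ⟨c, hc⟩ := Subgroup.mem_zpowers_iff.mp (hσ τ)
        rw [← hc, ← he, ← zpow_natCast, ← zpow_neg, ← zpow_add, ← zpow_add]
        congr 1
        ring
      rw [hcomm, hτ] at h2
      rw [he]
      exact h2
  choose j hj1 hj2 using hex
  exact ⟨⟨σ, hσ, by rw [orderOf_eq_card_of_forall_mem_zpowers hσ, IsGalois.card_aut_eq_finrank],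
    j, hj1, fun y hy => hj2 _ hy y rfl⟩⟩

end Data

section Compat

variable {k : Type u} {K : Type v} {M : Type w'} {L : Type w} [Field k] [Finite k]
  [Field K] [Algebra k K] [IsFunctionField k K]
  [Field M] [Algebra k M] [IsFunctionField k M]
  [Field L] [Algebra k L] [IsFunctionField k L]
  [Algebra K L] [IsScalarTower k K L] [FiniteDimensional K L]
  [Algebra K M] [IsScalarTower k K M] [FiniteDimensional K M]
  [Algebra M L] [IsScalarTower k M L] [FiniteDimensional M L]
  [IsScalarTower K M L] [IsGalois K L] [IsGalois K M]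

/-- Ramification persists. -/
lemma not_unram_of_down {z : Place k M} (hz : ¬ Unram K z) {y : Place k L}
    (hy : y.down K = z.down K) : ¬ Unram K y := by
  intro hun
  apply hz
  have h1 : (y.down M).down K = z.down K := by rw [down_down]; exact hy
  obtain ⟨τ, hτ⟩ := exists_act_eq (K := K) h1
  rw [← hτ]
  apply Unram.act
  intro σ hσ
  obtain ⟨ρ, hρ, hρσ⟩ := exists_inert_lift y σ hσ
  rw [← hρσ, hun ρ hρ]
  exact map_one (AlgEquiv.restrictNormalHom (F := K) (K₁ := L) M)

lemma unram_down {S : Finset (Place k K)} (hun : ∀ y : Place k L, y.down K ∉ S → Unram K y)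
    (z : Place k M) (hz : z.down K ∉ S) : Unram K z := by
  by_contra h
  obtain ⟨y, hy⟩ := down_surjective k M L z
  subst hy
  rw [down_down] at hz
  exact not_unram_of_down h (down_down y).symm (hun y hz)

/-- Compatibility of the Frobenius exponents at two levels. -/
lemma phi_compat {S : Finset (Place k K)} (hun : ∀ y : Place k L, y.down K ∉ S → Unram K y)
    {N N' : ℕ} (A : LevelData L S N) (B : LevelData M S N') (D : Div k K)
    (hD : ∀ x ∈ S, D x = 0) : (N' : ℤ) ∣ phi A.j D ↔ (N' : ℤ) ∣ phi B.j D := by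
  classical
  set r := AlgEquiv.restrictNormalHom (F := K) (K₁ := L) M with hr
  have hrsurj : Function.Surjective r := AlgEquiv.restrictNormalHom_surjective L
  obtain ⟨c, hc⟩ := Subgroup.mem_zpowers_iff.mp (B.gen (r A.σ))
  -- r A.σ is a generator, so has order N'
  have hgen : ∀ τ : M ≃ₐ[K] M, τ ∈ Subgroup.zpowers (r A.σ) := by
    intro τ
    obtain ⟨ρ, rfl⟩ := hrsurj τ
    obtain ⟨e, he⟩ := Subgroup.mem_zpowers_iff.mp (A.gen ρ)
    exact Subgroup.mem_zpowers_iff.mpr ⟨e, by rw [← map_zpow, he]⟩
  have hord : orderOf (r A.σ) = N' := by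
    rw [orderOf_eq_card_of_forall_mem_zpowers hgen, ← orderOf_eq_card_of_forall_mem_zpowers B.gen,
      B.ord]
  have hBiff : ∀ e : ℤ, (N' : ℤ) ∣ e ↔ B.σ ^ e = 1 := by
    intro e
    have := orderOf_dvd_iff_zpow_eq_one (x := B.σ) (i := e)
    rwa [B.ord] at this
  -- local compatibility
  have hloc : ∀ x ∉ S, (N' : ℤ) ∣ c * A.j x - B.j x := by
    intro x hx
    obtain ⟨y, hy⟩ := down_surjective k K L x
    subst hy
    have h1 := (A.frob y hx).restrict (M := M)
    have h2 : (y.down M).down K ∉ S := by rw [down_down]; exact hx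
    have h3 := B.frob (y.down M) h2
    rw [down_down] at h3
    have h4 := frob_unique (unram_down hun _ h2) h1 h3
    have h5 : AlgEquiv.restrictNormal (A.σ ^ A.j (y.down K)) M = (r A.σ) ^ A.j (y.down K) := by
      rw [← map_pow]; rfl
    rw [h5, ← hc, ← zpow_natCast, ← zpow_natCast, ← zpow_mul] at h4
    have h6 : B.σ ^ (c * (A.j (y.down K) : ℤ) - (B.j (y.down K) : ℤ)) = 1 := by
      rw [zpow_sub, h4, mul_inv_cancel]
    exact (hBiff _).mpr h6
  have hglob : (N' : ℤ) ∣ c * phi A.j D - phi B.j D := by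
    unfold phi Finsupp.sum
    rw [Finset.mul_sum, ← Finset.sum_sub_distrib]
    refine Finset.dvd_sum fun x hx => ?_
    have hxS : x ∉ S := fun h => (Finsupp.mem_support_iff.mp hx) (hD x h)
    have : c * (D x * (A.j x : ℤ)) - D x * (B.j x : ℤ) = D x * (c * A.j x - B.j x) := by ring
    rw [this]
    exact (hloc x hxS).mul_left _
  have h1 : (N' : ℤ) ∣ phi A.j D ↔ (r A.σ) ^ phi A.j D = 1 := by
    rw [← hord]; exact orderOf_dvd_iff_zpow_eq_one
  have h2 := hBiff (phi B.j D)
  have h3 : (r A.σ) ^ phi A.j D = B.σ ^ phi B.j D := by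
    rw [← hc, ← zpow_mul]
    have h4 : B.σ ^ (c * phi A.j D - phi B.j D) = 1 := (hBiff _).mp hglob
    rw [zpow_sub] at h4
    exact mul_inv_eq_one.mp h4
  rw [h1, h2, h3]

/-- In a cyclic extension of degree `p^(n+1)`, `L/M` the top layer of degree `p`, a place `y`
which is ramified over `K` is totally inert over `M`. -/
lemma totally_inert_of_ramified [IsCyclic (L ≃ₐ[K] L)] {p n : ℕ} (hp : p.Prime)
    (hL : Module.finrank K L = p ^ (n + 1)) (hM : Module.finrank K M = p ^ n)
    {y : Place k L} (hy : ¬ Unram K y) (τ : L ≃ₐ[M] L) : Inert τ y := by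
  classical
  have hgalML : IsGalois M L := IsGalois.tower_top_of_isGalois K M L
  apply inert_of_restrictScalars (K := K)
  rw [← mem_inertiaSub]
  have hcard : Nat.card (L ≃ₐ[K] L) = p ^ (n + 1) := by
    rw [IsGalois.card_aut_eq_finrank, hL]
  refine mem_of_pow_eq_one hp hcard _ ?_ _ ?_
  · intro h
    exact hy (unram_iff_inertiaSub.mpr h)
  · have hML : Module.finrank M L = p := by
      have h1 := Module.finrank_mul_finrank K M L
      rw [hL, hM, pow_succ] at h1
      exact Nat.eq_of_mul_eq_mul_left (pow_pos hp.pos n) h1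
    have h2 : τ ^ p = 1 := by
      rw [← hML, ← IsGalois.card_aut_eq_finrank M L]
      exact pow_card_eq_one'
    ext a
    have h3 : ((τ.restrictScalars K) ^ p) a = (τ ^ p) a := by
      have : ∀ m : ℕ, ((τ.restrictScalars K) ^ m) a = (τ ^ m) a := by
        intro m
        induction m with
        | zero => rfl
        | succ m ih => rw [pow_succ', pow_succ', AlgEquiv.mul_apply, AlgEquiv.mul_apply, ih]; rfl
      exact this p
    rw [h3, h2]; rfl

end Compat

lemma eventually_of_antitone (E : ℕ → Prop) (h : ∀ n, E (n + 1) → E n) :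
    ∃ N, ∀ n, N ≤ n → E n → E (n + 1) := by
  by_cases hall : ∀ n, E n
  · exact ⟨0, fun n _ _ => hall (n + 1)⟩
  · push Not at hall
    obtain ⟨N, hN⟩ := hall
    refine ⟨N, fun n hn hE => ?_⟩
    exfalso
    have : ∀ m, ¬ E (N + m) := by
      intro m
      induction m with
      | zero => exact hN
      | succ m ih => exact fun h' => ih (h _ h')
    obtain ⟨m, rfl⟩ := Nat.exists_eq_add_of_le hn
    exact this m hE

end Pool.Agent.WanRH
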