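import Pool.Agent.WanRH.FF
import Mathlib

/-!
# Constant field extensions of function fields
-/

set_option linter.unusedSectionVars false
set_option linter.unusedVariables false

namespace Pool.Agent.WanRH

universe u v w

open Polynomial

section Minpoly

variable {k : Type u} {K : Type v} {M : Type w} [Field k] [Field K] [Field M] [Algebra k K]
  [Algebra K M] [Algebra k M] [IsScalarTower k K M]

/-- If `k` is algebraically closed in `K`, minimal polynomials over `k` stay minimal over `K`. -/
lemma minpoly_eq_map (hconst : ∀ a : K, IsAlgebraic k a → a ∈ Set.range (algebraMap k K)) {c : M}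
    (hc : IsIntegral k c) : minpoly K c = (minpoly k c).map (algebraMap k K) := by
  have hcK : IsIntegral K c := hc.tower_top
  have hdvd : minpoly K c ∣ (minpoly k c).map (algebraMap k K) :=
    minpoly.dvd_map_of_isScalarTower k K c
  have hlift := integralClosure.mem_lifts_of_monic_of_dvd_map K (minpoly.monic hc)
    (minpoly.monic hcK) hdvd
  have hlift' : minpoly K c ∈ lifts (algebraMap k K) := by
    rw [lifts_iff_coeff_lifts] at hlift ⊢
    intro n
    obtain ⟨a, ha⟩ := hlift n
    rw [← ha]
    exact hconst _ (IsIntegral.isAlgebraic a.2)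
  obtain ⟨g₀, hg₀, hdeg, hmonic⟩ := lifts_and_degree_eq_and_monic hlift' (minpoly.monic hcK)
  have hroot : aeval c g₀ = 0 := by
    have := minpoly.aeval K c
    rwa [← hg₀, aeval_map_algebraMap] at this
  have hdvd2 : minpoly k c ∣ g₀ := minpoly.dvd k c hroot
  have h3 : (minpoly k c).map (algebraMap k K) ∣ minpoly K c := by
    rw [← hg₀]; exact Polynomial.map_dvd _ hdvd2
  exact Polynomial.eq_of_monic_of_associated (minpoly.monic hcK) ((minpoly.monic hc).map _)
    (associated_of_dvd_dvd hdvd h3)

end Minpoly

/-- `L = K k'` is the constant field extension of degree `r`. -/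
structure IsConstExt (k : Type u) (K : Type v) (k' : Type) (L : Type v) [Field k] [Field K]
    [Field k'] [Field L] [Algebra k K] [Algebra k k'] [Algebra K L] [Algebra k' L] [Algebra k L]
    [IsScalarTower k K L] [IsScalarTower k k' L] (r : ℕ) : Prop where
  finrank_K : Module.finrank K L = r
  finrank_k : Module.finrank k k' = r
  ext : ∀ τ : k' ≃ₐ[k] k', ∃ σ : L ≃ₐ[K] L, ∀ c, σ (algebraMap k' L c) = algebraMap k' L (τ c)
  const : ∀ a : L, IsAlgebraic k' a → a ∈ Set.range (algebraMap k' L)

section Construction

variable (k : Type u) (K : Type v) [Field k] [Finite k] [Field K] [Algebra k K]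
  [IsFunctionField k K]

theorem exists_constExt (r : ℕ) (hr : 0 < r) : ∃ (k' : Type) (L : Type v) (_ : Field k')
    (_ : Field L) (_ : Finite k') (_ : Algebra k k') (_ : Algebra K L) (_ : Algebra k' L)
    (_ : Algebra k L) (_ : IsScalarTower k K L) (_ : IsScalarTower k k' L),
    IsConstExt k K k' L r := by
  obtain ⟨p, hp⟩ := CharP.exists k
  have : Fact (Nat.Prime p) := ⟨CharP.char_is_prime k p⟩
  have : NeZero r := ⟨hr.ne'⟩
  let k' := FiniteField.Extension k p r
  have hk' : Module.finrank k k' = r := FiniteField.finrank_extension k p r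
  let Ω := AlgebraicClosure K
  let ψ : k' →ₐ[k] Ω := IsAlgClosed.lift
  let pb : PowerBasis k k' := Field.powerBasisOfFiniteOfSeparable k k'
  let b : k' := pb.gen
  let c : Ω := ψ b
  have hb : IsIntegral k b := Algebra.IsIntegral.isIntegral b
  have hc : IsIntegral k c := hb.map ψ
  have hcK : IsIntegral K c := hc.tower_top
  have hmin : minpoly k c = minpoly k b := minpoly.algHom_eq ψ ψ.injective b
  have hminK : minpoly K c = (minpoly k b).map (algebraMap k K) := by
    rw [minpoly_eq_map IsFunctionField.const hc, hmin]
  let L := IntermediateField.adjoin K {c}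
  have hcL : c ∈ L := IntermediateField.mem_adjoin_simple_self K c
  have hsc1 : IsScalarTower k K Ω := inferInstance
  have hsc2 : IsScalarTower k L Ω := IsScalarTower.of_algebraMap_eq fun a => by
    rw [IsScalarTower.algebraMap_apply k K Ω, IsScalarTower.algebraMap_apply k K L]
    rfl
  have hfr : Module.finrank K L = r := by
    rw [IntermediateField.adjoin.finrank hcK, hminK, natDegree_map]
    exact pb.natDegree_minpoly.trans (pb.finrank.symm.trans hk')
  -- the image of `k'` is contained in `L`
  have hψL : ∀ a : k', ψ a ∈ L := by
    intro a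
    obtain ⟨f, hf⟩ := pb.exists_eq_aeval' a
    have h1 : ψ a = aeval c f := by
      rw [hf, ← aeval_algHom_apply]
    rw [h1]
    have h2 : aeval c f = ((aeval (⟨c, hcL⟩ : L) f : L) : Ω) := by
      rw [← IntermediateField.algebraMap_apply, ← aeval_algebraMap_apply]
      rfl
    rw [h2]
    exact (aeval (⟨c, hcL⟩ : L) f).2
  let φ : k' →ₐ[k] L :=
    { toFun := fun a => ⟨ψ a, hψL a⟩
      map_one' := Subtype.ext (map_one ψ)
      map_mul' := fun a b => Subtype.ext (map_mul ψ a b)
      map_zero' := Subtype.ext (map_zero ψ)
      map_add' := fun a b => Subtype.ext (map_add ψ a b)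
      commutes' := fun a => Subtype.ext (ψ.commutes a) }
  let alg : Algebra k' L := φ.toRingHom.toAlgebra
  have hsc : IsScalarTower k k' L := IsScalarTower.of_algebraMap_eq fun a => (φ.commutes a).symm
  refine ⟨k', L, inferInstance, inferInstance, inferInstance, inferInstance, inferInstance, alg,
    inferInstance, inferInstance, hsc, ?_⟩
  have hfd : FiniteDimensional K L := FiniteDimensional.of_finrank_pos (by rw [hfr]; exact hr)
  refine ⟨hfr, hk', ?_, ?_⟩
  · intro τ
    let pbL : PowerBasis K L := IntermediateField.adjoin.powerBasis hcK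
    have hgen : pbL.gen = φ b := by
      apply Subtype.ext
      rfl
    have hroot : aeval (φ (τ b)) (minpoly K pbL.gen) = 0 := by
      have h1 : minpoly K pbL.gen = minpoly K c := by
        rw [hgen]
        exact (minpoly.algebraMap_eq (algebraMap L Ω).injective (φ b)).symm
      rw [h1, hminK, aeval_map_algebraMap, aeval_algHom_apply]
      have h2 : aeval (τ b) (minpoly k b) = 0 := by
        have : aeval (τ b) (minpoly k b) = τ (aeval b (minpoly k b)) := by
          rw [← AlgEquiv.coe_toAlgHom, ← aeval_algHom_apply]
        rw [this, minpoly.aeval, map_zero]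
      rw [h2, map_zero]
    let σ₀ : L →ₐ[K] L := pbL.lift (φ (τ b)) hroot
    have hσ₀ : Function.Bijective σ₀ := Algebra.IsAlgebraic.algHom_bijective σ₀
    refine ⟨AlgEquiv.ofBijective σ₀ hσ₀, ?_⟩
    have h3 : (σ₀.restrictScalars k).comp φ = φ.comp (τ : k' →ₐ[k] k') := by
      apply pb.algHom_ext
      show σ₀ (φ b) = φ (τ b)
      rw [← hgen]
      exact pbL.lift_gen _ _
    intro a
    exact DFunLike.congr_fun h3 a
  · intro a ha
    have hak : IsAlgebraic k a := by
      have := Algebra.IsAlgebraic.of_finite k k'
      exact IsAlgebraic.restrictScalars k ha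
    have haI : IsIntegral k a := hak.isIntegral
    have : FiniteDimensional k (IntermediateField.adjoin k {a}) :=
      IntermediateField.adjoin.finiteDimensional haI
    let R : IntermediateField k L := φ.fieldRange
    have hRfin : FiniteDimensional k R := by
      have e : k' ≃ₐ[k] R := AlgEquiv.ofInjectiveField φ
      exact Module.Finite.equiv e.toLinearEquiv
    have hR : Module.finrank k R = r := by
      have e : k' ≃ₐ[k] R := AlgEquiv.ofInjectiveField φ
      rw [← e.toLinearEquiv.finrank_eq, hk']
    let E : IntermediateField k L := R ⊔ IntermediateField.adjoin k {a}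
    have hEfin : FiniteDimensional k E := IntermediateField.finiteDimensional_sup _ _
    have hE : Module.finrank k E ≤ Module.finrank k R := by
      obtain ⟨α, hα⟩ := Field.exists_primitive_element k E
      have hαi : IsIntegral k α := Algebra.IsIntegral.isIntegral α
      have h1 : Module.finrank k E = (minpoly k α).natDegree := by
        rw [← IntermediateField.adjoin.finrank hαi, hα]
        exact IntermediateField.finrank_top'.symm
      have h2 : minpoly k α = minpoly k (α : L) :=
        (minpoly.algebraMap_eq (algebraMap E L).injective α).symm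
      have hαi' : IsIntegral k (α : L) := hαi.map (IsScalarTower.toAlgHom k E L)
      have h3 : minpoly K (α : L) = (minpoly k (α : L)).map (algebraMap k K) :=
        minpoly_eq_map IsFunctionField.const hαi'
      have h4 : (minpoly K (α : L)).natDegree ≤ Module.finrank K L := minpoly.natDegree_le _
      rw [h3, natDegree_map, ← h2, ← h1, hfr] at h4
      rw [hR]
      exact h4
    have hRE : R = E := IntermediateField.eq_of_le_of_finrank_le le_sup_left hE
    have haE : a ∈ E :=
      (le_sup_right : IntermediateField.adjoin k {a} ≤ E)
        (IntermediateField.mem_adjoin_simple_self k a)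
    rw [← hRE] at haE
    obtain ⟨z, hz⟩ := haE
    exact ⟨z, hz⟩

end Construction

end Pool.Agent.WanRH
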