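import Pool.Agent.WanRH.ConstExt
import Pool.Agent.WanRH.Gal.Down

/-!
# Places of a constant field extension above places of degree divisible by `r`
-/

set_option linter.unusedSectionVars false
set_option linter.unusedVariables false

namespace Pool.Agent.WanRH

universe u v w

open Polynomial Place

section Places

variable {k : Type u} {K : Type v} {k' : Type} {L : Type v} [Field k] [Field K]
    [Field k'] [Field L] [Algebra k K] [Algebra k k'] [Algebra K L] [Algebra k' L] [Algebra k L]
    [IsScalarTower k K L] [IsScalarTower k k' L] {r : ℕ}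

lemma IsConstExt.finite_dim (h : IsConstExt k K k' L r) (hr : 0 < r) : FiniteDimensional K L :=
  FiniteDimensional.of_finrank_pos (by rw [h.finrank_K]; exact hr)

lemma IsConstExt.isFunctionField (h : IsConstExt k K k' L r) (hr : 0 < r)
    [IsFunctionField k K] : IsFunctionField k' L := by
  have hfd := h.finite_dim hr
  have hfk : FiniteDimensional k k' := FiniteDimensional.of_finrank_pos (by rw [h.finrank_k]; exact hr)
  have halg : Algebra.IsAlgebraic k k' := Algebra.IsAlgebraic.of_finite k k'
  obtain ⟨t, ht, hfin⟩ := IsFunctionField.exists_transcendental (k := k) (F := K)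
  refine ⟨⟨algebraMap K L t, ?_, ?_⟩, h.const⟩
  · intro hal
    have h1 : IsAlgebraic k (algebraMap K L t) := hal.restrictScalars k
    exact ht ((isAlgebraic_algebraMap_iff (algebraMap K L).injective).mp h1)
  · set E := IntermediateField.adjoin k {t} with hE
    set E₁ := IntermediateField.adjoin k {algebraMap K L t} with hE₁
    set E' := IntermediateField.adjoin k' {algebraMap K L t} with hE'
    have hmap : ∀ a : E, algebraMap K L (a : K) ∈ E' := by
      intro a
      have h1 : (E.map (IsScalarTower.toAlgHom k K L)) = E₁ := by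
        rw [hE, IntermediateField.adjoin_map, Set.image_singleton]
        rfl
      have h2 : algebraMap K L (a : K) ∈ E₁ := by
        rw [← h1]
        exact ⟨a, a.2, rfl⟩
      have h3 : E₁ ≤ E'.restrictScalars k := by
        rw [hE₁, IntermediateField.adjoin_le_iff]
        intro z hz
        rw [Set.mem_singleton_iff] at hz
        subst hz
        exact IntermediateField.mem_adjoin_simple_self k' _
      exact h3 h2
    let _ : Algebra E E' := RingHom.toAlgebra
      { toFun := fun a => ⟨algebraMap K L (a : K), hmap a⟩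
        map_one' := Subtype.ext (by simp)
        map_mul' := fun a b => Subtype.ext (by simp)
        map_zero' := Subtype.ext (by simp)
        map_add' := fun a b => Subtype.ext (by simp) }
    have h2 : IsScalarTower E E' L := IsScalarTower.of_algebraMap_eq' rfl
    have h3 : Module.Finite E K := hfin
    have h4 : Module.Finite E L := Module.Finite.trans K L
    exact Module.Finite.of_restrictScalars_finite E E' L

/-- `y` is above `x`. -/
def Above (y : Place k' L) (x : Place k K) : Prop :=
  ∀ a : K, algebraMap K L a ∈ y.ring ↔ a ∈ x.ring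

/-- A valuation ring containing `k` contains everything integral over `k`. -/
lemma mem_of_isIntegral (B : ValuationSubring L) (hB : ∀ c : k, algebraMap k L c ∈ B) {a : L}
    (ha : IsIntegral k a) : a ∈ B := by
  let : Algebra k B := ((algebraMap k L).codRestrict B.toSubring hB).toAlgebra
  have : IsScalarTower k B L := IsScalarTower.of_algebraMap_eq fun _ => rfl
  have ha' : IsIntegral B a := ha.tower_top
  obtain ⟨z, hz⟩ := IsIntegrallyClosed.isIntegral_iff.mp ha'
  rw [← hz]
  exact z.2

variable [IsFunctionField k K] [IsFunctionField k' L] [FiniteDimensional k k']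

lemma Above.mem_fil {y : Place k' L} {x : Place k K} (h : Above y x) (a : K) :
    algebraMap K L a ∈ y.fil 1 ↔ a ∈ x.fil 1 := by
  rw [mem_fil_one_iff, mem_fil_one_iff, ← map_inv₀, h]
  simp

lemma exists_above (x : Place k K) : ∃ y : Place k' L, Above y x := by
  obtain ⟨B, hB, hloc⟩ := IsLocalRing.exists_factor_valuationRing (R := x.ring)
    ((algebraMap K L).comp x.ring.subtype)
  have hB' : ∀ a ∈ x.ring, algebraMap K L a ∈ B := fun a ha => hB ⟨a, ha⟩
  have hpi : (algebraMap K L x.unif)⁻¹ ∉ B := by
    intro hmem
    have hmem1 : x.unif ∈ x.ring := x.mem_ring_iff.mpr (Or.inr (by simp))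
    have hu : IsUnit ((((algebraMap K L).comp x.ring.subtype).codRestrict B.toSubring hB)
        ⟨x.unif, hmem1⟩) := by
      refine IsUnit.of_mul_eq_one (⟨(algebraMap K L x.unif)⁻¹, hmem⟩ : B.toSubring) ?_
      apply Subtype.ext
      show algebraMap K L x.unif * (algebraMap K L x.unif)⁻¹ = 1
      rw [mul_inv_cancel₀]
      simpa using x.unif_ne_zero
    have hu' := hloc.map_nonunit _ hu
    have h1 := (x.ring.valuation_eq_one_iff _).mp hu'
    exact absurd h1 (x.val_unif_lt_one).ne
  have hk : ∀ c : k, algebraMap k L c ∈ B := fun c => by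
    rw [IsScalarTower.algebraMap_apply k K L]
    exact hB' _ (x.const_mem c)
  let y : Place k' L := ⟨B, fun c => mem_of_isIntegral (k := k) B hk (by
      have h1 : IsIntegral k c := Algebra.IsIntegral.isIntegral c
      exact h1.map (IsScalarTower.toAlgHom k k' L)), by
      rintro rfl
      exact hpi (ValuationSubring.mem_top _)⟩
  let x' : Place k K := ⟨B.comap (algebraMap K L), fun c => by
      rw [ValuationSubring.mem_comap]; exact hB' _ (x.const_mem c), fun htop => hpi (by
        have : (x.unif)⁻¹ ∈ B.comap (algebraMap K L) := by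
          rw [htop]; exact ValuationSubring.mem_top _
        rw [ValuationSubring.mem_comap, map_inv₀] at this
        exact this)⟩
  have hxx' : x = x' := Place.eq_of_ring_le (fun a ha => hB' a ha)
  refine ⟨y, fun a => ?_⟩
  conv_rhs => rw [hxx']
  rfl

/-- Action of automorphisms on the places of `L/k'`. -/
noncomputable def actC (σ : L ≃ₐ[K] L) (y : Place k' L) : Place k' L where
  ring := y.ring.comap (σ.symm : L →+* L)
  const_mem c := by
    rw [ValuationSubring.mem_comap]
    have h1 : IsIntegral k (algebraMap k' L c) := by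
      have h1 : IsIntegral k c := Algebra.IsIntegral.isIntegral c
      exact h1.map (IsScalarTower.toAlgHom k k' L)
    have h2 : IsIntegral k (σ.symm (algebraMap k' L c)) :=
      h1.map (AlgEquiv.restrictScalars k σ.symm).toAlgHom
    refine mem_of_isIntegral (k := k) y.ring (fun c => ?_) h2
    rw [IsScalarTower.algebraMap_apply k k' L]
    exact y.const_mem _
  ne_top := by
    intro htop
    apply y.ne_top
    refine ValuationSubring.ext _ _ fun l => ⟨fun _ => ValuationSubring.mem_top l, fun _ => ?_⟩
    have h1 : σ l ∈ y.ring.comap (σ.symm : L →+* L) := by rw [htop]; exact ValuationSubring.mem_top _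
    rw [ValuationSubring.mem_comap] at h1
    simpa using h1

lemma mem_actC_ring (σ : L ≃ₐ[K] L) (y : Place k' L) (a : L) :
    a ∈ (actC (k := k) σ y).ring ↔ σ.symm a ∈ y.ring := Iff.rfl

lemma mem_actC_fil (σ : L ≃ₐ[K] L) (y : Place k' L) (a : L) :
    a ∈ (actC (k := k) σ y).fil 1 ↔ σ.symm a ∈ y.fil 1 := by
  rw [mem_fil_one_iff, mem_fil_one_iff, mem_actC_ring, map_inv₀]
  simp

lemma Above.actC {y : Place k' L} {x : Place k K} (h : Above y x) (σ : L ≃ₐ[K] L) :
    Above (actC (k := k) σ y) x := by
  intro a
  rw [mem_actC_ring, AlgEquiv.commutes]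
  exact h a

/-- Constants are congruent to elements of `K` when the degree of the place is divisible by
`r`. -/
lemma exists_congr_const [Finite k] [Finite k'] (h : IsConstExt k K k' L r) {y : Place k' L}
    {x : Place k K} (hyx : Above y x) (hrx : r ∣ x.degree) (c : k') :
    ∃ a ∈ x.ring, algebraMap k' L c - algebraMap K L a ∈ y.fil 1 := by
  classical
  set N := Nat.card k ^ x.degree with hN
  have hcardx : Nat.card x.ResidueField = N := x.card_residueField
  have : Fintype x.ResidueField := Fintype.ofFinite _
  have : Fintype y.ResidueField := Fintype.ofFinite _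
  have hsur := IsLocalRing.residue_surjective (R := x.ring)
  choose a ha using hsur
  have hay : ∀ w, algebraMap K L (a w : K) ∈ y.ring := fun w => (hyx _).mpr (a w).2
  let g : x.ResidueField → y.ResidueField := fun w => IsLocalRing.residue y.ring ⟨_, hay w⟩
  have hginj : Function.Injective g := by
    intro w w' hww
    have h1 : IsLocalRing.residue y.ring (⟨_, hay w⟩ - ⟨_, hay w'⟩) = 0 := by
      rw [map_sub]; exact sub_eq_zero.mpr hww
    rw [y.residue_eq_zero_iff] at h1
    have h2 : algebraMap K L ((a w : K) - (a w' : K)) ∈ y.fil 1 := by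
      rw [map_sub]; exact h1
    rw [hyx.mem_fil] at h2
    have h3 : IsLocalRing.residue x.ring (a w - a w') = 0 := by
      rw [x.residue_eq_zero_iff]; exact h2
    rw [map_sub, ha, ha, sub_eq_zero] at h3
    exact h3
  have hgpow : ∀ w, g w ^ N = g w := by
    intro w
    have h1 : (a w : K) ^ N - a w ∈ x.fil 1 := x.pow_sub_mem_fil (a w).2 dvd_rfl
    rw [← hyx.mem_fil] at h1
    have h2 : IsLocalRing.residue y.ring ((⟨_, hay w⟩ : y.ring) ^ N - ⟨_, hay w⟩) = 0 := by
      rw [y.residue_eq_zero_iff]
      have h3 : ((((⟨_, hay w⟩ : y.ring) ^ N - ⟨_, hay w⟩ : y.ring)) : L) =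
          algebraMap K L ((a w : K) ^ N - a w) := by
        rw [map_sub, map_pow]
        rfl
      rw [h3]
      exact h1
    rw [map_sub, map_pow, sub_eq_zero] at h2
    exact h2
  have hN1 : 1 < N := by
    rw [hN]
    exact Nat.one_lt_pow x.degree_pos.ne' Finite.one_lt_card
  set f : y.ResidueField[X] := X ^ N - X with hf
  have hf0 : f ≠ 0 := FiniteField.X_pow_card_sub_X_ne_zero _ hN1
  have hroots : (Finset.univ.image g) ⊆ f.roots.toFinset := by
    intro z hz
    obtain ⟨w, -, rfl⟩ := Finset.mem_image.mp hz
    rw [Multiset.mem_toFinset, mem_roots hf0, IsRoot.def, hf, eval_sub, eval_pow, eval_X, hgpow,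
      sub_self]
  have hcard : f.roots.toFinset.card ≤ (Finset.univ.image g).card := by
    rw [Finset.card_image_of_injective _ hginj, Finset.card_univ, ← Nat.card_eq_fintype_card,
      hcardx]
    calc f.roots.toFinset.card ≤ Multiset.card f.roots := f.roots.toFinset_card_le
      _ ≤ f.natDegree := card_roots' f
      _ = N := by rw [hf]; exact FiniteField.X_pow_card_sub_X_natDegree_eq _ hN1
  have heq := Finset.eq_of_subset_of_card_le hroots hcard
  -- the residue class of `c`
  have hcN : c ^ N = c := by
    obtain ⟨e, he⟩ := hrx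
    have hk' : Nat.card k' = Nat.card k ^ r := by
      rw [Module.natCard_eq_pow_finrank (K := k), h.finrank_k]
    rw [hN, he, pow_mul, ← hk']
    have : Fintype k' := Fintype.ofFinite _
    rw [Nat.card_eq_fintype_card]
    exact FiniteField.pow_card_pow e c
  have hcmem : algebraMap k' L c ∈ y.ring := y.const_mem c
  have hz : IsLocalRing.residue y.ring ⟨_, hcmem⟩ ∈ f.roots.toFinset := by
    rw [Multiset.mem_toFinset, mem_roots hf0, IsRoot.def, hf, eval_sub, eval_pow, eval_X,
      ← map_pow, ← map_sub]
    have : (⟨_, hcmem⟩ : y.ring) ^ N - ⟨_, hcmem⟩ = 0 := by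
      apply Subtype.ext
      show algebraMap k' L c ^ N - algebraMap k' L c = 0
      rw [← map_pow, hcN, sub_self]
    rw [this, map_zero]
  rw [← heq] at hz
  obtain ⟨w, -, hw⟩ := Finset.mem_image.mp hz
  refine ⟨a w, (a w).2, ?_⟩
  have h5 : IsLocalRing.residue y.ring (⟨_, hcmem⟩ - ⟨_, hay w⟩) = 0 := by
    rw [map_sub, sub_eq_zero]; exact hw.symm
  rw [y.residue_eq_zero_iff] at h5
  exact h5

/-- Different automorphisms of `k'` give different places. -/
lemma actC_injective [Finite k] [Finite k'] (h : IsConstExt k K k' L r) {y : Place k' L}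
    {x : Place k K} (hyx : Above y x) (hrx : r ∣ x.degree) {τ₁ τ₂ : k' ≃ₐ[k] k'}
    {σ₁ σ₂ : L ≃ₐ[K] L} (h₁ : ∀ c, σ₁ (algebraMap k' L c) = algebraMap k' L (τ₁ c))
    (h₂ : ∀ c, σ₂ (algebraMap k' L c) = algebraMap k' L (τ₂ c))
    (heq : actC (k := k) σ₁ y = actC (k := k) σ₂ y) : τ₁ = τ₂ := by
  ext c
  obtain ⟨a, -, ha⟩ := exists_congr_const h hyx hrx c
  have h3 : algebraMap k' L (τ₁ c) - algebraMap K L a ∈ (actC (k := k) σ₁ y).fil 1 := by
    rw [mem_actC_fil, map_sub, ← h₁, AlgEquiv.symm_apply_apply, AlgEquiv.commutes]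
    exact ha
  have h4 : algebraMap k' L (τ₂ c) - algebraMap K L a ∈ (actC (k := k) σ₁ y).fil 1 := by
    rw [heq, mem_actC_fil, map_sub, ← h₂, AlgEquiv.symm_apply_apply, AlgEquiv.commutes]
    exact ha
  have h5 : algebraMap k' L (τ₁ c - τ₂ c) ∈ (actC (k := k) σ₁ y).fil 1 := by
    have := Submodule.sub_mem _ h3 h4
    rw [sub_sub_sub_cancel_right] at this
    rw [map_sub]
    exact this
  by_contra hne
  have h6 : τ₁ c - τ₂ c ≠ 0 := sub_ne_zero.mpr hne
  rw [mem_fil_of_ne_zero _ ((map_ne_zero (algebraMap k' L)).mpr h6), ord_const] at h5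
  omega

/-- If there are `[L:K]` places above `x` then the residue fields do not grow. -/
lemma residue_surj_of_card [FiniteDimensional K L] {ι : Type*} [Fintype ι] {x : Place k K}
    (hι : Fintype.card ι = Module.finrank K L) (Y : ι → Place k' L) (hY : Function.Injective Y)
    (hYx : ∀ i, Above (Y i) x) (i₀ : ι) (u : L) (hu : u ∈ (Y i₀).ring) :
    ∃ a ∈ x.ring, u - algebraMap K L a ∈ (Y i₀).fil 1 := by
  classical
  by_contra hcon
  push Not at hcon
  -- approximations
  have happ : ∀ b : ι → L, ∃ a : L, ∀ i, a - b i ∈ (Y i).fil 1 := by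
    intro b
    obtain ⟨a, ha⟩ := weak_approx (Finset.univ.image Y)
      (fun z => if h : ∃ i, Y i = z then b h.choose else 0) 1
    refine ⟨a, fun i => ?_⟩
    have h1 := ha (Y i) (Finset.mem_image_of_mem _ (Finset.mem_univ i))
    have h2 : ∃ j, Y j = Y i := ⟨i, rfl⟩
    rw [dif_pos h2] at h1
    have h3 : h2.choose = i := hY h2.choose_spec
    rwa [h3] at h1
  choose w hw using happ
  let v : Option ι → L := fun o => match o with
    | none => w (fun i => if i = i₀ then u else 0)
    | some j => w (fun i => if i = j then 1 else 0)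
  have hlin : LinearIndependent K v := by
    rw [Fintype.linearIndependent_iff]
    intro c hc
    by_contra hne
    push Not at hne
    obtain ⟨o₁, ho₁⟩ := hne
    -- choose an index of minimal order
    obtain ⟨o₀, ho₀mem, ho₀min⟩ := Finset.exists_min_image
      (Finset.univ.filter fun o => c o ≠ 0) (fun o => x.ord (c o)) ⟨o₁, by simp [ho₁]⟩
    have ho₀ : c o₀ ≠ 0 := (Finset.mem_filter.mp ho₀mem).2
    let d : Option ι → K := fun o => c o / c o₀
    have hd0 : d o₀ = 1 := div_self ho₀
    have hdmem : ∀ o, d o ∈ x.ring := by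
      intro o
      rw [x.mem_ring_iff]
      by_cases ho : c o = 0
      · left; show c o / c o₀ = 0; rw [ho, zero_div]
      · right
        show 0 ≤ x.ord (c o / c o₀)
        rw [x.ord_div ho ho₀]
        have := ho₀min o (by simp [ho])
        linarith
    have hd : ∑ o, algebraMap K L (d o) * v o = 0 := by
      have h1 : ∑ o, algebraMap K L (d o) * v o = algebraMap K L (c o₀)⁻¹ * ∑ o, c o • v o := by
        rw [Finset.mul_sum]
        refine Finset.sum_congr rfl fun o _ => ?_
        rw [Algebra.smul_def, ← mul_assoc, ← map_mul]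
        congr 2
        show c o / c o₀ = _
        rw [div_eq_inv_mul]
      rw [h1, hc, mul_zero]
    rw [Fintype.sum_option] at hd
    have hdY : ∀ i o, algebraMap K L (d o) ∈ (Y i).fil 0 := fun i o => by
      rw [← mem_ring_iff_fil, hYx i]
      exact hdmem o
    -- reduction at `Y i`
    have hred : ∀ i, algebraMap K L (d none) * (if i = i₀ then u else 0) +
        algebraMap K L (d (some i)) ∈ (Y i).fil 1 := by
      intro i
      have h1 : algebraMap K L (d none) * (v none - (if i = i₀ then u else 0)) ∈ (Y i).fil 1 := by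
        have := (Y i).mul_mem_fil (hdY i none) (hw (fun i => if i = i₀ then u else 0) i)
        rwa [zero_add] at this
      have h2 : ∀ j, algebraMap K L (d (some j)) * (v (some j) - (if i = j then 1 else 0)) ∈
          (Y i).fil 1 := by
        intro j
        have := (Y i).mul_mem_fil (hdY i (some j)) (hw (fun i => if i = j then 1 else 0) i)
        rwa [zero_add] at this
      have h3 := Submodule.add_mem _ h1 (Submodule.sum_mem _ fun j (_ : j ∈ Finset.univ) => h2 j)
      have h4 : algebraMap K L (d none) * (v none - (if i = i₀ then u else 0)) +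
          ∑ j, algebraMap K L (d (some j)) * (v (some j) - (if i = j then 1 else 0)) =
          -(algebraMap K L (d none) * (if i = i₀ then u else 0) +
            algebraMap K L (d (some i))) := by
        simp only [mul_sub, Finset.sum_sub_distrib, mul_ite, mul_one, mul_zero,
          Finset.sum_ite_eq, Finset.mem_univ, if_true]
        have h5 : ∑ j, algebraMap K L (d (some j)) * v (some j) =
            - (algebraMap K L (d none) * v none) := by
          linear_combination hd
        rw [h5]
        ring
      rw [h4] at h3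
      exact (Submodule.neg_mem_iff _).mp h3
    have hsome : ∀ i, i ≠ i₀ → d (some i) ∈ x.fil 1 := by
      intro i hi
      have h1 := hred i
      rw [if_neg hi, mul_zero, zero_add, (hYx i).mem_fil] at h1
      exact h1
    have h0 := hred i₀
    rw [if_pos rfl] at h0
    by_cases hn : d none ∈ x.fil 1
    · -- then everything is in the maximal ideal
      have h1 : algebraMap K L (d none) * u ∈ (Y i₀).fil 1 := by
        have := (Y i₀).mul_mem_fil ((hYx i₀).mem_fil _ |>.mpr hn) (mem_ring_iff_fil _ |>.mp hu)
        rwa [add_zero] at this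
      have h2 : algebraMap K L (d (some i₀)) ∈ (Y i₀).fil 1 := by
        have := Submodule.sub_mem _ h0 h1
        rwa [add_sub_cancel_left] at this
      rw [(hYx i₀).mem_fil] at h2
      have hall : ∀ o, d o ∈ x.fil 1 := by
        intro o
        cases o with
        | none => exact hn
        | some i =>
          by_cases hi : i = i₀
          · rw [hi]; exact h2
          · exact hsome i hi
      have h3 := hall o₀
      rw [hd0, mem_fil_of_ne_zero _ one_ne_zero, ord_one] at h3
      omega
    · -- then `u` is congruent to an element of `K`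
      obtain ⟨hn0, hnord⟩ := x.unit_of_notMem (hdmem none) hn
      have hinv : (d none)⁻¹ ∈ x.ring := by
        rw [x.mem_ring_iff, ord_inv, hnord]; right; norm_num
      refine hcon (-(d (some i₀) * (d none)⁻¹)) ?_ ?_
      · exact neg_mem (mul_mem (hdmem _) hinv)
      · have h1 : algebraMap K L (d none)⁻¹ *
            (algebraMap K L (d none) * u + algebraMap K L (d (some i₀))) ∈ (Y i₀).fil 1 := by
          have h2 : algebraMap K L (d none)⁻¹ ∈ (Y i₀).fil 0 := by
            rw [← mem_ring_iff_fil, hYx i₀]; exact hinv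
          have := (Y i₀).mul_mem_fil h2 h0
          rwa [zero_add] at this
        have h3 : algebraMap K L (d none)⁻¹ *
            (algebraMap K L (d none) * u + algebraMap K L (d (some i₀))) =
            u - algebraMap K L (-(d (some i₀) * (d none)⁻¹)) := by
          have h4 : algebraMap K L (d none)⁻¹ * algebraMap K L (d none) = 1 := by
            rw [← map_mul, inv_mul_cancel₀ hn0, map_one]
          rw [map_neg, map_mul]
          linear_combination u * h4
        rwa [h3] at h1
  have h1 := hlin.fintype_card_le_finrank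
  rw [Fintype.card_option, hι] at h1
  omega

/-- Comparison of degrees. -/
lemma degree_of_residue_surj [Finite k] [Finite k'] (h : IsConstExt k K k' L r)
    {x : Place k K} {y : Place k' L} (hyx : Above y x)
    (hs : ∀ u ∈ y.ring, ∃ a ∈ x.ring, u - algebraMap K L a ∈ y.fil 1) :
    r * y.degree = x.degree := by
  classical
  have hsur := IsLocalRing.residue_surjective (R := x.ring)
  choose a ha using hsur
  have hay : ∀ w, algebraMap K L (a w : K) ∈ y.ring := fun w => (hyx _).mpr (a w).2
  let g : x.ResidueField → y.ResidueField := fun w => IsLocalRing.residue y.ring ⟨_, hay w⟩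
  have hginj : Function.Injective g := by
    intro w w' hww
    have h1 : IsLocalRing.residue y.ring (⟨_, hay w⟩ - ⟨_, hay w'⟩) = 0 := by
      rw [map_sub]; exact sub_eq_zero.mpr hww
    rw [y.residue_eq_zero_iff] at h1
    have h2 : algebraMap K L ((a w : K) - (a w' : K)) ∈ y.fil 1 := by
      rw [map_sub]; exact h1
    rw [hyx.mem_fil] at h2
    have h3 : IsLocalRing.residue x.ring (a w - a w') = 0 := by
      rw [x.residue_eq_zero_iff]; exact h2
    rw [map_sub, ha, ha, sub_eq_zero] at h3
    exact h3
  have hgsur : Function.Surjective g := by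
    intro z
    obtain ⟨u, rfl⟩ := IsLocalRing.residue_surjective (R := y.ring) z
    obtain ⟨b, hb, hub⟩ := hs u u.2
    refine ⟨IsLocalRing.residue x.ring ⟨b, hb⟩, ?_⟩
    have h1 : IsLocalRing.residue x.ring (⟨b, hb⟩ - a (IsLocalRing.residue x.ring ⟨b, hb⟩)) = 0 := by
      rw [map_sub, ha, sub_self]
    rw [x.residue_eq_zero_iff] at h1
    have h2 : algebraMap K L (b - (a (IsLocalRing.residue x.ring ⟨b, hb⟩) : K)) ∈ y.fil 1 :=
      (hyx.mem_fil _).mpr h1
    have h3 : (u : L) - algebraMap K L (a (IsLocalRing.residue x.ring ⟨b, hb⟩) : K) ∈ y.fil 1 := by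
      have := Submodule.add_mem _ hub h2
      rw [map_sub, sub_add_sub_cancel] at this
      exact this
    have h4 : IsLocalRing.residue y.ring (u - ⟨_, hay (IsLocalRing.residue x.ring ⟨b, hb⟩)⟩) = 0 := by
      rw [y.residue_eq_zero_iff]
      exact h3
    rw [map_sub, sub_eq_zero] at h4
    exact h4.symm
  have h1 := Nat.card_congr (Equiv.ofBijective g ⟨hginj, hgsur⟩)
  rw [x.card_residueField, y.card_residueField, Module.natCard_eq_pow_finrank (K := k) (V := k'),
    h.finrank_k, ← pow_mul] at h1
  exact (Nat.pow_right_injective (Finite.one_lt_card) h1).symm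

/-- Two different places of the right degree above every place of degree divisible by `r`. -/
theorem exists_two_above [Finite k] [Finite k'] [FiniteDimensional K L]
    (h : IsConstExt k K k' L r) (hr : 2 ≤ r) (x : Place k K) (hrx : r ∣ x.degree) :
    ∃ y₁ y₂ : Place k' L, y₁ ≠ y₂ ∧ Above y₁ x ∧ Above y₂ x ∧ r * y₁.degree = x.degree ∧
      r * y₂.degree = x.degree := by
  classical
  obtain ⟨y, hy⟩ := exists_above (k' := k') (L := L) x
  choose σ hσ using h.ext
  have hgal : IsGalois k k' := inferInstance
  have : Fintype (k' ≃ₐ[k] k') := Fintype.ofFinite _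
  have hcard : Fintype.card (k' ≃ₐ[k] k') = Module.finrank K L := by
    rw [← Nat.card_eq_fintype_card, IsGalois.card_aut_eq_finrank, h.finrank_k, h.finrank_K]
  let Y : (k' ≃ₐ[k] k') → Place k' L := fun τ => actC (k := k) (σ τ) y
  have hYinj : Function.Injective Y := fun τ₁ τ₂ h12 =>
    actC_injective h hy hrx (hσ τ₁) (hσ τ₂) h12
  have hYx : ∀ τ, Above (Y τ) x := fun τ => hy.actC (σ τ)
  have hdeg : ∀ τ, r * (Y τ).degree = x.degree := fun τ =>
    degree_of_residue_surj h (hYx τ) (residue_surj_of_card hcard Y hYinj hYx τ)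
  obtain ⟨τ₁, τ₂, hne⟩ : ∃ τ₁ τ₂ : k' ≃ₐ[k] k', τ₁ ≠ τ₂ := by
    apply Fintype.exists_pair_of_one_lt_card
    rw [hcard, h.finrank_K]
    omega
  exact ⟨Y τ₁, Y τ₂, fun h => hne (hYinj h), hYx _, hYx _, hdeg _, hdeg _⟩

end Places

end Pool.Agent.WanRH
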