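import Mathlib

/-!
# The cyclotomic polynomial `Φ_{p^n}` is irreducible over `ℚ_p`, and relations between
`p`-power roots of unity
-/

namespace Pool.Agent.WanRH

open Polynomial

section Irr

variable (p : ℕ) [hp : Fact p.Prime]

lemma isEisensteinAt_map_padicInt (n : ℕ) :
    (((cyclotomic (p ^ (n + 1)) ℤ_[p])).comp (X + 1)).IsEisensteinAt
      (Ideal.span {(p : ℤ_[p])}) := by
  have h := cyclotomic_prime_pow_comp_X_add_one_isEisensteinAt p n
  have hmap : (((cyclotomic (p ^ (n + 1)) ℤ_[p])).comp (X + 1)) =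
      ((cyclotomic (p ^ (n + 1)) ℤ).comp (X + 1)).map (Int.castRingHom ℤ_[p]) := by
    rw [Polynomial.map_comp, map_cyclotomic, Polynomial.map_add, map_X, Polynomial.map_one]
  have hmonic : ((cyclotomic (p ^ (n + 1)) ℤ).comp (X + 1)).Monic := by
    rw [show (X + 1 : ℤ[X]) = X + C 1 by simp]
    refine (cyclotomic.monic _ ℤ).comp (monic_X_add_C 1) fun h => ?_
    rw [natDegree_X_add_C] at h
    exact zero_ne_one h.symm
  have hprime : (Ideal.span {(p : ℤ_[p])}).IsPrime :=
    (Ideal.span_singleton_prime (PadicInt.prime_p.ne_zero)).2 PadicInt.prime_p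
  rw [hmap]
  refine Monic.isEisensteinAt_of_mem_of_notMem (hmonic.map _) hprime.ne_top ?_ ?_
  · intro i hi
    rw [hmonic.natDegree_map] at hi
    have := h.mem hi
    rw [Ideal.submodule_span_eq, Ideal.mem_span_singleton] at this
    rw [coeff_map, Ideal.mem_span_singleton]
    obtain ⟨c, hc⟩ := this
    rw [hc]
    exact ⟨(c : ℤ_[p]), by simp⟩
  · intro h0
    refine h.notMem ?_
    rw [Ideal.submodule_span_eq, Ideal.span_singleton_pow, Ideal.mem_span_singleton]
    rw [coeff_map, Ideal.span_singleton_pow, Ideal.mem_span_singleton] at h0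
    have h1 : ((p ^ 2 : ℕ) : ℤ_[p]) ∣ (((((cyclotomic (p ^ (n + 1)) ℤ).comp (X + 1)).coeff 0 : ℤ)) : ℤ_[p]) := by
      simpa using h0
    have h2 : ((p : ℤ_[p]) ^ 2) ∣ (((((cyclotomic (p ^ (n + 1)) ℤ).comp (X + 1)).coeff 0 : ℤ)) : ℤ_[p]) := by
      simpa using h0
    rw [← Ideal.mem_span_singleton, ← PadicInt.norm_le_pow_iff_mem_span_pow,
      PadicInt.norm_int_le_pow_iff_dvd] at h2
    simpa using h2

lemma irreducible_cyclotomic_padic (n : ℕ) :
    Irreducible (cyclotomic (p ^ (n + 1)) ℚ_[p]) := by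
  have h := isEisensteinAt_map_padicInt p n
  have hmonic : ((cyclotomic (p ^ (n + 1)) ℤ_[p]).comp (X + 1)).Monic := by
    rw [show (X + 1 : ℤ_[p][X]) = X + C 1 by simp]
    refine (cyclotomic.monic _ ℤ_[p]).comp (monic_X_add_C 1) fun h => ?_
    rw [natDegree_X_add_C] at h
    exact zero_ne_one h.symm
  have hprime : (Ideal.span {(p : ℤ_[p])}).IsPrime :=
    (Ideal.span_singleton_prime (PadicInt.prime_p.ne_zero)).2 PadicInt.prime_p
  have hdeg : 0 < ((cyclotomic (p ^ (n + 1)) ℤ_[p]).comp (X + 1)).natDegree := by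
    rw [natDegree_comp, show (X + 1 : ℤ_[p][X]) = X + C 1 by simp, natDegree_X_add_C, mul_one,
      natDegree_cyclotomic]
    exact Nat.totient_pos.mpr (pow_pos hp.out.pos _)
  have hirr := h.irreducible hprime hmonic.isPrimitive hdeg
  have hirr2 : Irreducible (cyclotomic (p ^ (n + 1)) ℤ_[p]) := by
    have e : Irreducible (Polynomial.algEquivAevalXAddC (1 : ℤ_[p]) (cyclotomic (p ^ (n + 1)) ℤ_[p])) := by
      have : (Polynomial.algEquivAevalXAddC (1 : ℤ_[p]) (cyclotomic (p ^ (n + 1)) ℤ_[p])) =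
        (cyclotomic (p ^ (n + 1)) ℤ_[p]).comp (X + 1) := by
        simp [Polynomial.algEquivAevalXAddC, Polynomial.comp, Polynomial.aeval_def]
      rw [this]; exact hirr
    exact (MulEquiv.irreducible_iff (Polynomial.algEquivAevalXAddC (1 : ℤ_[p]))).mp e
  have hcm : (cyclotomic (p ^ (n + 1)) ℤ_[p]).Monic := cyclotomic.monic _ _
  have := (hcm.irreducible_iff_irreducible_map_fraction_map (K := ℚ_[p])).mp hirr2
  rwa [map_cyclotomic] at this

end Irr

section Rel

variable (p : ℕ) [hp : Fact p.Prime] {Ω : Type*} [Field Ω] [Algebra ℚ_[p] Ω]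

/-- A polynomial of degree `< p^(n+1)` vanishing at a primitive `p^(n+1)`-th root of unity has
coefficients which are periodic modulo `p^n`. -/
lemma coeff_periodic {n : ℕ} {ζ : Ω} (hζ : IsPrimitiveRoot ζ (p ^ (n + 1))) {C : ℚ_[p][X]}
    (hdeg : C.natDegree < p ^ (n + 1)) (hC : aeval ζ C = 0) {j i : ℕ} (hj : j < p ^ n)
    (hi : i < p) : C.coeff (j + p ^ n * i) = C.coeff j := by
  classical
  have : NeZero ((p ^ (n + 1) : ℕ) : ℚ_[p]) :=
    ⟨by exact_mod_cast (pow_pos hp.out.pos (n + 1)).ne'⟩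
  have : NeZero ((p ^ (n + 1) : ℕ) : Ω) := by
    refine ⟨fun h => ?_⟩
    have := (algebraMap ℚ_[p] Ω).injective
    apply (NeZero.ne ((p ^ (n + 1) : ℕ) : ℚ_[p]))
    apply this
    rw [map_natCast, h, map_zero]
  have hmin : minpoly ℚ_[p] ζ = cyclotomic (p ^ (n + 1)) ℚ_[p] := by
    refine (minpoly.eq_of_irreducible_of_monic (irreducible_cyclotomic_padic p n) ?_
      (cyclotomic.monic _ _)).symm
    have := (isRoot_cyclotomic_iff (R := Ω)).mpr hζ
    rw [aeval_def, eval₂_eq_eval_map, map_cyclotomic]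
    exact this
  have hdvd : cyclotomic (p ^ (n + 1)) ℚ_[p] ∣ C := by
    rw [← hmin]; exact minpoly.dvd _ _ hC
  obtain ⟨Q, rfl⟩ := hdvd
  by_cases hQ : Q = 0
  · simp [hQ]
  have hQdeg : Q.natDegree < p ^ n := by
    rw [natDegree_mul (cyclotomic_ne_zero _ _) hQ, natDegree_cyclotomic,
      Nat.totient_prime_pow_succ hp.out] at hdeg
    have h1 : p ^ (n + 1) = p ^ n * (p - 1) + p ^ n := by
      have := hp.out.pos
      obtain ⟨m, rfl⟩ := Nat.exists_eq_succ_of_ne_zero this.ne'
      simp [pow_succ]; ring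
    omega
  have key : ∀ j i : ℕ, j < p ^ n → i < p →
      (cyclotomic (p ^ (n + 1)) ℚ_[p] * Q).coeff (j + p ^ n * i) = Q.coeff j := by
    intro j i hj hi
    rw [cyclotomic_prime_pow_eq_geom_sum hp.out, Finset.sum_mul, finsetSum_coeff,
      Finset.sum_eq_single i]
    · rw [← pow_mul, coeff_X_pow_mul]
    · intro b _ hb
      rw [← pow_mul, coeff_X_pow_mul']
      split_ifs with h
      · apply coeff_eq_zero_of_natDegree_lt
        refine lt_of_lt_of_le hQdeg ?_
        rcases lt_or_gt_of_ne hb with h1 | h1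
        · have : p ^ n * (b + 1) ≤ p ^ n * i := Nat.mul_le_mul_left _ h1
          have h2 : p ^ n * (b + 1) = p ^ n * b + p ^ n := by ring
          omega
        · have : p ^ n * (i + 1) ≤ p ^ n * b := Nat.mul_le_mul_left _ h1
          have h2 : p ^ n * (i + 1) = p ^ n * i + p ^ n := by ring
          omega
      · rfl
    · intro h
      exact absurd (Finset.mem_range.mpr hi) h
  rw [key j i hj hi]
  have := key j 0 hj hp.out.pos
  simpa using this.symm

/-- Relation lemma in additive notation: if `∑_r c(r) ζ^r = 0` with `c : ZMod (p^(n+1)) → ℚ_p`,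
then `c` is constant on cosets of `p^n`. -/
lemma rel_periodic {n : ℕ} {ζ : Ω} (hζ : IsPrimitiveRoot ζ (p ^ (n + 1)))
    (c : ZMod (p ^ (n + 1)) → ℚ_[p])
    (hc : ∑ r : ZMod (p ^ (n + 1)), algebraMap ℚ_[p] Ω (c r) * ζ ^ r.val = 0)
    (r s : ZMod (p ^ (n + 1))) (hrs : r.val % p ^ n = s.val % p ^ n) : c r = c s := by
  classical
  have hpos : 0 < p ^ (n + 1) := pow_pos hp.out.pos _
  have : NeZero (p ^ (n + 1)) := ⟨hpos.ne'⟩
  set C : ℚ_[p][X] := ∑ r : ZMod (p ^ (n + 1)), monomial r.val (c r) with hCdef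
  have hcoeff : ∀ r : ZMod (p ^ (n + 1)), C.coeff r.val = c r := by
    intro r
    rw [hCdef, finsetSum_coeff, Finset.sum_eq_single r]
    · rw [coeff_monomial, if_pos rfl]
    · intro b _ hb
      rw [coeff_monomial, if_neg]
      exact fun h => hb (ZMod.val_injective _ h)
    · intro h; exact absurd (Finset.mem_univ _) h
  have hdeg : C.natDegree < p ^ (n + 1) := by
    rw [hCdef]
    refine lt_of_le_of_lt (natDegree_sum_le _ _) ?_
    rw [Finset.fold_max_lt]
    refine ⟨hpos, fun r _ => ?_⟩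
    exact lt_of_le_of_lt (natDegree_monomial_le _) (ZMod.val_lt r)
  have hC0 : aeval ζ C = 0 := by
    rw [hCdef, map_sum]
    simpa [aeval_monomial] using hc
  have hper : ∀ r : ZMod (p ^ (n + 1)), c r = C.coeff (r.val % p ^ n) := by
    intro r
    have h1 : r.val = r.val % p ^ n + p ^ n * (r.val / p ^ n) := (Nat.mod_add_div _ _).symm
    have h2 : r.val / p ^ n < p := by
      rw [Nat.div_lt_iff_lt_mul (pow_pos hp.out.pos _)]
      calc r.val < p ^ (n + 1) := ZMod.val_lt r
        _ = p * p ^ n := pow_succ' p n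
    rw [← hcoeff r, h1, coeff_periodic p hζ hdeg hC0 (Nat.mod_lt _ (pow_pos hp.out.pos _)) h2]
    rw [← h1]
  rw [hper r, hper s, hrs]

end Rel

end Pool.Agent.WanRH
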