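import Mathlib

/-!
# Places, degrees, zeta functions of function fields over finite fields; `ℤ_p`-towers

A smooth projective geometrically irreducible curve over a finite field `k` is the same thing as
a function field `F` in one variable over `k` in which `k` is algebraically closed; the closed
points of the curve are the places of `F` over `k` (valuation rings of `F`, different from `F`,
which contain `k`).
-/

namespace Pool.Agent.WanRH

universe u v w

/-- `F` is a function field in one variable over `k` with exact field of constants `k`: there is
an element `t ∈ F` transcendental over `k` such that `F` is finite over `k(t)`, and every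
element of `F` which is algebraic over `k` lies in `k`. -/
class IsFunctionField (k : Type u) (F : Type v) [Field k] [Field F] [Algebra k F] : Prop where
  exists_transcendental : ∃ t : F, Transcendental k t ∧
    FiniteDimensional (IntermediateField.adjoin k {t}) F
  const : ∀ a : F, IsAlgebraic k a → a ∈ Set.range (algebraMap k F)

/-- A place of `F` over `k` (closed point of the corresponding curve): a valuation subring of `F`
which contains `k` and is different from `F`. -/
@[ext] structure Place (k : Type u) (F : Type v) [Field k] [Field F] [Algebra k F] where
  /-- the valuation ring -/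
  ring : ValuationSubring F
  const_mem : ∀ c : k, algebraMap k F c ∈ ring
  ne_top : ring ≠ ⊤

variable {k : Type u} {F : Type v} [Field k] [Field F] [Algebra k F]

/-- The valuation ring of a place is a `k`-algebra. -/
noncomputable instance Place.algebraRing (x : Place k F) : Algebra k x.ring :=
  ((algebraMap k F).codRestrict x.ring.toSubring x.const_mem).toAlgebra

/-- The residue field of a place. -/
abbrev Place.ResidueField (x : Place k F) : Type v := IsLocalRing.ResidueField x.ring

/-- The degree of a place: the degree of its residue field over `k`. -/
noncomputable def Place.degree (x : Place k F) : ℕ := Module.finrank k x.ResidueField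

variable (k F) in
/-- The zeta function `Z(X,s) = ∏_x (1 - s^{deg x})⁻¹ = ∑_D s^{deg D}` of the curve with function
field `F`, as a formal power series: the coefficient of `s^m` is the number of effective divisors
(finitely supported functions from places to `ℕ`) of degree `m`. -/
noncomputable def zeta : PowerSeries ℤ :=
  PowerSeries.mk fun m => (Nat.card {D : Place k F →₀ ℕ // (D.sum fun x n => n * x.degree) = m} : ℤ)

/-- The place `y` of the extension field `L` lies above the place `x` of `F`. -/
def Place.LiesAbove {L : Type w} [Field L] [Algebra k L] [Algebra F L] (y : Place k L)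
    (x : Place k F) : Prop := y.ring.comap (algebraMap F L) = x.ring

/-- The place `y` of the extension field `L` of `F` is ramified over `F`: its inertia group over
`F` is nontrivial. (This is only used for finite Galois extensions `L/F`.) -/
def Place.IsRamified (F : Type v) {L : Type w} [Field F] [Field L] [Algebra k L] [Algebra F L]
    (y : Place k L) : Prop := y.ring.inertiaSubgroup F ≠ ⊥

/-- `L/F` is a Galois extension of degree `N` with cyclic Galois group. -/
def IsCyclicExt (F : Type v) (L : Type w) [Field F] [Field L] [Algebra F L] (N : ℕ) : Prop :=
  IsGalois F L ∧ IsCyclic (L ≃ₐ[F] L) ∧ Module.finrank F L = N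

/-- Every element of `L` which is algebraic over `k` lies in `k`. -/
def ExactConst (k : Type u) (L : Type w) [Field k] [Field L] [Algebra k L] : Prop :=
  ∀ a : L, IsAlgebraic k a → a ∈ Set.range (algebraMap k L)

/-- A `ℤ_p`-tower of curves over `k` above the curve with function field `K`: an increasing
sequence of cyclic extensions `K = level 0 ⊆ level 1 ⊆ …` of degree `p^n` of `K` (inside some
extension field `Ω` of `K`) such that every element of `level n` which is algebraic over `k`
lies in `k` (i.e. all the curves are geometrically irreducible over `k`).
The union `⋃ level n` is then a Galois extension of `K` with group `lim ℤ/p^n = ℤ_p`. -/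
structure ZpTower (p : ℕ) (k : Type u) (K : Type v) (Ω : Type w) [Field k] [Field K] [Field Ω]
    [Algebra k K] [Algebra k Ω] [Algebra K Ω] [IsScalarTower k K Ω] where
  /-- the function field of the `n`-th curve `X_n` -/
  level : ℕ → IntermediateField K Ω
  level_le : ∀ n, level n ≤ level (n + 1)
  cyclic : ∀ n, IsCyclicExt K (level n) (p ^ n)
  const : ∀ n, ExactConst k (level n)

/-- The place `x` of `K` (closed point of `X_0`) is ramified in the tower: at some level there is
a place above `x` whose inertia group over `K` is nontrivial. -/
def ZpTower.Ramified {p : ℕ} {k : Type u} {K : Type v} {Ω : Type w} [Field k] [Field K] [Field Ω]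
    [Algebra k K] [Algebra k Ω] [Algebra K Ω] [IsScalarTower k K Ω] (𝒯 : ZpTower p k K Ω)
    (x : Place k K) : Prop :=
  ∃ (n : ℕ) (y : Place k (𝒯.level n)), y.LiesAbove x ∧ y.IsRamified K

/-- `P` is the numerator of the zeta function of the curve with function field `F`:
`Z(X,s) = P(s)/((1-s)(1-qs))`, `q = |k|`. -/
def IsZetaNumerator (k : Type u) (F : Type v) [Field k] [Field F] [Algebra k F]
    (P : Polynomial ℤ) : Prop :=
  (P : PowerSeries ℤ) =
    (1 - PowerSeries.X) * (1 - PowerSeries.C (Nat.card k : ℤ) * PowerSeries.X) * zeta k F

/-- The ramification locus of the tower. -/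
def ZpTower.ramLocus {p : ℕ} {k : Type u} {K : Type v} {Ω : Type w} [Field k] [Field K] [Field Ω]
    [Algebra k K] [Algebra k Ω] [Algebra K Ω] [IsScalarTower k K Ω] (𝒯 : ZpTower p k K Ω) :
    Set (Place k K) :=
  {x | 𝒯.Ramified x}

/-- `P` is the numerator `P(X_n,s)` of the zeta function of the `n`-th curve of the tower. -/
def ZpTower.IsNumerator {p : ℕ} {k : Type u} {K : Type v} {Ω : Type w} [Field k] [Field K]
    [Field Ω] [Algebra k K] [Algebra k Ω] [Algebra K Ω] [IsScalarTower k K Ω]
    (𝒯 : ZpTower p k K Ω) (n : ℕ) (P : Polynomial ℤ) : Prop :=
  IsZetaNumerator k (𝒯.level n) P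

/-- The degree over `ℚ_p` of the splitting field over `ℚ_p` of an integral polynomial. -/
noncomputable def splitDeg (p : ℕ) [Fact p.Prime] (P : Polynomial ℤ) : ℕ :=
  Module.finrank ℚ_[p] (P.map (Int.castRingHom ℚ_[p])).SplittingField

end Pool.Agent.WanRH
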