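import Pool.Agent.WanRH.Euler

/-!
# Existence of a divisor of degree zero with nontrivial Artin symbol
-/

set_option linter.unusedSectionVars false
set_option linter.unusedVariables false

namespace Pool.Agent.WanRH

open Place

universe u v w

section Num

variable {k : Type u} {F : Type v} [Field k] [Finite k] [Field F] [Algebra k F]
  [IsFunctionField k F]

variable (k F) in
/-- The zeta function with coefficients in `R`. -/
noncomputable def zetaR (R : Type*) [CommRing R] : PowerSeries R :=
  gen (goodDeg k F) (fun _ => (1 : R))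

variable (k F) in
/-- Rationality of the zeta function with the standard denominator. -/
def HasNum (R : Type*) [CommRing R] : Prop :=
  ∃ P : Polynomial R, (P : PowerSeries R) =
    (1 - PowerSeries.X) * (1 - PowerSeries.C (Nat.card k : R) * PowerSeries.X) * zetaR k F R

variable {Ω : Type*} [Field Ω]

lemma coe_one_sub (c : Ω) : ((1 - Polynomial.C c * Polynomial.X : Polynomial Ω) : PowerSeries Ω) =
    1 - PowerSeries.C c * PowerSeries.X := by
  rw [Polynomial.coe_sub, Polynomial.coe_one, Polynomial.coe_mul, Polynomial.coe_C,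
    Polynomial.coe_X]

lemma coe_denom (c : Ω) : (((1 - Polynomial.X) * (1 - Polynomial.C c * Polynomial.X) :
    Polynomial Ω) : PowerSeries Ω) =
    (1 - PowerSeries.X) * (1 - PowerSeries.C c * PowerSeries.X) := by
  rw [Polynomial.coe_mul, coe_one_sub, Polynomial.coe_sub, Polynomial.coe_one, Polynomial.coe_X]

/-- The trivial L-series. -/
noncomputable def triv (T : Finset (Place k F)) (Ω : Type*) [Field Ω] : PowerSeries Ω :=
  Lser T (1 : Ω) (fun _ => 0)

lemma triv_eq (T : Finset (Place k F)) :
    triv T Ω = zetaR k F Ω * ∏ x ∈ T, (1 - PowerSeries.X ^ x.degree) := by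
  classical
  have h := gen_mul_prod (goodDeg k F) (fun _ => (1 : Ω)) T
  simp only [map_one, one_mul] at h
  unfold zetaR triv Lser
  rw [h]
  congr 1
  funext x
  unfold lw
  split_ifs <;> simp

lemma exists_num_T (h : HasNum k F Ω) (T : Finset (Place k F)) :
    ∃ Q : Polynomial Ω, (Q : PowerSeries Ω) =
      (1 - PowerSeries.X) * (1 - PowerSeries.C (Nat.card k : Ω) * PowerSeries.X) * triv T Ω := by
  obtain ⟨P, hP⟩ := h
  refine ⟨P * ∏ x ∈ T, (1 - Polynomial.X ^ x.degree), ?_⟩
  rw [triv_eq, Polynomial.coe_mul, hP]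
  have : ((∏ x ∈ T, (1 - Polynomial.X ^ x.degree) : Polynomial Ω) : PowerSeries Ω) =
      ∏ x ∈ T, (1 - PowerSeries.X ^ x.degree) := by
    rw [← Polynomial.coeToPowerSeries.ringHom_apply, map_prod]
    refine Finset.prod_congr rfl fun x _ => ?_
    simp
  rw [this]; ring

lemma coeff_triv (T : Finset (Place k F)) (m : ℕ) : PowerSeries.coeff m (triv T Ω) =
    (((eff (goodDeg k F) m).filter (fun D => ∀ x ∈ T, D x = 0)).card : Ω) := by
  classical
  unfold triv Lser
  rw [coeff_gen, Finset.card_filter]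
  push_cast
  refine Finset.sum_congr rfl fun D _ => ?_
  split_ifs with h
  · rw [wt_lw T one_ne_zero _ D h, one_zpow]
  · push Not at h
    obtain ⟨x, hx, hx'⟩ := h
    exact wt_eq_zero_of _ hx' (by unfold lw; rw [if_pos hx])

/-- The number of effective divisors is unbounded. -/
lemma count_unbounded (T : Finset (Place k F)) : ∃ e : ℕ, 0 < e ∧ ∀ r : ℕ,
    r + 1 ≤ ((eff (goodDeg k F) (r * e)).filter (fun D => ∀ x ∈ T, D x = 0)).card := by
  classical
  obtain ⟨x₁, hx₁⟩ := exists_place_notMem T
  obtain ⟨x₂, hx₂⟩ := exists_place_notMem (insert x₁ T)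
  rw [Finset.mem_insert, not_or] at hx₂
  obtain ⟨h12, hx₂⟩ := hx₂
  refine ⟨x₁.degree * x₂.degree, Nat.mul_pos x₁.degree_pos x₂.degree_pos, fun r => ?_⟩
  have : (Finset.range (r + 1)).card ≤ ((eff (goodDeg k F) (r * (x₁.degree * x₂.degree))).filter
      (fun D => ∀ x ∈ T, D x = 0)).card := by
    refine Finset.card_le_card_of_injOn
      (fun a => Finsupp.single x₁ (a * x₂.degree) + Finsupp.single x₂ ((r - a) * x₁.degree)) ?_ ?_
    · intro a ha
      simp only [Finset.coe_range, Set.mem_Iio] at ha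
      simp only [Finset.coe_filter, mem_eff, Set.mem_ofPred_eq, effDeg_add, effDeg_single]
      refine ⟨?_, fun x hx => ?_⟩
      · obtain ⟨b, rfl⟩ := Nat.exists_eq_add_of_le (Nat.lt_succ_iff.mp ha)
        rw [Nat.add_sub_cancel_left]; ring
      · have e1 : x₁ ≠ x := fun h => hx₁ (h ▸ hx)
        have e2 : x₂ ≠ x := fun h => hx₂ (h ▸ hx)
        simp [Finsupp.single_apply, e1, e2]
    · intro a _ b _ hab
      have h1 := DFunLike.congr_fun hab x₁
      simp only [Finsupp.coe_add, Pi.add_apply, Finsupp.single_eq_same, Finsupp.single_apply,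
        if_neg h12, add_zero] at h1
      exact Nat.eq_of_mul_eq_mul_right x₂.degree_pos h1
  simpa using this

variable [CharZero Ω]

/-- Nonvanishing of the numerator at `1/q`. -/
lemma num_ne_zero (T : Finset (Place k F)) {Q : Polynomial Ω} (hQ : (Q : PowerSeries Ω) =
      (1 - PowerSeries.X) * (1 - PowerSeries.C (Nat.card k : Ω) * PowerSeries.X) * triv T Ω) :
    Q.eval ((Nat.card k : Ω)⁻¹) ≠ 0 := by
  intro h0
  have hq0 : (Nat.card k : Ω) ≠ 0 := by
    have : 0 < Nat.card k := Nat.card_pos
    exact_mod_cast this.ne'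
  obtain ⟨R', hR'⟩ := Polynomial.dvd_iff_isRoot.mpr h0
  -- 1 - qX = -q (X - 1/q)
  set R : Polynomial Ω := -Polynomial.C ((Nat.card k : Ω)⁻¹) * R' with hR
  have hQR : Q = (1 - Polynomial.C (Nat.card k : Ω) * Polynomial.X) * R := by
    rw [hR', hR]
    have : Polynomial.C (Nat.card k : Ω) * Polynomial.C ((Nat.card k : Ω)⁻¹) = 1 := by
      rw [← Polynomial.C_mul, mul_inv_cancel₀ hq0, Polynomial.C_1]
    linear_combination (-Polynomial.X * R') * this
  have hcancel : (R : PowerSeries Ω) = (1 - PowerSeries.X) * triv T Ω := by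
    have h1 : (1 - PowerSeries.C (Nat.card k : Ω) * PowerSeries.X : PowerSeries Ω) ≠ 0 := by
      intro h
      have := congrArg (PowerSeries.coeff 0) h
      simp at this
    apply mul_left_cancel₀ h1
    have h2 := coe_one_sub (Nat.card k : Ω)
    rw [← h2, ← Polynomial.coe_mul, ← hQR, hQ, h2]
    ring
  -- coefficients eventually constant
  have hrec : ∀ m, R.natDegree ≤ m → PowerSeries.coeff (m + 1) (triv T Ω) =
      PowerSeries.coeff m (triv T Ω) := by
    intro m hm
    have h1 := congrArg (PowerSeries.coeff (m + 1)) hcancel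
    rw [Polynomial.coeff_coe, Polynomial.coeff_eq_zero_of_natDegree_lt (by omega), sub_mul,
      one_mul, map_sub, PowerSeries.coeff_succ_X_mul] at h1
    exact (sub_eq_zero.mp h1.symm)
  have hconst : ∀ m, PowerSeries.coeff (R.natDegree + m) (triv T Ω) =
      PowerSeries.coeff R.natDegree (triv T Ω) := by
    intro m
    induction m with
    | zero => rfl
    | succ m ih => rw [← add_assoc, hrec _ (by omega), ih]
  obtain ⟨e, he, hcount⟩ := count_unbounded (k := k) (F := F) T
  set c := ((eff (goodDeg k F) R.natDegree).filter (fun D => ∀ x ∈ T, D x = 0)).card with hc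
  set r := R.natDegree + c with hr
  have h1 : R.natDegree ≤ r * e := by nlinarith
  obtain ⟨m, hm⟩ := Nat.exists_eq_add_of_le h1
  have h2 := hconst m
  rw [← hm, coeff_triv, coeff_triv] at h2
  have h3 : ((eff (goodDeg k F) (r * e)).filter (fun D => ∀ x ∈ T, D x = 0)).card = c := by
    exact_mod_cast h2
  have h4 := hcount r
  omega

/-- The degrees of the places outside `T` have gcd `1` (in a field with rational zeta function
with the standard denominator). -/
lemma exists_not_dvd (T : Finset (Place k F)) (hnum : HasNum k F Ω) {h : ℕ} (hh : 2 ≤ h) :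
    ∃ y : Place k F, y ∉ T ∧ ¬ h ∣ y.degree := by
  classical
  by_contra hno
  push Not at hno
  obtain ⟨Q, hQ⟩ := exists_num_T hnum T
  set U := triv T Ω with hU
  have hzero : ∀ m, ¬ h ∣ m → PowerSeries.coeff m U = 0 := by
    intro m hm
    rw [hU, coeff_triv]
    have : (eff (goodDeg k F) m).filter (fun D => ∀ x ∈ T, D x = 0) = ∅ := by
      rw [Finset.filter_eq_empty_iff]
      intro D hD hDT
      apply hm
      rw [mem_eff] at hD
      rw [← hD]
      unfold effDeg Finsupp.sum
      refine Finset.dvd_sum fun y hy => ?_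
      have hyT : y ∉ T := fun hyT => (Finsupp.mem_support_iff.mp hy) (hDT y hyT)
      exact (hno y hyT).mul_left _
    rw [this]; simp
  have hrec : ∀ m, Q.natDegree < m + 2 → PowerSeries.coeff (m + 2) U -
      ((Nat.card k : Ω) + 1) * PowerSeries.coeff (m + 1) U +
      (Nat.card k : Ω) * PowerSeries.coeff m U = 0 := by
    intro m hm
    have h1 := congrArg (PowerSeries.coeff (m + 2)) hQ
    rw [Polynomial.coeff_coe, Polynomial.coeff_eq_zero_of_natDegree_lt hm] at h1
    have h2 : (1 - PowerSeries.X) * (1 - PowerSeries.C (Nat.card k : Ω) * PowerSeries.X) * U =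
        U - PowerSeries.X * (PowerSeries.C ((Nat.card k : Ω) + 1) * U) +
          PowerSeries.X * (PowerSeries.X * (PowerSeries.C (Nat.card k : Ω) * U)) := by
      rw [map_add, map_one]; ring
    rw [h2, map_add, map_sub, PowerSeries.coeff_succ_X_mul, PowerSeries.coeff_succ_X_mul,
      PowerSeries.coeff_succ_X_mul, PowerSeries.coeff_C_mul, PowerSeries.coeff_C_mul] at h1
    exact h1.symm
  obtain ⟨e, he, hcount⟩ := count_unbounded (k := k) (F := F) T
  set r := Q.natDegree + 1 with hr
  set M := r * (e * h) with hM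
  have hMpos : Q.natDegree + 1 ≤ M := by
    rw [hM]
    have : 1 ≤ e * h := Nat.mul_pos he (by omega)
    nlinarith
  have hdvd : h ∣ M := ⟨r * e, by rw [hM]; ring⟩
  obtain ⟨m, hm⟩ : ∃ m, M = m + 1 := ⟨M - 1, by omega⟩
  have h1 := hrec m (by omega)
  have h2 : ¬ h ∣ m + 2 := by
    intro h3
    have h4 : h ∣ (m + 2) - (m + 1) := Nat.dvd_sub h3 (hm ▸ hdvd)
    rw [show (m + 2) - (m + 1) = 1 by omega, Nat.dvd_one] at h4
    omega
  have h3 : ¬ h ∣ m := by
    intro h3
    have h4 : h ∣ (m + 1) - m := Nat.dvd_sub (hm ▸ hdvd) h3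
    rw [show (m + 1) - m = 1 by omega, Nat.dvd_one] at h4
    omega
  rw [hzero _ h2, hzero _ h3, mul_zero, zero_sub, add_zero, neg_eq_zero, mul_eq_zero] at h1
  have hq1 : (Nat.card k : Ω) + 1 ≠ 0 := Nat.cast_add_one_ne_zero (Nat.card k)
  have h4 := h1.resolve_left hq1
  rw [← hm, hM, hU, coeff_triv] at h4
  have h5 := hcount (r * h)
  rw [show r * h * e = r * (e * h) by ring] at h5
  have h6 : ((eff (goodDeg k F) (r * (e * h))).filter (fun D => ∀ x ∈ T, D x = 0)).card = 0 := by
    exact_mod_cast h4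
  omega

/-- There is a divisor of degree one supported outside `T`. -/
lemma exists_degree_one (T : Finset (Place k F)) (hnum : HasNum k F Ω) :
    ∃ E : Div k F, (∀ x ∈ T, E x = 0) ∧ Div.deg E = 1 := by
  classical
  set H : AddSubgroup ℤ :=
    { carrier := {n | ∃ E : Div k F, (∀ x ∈ T, E x = 0) ∧ Div.deg E = n}
      add_mem' := by
        rintro a b ⟨E, hE, rfl⟩ ⟨E', hE', rfl⟩
        exact ⟨E + E', fun x hx => by rw [Finsupp.coe_add, Pi.add_apply, hE x hx, hE' x hx]; rfl,
          Div.deg_add _ _⟩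
      zero_mem' := ⟨0, fun x _ => rfl, Div.deg_zero⟩
      neg_mem' := by
        rintro a ⟨E, hE, rfl⟩
        exact ⟨-E, fun x hx => by rw [Finsupp.coe_neg, Pi.neg_apply, hE x hx]; rfl,
          Div.deg_neg _⟩ } with hH
  have hmem : ∀ y : Place k F, y ∉ T → (y.degree : ℤ) ∈ H := by
    intro y hy
    refine ⟨Finsupp.single y 1, fun x hx => ?_, by rw [Div.deg_single]; ring⟩
    rw [Finsupp.single_apply, if_neg]
    rintro rfl
    exact hy hx
  obtain ⟨a, ha⟩ := Int.subgroup_cyclic H
  have hdvd : ∀ n ∈ H, a ∣ n := by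
    intro n hn
    rw [ha, AddSubgroup.mem_closure_singleton] at hn
    obtain ⟨c, hc⟩ := hn
    exact ⟨c, by rw [← hc, smul_eq_mul, mul_comm]⟩
  have h1 : a.natAbs = 1 := by
    by_contra hne
    rcases Nat.lt_or_ge a.natAbs 2 with hlt | hge
    · have h0 : a = 0 := by omega
      obtain ⟨x, hx⟩ := exists_place_notMem T
      have h2 := hdvd _ (hmem x hx)
      rw [h0, zero_dvd_iff] at h2
      have := x.degree_pos
      omega
    · obtain ⟨y, hy, hy'⟩ := exists_not_dvd T hnum hge
      apply hy'
      have h2 := hdvd _ (hmem y hy)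
      exact Int.natCast_dvd_natCast.mp ((Int.natAbs_dvd).mpr h2)
  have h2 : (1 : ℤ) ∈ H := by
    rw [ha, AddSubgroup.mem_closure_singleton]
    rcases Int.natAbs_eq a with h | h
    · exact ⟨1, by rw [h, h1]; simp⟩
    · exact ⟨-1, by rw [h, h1]; simp⟩
  exact h2

end Num

section Main

variable {k : Type u} {K : Type v} {L : Type w} [Field k] [Finite k]
  [Field K] [Algebra k K] [IsFunctionField k K]
  [Field L] [Algebra k L] [IsFunctionField k L]
  [Algebra K L] [IsScalarTower k K L] [FiniteDimensional K L] [IsGalois K L]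

/-- **Existence of a divisor of degree zero with nontrivial Artin symbol.** -/
theorem exists_deg_zero (Ω : Type*) [Field Ω] [CharZero Ω] (T : Finset (Place k K))
    (hun : ∀ y : Place k L, y.down K ∉ T → Unram K y) {N : ℕ} (hN : 2 ≤ N) (σ₀ : L ≃ₐ[K] L)
    (hσ₀ : ∀ σ : L ≃ₐ[K] L, σ ∈ Subgroup.zpowers σ₀) (hord : orderOf σ₀ = N)
    {ζ : Ω} (hζ : IsPrimitiveRoot ζ N)
    (j : Place k K → ℕ)
    (hj : ∀ y : Place k L, y.down K ∉ T → IsFrob (σ₀ ^ j (y.down K)) y)
    (hnumK : HasNum k K Ω) (hnumL : HasNum k L Ω) :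
    ∃ D₀ : Div k K, (∀ x ∈ T, D₀ x = 0) ∧ Div.deg D₀ = 0 ∧ ¬ (N : ℤ) ∣ phi j D₀ := by
  classical
  by_contra hno
  push Not at hno
  -- a divisor of degree one on L and its push-forward
  obtain ⟨E, hET, hE1⟩ := exists_degree_one (above L T) hnumL
  set D : Div k K := E.sum fun y e =>
    Finsupp.single (y.down K) (e * (orderOf (σ₀ ^ j (y.down K)) : ℤ)) with hD
  have hsuppT : ∀ y ∈ E.support, y.down K ∉ T := by
    intro y hy h
    exact (Finsupp.mem_support_iff.mp hy) (hET y (mem_above.mpr h))
  have hDT : ∀ x ∈ T, D x = 0 := by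
    intro x hx
    rw [hD, Finsupp.sum, Finsupp.finsetSum_apply]
    refine Finset.sum_eq_zero fun y hy => ?_
    rw [Finsupp.single_apply, if_neg]
    intro h
    exact hsuppT y hy (h ▸ hx)
  have hdegsum : ∀ (S : Finset (Place k L)) (g : Place k L → Div k K),
      Div.deg (∑ y ∈ S, g y) = ∑ y ∈ S, Div.deg (g y) := by
    intro S g
    induction S using Finset.induction_on with
    | empty => simp
    | insert a S ha ih => rw [Finset.sum_insert ha, Finset.sum_insert ha, Div.deg_add, ih]
  have hphisum : ∀ (S : Finset (Place k L)) (g : Place k L → Div k K),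
      phi j (∑ y ∈ S, g y) = ∑ y ∈ S, phi j (g y) := by
    intro S g
    induction S using Finset.induction_on with
    | empty => simp [phi]
    | insert a S ha ih => rw [Finset.sum_insert ha, Finset.sum_insert ha, phi_add, ih]
  have hDdeg : Div.deg D = 1 := by
    rw [← hE1, hD, Finsupp.sum, hdegsum]
    unfold Div.deg Finsupp.sum
    refine Finset.sum_congr rfl fun y hy => ?_
    have h1 := Div.deg_single (y.down K) (E y * (orderOf (σ₀ ^ j (y.down K)) : ℤ))
    unfold Div.deg Finsupp.sum at h1
    show _ = E y * (y.degree : ℤ)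
    rw [h1, degree_of_unram (hun y (hsuppT y hy)) (hj y (hsuppT y hy))]
    push_cast; ring
  have hDphi : (N : ℤ) ∣ phi j D := by
    rw [hD, Finsupp.sum, hphisum]
    refine Finset.dvd_sum fun y hy => ?_
    have h1 : phi j (Finsupp.single (y.down K) (E y * (orderOf (σ₀ ^ j (y.down K)) : ℤ))) =
        E y * (orderOf (σ₀ ^ j (y.down K)) : ℤ) * j (y.down K) := by
      unfold phi
      rw [Finsupp.sum_single_index]; simp
    rw [h1]
    have h2 : N ∣ orderOf (σ₀ ^ j (y.down K)) * j (y.down K) := by
      rw [← hord, orderOf_dvd_iff_pow_eq_one, mul_comm, pow_mul]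
      exact pow_orderOf_eq_one _
    have h3 : (N : ℤ) ∣ (orderOf (σ₀ ^ j (y.down K)) : ℤ) * (j (y.down K) : ℤ) := by
      exact_mod_cast h2
    rw [mul_assoc]
    exact h3.mul_left _
  -- all Frobenius exponents vanish
  have hall : ∀ x ∉ T, N ∣ j x := by
    intro x hx
    have h1 := hno (Finsupp.single x 1 + -((x.degree : ℤ) • D)) (by
      intro z hz
      rw [Finsupp.coe_add, Pi.add_apply, Finsupp.coe_neg, Pi.neg_apply, Finsupp.coe_smul,
        Pi.smul_apply, hDT z hz, Finsupp.single_apply, if_neg]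
      · simp
      · rintro rfl; exact hx hz) (by
      rw [Div.deg_add, Div.deg_neg, Div.deg_smul, hDdeg, Div.deg_single]; ring)
    have h2 : phi j ((x.degree : ℤ) • D) = x.degree * phi j D := by
      have : ∀ n : ℕ, phi j ((n : ℤ) • D) = n * phi j D := by
        intro n
        induction n with
        | zero => simp [phi]
        | succ n ih => push_cast; rw [add_smul, one_smul, phi_add, ih]; ring
      exact this _
    have h3 : phi j (Finsupp.single x (1 : ℤ) : Div k K) = j x := by
      unfold phi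
      rw [Finsupp.sum_single_index] <;> simp
    rw [phi_add, phi_neg, h2, h3] at h1
    have h4 : (N : ℤ) ∣ (j x : ℤ) := by
      have := dvd_add h1 (hDphi.mul_left (x.degree : ℤ))
      simpa using this
    exact_mod_cast h4
  -- then the zeta function of L is the N-th power of that of K
  have hprod := euler_product (Ω := Ω) T hun (by omega) σ₀ hσ₀ hord hζ j hj
  have hpow : triv (above L T) Ω = (triv T Ω) ^ N := by
    unfold triv
    rw [hprod, ← Finset.card_range N, ← Finset.prod_const]
    rw [Finset.card_range]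
    refine Finset.prod_congr rfl fun i _ => ?_
    unfold Lser
    congr 1
    funext x
    unfold lw
    split_ifs with hx
    · rfl
    · obtain ⟨c, hc⟩ := hall x hx
      rw [hc, ← pow_mul, mul_comm N c, mul_comm i, mul_assoc, mul_comm N i, ← mul_assoc, pow_mul ζ,
        one_pow]
      rw [← pow_mul, mul_comm, pow_mul, hζ.pow_eq_one, one_pow]
  obtain ⟨QK, hQK⟩ := exists_num_T hnumK T
  obtain ⟨QL, hQL⟩ := exists_num_T hnumL (above L T)
  have hQK0 := num_ne_zero T hQK
  obtain ⟨M, rfl⟩ : ∃ M, N = M + 2 := ⟨N - 2, by omega⟩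
  have hpoly : QL * ((1 - Polynomial.X) * (1 - Polynomial.C (Nat.card k : Ω) * Polynomial.X)) ^ (M + 1)
      = QK ^ (M + 2) := by
    apply Polynomial.coe_injective Ω
    rw [Polynomial.coe_mul, Polynomial.coe_pow, Polynomial.coe_pow, hQL, hQK, hpow]
    rw [coe_denom]
    generalize (1 - PowerSeries.X) * (1 - PowerSeries.C (Nat.card k : Ω) * PowerSeries.X) = A
    generalize triv T Ω = B
    rw [mul_pow, pow_succ A (M + 1)]
    ring
  have heval := congrArg (Polynomial.eval ((Nat.card k : Ω)⁻¹)) hpoly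
  have hq0 : (Nat.card k : Ω) ≠ 0 := by
    have : 0 < Nat.card k := Nat.card_pos
    exact_mod_cast this.ne'
  rw [Polynomial.eval_mul, Polynomial.eval_pow, Polynomial.eval_pow] at heval
  have h0 : Polynomial.eval ((Nat.card k : Ω)⁻¹)
      ((1 - Polynomial.X) * (1 - Polynomial.C (Nat.card k : Ω) * Polynomial.X)) = 0 := by
    simp [hq0]
  rw [h0, zero_pow (by omega), mul_zero] at heval
  exact hQK0 (pow_eq_zero_iff (by omega) |>.mp heval.symm)

end Main

end Pool.Agent.WanRH
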