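import Pool.Agent.WanRH.ClassNum
import Pool.Agent.WanRH.ConstPlaces

/-!
# F. K. Schmidt's theorem: there is a divisor of degree one
-/

set_option linter.unusedSectionVars false
set_option linter.unusedVariables false

namespace Pool.Agent.WanRH

universe u v w

open Place

section Schmidt

variable {k : Type u} {K : Type v} {k' : Type} {L : Type v} [Field k] [Field K]
    [Field k'] [Field L] [Algebra k K] [Algebra k k'] [Algebra K L] [Algebra k' L] [Algebra k L]
    [IsScalarTower k K L] [IsScalarTower k k' L] {r : ℕ} [Finite k] [Finite k']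
    [IsFunctionField k K] [IsFunctionField k' L] [FiniteDimensional K L]

lemma Above.unique {y : Place k' L} {x x' : Place k K} (h : Above y x) (h' : Above y x') :
    x = x' := by
  apply Place.ext
  ext a
  rw [← h a, h' a]

/-- The counting contradiction. -/
theorem false_of_constExt (h : IsConstExt k K k' L r) (hr : 2 ≤ r)
    (hdiv : ∀ x : Place k K, r ∣ x.degree) (D₀ : Div k K) (hD₀ : D₀.deg = r) : False := by
  classical
  choose y₁ y₂ hne h₁ h₂ hd₁ hd₂ using fun x => exists_two_above h hr x (hdiv x)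
  have hy₁ : Function.Injective y₁ := fun x x' hxx => (h₁ x).unique (hxx ▸ h₁ x')
  have hy₂ : Function.Injective y₂ := fun x x' hxx => (h₂ x).unique (hxx ▸ h₂ x')
  have hy₁₂ : ∀ x x', y₁ x ≠ y₂ x' := by
    intro x x' hxx
    have : x = x' := (h₁ x).unique (hxx ▸ h₂ x')
    subst this
    exact hne x hxx
  let Φ : (Place k K →₀ ℕ) × (Place k K →₀ ℕ) → (Place k' L →₀ ℕ) := fun q =>
    q.1.mapDomain y₁ + q.2.mapDomain y₂
  have hΦ₁ : ∀ q x, Φ q (y₁ x) = q.1 x := by
    intro q x
    show (q.1.mapDomain y₁ + q.2.mapDomain y₂) (y₁ x) = q.1 x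
    rw [Finsupp.add_apply, Finsupp.mapDomain_apply hy₁, Finsupp.mapDomain_of_notMem_range, add_zero]
    rintro ⟨x', hx'⟩
    exact hy₁₂ x x' hx'.symm
  have hΦ₂ : ∀ q x, Φ q (y₂ x) = q.2 x := by
    intro q x
    show (q.1.mapDomain y₁ + q.2.mapDomain y₂) (y₂ x) = q.2 x
    rw [Finsupp.add_apply, Finsupp.mapDomain_apply hy₂, Finsupp.mapDomain_of_notMem_range, zero_add]
    rintro ⟨x', hx'⟩
    exact hy₁₂ x' x hx'
  have hΦinj : Function.Injective Φ := by
    intro q q' hqq
    refine Prod.ext ?_ ?_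
    · ext x
      rw [← hΦ₁ q, hqq, hΦ₁]
    · ext x
      rw [← hΦ₂ q, hqq, hΦ₂]
  have hmap : ∀ (y : Place k K → Place k' L) (hy : ∀ x, r * (y x).degree = x.degree)
      (D : Place k K →₀ ℕ), r * effDeg Place.degree (D.mapDomain y) = effDeg Place.degree D := by
    intro y hy D
    unfold effDeg
    rw [Finsupp.sum_mapDomain_index (by intro a; simp) (by intro a b c; ring)]
    unfold Finsupp.sum
    rw [Finset.mul_sum]
    refine Finset.sum_congr rfl fun x _ => ?_
    show r * (D x * (y x).degree) = D x * x.degree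
    rw [← hy x]
    ring
  have hΦdeg : ∀ q, r * effDeg Place.degree (Φ q) =
      effDeg Place.degree q.1 + effDeg Place.degree q.2 := by
    intro q
    show r * effDeg Place.degree (q.1.mapDomain y₁ + q.2.mapDomain y₂) = _
    rw [effDeg_add, mul_add, hmap y₁ hd₁, hmap y₂ hd₂]
  -- bounds
  obtain ⟨C, hC⟩ := eff_card_le k' L
  obtain ⟨c, m₀, hc, hcm⟩ := eff_card_ge k K
  set q := Nat.card k with hq
  have hq0 : 0 < q := Nat.card_pos
  have hqk' : Nat.card k' = q ^ r := by
    rw [Module.natCard_eq_pow_finrank (K := k), h.finrank_k]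
  have hlow : ∀ i, m₀ ≤ i → q ^ (r * i) ≤ c * (eff (goodDeg k K) (r * i)).card := by
    intro i hi
    refine hcm (i • D₀) (r * i) (hi.trans (Nat.le_mul_of_pos_left _ (by omega))) ?_
    rw [Div.deg_nsmul, hD₀]
    push_cast
    ring
  have hkey : ∀ t : ℕ, (t + 1) * q ^ (r * (2 * m₀ + t)) ≤
      c ^ 2 * (eff (goodDeg k' L) (2 * m₀ + t)).card := by
    intro t
    let T : Finset (Σ _ : ℕ, (Place k K →₀ ℕ) × (Place k K →₀ ℕ)) :=
      (Finset.range (t + 1)).sigma fun j =>
        eff (goodDeg k K) (r * (m₀ + j)) ×ˢ eff (goodDeg k K) (r * (m₀ + (t - j)))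
    have hT : T.card ≤ (eff (goodDeg k' L) (2 * m₀ + t)).card := by
      refine Finset.card_le_card_of_injOn (fun s => Φ s.2) ?_ ?_
      · rintro ⟨j, s⟩ hs
        have hs' := Finset.mem_sigma.mp (Finset.mem_coe.mp hs)
        obtain ⟨hj, hs2⟩ := hs'
        rw [Finset.mem_product, mem_eff, mem_eff] at hs2
        rw [Finset.mem_range] at hj
        rw [Finset.mem_coe, mem_eff]
        have h3 := hΦdeg s
        simp only at hs2 hj
        rw [hs2.1, hs2.2, ← mul_add] at h3
        have h4 := Nat.eq_of_mul_eq_mul_left (by omega) h3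
        show effDeg Place.degree (Φ s) = 2 * m₀ + t
        rw [h4]
        omega
      · rintro ⟨j, s⟩ hs ⟨j', s'⟩ hs' hss
        have h5 : s = s' := hΦinj hss
        subst h5
        have h6 := (Finset.mem_sigma.mp (Finset.mem_coe.mp hs)).2
        have h7 := (Finset.mem_sigma.mp (Finset.mem_coe.mp hs')).2
        rw [Finset.mem_product, mem_eff] at h6 h7
        have h8 : r * (m₀ + j) = r * (m₀ + j') := by
          rw [← h6.1, ← h7.1]
        have h9 := Nat.eq_of_mul_eq_mul_left (by omega) h8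
        have h10 : j = j' := by omega
        subst h10
        rfl
    have hTcard : T.card = ∑ j ∈ Finset.range (t + 1),
        (eff (goodDeg k K) (r * (m₀ + j))).card * (eff (goodDeg k K) (r * (m₀ + (t - j)))).card := by
      rw [Finset.card_sigma]
      refine Finset.sum_congr rfl fun j _ => ?_
      rw [Finset.card_product]
    have hsum : (t + 1) * q ^ (r * (2 * m₀ + t)) ≤ c ^ 2 * T.card := by
      rw [hTcard, Finset.mul_sum]
      have h3 : (t + 1) * q ^ (r * (2 * m₀ + t)) =
          ∑ j ∈ Finset.range (t + 1), q ^ (r * (2 * m₀ + t)) := by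
        rw [Finset.sum_const, Finset.card_range, smul_eq_mul]
      rw [h3]
      refine Finset.sum_le_sum fun j hj => ?_
      rw [Finset.mem_range] at hj
      have h4 := hlow (m₀ + j) (by omega)
      have h5 := hlow (m₀ + (t - j)) (by omega)
      have h6 : q ^ (r * (2 * m₀ + t)) = q ^ (r * (m₀ + j)) * q ^ (r * (m₀ + (t - j))) := by
        rw [← pow_add, ← mul_add]
        congr 2
        omega
      rw [h6]
      calc q ^ (r * (m₀ + j)) * q ^ (r * (m₀ + (t - j))) ≤ _ := Nat.mul_le_mul h4 h5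
        _ = _ := by ring
    exact hsum.trans (Nat.mul_le_mul_left _ hT)
  -- contradiction
  set t := c ^ 2 * C * q ^ r with ht
  have h3 := hkey t
  have h4 := hC (2 * m₀ + t)
  rw [hqk'] at h4
  have h5 : (t + 1) * q ^ (r * (2 * m₀ + t)) ≤ t * q ^ (r * (2 * m₀ + t)) := by
    calc (t + 1) * q ^ (r * (2 * m₀ + t)) ≤ _ := h3
      _ ≤ c ^ 2 * (C * (q ^ r) ^ (2 * m₀ + t + 1)) := Nat.mul_le_mul_left _ h4
      _ = t * q ^ (r * (2 * m₀ + t)) := by
        rw [ht, pow_succ (q ^ r), ← pow_mul]
        ring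
  have h6 : 0 < q ^ (r * (2 * m₀ + t)) := pow_pos hq0 _
  nlinarith

end Schmidt

/-- **F. K. Schmidt.** A function field over a finite field has a divisor of degree one. -/
theorem exists_deg_one (k : Type u) (K : Type v) [Field k] [Finite k] [Field K] [Algebra k K]
    [IsFunctionField k K] : ∃ D : Div k K, D.deg = 1 := by
  obtain ⟨δ, hδ, hdiv, D, hD⟩ := exists_min_deg k K
  by_cases h1 : δ = 1
  · exact ⟨D, by rw [hD, h1]; rfl⟩
  · exfalso
    obtain ⟨k', L, i1, i2, i3, i4, i5, i6, i7, i8, i9, hce⟩ := exists_constExt k K δ hδ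
    have hff : IsFunctionField k' L := hce.isFunctionField hδ
    have hfd : FiniteDimensional K L := hce.finite_dim hδ
    exact false_of_constExt hce (by omega) hdiv D hD

end Pool.Agent.WanRH
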