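import Mathlib

/-!
# Determinants of polynomial families of endomorphisms

For a finite-dimensional `k`-space `V` and endomorphisms `φ 0, φ 1, …` we consider
`det (∑_{j<N} z^j φ_j) ∈ k[z]`.
-/

namespace Pool.Agent.WanRH

open Polynomial Module

section DP

variable {k : Type*} [Field k]
variable {V : Type*} [AddCommGroup V] [Module k V]
variable {V' : Type*} [AddCommGroup V'] [Module k V']
variable {V'' : Type*} [AddCommGroup V''] [Module k V'']

/-- The matrix of `∑_{j<N} z^j φ_j`. -/
noncomputable def polyMat (N : ℕ) {ι : Type*} [Fintype ι] [DecidableEq ι] (b : Basis ι k V)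
    (φ : ℕ → V →ₗ[k] V) : Matrix ι ι k[X] :=
  ∑ j ∈ Finset.range N, (X : k[X]) ^ j • (LinearMap.toMatrix b b (φ j)).map (C : k → k[X])

/-- `det (∑_{j<N} z^j φ_j)`. -/
noncomputable def dp (N : ℕ) (φ : ℕ → V →ₗ[k] V) : k[X] :=
  LinearMap.det (∑ j ∈ Finset.range N, (X : k[X]) ^ j • (φ j).baseChange k[X])

lemma dp_eq (N : ℕ) {ι : Type*} [Fintype ι] [DecidableEq ι] (b : Basis ι k V)
    (φ : ℕ → V →ₗ[k] V) : dp N φ = (polyMat N b φ).det := by
  unfold dp polyMat
  rw [← LinearMap.det_toMatrix (Algebra.TensorProduct.basis k[X] b), map_sum]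
  congr 1
  refine Finset.sum_congr rfl fun j _ => ?_
  rw [_root_.map_smul, LinearMap.toMatrix_baseChange]
  rfl

lemma polyMat_apply (N : ℕ) {ι : Type*} [Fintype ι] [DecidableEq ι] (b : Basis ι k V)
    (φ : ℕ → V →ₗ[k] V) (l i : ι) :
    polyMat N b φ l i = ∑ j ∈ Finset.range N, X ^ j * C (LinearMap.toMatrix b b (φ j) l i) := by
  unfold polyMat
  rw [Matrix.sum_apply]
  rfl

/-- Invariance under isomorphism. -/
lemma dp_equiv (N : ℕ) [FiniteDimensional k V] (e : V ≃ₗ[k] V') (φ : ℕ → V →ₗ[k] V)
    (φ' : ℕ → V' →ₗ[k] V') (h : ∀ j x, e (φ j x) = φ' j (e x)) : dp N φ = dp N φ' := by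
  classical
  set b := Module.finBasis k V
  rw [dp_eq N b φ, dp_eq N (b.map e) φ']
  congr 1
  ext1 l i
  rw [polyMat_apply, polyMat_apply]
  refine Finset.sum_congr rfl fun j _ => ?_
  congr 2
  rw [LinearMap.toMatrix_apply, LinearMap.toMatrix_apply]
  simp [← h]

/-- Multiplicativity in short exact sequences. -/
lemma dp_exact (N : ℕ) [FiniteDimensional k V] [FiniteDimensional k V']
    [FiniteDimensional k V''] (i : V' →ₗ[k] V) (g : V →ₗ[k] V'')
    (hi : Function.Injective i) (hg : Function.Surjective g) (hex : LinearMap.range i = LinearMap.ker g)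
    (φ : ℕ → V →ₗ[k] V) (φ' : ℕ → V' →ₗ[k] V') (φ'' : ℕ → V'' →ₗ[k] V'')
    (h' : ∀ j x, i (φ' j x) = φ j (i x)) (h'' : ∀ j x, g (φ j x) = φ'' j (g x)) :
    dp N φ = dp N φ' * dp N φ'' := by
  classical
  obtain ⟨s, hs⟩ := LinearMap.exists_rightInverse_of_surjective g (LinearMap.range_eq_top.mpr hg)
  have hgs : ∀ y, g (s y) = y := fun y => by
    have := LinearMap.congr_fun hs y
    simpa using this
  have hgi : ∀ x, g (i x) = 0 := fun x => by
    have : i x ∈ LinearMap.ker g := hex ▸ LinearMap.mem_range_self i x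
    simpa using this
  set f : (V' × V'') →ₗ[k] V := LinearMap.coprod i s with hf
  have hbij : Function.Bijective f := by
    constructor
    · rw [injective_iff_map_eq_zero]
      rintro ⟨a, b⟩ hab
      rw [hf, LinearMap.coprod_apply] at hab
      have h1 := congrArg g hab
      rw [map_add, hgi, hgs, zero_add, map_zero] at h1
      have h2 : i a = 0 := by rw [h1, map_zero, add_zero] at hab; exact hab
      have h3 : a = 0 := hi (by rw [h2, map_zero])
      exact Prod.ext h3 h1
    · intro y
      have : y - s (g y) ∈ LinearMap.range i := by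
        rw [hex, LinearMap.mem_ker, map_sub, hgs, sub_self]
      obtain ⟨a, ha⟩ := this
      exact ⟨(a, g y), by rw [hf, LinearMap.coprod_apply, ha]; abel⟩
  set e : (V' × V'') ≃ₗ[k] V := LinearEquiv.ofBijective f hbij with he
  have he1 : ∀ a b, e (a, b) = i a + s b := fun a b => by
    rw [he, LinearEquiv.ofBijective_apply, hf, LinearMap.coprod_apply]
  have hesnd : ∀ y, (e.symm y).2 = g y := by
    intro y
    obtain ⟨⟨a, b⟩, rfl⟩ := e.surjective y
    rw [LinearEquiv.symm_apply_apply, he1, map_add, hgi, hgs, zero_add]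
  have hei : ∀ a, e.symm (i a) = (a, 0) := by
    intro a
    rw [LinearEquiv.symm_apply_eq, he1, map_zero, add_zero]
  set b' := Module.finBasis k V'
  set b'' := Module.finBasis k V''
  set b := (b'.prod b'').map e with hb
  rw [dp_eq N b φ, dp_eq N b' φ', dp_eq N b'' φ'', ← Matrix.det_fromBlocks_zero₂₁
    (polyMat N b' φ') (Matrix.of fun l m => polyMat N b φ (Sum.inl l) (Sum.inr m))]
  congr 1
  ext1 u v
  have hbrepr : ∀ y u, b.repr y u = (b'.prod b'').repr (e.symm y) u := by
    intro y u
    rw [hb, Basis.map_repr]; rfl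
  cases u with
  | inl u =>
    cases v with
    | inl v =>
      rw [Matrix.fromBlocks_apply₁₁, polyMat_apply, polyMat_apply]
      refine Finset.sum_congr rfl fun j _ => ?_
      congr 2
      rw [LinearMap.toMatrix_apply, LinearMap.toMatrix_apply, hbrepr, hb, Basis.map_apply,
        Basis.prod_apply]
      simp only [Sum.elim_inl, Function.comp_apply, LinearMap.inl_apply]
      rw [he1, map_zero, add_zero, ← h', hei]
      simp
    | inr v => rfl
  | inr u =>
    cases v with
    | inl v =>
      rw [Matrix.fromBlocks_apply₂₁, polyMat_apply]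
      simp only [Matrix.zero_apply]
      refine Finset.sum_eq_zero fun j _ => ?_
      rw [LinearMap.toMatrix_apply, hbrepr, hb, Basis.map_apply,
        Basis.prod_apply]
      simp only [Sum.elim_inl, Function.comp_apply, LinearMap.inl_apply]
      rw [he1, map_zero, add_zero, ← h', hei]
      simp
    | inr v =>
      rw [Matrix.fromBlocks_apply₂₂, polyMat_apply, polyMat_apply]
      refine Finset.sum_congr rfl fun j _ => ?_
      congr 2
      rw [LinearMap.toMatrix_apply, LinearMap.toMatrix_apply, hbrepr, hb, Basis.map_apply,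
        Basis.prod_apply]
      simp only [Sum.elim_inr, Function.comp_apply, LinearMap.inr_apply]
      rw [he1, map_zero, zero_add]
      have : (e.symm ((φ j) (s (b'' v)))).2 = φ'' j (b'' v) := by
        rw [hesnd, h'', hgs]
      rw [← this]
      simp

end DP

end Pool.Agent.WanRH
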