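import Pool.Agent.WanRH.Count

/-!
# Vanishing of high coefficients of L-series
-/

set_option linter.unusedSectionVars false
set_option linter.unusedVariables false

namespace Pool.Agent.WanRH

open Place

universe u v

section Vanish

variable {k : Type u} {F : Type v} [Field k] [Finite k] [Field F] [Algebra k F]
  [IsFunctionField k F]

/-- Value of an additive character exponent on a divisor. -/
noncomputable def phi (j : Place k F → ℕ) (E : Div k F) : ℤ := E.sum fun x e => e * (j x : ℤ)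

lemma phi_add (j : Place k F → ℕ) (E E' : Div k F) : phi j (E + E') = phi j E + phi j E' := by
  classical
  unfold phi
  rw [Finsupp.sum_add_index']
  · intro a; simp
  · intro a b c; ring

lemma phi_neg (j : Place k F → ℕ) (E : Div k F) : phi j (-E) = -phi j E := by
  have h := phi_add j (-E) E
  rw [neg_add_cancel] at h
  have h0 : phi j (0 : Div k F) = 0 := by simp [phi]
  omega

/-- The weight defining the L-series. -/
noncomputable def lw {Ω : Type*} [Field Ω] (T : Finset (Place k F)) (ζ : Ω) (j : Place k F → ℕ)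
    (x : Place k F) : Ω := open Classical in if x ∈ T then 0 else ζ ^ j x

/-- The L-series `∏_{x ∉ T} (1 - ζ^{j_x} s^{deg x})⁻¹`. -/
noncomputable def Lser {Ω : Type*} [Field Ω] (T : Finset (Place k F)) (ζ : Ω)
    (j : Place k F → ℕ) : PowerSeries Ω := gen (goodDeg k F) (lw T ζ j)

lemma wt_lw {Ω : Type*} [Field Ω] (T : Finset (Place k F)) {ζ : Ω} (hζ : ζ ≠ 0)
    (j : Place k F → ℕ) (D : Place k F →₀ ℕ) (hD : ∀ x ∈ T, D x = 0) :
    wt (lw T ζ j) D = ζ ^ phi j (toDiv D) := by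
  classical
  have h1 : phi j (toDiv D) = ((D.sum fun x n => n * j x : ℕ) : ℤ) := by
    unfold phi toDiv
    rw [Finsupp.sum_mapRange_index (by intro a; simp)]
    unfold Finsupp.sum
    push_cast
    rfl
  rw [h1, zpow_natCast]
  unfold wt Finsupp.prod Finsupp.sum
  rw [← Finset.prod_pow_eq_pow_sum]
  refine Finset.prod_congr rfl fun x hx => ?_
  have hxT : x ∉ T := fun h => (Finsupp.mem_support_iff.mp hx) (hD x h)
  show (lw T ζ j x) ^ (D x) = ζ ^ (D x * j x)
  unfold lw
  rw [if_neg hxT, ← pow_mul, mul_comm]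

/-- **Vanishing of high coefficients.** -/
theorem vanish {T : Finset (Place k F)} (hT : T.Nonempty) {Ω : Type*} [Field Ω] [CharZero Ω]
    {N : ℕ} {ζ : Ω} (hζ : ζ ^ N = 1) (hN : 0 < N) (j : Place k F → ℕ)
    (hrec : ∃ m' : ℕ, 0 < m' ∧ ∀ a : F, a ≠ 0 → (∀ x ∈ T, a - 1 ∈ x.fil m') →
      (N : ℤ) ∣ phi j (pdiv (k := k) a))
    (D₀ : Div k F) (hD₀T : ∀ x ∈ T, D₀ x = 0) (hD₀ : Div.deg D₀ = 0)
    (hne : ζ ^ phi j D₀ ≠ 1) :
    ∃ d₁ : ℕ, ∀ d, d₁ ≤ d → PowerSeries.coeff d (Lser T ζ j) = 0 := by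
  classical
  obtain ⟨m', hm', hrec⟩ := hrec
  obtain ⟨d₁, hd₁⟩ := exists_count (k := k) (F := F) hT m' hm'
  refine ⟨d₁.toNat, fun d hd => ?_⟩
  have hζ0 : ζ ≠ 0 := by
    rintro rfl
    rw [zero_pow hN.ne'] at hζ
    exact zero_ne_one hζ
  obtain ⟨C, hC, hcount⟩ := hd₁ d (by
    have := Int.self_le_toNat d₁
    have h2 : (d₁.toNat : ℤ) ≤ d := by exact_mod_cast hd
    omega)
  set S := (eff (goodDeg k F) d).filter (fun D => ∀ x ∈ T, D x = 0) with hS
  have hSmem : ∀ D : Place k F →₀ ℕ, D ∈ S ↔ Div.deg (toDiv D) = d ∧ ∀ x ∈ T, D x = 0 := by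
    intro D
    rw [hS, Finset.mem_filter, mem_eff, deg_toDiv]
    norm_cast
  have hcoeff : PowerSeries.coeff d (Lser T ζ j) = ∑ D ∈ S, ζ ^ phi j (toDiv D) := by
    unfold Lser
    rw [coeff_gen, hS, Finset.sum_filter]
    refine Finset.sum_congr rfl fun D _ => ?_
    split_ifs with h
    · exact wt_lw T hζ0 j D h
    · push Not at h
      obtain ⟨x, hx, hx'⟩ := h
      exact wt_eq_zero_of _ hx' (by unfold lw; rw [if_pos hx])
  set r : (Place k F →₀ ℕ) → (Place k F →₀ ℕ) → Prop := fun D D' =>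
    RayEq T m' (toDiv D + D₀) (toDiv D') with hr
  -- closure properties
  have hclos : ∀ (E : Div k F), (∀ x ∈ T, E x = 0) → Div.deg E = d → ∀ D' : Place k F →₀ ℕ,
      RayEq T m' E (toDiv D') → D' ∈ S := by
    intro E hE hEd D' hD'
    obtain ⟨a, ha0, haT, hD'⟩ := hD'
    rw [hSmem]
    refine ⟨?_, fun x hx => ?_⟩
    · rw [hD', Div.deg_add, hEd, deg_pdiv, add_zero]
    · have h1 := DFunLike.congr_fun hD' x
      rw [toDiv_apply, Finsupp.coe_add, Pi.add_apply, pdiv_apply, hE x hx,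
        ord_eq_zero_of_ray hm' (haT x hx)] at h1
      exact_mod_cast h1
  have hcnt : ∀ (E : Div k F), (∀ x ∈ T, E x = 0) → Div.deg E = d →
      (S.filter fun D' => RayEq T m' E (toDiv D')).card = C := by
    intro E hE hEd
    rw [← hcount E hE hEd, ← Set.ncard_coe_finset]
    congr 1
    ext D'
    simp only [Finset.coe_filter, Set.mem_ofPred_eq]
    constructor
    · exact fun h => h.2
    · exact fun h => ⟨hclos E hE hEd D' h, h⟩
  have hrow : ∀ D ∈ S, (S.filter fun D' => r D D').card = C := by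
    intro D hD
    rw [hSmem] at hD
    refine hcnt (toDiv D + D₀) (fun x hx => ?_) ?_
    · rw [Finsupp.coe_add, Pi.add_apply, toDiv_apply, hD.2 x hx, hD₀T x hx]; rfl
    · rw [Div.deg_add, hD.1, hD₀, add_zero]
  have hcol : ∀ D' ∈ S, (S.filter fun D => r D D').card = C := by
    intro D' hD'
    rw [hSmem] at hD'
    have h1 := hcnt (toDiv D' + -D₀) (fun x hx => by
      rw [Finsupp.coe_add, Pi.add_apply, toDiv_apply, hD'.2 x hx, Finsupp.coe_neg, Pi.neg_apply,
        hD₀T x hx]; rfl) (by rw [Div.deg_add, hD'.1, Div.deg_neg, hD₀]; ring)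
    rw [← h1]
    congr 1
    refine Finset.filter_congr fun D _ => ?_
    rw [hr]
    constructor
    · intro h
      have h2 := (h.symm' hm').add_right (-D₀)
      rwa [add_neg_cancel_right] at h2
    · intro h
      have h2 := (h.symm' hm').add_right D₀
      rwa [neg_add_cancel_right] at h2
  have hval : ∀ D D', r D D' → ζ ^ phi j (toDiv D') = ζ ^ phi j D₀ * ζ ^ phi j (toDiv D) := by
    rintro D D' ⟨a, ha0, haT, h⟩
    rw [h, phi_add, phi_add, zpow_add₀ hζ0, zpow_add₀ hζ0]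
    obtain ⟨c, hc⟩ := hrec a ha0 haT
    rw [hc, zpow_mul, zpow_natCast, hζ, one_zpow, mul_one, mul_comm]
  rw [hcoeff]
  have e1 : ∑ D' ∈ S, ∑ D ∈ S.filter (fun D => r D D'), ζ ^ phi j (toDiv D') =
      C * ∑ D ∈ S, ζ ^ phi j (toDiv D) := by
    rw [Finset.mul_sum]
    refine Finset.sum_congr rfl fun D' hD' => ?_
    rw [Finset.sum_const, hcol D' hD', nsmul_eq_mul]
  have e2 : ∑ D' ∈ S, ∑ D ∈ S.filter (fun D => r D D'), ζ ^ phi j (toDiv D') =
      C * (ζ ^ phi j D₀ * ∑ D ∈ S, ζ ^ phi j (toDiv D)) := by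
    rw [Finset.sum_comm' (t' := S) (s' := fun D => S.filter (fun D' => r D D'))]
    · rw [Finset.mul_sum, Finset.mul_sum]
      refine Finset.sum_congr rfl fun D hD => ?_
      rw [Finset.sum_congr rfl (g := fun _ => ζ ^ phi j D₀ * ζ ^ phi j (toDiv D))]
      · rw [Finset.sum_const, hrow D hD, nsmul_eq_mul]
      · intro D' hD'
        exact hval D D' (Finset.mem_filter.mp hD').2
    · intro D D'
      simp only [Finset.mem_filter]
      tauto
  have hC0 : (C : Ω) ≠ 0 := by exact_mod_cast hC.ne'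
  have e3 := e1.symm.trans e2
  have e4 := mul_left_cancel₀ hC0 e3
  have e5 : (1 - ζ ^ phi j D₀) * ∑ D ∈ S, ζ ^ phi j (toDiv D) = 0 := by
    rw [sub_mul, one_mul, ← e4, sub_self]
  rcases mul_eq_zero.mp e5 with h | h
  · exact absurd (sub_eq_zero.mp h).symm hne
  · exact h

end Vanish

end Pool.Agent.WanRH
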