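import Pool.Agent.WanRH.Twist
import Pool.Agent.WanRH.Vanish

/-!
# Product formula: the zeta function of a cyclic cover is a product of L-series
-/

set_option linter.unusedSectionVars false
set_option linter.unusedVariables false

namespace Pool.Agent.WanRH

open Place

universe u v w

/-- `∏_{i<f} (1 - ω^i u) = 1 - u^f`. -/
lemma prod_one_sub {R : Type*} [CommRing R] [IsDomain R] {ω : R} {f : ℕ} (hω : IsPrimitiveRoot ω f)
    (hf : 0 < f) (u : R) : ∏ i ∈ Finset.range f, (1 - ω ^ i * u) = 1 - u ^ f := by
  have h := X_pow_sub_C_eq_prod hω hf (rfl : u ^ f = u ^ f)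
  have h1 := congrArg (Polynomial.eval 1) h
  rw [Polynomial.eval_prod] at h1
  simpa using h1.symm

/-- `∏_{i<N} (1 - ζ^{ij} u) = (1 - u^f)^{N/f}` if `f` is the order of `ζ^j`. -/
lemma prod_one_sub_pow {R : Type*} [CommRing R] [IsDomain R] {ζ : R} {N : ℕ}
    (hζ : IsPrimitiveRoot ζ N) (hN : 0 < N) (j f c : ℕ) (hf : orderOf (ζ ^ j) = f)
    (hfc : c * f = N) (u : R) :
    ∏ i ∈ Finset.range N, (1 - (ζ ^ i) ^ j * u) = (1 - u ^ f) ^ c := by
  have hfpos : 0 < f := by
    rcases Nat.eq_zero_or_pos f with h | h
    · rw [h, mul_zero] at hfc; omega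
    · exact h
  have hprim : IsPrimitiveRoot (ζ ^ j) f := hf ▸ IsPrimitiveRoot.orderOf _
  have hperiod : ∀ c : ℕ, ∏ i ∈ Finset.range (c * f), (1 - (ζ ^ i) ^ j * u) = (1 - u ^ f) ^ c := by
    intro c
    induction c with
    | zero => simp
    | succ c ih =>
      rw [add_mul, one_mul, Finset.prod_range_add, ih, pow_succ]
      congr 1
      rw [← prod_one_sub hprim hfpos u]
      refine Finset.prod_congr rfl fun i _ => ?_
      congr 2
      rw [← pow_mul, ← pow_mul, add_mul, pow_add, mul_comm i j]
      have h1 : ζ ^ (c * f * j) = 1 := by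
        rw [mul_comm (c * f) j, pow_mul, mul_comm c f, pow_mul, hprim.pow_eq_one, one_pow]
      rw [h1, one_mul]
  rw [← hfc]
  exact hperiod c

section Euler

variable {k : Type u} {K : Type v} {L : Type w} [Field k] [Finite k]
  [Field K] [Algebra k K] [IsFunctionField k K]
  [Field L] [Algebra k L] [IsFunctionField k L]
  [Algebra K L] [IsScalarTower k K L] [FiniteDimensional K L] [IsGalois K L]

lemma degree_down_le (y : Place k L) : (y.down K).degree ≤ y.degree := by
  unfold Place.degree
  -- a k-linear injective map of residue fields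
  set g : (y.down K).ResidueField →ₗ[k] y.ResidueField :=
    { toFun := resMap y
      map_add' := map_add _
      map_smul' := by
        intro c a
        obtain ⟨b, hb, rfl⟩ := (y.down K).resVal_surjective a
        rw [RingHom.id_apply, Algebra.smul_def, Algebra.smul_def, map_mul,
          ← resVal_const (x := y.down K) c, resMap_resVal y ((y.down K).const_mem c),
          ← IsScalarTower.algebraMap_apply, resVal_const] } with hg
  exact LinearMap.finrank_le_finrank_of_injective (f := g) (resMap (K := K) y).injective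

/-- **Product formula.** -/
theorem euler_product {Ω : Type*} [Field Ω] (T : Finset (Place k K))
    (hun : ∀ y : Place k L, y.down K ∉ T → Unram K y) {N : ℕ} (hN : 0 < N) (σ₀ : L ≃ₐ[K] L)
    (hσ₀ : ∀ σ : L ≃ₐ[K] L, σ ∈ Subgroup.zpowers σ₀) (hord : orderOf σ₀ = N)
    {ζ : Ω} (hζ : IsPrimitiveRoot ζ N) (j : Place k K → ℕ)
    (hj : ∀ y : Place k L, y.down K ∉ T → IsFrob (σ₀ ^ j (y.down K)) y) :
    Lser (above L T) (1 : Ω) (fun _ => 0) = ∏ i ∈ Finset.range N, Lser T (ζ ^ i) j := by
  classical
  have hcardG : Nat.card (L ≃ₐ[K] L) = N := by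
    rw [← hord]
    exact (orderOf_eq_card_of_forall_mem_zpowers hσ₀).symm
  have h1 := hasEuler_gen_push (goodDeg k K) (goodDeg k L) (Place.down K) degree_down_le
    (fun x => finite_fibre x) (lw (above L T) (1 : Ω) (fun _ => 0))
  have h2 := HasEuler.prod (X := Place k K) (Finset.range N)
    (G := fun i => Lser T (ζ ^ i) j)
    (e := fun i x => 1 - PowerSeries.C (lw T (ζ ^ i) j x) * PowerSeries.X ^ x.degree)
    (fun i _ => hasEuler_gen (goodDeg k K) (lw T (ζ ^ i) j))
  have heq : (fun x : Place k K => ∏ y ∈ (finite_fibre (L := L) x).toFinset,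
        (1 - PowerSeries.C (lw (above L T) (1 : Ω) (fun _ => 0) y) * PowerSeries.X ^ y.degree)) =
      (fun x => ∏ i ∈ Finset.range N,
        (1 - PowerSeries.C (lw T (ζ ^ i) j x) * PowerSeries.X ^ x.degree)) := by
    funext x
    by_cases hx : x ∈ T
    · rw [Finset.prod_eq_one, Finset.prod_eq_one]
      · intro i _
        unfold lw
        rw [if_pos hx, map_zero, zero_mul, sub_zero]
      · intro y hy
        simp only [Set.Finite.mem_toFinset, Set.mem_ofPred_eq] at hy
        unfold lw
        rw [if_pos (mem_above.mpr (hy ▸ hx)), map_zero, zero_mul, sub_zero]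
    · obtain ⟨y₀, hy₀⟩ := down_surjective k K L x
      subst hy₀
      set x := y₀.down K with hxdef
      -- the common order
      have hfr := hj y₀ hx
      have hord' : ∀ y : Place k L, y.down K = x → y.degree = orderOf (σ₀ ^ j x) * x.degree := by
        intro y hy
        have h3 := hj y (hy ▸ hx)
        rw [hy] at h3
        rw [degree_of_unram (hun y (hy ▸ hx)) h3, hy]
      have hcount := ncard_fibre_of_unram (hun y₀ hx) hfr
      rw [hcardG] at hcount
      set f := orderOf (σ₀ ^ j x) with hf
      have hfζ : orderOf (ζ ^ j x) = f := by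
        have hfin : IsOfFinOrder ζ := isOfFinOrder_iff_pow_eq_one.mpr ⟨N, hN, hζ.pow_eq_one⟩
        rw [hf, orderOf_pow, hfin.orderOf_pow, hord, ← hζ.eq_orderOf]
      have hcardfib : (finite_fibre (L := L) x).toFinset.card =
          {y' : Place k L | y'.down K = y₀.down K}.ncard :=
        (Set.ncard_eq_toFinset_card _ (finite_fibre (L := L) x)).symm
      have hl : ∀ y ∈ (finite_fibre (L := L) x).toFinset,
          (1 - PowerSeries.C (lw (above L T) (1 : Ω) (fun _ => 0) y) * PowerSeries.X ^ y.degree) =
          (1 : PowerSeries Ω) - (PowerSeries.X ^ x.degree) ^ f := by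
        intro y hy
        simp only [Set.Finite.mem_toFinset, Set.mem_ofPred_eq] at hy
        have hyT : y ∉ above L T := by rw [mem_above, hy]; exact hx
        unfold lw
        rw [if_neg hyT, pow_zero, map_one, one_mul, hord' y hy, ← pow_mul, mul_comm]
      rw [Finset.prod_congr rfl hl, Finset.prod_const]
      have hr : ∀ i ∈ Finset.range N,
          (1 - PowerSeries.C (lw T (ζ ^ i) j x) * PowerSeries.X ^ x.degree) =
          (1 : PowerSeries Ω) - ((PowerSeries.C ζ) ^ i) ^ (j x) * PowerSeries.X ^ x.degree := by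
        intro i _
        unfold lw
        rw [if_neg hx, map_pow, map_pow]
      rw [Finset.prod_congr rfl hr]
      have hζC : IsPrimitiveRoot (PowerSeries.C (R := Ω) ζ) N :=
        hζ.map_of_injective (f := (PowerSeries.C (R := Ω))) PowerSeries.C_injective
      symm
      refine prod_one_sub_pow hζC hN (j x) f _ ?_ ?_ _
      · have hfin : IsOfFinOrder ζ := isOfFinOrder_iff_pow_eq_one.mpr ⟨N, hN, hζ.pow_eq_one⟩
        have hfinC : IsOfFinOrder (PowerSeries.C (R := Ω) ζ) :=
          isOfFinOrder_iff_pow_eq_one.mpr ⟨N, hN, hζC.pow_eq_one⟩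
        rw [hfinC.orderOf_pow, ← hζC.eq_orderOf, hζ.eq_orderOf, ← hfin.orderOf_pow]
        exact hfζ
      · rw [hcardfib]; exact hcount
  exact HasEuler.unique (heq ▸ h1) h2

end Euler

end Pool.Agent.WanRH
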