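import Pool.Agent.WanRH.FF.Fin
import Pool.Agent.WanRH.FF.Ord
import Pool.Agent.WanRH.FF.Approx
import Pool.Agent.WanRH.FF.Places
import Pool.Agent.WanRH.FF.Divisors
import Pool.Agent.WanRH.FF.Riemann

/-!
# Function fields in one variable (module A): places, divisors, Riemann's theorem

This file re-exports

* `FF/Fin.lean`: `F` is finite over `k(y)` for nonconstant `y`; the independence lemma;
* `FF/Ord.lean`: places are discrete valuations with finite residue fields; `Place.ord`,
  `Place.fil`, `Place.lead`;
* `FF/Approx.lean`: weak approximation (`Place.weak_approx`), `sum_ord_mul_degree_le`;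
* `FF/Places.lean`: existence of poles, finiteness of zeros and poles, finiteness of places of
  bounded degree, infinitely many places;
* `FF/Divisors.lean`: `Div`, `pdiv`, `LL`, the product formula `deg_pdiv`;
* `FF/Riemann.lean`: `riemann`.
-/
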