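import Pool.Agent.WanRH.Cyc

/-!
# A sum of few `p`-power roots of unity generates a large extension of `ℚ_p`
-/

namespace Pool.Agent.WanRH

open Polynomial

section Count

/-- The number of `b : ZMod N` with `b * y = 0` is at most `gcd(N, y)`. -/
lemma card_annihilator_le (N : ℕ) [NeZero N] (y : ZMod N) :
    (Finset.univ.filter fun b : ZMod N => b * y = 0).card ≤ Nat.gcd N y.val := by
  classical
  have hN : 0 < N := Nat.pos_of_ne_zero (NeZero.ne N)
  set d := Nat.gcd N y.val with hd
  have hdpos : 0 < d := Nat.gcd_pos_of_pos_left _ hN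
  obtain ⟨e, he⟩ : d ∣ N := Nat.gcd_dvd_left _ _
  have hepos : 0 < e := by
    rcases Nat.eq_zero_or_pos e with h | h
    · rw [h, mul_zero] at he; omega
    · exact h
  have key : ∀ b : ZMod N, b * y = 0 → e ∣ b.val := by
    intro b hb
    have h1 : N ∣ b.val * y.val := by
      rw [← ZMod.natCast_eq_zero_iff]
      push_cast
      rw [ZMod.natCast_zmod_val, ZMod.natCast_zmod_val, hb]
    have h2 : N / d ∣ b.val * (y.val / d) := by
      obtain ⟨f, hf⟩ : d ∣ y.val := Nat.gcd_dvd_right _ _
      rw [hf, Nat.mul_div_cancel_left _ hdpos]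
      rw [hf] at h1
      conv_lhs => rw [he, Nat.mul_div_cancel_left _ hdpos]
      have h3 : d * e ∣ d * (b.val * f) := by
        rw [← he]
        convert h1 using 1
        ring
      exact Nat.dvd_of_mul_dvd_mul_left hdpos h3
    have h3 : Nat.Coprime (N / d) (y.val / d) := Nat.coprime_div_gcd_div_gcd hdpos
    have h4 := h3.dvd_of_dvd_mul_right h2
    have h5 : N / d = e := by
      conv_lhs => rw [he, Nat.mul_div_cancel_left _ hdpos]
    rwa [h5] at h4
  have : (Finset.univ.filter fun b : ZMod N => b * y = 0).card ≤ (Finset.range d).card := by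
    refine Finset.card_le_card_of_injOn (fun b => b.val / e) ?_ ?_
    · intro b hb
      simp only [Finset.coe_filter, Finset.mem_univ, true_and, Set.mem_ofPred_eq] at hb
      simp only [Finset.coe_range, Set.mem_Iio]
      rw [Nat.div_lt_iff_lt_mul hepos, ← he]
      exact ZMod.val_lt b
    · intro b hb c hc hbc
      simp only [Finset.coe_filter, Finset.mem_univ, true_and, Set.mem_ofPred_eq] at hb hc hbc
      apply ZMod.val_injective
      rw [← Nat.div_mul_cancel (key b hb), ← Nat.div_mul_cancel (key c hc), hbc]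
  simpa using this

lemma gcd_pow_le {p : ℕ} (hp : p.Prime) {n v m N : ℕ} (hN : N = p ^ n)
    (hm : ¬ p ^ (v + 1) ∣ m) : Nat.gcd N m ≤ p ^ v := by
  subst hN
  obtain ⟨j, hj, h⟩ := (Nat.dvd_prime_pow hp).mp (Nat.gcd_dvd_left (p ^ n) m)
  rw [h]
  have h2 : p ^ j ∣ m := h ▸ Nat.gcd_dvd_right _ _
  have h3 : j ≤ v := by
    by_contra hlt
    exact hm ((pow_dvd_pow p (by omega)).trans h2)
  exact Nat.pow_le_pow_right hp.pos h3

end Count

section Fin

variable (p : ℕ) [hp : Fact p.Prime] {Ω : Type*} [Field Ω] [Algebra ℚ_[p] Ω]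

open IntermediateField

lemma rel_periodic' {n N : ℕ} (hN : N = p ^ (n + 1)) [NeZero N] {ζ : Ω}
    (hζ : IsPrimitiveRoot ζ N) (c : ZMod N → ℚ_[p])
    (hc : ∑ r : ZMod N, algebraMap ℚ_[p] Ω (c r) * ζ ^ r.val = 0)
    (r s : ZMod N) (hrs : r.val % p ^ n = s.val % p ^ n) : c r = c s := by
  subst hN
  exact rel_periodic p hζ c hc r s hrs

/-- Main degree bound. -/
theorem fin_bound' [Algebra.IsIntegral ℚ_[p] Ω] {n v N : ℕ} (hN : N = p ^ (n + 1)) {ζ : Ω}
    (hζ : IsPrimitiveRoot ζ N) {ι : Type*}
    [Fintype ι] (φ : ι → ZMod N)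
    (hsep : ∀ i j, (φ i).val % p ^ n = (φ j).val % p ^ n → φ i = φ j)
    (i₀ : ι) (hi₀ : ¬ p ^ (v + 1) ∣ (φ i₀).val)
    (E : IntermediateField ℚ_[p] Ω) [FiniteDimensional ℚ_[p] E]
    (hE : ∑ i, ζ ^ (φ i).val ∈ E) :
    Nat.totient N ≤ Module.finrank ℚ_[p] E * (Fintype.card ι * p ^ v) := by
  classical
  have hpos : 0 < N := hN ▸ pow_pos hp.out.pos _
  have : NeZero N := ⟨hpos.ne'⟩
  set Z := IntermediateField.adjoin ℚ_[p] {ζ} with hZ
  have hcyc : IsCyclotomicExtension {N} ℚ_[p] Z :=
    hζ.intermediateField_adjoin_isCyclotomicExtension ℚ_[p]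
  have : FiniteDimensional ℚ_[p] Z := IsCyclotomicExtension.finiteDimensional {N} ℚ_[p] Z
  have : IsGalois ℚ_[p] Z := IsCyclotomicExtension.isGalois {N} ℚ_[p] Z
  have hζmem : ζ ∈ Z := IntermediateField.mem_adjoin_simple_self _ _
  set z : Z := ⟨ζ, hζmem⟩ with hz
  have hzprim : IsPrimitiveRoot z N := by
    refine IsPrimitiveRoot.of_map_of_injective (f := (Z.val : Z →ₐ[ℚ_[p]] Ω)) ?_ Z.val.injective
    exact hζ
  have hirr : Irreducible (cyclotomic N ℚ_[p]) := hN ▸ irreducible_cyclotomic_padic p n
  have hfr : Module.finrank ℚ_[p] Z = N.totient := IsCyclotomicExtension.finrank Z hirr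
  set s : Z := ∑ i, z ^ (φ i).val with hs
  set F := IntermediateField.adjoin ℚ_[p] {s} with hF
  -- degree of F
  have hsE : (s : Ω) ∈ E := by
    rw [hs]; push_cast; exact hE
  have hFle : Module.finrank ℚ_[p] F ≤ Module.finrank ℚ_[p] E := by
    have h1 : Module.finrank ℚ_[p] F = (minpoly ℚ_[p] s).natDegree :=
      IntermediateField.adjoin.finrank (Algebra.IsIntegral.isIntegral s)
    have h2 : Module.finrank ℚ_[p] (IntermediateField.adjoin ℚ_[p] {(s : Ω)}) =
        (minpoly ℚ_[p] (s : Ω)).natDegree :=
      IntermediateField.adjoin.finrank (Algebra.IsIntegral.isIntegral _)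
    have h3 : minpoly ℚ_[p] (s : Ω) = minpoly ℚ_[p] s :=
      minpoly.algebraMap_eq (algebraMap Z Ω).injective s
    rw [h1, ← h3, ← h2]
    apply IntermediateField.finrank_le_of_le_right
    rw [IntermediateField.adjoin_le_iff, Set.singleton_subset_iff]
    exact hsE
  -- index
  have hcard : Nat.card (IntermediateField.fixingSubgroup F) = Module.finrank F Z :=
    IsGalois.card_fixingSubgroup_eq_finrank F
  have hmul : Module.finrank ℚ_[p] F * Module.finrank F Z = Module.finrank ℚ_[p] Z :=
    Module.finrank_mul_finrank ℚ_[p] F Z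
  have hmain : Nat.card (IntermediateField.fixingSubgroup F) ≤ Fintype.card ι * p ^ v := by
    -- each element of the fixing subgroup moves φ i₀ to some φ i
    have key : ∀ g ∈ IntermediateField.fixingSubgroup F,
        ∃ i, ((hzprim.autToPow ℚ_[p] g : (ZMod N)ˣ) : ZMod N) * φ i₀ = φ i := by
      intro g hg
      have hgs : g s = s := by
        rw [IntermediateField.mem_fixingSubgroup_iff] at hg
        exact hg s (IntermediateField.mem_adjoin_simple_self _ _)
      set a : ZMod N := ((hzprim.autToPow ℚ_[p] g : (ZMod N)ˣ) : ZMod N) with ha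
      have haunit : IsUnit a := (hzprim.autToPow ℚ_[p] g).isUnit
      have hga : z ^ a.val = g z := hzprim.autToPow_spec ℚ_[p] g
      have hgs2 : g s = ∑ i, z ^ (a * φ i).val := by
        rw [hs, map_sum]
        refine Finset.sum_congr rfl fun i _ => ?_
        rw [map_pow, ← hga, ← pow_mul, ZMod.val_mul]
        rw [← pow_mod_orderOf z (a.val * (φ i).val), ← hzprim.eq_orderOf]
      by_contra hne
      push Not at hne
      set c : ZMod N → ℚ_[p] := fun r =>
        ((Finset.univ.filter fun i => φ i = r).card : ℚ_[p]) -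
        ((Finset.univ.filter fun i => a * φ i = r).card : ℚ_[p]) with hc
      have hrel : ∑ r : ZMod N, algebraMap ℚ_[p] Ω (c r) * ζ ^ r.val = 0 := by
        have h1 : ∀ ψ : ι → ZMod N, ∑ r : ZMod N,
            algebraMap ℚ_[p] Ω ((Finset.univ.filter fun i => ψ i = r).card : ℚ_[p]) * ζ ^ r.val
            = ∑ i, ζ ^ (ψ i).val := by
          intro ψ
          rw [← Finset.sum_fiberwise (s := Finset.univ) (g := ψ) (f := fun i => ζ ^ (ψ i).val)]
          refine Finset.sum_congr rfl fun r _ => ?_
          rw [map_natCast, Finset.sum_congr rfl (g := fun _ => ζ ^ r.val), Finset.sum_const,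
            nsmul_eq_mul]
          intro i hi
          rw [(Finset.mem_filter.mp hi).2]
        simp only [hc, map_sub, sub_mul, Finset.sum_sub_distrib]
        rw [h1 φ, h1 (fun i => a * φ i), sub_eq_zero]
        have e1 : ((s : Z) : Ω) = ∑ i, ζ ^ (φ i).val := by
          rw [hs]; push_cast; rfl
        have e2 : ((g s : Z) : Ω) = ∑ i, ζ ^ (a * φ i).val := by
          rw [hgs2]; push_cast; rfl
        rw [← e1, ← e2, hgs]
      have hper := rel_periodic' p hN hζ c hrel
      -- c is negative at a * φ i₀
      have hneg : c (a * φ i₀) ≠ 0 ∧ True := by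
        refine ⟨?_, trivial⟩
        simp only [hc]
        have h0 : (Finset.univ.filter fun i => φ i = a * φ i₀).card = 0 := by
          rw [Finset.card_eq_zero, Finset.filter_eq_empty_iff]
          intro i _ h
          exact hne i h.symm
        rw [h0]
        simp only [Nat.cast_zero, zero_sub, ne_eq, neg_eq_zero, Nat.cast_eq_zero]
        rw [Finset.card_eq_zero, Finset.filter_eq_empty_iff]
        intro h
        exact h (Finset.mem_univ i₀) rfl
      have hval0 : c (a * φ i₀) = - ((Finset.univ.filter fun i => a * φ i = a * φ i₀).card : ℚ_[p]) := by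
        simp only [hc]
        have h0 : (Finset.univ.filter fun i => φ i = a * φ i₀).card = 0 := by
          rw [Finset.card_eq_zero, Finset.filter_eq_empty_iff]
          intro i _ h
          exact hne i h.symm
        rw [h0]; simp
      -- pick another element of the coset
      set r' : ZMod N := a * φ i₀ + (p ^ n : ℕ) with hr'
      have hr'mod : r'.val % p ^ n = (a * φ i₀).val % p ^ n := by
        rw [hr', ZMod.val_add, Nat.mod_mod_of_dvd _ (by rw [hN]; exact pow_dvd_pow p (Nat.le_succ n)),
          Nat.add_mod, ZMod.val_natCast, Nat.mod_mod_of_dvd _ (by rw [hN]; exact pow_dvd_pow p (Nat.le_succ n)),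
          Nat.mod_self, add_zero, Nat.mod_mod]
      have hr'ne : r' ≠ a * φ i₀ := by
        intro h
        have : ((p ^ n : ℕ) : ZMod N) = 0 := by
          have := h
          rw [hr'] at this
          simpa using this
        rw [ZMod.natCast_eq_zero_iff] at this
        have h1 := Nat.le_of_dvd (pow_pos hp.out.pos n) this
        rw [hN, pow_succ] at h1
        have h2 := hp.out.two_le
        have h3 : 0 < p ^ n := pow_pos hp.out.pos n
        nlinarith
      have hcr' : c r' = c (a * φ i₀) := hper _ _ hr'mod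
      -- so some a * φ i equals r'
      have hex : ∃ i, a * φ i = r' := by
        by_contra hno
        push Not at hno
        have h0 : (Finset.univ.filter fun i => a * φ i = r').card = 0 := by
          rw [Finset.card_eq_zero, Finset.filter_eq_empty_iff]
          intro i _ h
          exact hno i h
        have h1 : c r' = ((Finset.univ.filter fun i => φ i = r').card : ℚ_[p]) := by
          simp only [hc]; rw [h0]; simp
        rw [h1, hval0] at hcr'
        have h2 : (((Finset.univ.filter fun i => φ i = r').card +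
          (Finset.univ.filter fun i => a * φ i = a * φ i₀).card : ℕ) : ℚ_[p]) = 0 := by
          push_cast; rw [hcr']; ring
        rw [Nat.cast_eq_zero] at h2
        have h3 : (Finset.univ.filter fun i => a * φ i = a * φ i₀).card = 0 := by omega
        rw [Finset.card_eq_zero, Finset.filter_eq_empty_iff] at h3
        exact h3 (Finset.mem_univ i₀) rfl
      obtain ⟨i, hi⟩ := hex
      -- then φ i ≡ φ i₀ mod p^n
      have h1 : (φ i).val % p ^ n = (φ i₀).val % p ^ n := by
        obtain ⟨u, hu⟩ := haunit
        have h2 : φ i = φ i₀ + (↑u⁻¹ : ZMod N) * ((p ^ n : ℕ) : ZMod N) := by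
          have : a * φ i = a * φ i₀ + (p ^ n : ℕ) := hi
          rw [← hu] at this
          calc φ i = ↑u⁻¹ * (↑u * φ i) := by rw [← mul_assoc, Units.inv_mul, one_mul]
            _ = ↑u⁻¹ * (↑u * φ i₀ + (p ^ n : ℕ)) := by rw [this]
            _ = φ i₀ + (↑u⁻¹ : ZMod N) * ((p ^ n : ℕ) : ZMod N) := by
              rw [mul_add, ← mul_assoc, Units.inv_mul, one_mul]
        have h3 : ((φ i).val : ZMod (p ^ n)) = ((φ i₀).val : ZMod (p ^ n)) := by
          have hdvd : p ^ n ∣ N := by rw [hN]; exact pow_dvd_pow p (Nat.le_succ n)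
          have h4 := congrArg (ZMod.castHom hdvd (ZMod (p ^ n))) h2
          rw [map_add, map_mul, map_natCast, ZMod.natCast_self, mul_zero, add_zero] at h4
          simpa [ZMod.natCast_val] using h4
        rwa [ZMod.natCast_eq_natCast_iff'] at h3
      have h2 := hsep i i₀ h1
      apply hr'ne
      rw [← hi, h2]
    -- counting
    rw [Nat.card_eq_fintype_card]
    have h1 : Fintype.card (IntermediateField.fixingSubgroup F) ≤
        (Finset.univ.filter fun a : ZMod N => ∃ i, a * φ i₀ = φ i).card := by
      rw [← Finset.card_univ]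
      refine Finset.card_le_card_of_injOn
        (fun g => ((hzprim.autToPow ℚ_[p] (g : Gal(Z/ℚ_[p])) : (ZMod N)ˣ) : ZMod N)) ?_ ?_
      · intro g _
        simp only [Finset.coe_filter, Finset.mem_univ, true_and, Set.mem_ofPred_eq]
        exact key g g.2
      · intro g _ g' _ h
        exact Subtype.ext (hzprim.autToPow_injective (K := ℚ_[p]) (Units.ext h))
    refine h1.trans ?_
    have h2 : (Finset.univ.filter fun a : ZMod N => ∃ i, a * φ i₀ = φ i) =
        Finset.univ.biUnion (fun i => Finset.univ.filter fun a : ZMod N => a * φ i₀ = φ i) := by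
      ext a; simp
    rw [h2]
    refine Finset.card_biUnion_le.trans ?_
    rw [← smul_eq_mul, ← Finset.card_univ, ← Finset.sum_const]
    refine Finset.sum_le_sum fun i _ => ?_
    -- each fibre has at most p^v elements
    rcases (Finset.univ.filter fun a : ZMod N => a * φ i₀ = φ i).eq_empty_or_nonempty with h | h
    · rw [h]; simp
    · obtain ⟨a₀, ha₀⟩ := h
      rw [Finset.mem_filter] at ha₀
      have h3 : (Finset.univ.filter fun a : ZMod N => a * φ i₀ = φ i).card ≤
          (Finset.univ.filter fun b : ZMod N => b * φ i₀ = 0).card := by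
        refine Finset.card_le_card_of_injOn (fun a => a - a₀) ?_ ?_
        · intro a ha
          simp only [Finset.coe_filter, Finset.mem_univ, true_and, Set.mem_ofPred_eq] at ha ⊢
          rw [sub_mul, ha, ha₀.2, sub_self]
        · intro a _ b _ hab
          simpa using hab
      exact h3.trans ((card_annihilator_le N (φ i₀)).trans (gcd_pow_le hp.out hN hi₀))
  calc N.totient = Module.finrank ℚ_[p] F * Module.finrank F Z := by rw [hmul, hfr]
    _ ≤ Module.finrank ℚ_[p] E * (Fintype.card ι * p ^ v) :=
      Nat.mul_le_mul hFle (hcard ▸ hmain)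

end Fin

end Pool.Agent.WanRH
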