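import Pool.Agent.WanRH.Gal.Down
import Pool.Agent.WanRH.Gal.Frob
import Pool.Agent.WanRH.Gal.Tower

/-!
# Places in Galois extensions (module B)

* `Gal/Down.lean`: restriction of places (`Place.down`), existence and finiteness of places above,
  Galois action (`Place.act`), transitivity;
* `Gal/Frob.lean`: inertia, Frobenius elements, decomposition group of an unramified place;
* `Gal/Tower.lean`: compatibility with towers, lifting of inertia.
-/
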