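import Pool.Agent.WanRH.Det

/-!
# The determinant on a finite extension field is the product of the conjugates
-/

namespace Pool.Agent.WanRH

open Polynomial Module

section Resid

variable {k κ : Type*} [Field k] [Finite k] [Field κ] [Algebra k κ] [FiniteDimensional k κ]

/-- The Moore matrix of a basis is invertible. -/
lemma moore_det_ne_zero {d : ℕ} (e : Basis (Fin d) k κ) :
    (Matrix.of fun (i a : Fin d) => (e a) ^ (Nat.card k ^ (i : ℕ))).det ≠ 0 := by
  classical
  have : Fintype k := Fintype.ofFinite k
  have hfin : Finite κ := Module.finite_of_finite k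
  have : Fintype κ := Fintype.ofFinite κ
  set q := Nat.card k with hq
  have hqF : q = Fintype.card k := Nat.card_eq_fintype_card
  have hq1 : 1 < q := by rw [hqF]; exact Fintype.one_lt_card
  intro hdet
  rw [← Matrix.exists_vecMul_eq_zero_iff] at hdet
  obtain ⟨c, hc0, hc⟩ := hdet
  -- the additive polynomial
  have hroot : ∀ y : κ, ∑ i : Fin d, c i * y ^ (q ^ (i : ℕ)) = 0 := by
    intro y
    have hy : y = ∑ a, (e.repr y a) • e a := (e.sum_repr y).symm
    have hpow : ∀ i : ℕ, y ^ (q ^ i) = ∑ a, (e.repr y a) • (e a) ^ (q ^ i) := by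
      intro i
      conv_lhs => rw [hy]
      have hch : ∃ p, p.Prime ∧ CharP κ p := by
        obtain ⟨p, hp⟩ := CharP.exists κ
        exact ⟨p, CharP.char_is_prime κ p, hp⟩
      obtain ⟨p, hp, hpκ⟩ := hch
      have : Fact p.Prime := ⟨hp⟩
      have hpk : CharP k p := (Algebra.charP_iff k κ p).mpr hpκ
      obtain ⟨n, hn⟩ := FiniteField.card k p
      have hqn : q = p ^ (n : ℕ) := by rw [hqF]; exact hn.2
      rw [hqn, ← pow_mul, sum_pow_char_pow]
      refine Finset.sum_congr rfl fun a _ => ?_
      rw [Algebra.smul_def, mul_pow, Algebra.smul_def, ← map_pow]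
      congr 2
      rw [pow_mul, ← hqn, hqF, FiniteField.pow_card_pow]
    simp only [hpow, Finset.mul_sum, mul_smul_comm]
    rw [Finset.sum_comm]
    refine Finset.sum_eq_zero fun a _ => ?_
    rw [← Finset.smul_sum]
    have := congrFun hc a
    rw [Matrix.vecMul, dotProduct] at this
    simp only [Matrix.of_apply, Pi.zero_apply] at this
    rw [this, smul_zero]
  set P : κ[X] := ∑ i : Fin d, C (c i) * X ^ (q ^ (i : ℕ)) with hP
  have hPeval : ∀ y : κ, P.eval y = 0 := by
    intro y
    rw [hP, eval_finsetSum]
    simpa using hroot y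
  have hcard : Fintype.card κ = q ^ d := by
    rw [← Nat.card_eq_fintype_card, Module.natCard_eq_pow_finrank (K := k), ← hq,
      Module.finrank_eq_card_basis e, Fintype.card_fin]
  have hdeg : P.natDegree < Fintype.card κ := by
    rw [hcard, hP]
    rcases Nat.eq_zero_or_pos d with hd | hd
    · subst hd
      simp
    · refine lt_of_le_of_lt (natDegree_sum_le_of_forall_le (n := q ^ (d - 1)) _ _ ?_) ?_
      · intro i _
        refine (natDegree_C_mul_X_pow_le _ _).trans (Nat.pow_le_pow_right (by omega) ?_)
        have := i.2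
        omega
      · exact Nat.pow_lt_pow_right hq1 (by omega)
  have hP0 : P = 0 := by
    refine Polynomial.eq_zero_of_natDegree_lt_card_of_eval_eq_zero' P Finset.univ
      (fun y _ => hPeval y) ?_
    rwa [Finset.card_univ]
  apply hc0
  ext i
  have h1 : P.coeff (q ^ (i : ℕ)) = c i := by
    rw [hP, finsetSum_coeff, Finset.sum_eq_single i]
    · simp
    · intro j _ hj
      rw [coeff_C_mul, coeff_X_pow, if_neg, mul_zero]
      intro h
      apply hj
      have := Nat.pow_right_injective (a := q) (by omega) h
      exact Fin.ext this.symm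
    · intro h; exact absurd (Finset.mem_univ _) h
  rw [← h1, hP0]; simp

/-- The determinant of a polynomial family of multiplications on `κ/k` is the product of the
conjugates. -/
theorem dp_field (N : ℕ) (g : ℕ → κ) :
    (dp N (fun j => LinearMap.mulLeft k (g j))).map (algebraMap k κ) =
      ∏ i ∈ Finset.range (Module.finrank k κ),
        ∑ j ∈ Finset.range N, X ^ j * C ((g j) ^ (Nat.card k ^ i)) := by
  classical
  have : Fintype k := Fintype.ofFinite k
  set d := Module.finrank k κ with hd
  set e : Basis (Fin d) k κ := Module.finBasis k κ with he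
  set q := Nat.card k with hq
  set V : Matrix (Fin d) (Fin d) κ := Matrix.of fun (i a : Fin d) => (e a) ^ (q ^ (i : ℕ)) with hV
  have hVdet : V.det ≠ 0 := moore_det_ne_zero e
  set M : Matrix (Fin d) (Fin d) k[X] := polyMat N e (fun j => LinearMap.mulLeft k (g j)) with hM
  set G : Fin d → κ[X] := fun i => ∑ j ∈ Finset.range N, X ^ j * C ((g j) ^ (q ^ (i : ℕ))) with hG
  have hfrob : ∀ (i : ℕ) (c : Fin d → k) (y : Fin d → κ),
      (∑ a, c a • y a) ^ (q ^ i) = ∑ a, c a • (y a) ^ (q ^ i) := by
    intro i c y
    have hch : ∃ p, p.Prime ∧ CharP κ p := by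
      obtain ⟨p, hp⟩ := CharP.exists κ
      have : Finite κ := Module.finite_of_finite k
      have : Fintype κ := Fintype.ofFinite κ
      exact ⟨p, CharP.char_is_prime κ p, hp⟩
    obtain ⟨p, hp, hpκ⟩ := hch
    have : Fact p.Prime := ⟨hp⟩
    have hpk : CharP k p := (Algebra.charP_iff k κ p).mpr hpκ
    obtain ⟨n, hn⟩ := FiniteField.card k p
    have hqF : q = Fintype.card k := Nat.card_eq_fintype_card
    have hqn : q = p ^ (n : ℕ) := by rw [hqF]; exact hn.2
    rw [hqn, ← pow_mul, sum_pow_char_pow]
    refine Finset.sum_congr rfl fun a _ => ?_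
    rw [Algebra.smul_def, mul_pow, Algebra.smul_def, ← map_pow]
    congr 2
    rw [pow_mul, ← hqn, hqF, FiniteField.pow_card_pow]
  have key : Matrix.diagonal G * V.map C = V.map C * M.map (Polynomial.map (algebraMap k κ)) := by
    ext1 i a
    rw [Matrix.diagonal_mul, Matrix.mul_apply]
    simp only [Matrix.map_apply]
    have h1 : ∀ l, (M l a).map (algebraMap k κ) = ∑ j ∈ Finset.range N,
        X ^ j * C (algebraMap k κ (e.repr (g j * e a) l)) := by
      intro l
      rw [hM, polyMat_apply, Polynomial.map_sum]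
      refine Finset.sum_congr rfl fun j _ => ?_
      rw [Polynomial.map_mul, Polynomial.map_pow, map_X, map_C, LinearMap.toMatrix_apply]
      rfl
    simp only [h1, Finset.mul_sum]
    rw [hG, Finset.sum_mul, Finset.sum_comm]
    refine Finset.sum_congr rfl fun j _ => ?_
    have h2 : ∀ l, C (V i l) * (X ^ j * C (algebraMap k κ (e.repr (g j * e a) l))) =
        X ^ j * C ((e.repr (g j * e a) l) • V i l) := by
      intro l
      rw [Algebra.smul_def, C_mul]; ring
    simp only [h2]
    rw [← Finset.mul_sum, mul_assoc, ← C_mul, ← map_sum]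
    congr 2
    simp only [hV, Matrix.of_apply]
    rw [← hfrob, e.sum_repr, mul_pow]
  have hdet := congrArg Matrix.det key
  rw [Matrix.det_mul, Matrix.det_mul, Matrix.det_diagonal, mul_comm] at hdet
  have h3 : (V.map C).det ≠ 0 := by
    have : (V.map C).det = C V.det := by
      rw [RingHom.map_det]; rfl
    rw [this]
    exact C_ne_zero.mpr hVdet
  have h4 := mul_left_cancel₀ h3 hdet
  rw [dp_eq N e, ← hM]
  have h5 : (M.map (Polynomial.map (algebraMap k κ))).det = (M.det).map (algebraMap k κ) := by
    have := RingHom.map_det (Polynomial.mapRingHom (algebraMap k κ)) M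
    rw [Polynomial.coe_mapRingHom] at this
    rw [this]; rfl
  rw [← h5, ← h4, hG]
  exact (Fin.prod_univ_eq_prod_range
    (fun i => ∑ j ∈ Finset.range N, X ^ j * C ((g j) ^ (q ^ i)) : ℕ → κ[X]) d).symm ▸ rfl

end Resid

end Pool.Agent.WanRH
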