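import Pool.Agent.WanRH.Rec
import Pool.Agent.WanRH.Resid

/-!
# One step of a composition series, and powers of `1 + z` modulo `z^(p^n)`
-/

namespace Pool.Agent.WanRH

open Polynomial Module

section Step

variable {k : Type*} [Field k] {A : Type*} [CommRing A] [Algebra k A]
  {κ : Type*} [Field κ] [Algebra k κ] [FiniteDimensional k κ]

lemma dp_ideal_step (N : ℕ) {J I : Ideal A} (hJI : J ≤ I) (ρ : A →ₐ[k] κ)
    (ψ : (I.restrictScalars k) →ₗ[k] κ) (hψ : Function.Surjective ψ)
    (hker : ∀ a : I.restrictScalars k, ψ a = 0 ↔ (a : A) ∈ J)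
    (hmul : ∀ (f : A) (a b : I.restrictScalars k), (b : A) = f * a → ψ b = ρ f * ψ a)
    [FiniteDimensional k (A ⧸ I)] (f : ℕ → A) :
    FiniteDimensional k (A ⧸ J) ∧
    dp N (fun j => mulQ (k := k) J (f j)) =
      dp N (fun j => LinearMap.mulLeft k (ρ (f j))) *
      dp N (fun j => mulQ (k := k) I (f j)) := by
  classical
  obtain ⟨s, hs⟩ := LinearMap.exists_rightInverse_of_surjective ψ (LinearMap.range_eq_top.mpr hψ)
  have hψs : ∀ y, ψ (s y) = y := fun y => by
    have := LinearMap.congr_fun hs y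
    simpa using this
  set mkJ : A →ₗ[k] (A ⧸ J) := (Ideal.Quotient.mkₐ k J).toLinearMap with hmkJ
  have hmkJ' : ∀ a, mkJ a = Ideal.Quotient.mk J a := fun a => rfl
  set i : κ →ₗ[k] (A ⧸ J) := (mkJ.comp (I.restrictScalars k).subtype).comp s with hi
  have hi' : ∀ y, i y = Ideal.Quotient.mk J (s y : A) := fun y => rfl
  set g : (A ⧸ J) →ₗ[k] (A ⧸ I) := (Ideal.Quotient.factorₐ k hJI).toLinearMap with hg
  have hg' : ∀ a, g (Ideal.Quotient.mk J a) = Ideal.Quotient.mk I a := fun a => rfl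
  have hinj : Function.Injective i := by
    rw [injective_iff_map_eq_zero]
    intro y hy
    rw [hi', Ideal.Quotient.eq_zero_iff_mem, ← hker, hψs] at hy
    exact hy
  have hsurj : Function.Surjective g := by
    intro x
    obtain ⟨a, rfl⟩ := Ideal.Quotient.mk_surjective x
    exact ⟨Ideal.Quotient.mk J a, hg' a⟩
  have hlift : ∀ a : I.restrictScalars k, Ideal.Quotient.mk J (a : A) = i (ψ a) := by
    intro a
    rw [hi', Ideal.Quotient.eq]
    have h1 : ψ (a - s (ψ a)) = 0 := by rw [map_sub, hψs, sub_self]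
    rw [hker] at h1
    simpa using h1
  have hex : LinearMap.range i = LinearMap.ker g := by
    ext x
    constructor
    · rintro ⟨y, rfl⟩
      rw [LinearMap.mem_ker, hi', hg', Ideal.Quotient.eq_zero_iff_mem]
      exact (s y).2
    · intro hx
      obtain ⟨a, rfl⟩ := Ideal.Quotient.mk_surjective x
      rw [LinearMap.mem_ker, hg', Ideal.Quotient.eq_zero_iff_mem] at hx
      exact ⟨ψ ⟨a, hx⟩, (hlift ⟨a, hx⟩).symm⟩
  have hfd : FiniteDimensional k (A ⧸ J) := by
    have h1 : Module.Finite k (LinearMap.range i) := inferInstance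
    have h2 : Module.Finite k (LinearMap.ker g) := hex ▸ h1
    have h3 : Module.Finite k (LinearMap.range g) := inferInstance
    have h4 : (⊤ : Submodule k (A ⧸ J)).FG := by
      refine Submodule.fg_of_fg_map_of_fg_inf_ker g ?_ ?_
      · rw [Submodule.map_top]
        exact Module.Finite.iff_fg.mp h3
      · rw [top_inf_eq]
        exact Module.Finite.iff_fg.mp h2
    exact ⟨h4⟩
  refine ⟨hfd, ?_⟩
  refine dp_exact N i g hinj hsurj hex _ _ _ ?_ ?_
  · intro j y
    rw [LinearMap.mulLeft_apply, mulQ_apply, hi' y, ← map_mul]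
    have hmem : f j * (s y : A) ∈ I.restrictScalars k := I.mul_mem_left _ (s y).2
    have h1 := hlift ⟨f j * (s y : A), hmem⟩
    rw [h1, hmul (f j) (s y) ⟨f j * (s y : A), hmem⟩ rfl, hψs]
  · intro j x
    obtain ⟨a, rfl⟩ := Ideal.Quotient.mk_surjective x
    rw [mulQ_apply, mulQ_apply, hg', ← map_mul, hg', map_mul]

end Step

section Congr

variable {k : Type*} [CommRing k]

/-- Congruence of polynomials modulo `z^N`. -/
def CongrMod (N : ℕ) (f g : k[X]) : Prop := ∀ j < N, f.coeff j = g.coeff j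

lemma congrMod_iff {N : ℕ} {f g : k[X]} : CongrMod N f g ↔ X ^ N ∣ f - g := by
  rw [X_pow_dvd_iff]
  simp only [coeff_sub, sub_eq_zero]
  rfl

lemma CongrMod.refl {N : ℕ} (f : k[X]) : CongrMod N f f := fun _ _ => rfl
lemma CongrMod.symm {N : ℕ} {f g : k[X]} (h : CongrMod N f g) : CongrMod N g f :=
  fun j hj => (h j hj).symm
lemma CongrMod.trans {N : ℕ} {f g h : k[X]} (h1 : CongrMod N f g) (h2 : CongrMod N g h) :
    CongrMod N f h := fun j hj => (h1 j hj).trans (h2 j hj)

lemma CongrMod.mul {N : ℕ} {f g f' g' : k[X]} (h : CongrMod N f g) (h' : CongrMod N f' g') :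
    CongrMod N (f * f') (g * g') := by
  rw [congrMod_iff] at h h' ⊢
  have : f * f' - g * g' = (f - g) * f' + g * (f' - g') := by ring
  rw [this]
  exact dvd_add (Dvd.dvd.mul_right h _) (Dvd.dvd.mul_left h' _)

lemma CongrMod.pow {N : ℕ} {f g : k[X]} (h : CongrMod N f g) (n : ℕ) :
    CongrMod N (f ^ n) (g ^ n) := by
  induction n with
  | zero => simpa using CongrMod.refl _
  | succ n ih => rw [pow_succ, pow_succ]; exact ih.mul h

lemma CongrMod.prod {N : ℕ} {ι : Type*} (s : Finset ι) {f g : ι → k[X]}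
    (h : ∀ i ∈ s, CongrMod N (f i) (g i)) : CongrMod N (∏ i ∈ s, f i) (∏ i ∈ s, g i) := by
  classical
  induction s using Finset.induction_on with
  | empty => simpa using CongrMod.refl _
  | insert a s ha ih =>
    rw [Finset.prod_insert ha, Finset.prod_insert ha]
    exact (h a (Finset.mem_insert_self _ _)).mul (ih fun i hi => h i (Finset.mem_insert_of_mem hi))

lemma CongrMod.map {N : ℕ} {f g : k[X]} (h : CongrMod N f g) {S : Type*} [CommRing S]
    (φ : k →+* S) : CongrMod N (f.map φ) (g.map φ) := by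
  intro j hj
  rw [coeff_map, coeff_map, h j hj]

lemma CongrMod.of_map {N : ℕ} {f g : k[X]} {S : Type*} [CommRing S] {φ : k →+* S}
    (hφ : Function.Injective φ) (h : CongrMod N (f.map φ) (g.map φ)) : CongrMod N f g := by
  intro j hj
  have := h j hj
  rw [coeff_map, coeff_map] at this
  exact hφ this

lemma CongrMod.cancel {N : ℕ} {f g h : k[X]} (hh : h.coeff 0 = 1)
    (H : CongrMod N (h * f) (h * g)) : CongrMod N f g := by
  rw [congrMod_iff] at H ⊢
  rw [← mul_sub] at H
  have h1 : (X : k[X]) ∣ h - 1 := by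
    rw [X_dvd_iff, coeff_sub, hh, coeff_one_zero, sub_self]
  obtain ⟨r, hr⟩ := h1
  have h2 : IsCoprime (X : k[X]) h := ⟨-r, 1, by rw [eq_add_of_sub_eq hr]; ring⟩
  exact (IsCoprime.pow_left h2).dvd_of_dvd_mul_left H

end Congr

section OnePlus

variable {k : Type*} [Field k] (p : ℕ) [hp : Fact p.Prime] [CharP k p]

/-- `(1+z)^u ≡ 1` modulo `z^(p^n)` only if `p^n ∣ u`. -/
lemma dvd_of_one_add_pow {n u : ℕ} (h : CongrMod (p ^ n) ((1 + X : k[X]) ^ u) 1) : p ^ n ∣ u := by
  rcases Nat.eq_zero_or_pos u with hu | hu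
  · subst hu; exact dvd_zero _
  obtain ⟨e, u', hu', hue⟩ := Nat.exists_eq_pow_mul_and_not_dvd hu.ne' p hp.out.ne_one
  by_contra hnd
  have hen : e < n := by
    by_contra hge
    apply hnd
    rw [hue]
    exact (pow_dvd_pow p (by omega)).mul_right _
  have h1 : ((1 + X : k[X]) ^ u) = (1 + X ^ (p ^ e)) ^ u' := by
    rw [hue, pow_mul, add_pow_char_pow, one_pow]
  have h2 := h (p ^ e) (Nat.pow_lt_pow_right hp.out.one_lt hen)
  have hpe : 0 < p ^ e := pow_pos hp.out.pos e
  have h3 : ((1 + X ^ (p ^ e) : k[X]) ^ u').coeff (p ^ e) = (u' : k) := by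
    have h4 : (1 + X ^ (p ^ e) : k[X]) ^ u' = Polynomial.expand k (p ^ e) ((1 + X) ^ u') := by
      simp
    rw [h4, coeff_expand hpe, if_pos (dvd_refl _), Nat.div_self hpe, add_comm, coeff_X_add_one_pow]
    simp
  rw [h1, h3, coeff_one, if_neg hpe.ne'] at h2
  exact hu' ((CharP.cast_eq_zero_iff k p u').mp h2)

/-- If `(1+z)^s ≡ (1+z)^t` modulo `z^(p^n)` then `s ≡ t` modulo `p^n`. -/
lemma modEq_of_one_add_pow {n s t : ℕ}
    (h : CongrMod (p ^ n) ((1 + X : k[X]) ^ s) ((1 + X) ^ t)) : s ≡ t [MOD p ^ n] := by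
  wlog hst : s ≤ t generalizing s t
  · exact (this h.symm (by omega)).symm
  obtain ⟨u, rfl⟩ := Nat.exists_eq_add_of_le hst
  have h1 : X ^ (p ^ n) ∣ ((1 + X : k[X]) ^ u - 1) := by
    rw [congrMod_iff] at h
    have h2 : (1 + X : k[X]) ^ s - (1 + X) ^ (s + u) = (1 + X) ^ s * (- ((1 + X) ^ u - 1)) := by
      ring
    rw [h2] at h
    have h3 : IsCoprime ((X : k[X]) ^ (p ^ n)) ((1 + X) ^ s) := by
      apply IsCoprime.pow
      refine ⟨-1, 1, by ring⟩
    have h4 := h3.dvd_of_dvd_mul_left h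
    rwa [dvd_neg] at h4
  have h5 : p ^ n ∣ u := dvd_of_one_add_pow (k := k) p (by rwa [congrMod_iff])
  have := (Nat.modEq_zero_iff_dvd.mpr h5).symm
  simpa using Nat.ModEq.add_left s this

end OnePlus

end Pool.Agent.WanRH
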