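import Pool.Agent.WanRH.FF
import Pool.Agent.WanRH.Step

/-!
# Functions regular outside a finite set of places, and reciprocity
-/

set_option linter.unusedSectionVars false
set_option linter.unusedVariables false

namespace Pool.Agent.WanRH

open Polynomial Module

universe u v

section Hol

variable {k : Type u} {F : Type v} [Field k] [Finite k] [Field F] [Algebra k F]
  [IsFunctionField k F]

namespace Place

lemma mem_ring_iff_fil' {x : Place k F} {a : F} : a ∈ x.ring ↔ a ∈ x.fil 0 := by
  rw [mem_ring_iff, mem_fil]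

lemma zero_mem_fil (x : Place k F) (n : ℤ) : (0 : F) ∈ x.fil n := Submodule.zero_mem _

lemma mem_fil_ord (x : Place k F) (a : F) : a ∈ x.fil (x.ord a) := Or.inr le_rfl

lemma le_ord_of_mem_fil {x : Place k F} {a : F} {n : ℤ} (ha : a ≠ 0) (h : a ∈ x.fil n) :
    n ≤ x.ord a := by
  rcases h with h | h
  · exact absurd h ha
  · exact h

lemma ord_eq_of_sub_mem {x : Place k F} {a b : F} (hb : b ≠ 0) {n : ℤ} (hn : x.ord b = n)
    (h : a - b ∈ x.fil (n + 1)) : a ≠ 0 ∧ x.ord a = n := by
  have hb1 : b ∉ x.fil (n + 1) := by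
    intro h1
    have := le_ord_of_mem_fil hb h1
    omega
  have ha0 : a ≠ 0 := by
    rintro rfl
    apply hb1
    rw [zero_sub] at h
    have := Submodule.neg_mem _ h
    rwa [neg_neg] at this
  refine ⟨ha0, le_antisymm ?_ ?_⟩
  · by_contra hlt
    push Not at hlt
    apply hb1
    have h1 : a ∈ x.fil (n + 1) := Or.inr hlt
    have h2 : b = a - (a - b) := by ring
    rw [h2]
    exact Submodule.sub_mem _ h1 h
  · apply le_ord_of_mem_fil ha0
    have h2 : a = (a - b) + b := by ring
    rw [h2]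
    refine Submodule.add_mem _ (x.fil_anti (by omega) h) ?_
    rw [← hn]; exact x.mem_fil_ord b

lemma one_mem_fil (x : Place k F) : (1 : F) ∈ x.fil 0 := by
  have := x.mem_fil_ord 1
  rwa [ord_one] at this

lemma const_mem_fil (x : Place k F) (c : k) : algebraMap k F c ∈ x.fil 0 := by
  have := x.mem_fil_ord (algebraMap k F c)
  rwa [ord_const] at this

/-- Membership in `fil` is a valuation condition. -/
lemma mul_mem_fil_iff {x : Place k F} {a c : F} {n : ℤ} (hc : c ≠ 0) :
    c * a ∈ x.fil (x.ord c + n) ↔ a ∈ x.fil n := by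
  constructor
  · intro h
    have h1 := mul_mem_fil x (x.mem_fil_ord c⁻¹) h
    rw [ord_inv, inv_mul_cancel_left₀ hc] at h1
    simpa using h1
  · intro h
    exact mul_mem_fil x (x.mem_fil_ord c) h

/-- Value of an element in the residue field (zero if the element has a pole). -/
noncomputable def resVal (x : Place k F) (a : F) : x.ResidueField :=
  open Classical in if h : a ∈ x.ring then IsLocalRing.residue x.ring ⟨a, h⟩ else 0

lemma resVal_of_mem {x : Place k F} {a : F} (h : a ∈ x.ring) :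
    x.resVal a = IsLocalRing.residue x.ring ⟨a, h⟩ := by
  unfold resVal
  rw [dif_pos h]

lemma resVal_eq_zero_iff {x : Place k F} {a : F} (h : a ∈ x.ring) :
    x.resVal a = 0 ↔ a ∈ x.fil 1 := by
  rw [resVal_of_mem h, residue_eq_zero_iff]

lemma resVal_add {x : Place k F} {a b : F} (ha : a ∈ x.ring) (hb : b ∈ x.ring) :
    x.resVal (a + b) = x.resVal a + x.resVal b := by
  rw [resVal_of_mem ha, resVal_of_mem hb, resVal_of_mem (add_mem ha hb), ← map_add]
  rfl

lemma resVal_sub {x : Place k F} {a b : F} (ha : a ∈ x.ring) (hb : b ∈ x.ring) :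
    x.resVal (a - b) = x.resVal a - x.resVal b := by
  rw [resVal_of_mem ha, resVal_of_mem hb, resVal_of_mem (sub_mem ha hb), ← map_sub]
  rfl

lemma resVal_mul {x : Place k F} {a b : F} (ha : a ∈ x.ring) (hb : b ∈ x.ring) :
    x.resVal (a * b) = x.resVal a * x.resVal b := by
  rw [resVal_of_mem ha, resVal_of_mem hb, resVal_of_mem (mul_mem ha hb), ← map_mul]
  rfl

lemma resVal_one {x : Place k F} : x.resVal 1 = 1 := by
  rw [resVal_of_mem (one_mem _)]
  exact map_one _

lemma resVal_zero {x : Place k F} : x.resVal 0 = 0 := by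
  rw [resVal_of_mem (zero_mem _)]
  exact map_zero _

lemma resVal_const {x : Place k F} (c : k) :
    x.resVal (algebraMap k F c) = algebraMap k x.ResidueField c := by
  rw [resVal_of_mem (x.const_mem c)]
  rfl

lemma resVal_surjective (x : Place k F) (y : x.ResidueField) : ∃ a ∈ x.ring, x.resVal a = y := by
  obtain ⟨a, rfl⟩ := IsLocalRing.residue_surjective y
  exact ⟨a, a.2, resVal_of_mem a.2⟩

end Place

variable (T : Finset (Place k F))

/-- Functions regular outside `T`. -/
noncomputable def holo : Subalgebra k F where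
  carrier := {a | ∀ x ∉ T, a ∈ x.ring}
  mul_mem' := fun ha hb x hx => mul_mem (ha x hx) (hb x hx)
  one_mem' := fun x _ => one_mem _
  add_mem' := fun ha hb x hx => add_mem (ha x hx) (hb x hx)
  zero_mem' := fun x _ => zero_mem _
  algebraMap_mem' := fun c x _ => x.const_mem c

variable {T}

lemma mem_holo {a : F} : a ∈ holo T ↔ ∀ x ∉ T, a ∈ x.ring := Iff.rfl

/-- Filtration by pole order at `T`. -/
noncomputable def holoFilt (hT : T.Nonempty) : Filt k (holo T) where
  fl n :=
    { carrier := {a | ∀ x ∈ T, (a : F) ∈ x.fil (-n)}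
      add_mem' := fun ha hb x hx => Submodule.add_mem _ (ha x hx) (hb x hx)
      zero_mem' := fun x _ => Submodule.zero_mem _
      smul_mem' := fun c a ha x hx => Submodule.smul_mem _ c (ha x hx) }
  mono := by
    intro m n hmn a ha x hx
    exact x.fil_anti (by omega) (ha x hx)
  mul_mem := by
    intro m n a b ha hb x hx
    have := Place.mul_mem_fil x (ha x hx) (hb x hx)
    rwa [show -m + -n = -(m + n) by ring] at this
  neg := by
    intro n hn
    rw [Submodule.eq_bot_iff]
    intro a ha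
    obtain ⟨x₀, hx₀⟩ := hT
    have h1 : ∀ x : Place k F, (a : F) ∈ x.ring := by
      intro x
      by_cases hx : x ∈ T
      · rw [Place.mem_ring_iff_fil']
        exact x.fil_anti (by omega) (ha x hx)
      · exact a.2 x hx
    obtain ⟨c, hc⟩ := mem_range_of_forall_mem_ring (k := k) (a : F) h1
    by_contra hne
    have hne' : (a : F) ≠ 0 := fun h => hne (Subtype.ext h)
    have h2 := Place.le_ord_of_mem_fil hne' (ha x₀ hx₀)
    rw [← hc, Place.ord_const] at h2
    omega
  exh := by
    intro a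
    classical
    have hne : (T.image fun x => -x.ord (a : F)).Nonempty := hT.image _
    refine ⟨(T.image fun x => -x.ord (a : F)).max' hne, fun x hx => ?_⟩
    have h1 : -x.ord (a : F) ≤ (T.image fun x => -x.ord (a : F)).max' hne := by
      apply Finset.le_max'
      rw [Finset.mem_image]
      exact ⟨x, hx, rfl⟩
    exact x.fil_anti (by omega) (x.mem_fil_ord (a : F))

lemma mem_holoFilt (hT : T.Nonempty) {n : ℤ} {a : holo T} :
    a ∈ (holoFilt hT).fl n ↔ ∀ x ∈ T, (a : F) ∈ x.fil (-n) := Iff.rfl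

/-- Strong approximation: outside `T`, with arbitrary precision. -/
lemma strong_approx (hT : T.Nonempty) (m E : Div k F) (hmE : m ≤ E) (b : Place k F → F)
    (hb : ∀ x, b x ∈ x.fil (m x)) :
    ∃ a : F, ∀ x ∉ T, a ∈ x.fil (m x) ∧ a - b x ∈ x.fil (E x) := by
  classical
  obtain ⟨g, d₀, -, h2⟩ := riemann k F
  obtain ⟨x₀, hx₀⟩ := hT
  set n : ℕ := (d₀ + E.deg).toNat with hn
  have hn' : d₀ + E.deg ≤ n := Int.self_le_toNat _
  set S : Div k F := Finsupp.single x₀ (n : ℤ) with hS
  have hdeg : d₀ ≤ Div.deg (-E + S) := by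
    rw [Div.deg_add, Div.deg_neg, hS, Div.deg_single]
    have h3 : (1 : ℤ) ≤ x₀.degree := by exact_mod_cast x₀.degree_pos
    have h4 : (n : ℤ) ≤ n * x₀.degree := by nlinarith
    omega
  have hle : -E + S ≤ -m + S := by
    intro x
    have := hmE x
    simp only [Finsupp.coe_add, Finsupp.coe_neg, Pi.add_apply, Pi.neg_apply]
    omega
  obtain ⟨a, -, ha⟩ := h2 (-m + S) (-E + S) hle hdeg b (by
    intro x
    refine x.fil_anti ?_ (hb x)
    simp only [Finsupp.coe_add, Finsupp.coe_neg, Pi.add_apply, Pi.neg_apply]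
    have : 0 ≤ S x := by
      rw [hS, Finsupp.single_apply]; split_ifs <;> omega
    omega)
  refine ⟨a, fun x hx => ?_⟩
  have hSx : S x = 0 := by
    rw [hS, Finsupp.single_apply, if_neg]
    rintro rfl
    exact hx hx₀
  have h1 := ha x
  simp only [Finsupp.coe_add, Finsupp.coe_neg, Pi.add_apply, Pi.neg_apply, hSx, add_zero,
    neg_neg] at h1
  refine ⟨?_, h1⟩
  have h3 : a = (a - b x) + b x := by ring
  rw [h3]
  exact Submodule.add_mem _ (x.fil_anti (hmE x) h1) (hb x)

lemma exists_ord_eq (x : Place k F) (n : ℤ) : ∃ a : F, a ≠ 0 ∧ x.ord a = n := by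
  obtain ⟨π, hπ, h1⟩ := x.exists_ord_eq_one
  have hpow : ∀ n : ℕ, x.ord (π ^ n) = n := by
    intro n
    induction n with
    | zero => simp
    | succ n ih =>
      rw [pow_succ, x.ord_mul (pow_ne_zero _ hπ) hπ, ih, h1]; push_cast; ring
  rcases Int.le_total 0 n with h | h
  · obtain ⟨m, rfl⟩ := Int.eq_ofNat_of_zero_le h
    exact ⟨π ^ m, pow_ne_zero _ hπ, hpow m⟩
  · obtain ⟨m, hm⟩ := Int.exists_eq_neg_ofNat h
    refine ⟨(π ^ m)⁻¹, inv_ne_zero (pow_ne_zero _ hπ), ?_⟩
    rw [x.ord_inv, hpow, hm]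

/-- Existence of good denominators: exact pole order `r₀` at all points of `T`, prescribed zeros
outside `T`. -/
lemma exists_denominator (hT : T.Nonempty) (E : Place k F →₀ ℕ) :
    ∃ (r₀ : ℤ) (c : F), c ≠ 0 ∧ (∀ x ∈ T, x.ord c = -r₀) ∧ ∀ x ∉ T, c ∈ x.fil (E x) := by
  classical
  obtain ⟨g, d₀, -, h2⟩ := riemann k F
  obtain ⟨x₀, hx₀⟩ := hT
  set E' : Div k F := (E.filter fun x => x ∉ T).mapRange (fun n : ℕ => (n : ℤ)) rfl with hE'
  have hE'x : ∀ x, E' x = if x ∈ T then 0 else (E x : ℤ) := fun x => by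
    rw [hE', Finsupp.mapRange_apply, Finsupp.filter_apply]
    by_cases hx : x ∈ T
    · simp [hx]
    · simp [hx]
  -- the divisor of T
  set TT : Div k F := ∑ x ∈ T, Finsupp.single x 1 with hTT
  have hTTx : ∀ x, TT x = if x ∈ T then 1 else 0 := by
    intro x
    rw [hTT, Finsupp.finsetSum_apply]
    simp only [Finsupp.single_apply]
    rw [Finset.sum_ite_eq' T x (fun _ => (1 : ℤ))]
  have hTTdeg : 1 ≤ Div.deg TT := by
    have h3 : Div.deg TT = ∑ x ∈ T, (x.degree : ℤ) := by
      have : ∀ S : Finset (Place k F),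
          Div.deg (∑ x ∈ S, Finsupp.single x (1 : ℤ)) = ∑ x ∈ S, (x.degree : ℤ) := by
        intro S
        induction S using Finset.induction_on with
        | empty => simp [Div.deg_zero]
        | insert a S ha ih =>
          rw [Finset.sum_insert ha, Finset.sum_insert ha, Div.deg_add, ih, Div.deg_single]
          ring
      exact this T
    rw [h3]
    have h4 : (x₀.degree : ℤ) ≤ ∑ x ∈ T, (x.degree : ℤ) :=
      Finset.single_le_sum (f := fun x : Place k F => (x.degree : ℤ))
        (fun _ _ => by positivity) hx₀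
    have h5 : (1 : ℤ) ≤ x₀.degree := by exact_mod_cast x₀.degree_pos
    omega
  set r : ℕ := (d₀ + Div.deg E').toNat with hr
  have hr' : d₀ + Div.deg E' ≤ r := Int.self_le_toNat _
  have hsm : ∀ n : ℕ, Div.deg ((n : ℤ) • TT) = n * Div.deg TT := by
    intro n
    induction n with
    | zero => simp [Div.deg_zero]
    | succ n ih =>
      push_cast
      rw [add_smul, one_smul, Div.deg_add, ih]; ring
  have hdeg : d₀ ≤ Div.deg (-E' + (r : ℤ) • TT) := by
    rw [Div.deg_add, Div.deg_neg, hsm]
    have h4 : (r : ℤ) ≤ r * Div.deg TT := by nlinarith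
    omega
  have hle : -E' + (r : ℤ) • TT ≤ -E' + ((r : ℤ) + 1) • TT := by
    intro x
    simp only [Finsupp.coe_add, Finsupp.coe_neg, Pi.add_apply, Pi.neg_apply, Finsupp.coe_smul,
      Pi.smul_apply, smul_eq_mul, hTTx]
    split_ifs <;> omega
  have hch : ∀ x : Place k F, ∃ a : F, a ≠ 0 ∧ x.ord a = -((r : ℤ) + 1) := fun x =>
    exists_ord_eq x _
  choose t ht0 ht using hch
  obtain ⟨c, hc1, hc2⟩ := h2 (-E' + ((r : ℤ) + 1) • TT) (-E' + (r : ℤ) • TT) hle hdeg
    (fun x => if x ∈ T then t x else 0) (by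
      intro x
      simp only [Finsupp.coe_add, Finsupp.coe_neg, Pi.add_apply, Pi.neg_apply, Finsupp.coe_smul,
        Pi.smul_apply, smul_eq_mul, hTTx, hE'x]
      split_ifs with h1
      · have := x.mem_fil_ord (t x)
        rw [ht] at this
        simpa using this
      · exact Submodule.zero_mem _)
  have hcT : ∀ x ∈ T, c ≠ 0 ∧ x.ord c = -((r : ℤ) + 1) := by
    intro x hx
    have h1 := hc2 x
    simp only [Finsupp.coe_add, Finsupp.coe_neg, Pi.add_apply, Pi.neg_apply, Finsupp.coe_smul,
        Pi.smul_apply, smul_eq_mul, hTTx, hE'x, if_pos hx] at h1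
    refine Place.ord_eq_of_sub_mem (ht0 x) (ht x) ?_
    refine x.fil_anti ?_ h1
    omega
  refine ⟨(r : ℤ) + 1, c, (hcT x₀ hx₀).1, fun x hx => (hcT x hx).2, fun x hx => ?_⟩
  have h1 := hc2 x
  simp only [Finsupp.coe_add, Finsupp.coe_neg, Pi.add_apply, Pi.neg_apply, Finsupp.coe_smul,
        Pi.smul_apply, smul_eq_mul, hTTx, hE'x, if_neg hx] at h1
  simpa using h1

end Hol

end Pool.Agent.WanRH
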