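import Pool.Agent.WanRH.Hol

/-!
# Determinants on `A_T / c` as products over places
-/

set_option linter.unusedSectionVars false
set_option linter.unusedVariables false

namespace Pool.Agent.WanRH

open Polynomial Module

universe u v

section HolDet

variable {k : Type u} {F : Type v} [Field k] [Finite k] [Field F] [Algebra k F]
  [IsFunctionField k F]

variable (T : Finset (Place k F))

/-- The ideal of functions with prescribed zeros outside `T`. -/
noncomputable def holoIdeal (E : Place k F →₀ ℕ) : Ideal (holo T) where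
  carrier := {a | ∀ x ∉ T, (a : F) ∈ x.fil (E x)}
  add_mem' := fun ha hb x hx => Submodule.add_mem _ (ha x hx) (hb x hx)
  zero_mem' := fun x hx => Submodule.zero_mem _
  smul_mem' := by
    intro c a ha x hx
    have h1 : (c : F) ∈ x.fil 0 := Place.mem_ring_iff_fil'.mp (c.2 x hx)
    have := Place.mul_mem_fil x h1 (ha x hx)
    rw [zero_add] at this
    exact this

variable {T}

lemma mem_holoIdeal {E : Place k F →₀ ℕ} {a : holo T} :
    a ∈ holoIdeal T E ↔ ∀ x ∉ T, (a : F) ∈ x.fil (E x) := Iff.rfl

lemma holoIdeal_zero : holoIdeal T (0 : Place k F →₀ ℕ) = ⊤ := by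
  rw [eq_top_iff]
  intro a _ x hx
  rw [Finsupp.coe_zero, Pi.zero_apply, Nat.cast_zero]
  exact Place.mem_ring_iff_fil'.mp (a.2 x hx)

lemma holoIdeal_anti {E E' : Place k F →₀ ℕ} (h : E ≤ E') : holoIdeal T E' ≤ holoIdeal T E := by
  intro a ha x hx
  exact x.fil_anti (by exact_mod_cast h x) (ha x hx)

/-- Evaluation at a place outside `T`. -/
noncomputable def holoEval (x : Place k F) (hx : x ∉ T) : holo T →ₐ[k] x.ResidueField where
  toFun a := x.resVal (a : F)
  map_one' := Place.resVal_one
  map_mul' a b := Place.resVal_mul (a.2 x hx) (b.2 x hx)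
  map_zero' := Place.resVal_zero
  map_add' a b := Place.resVal_add (a.2 x hx) (b.2 x hx)
  commutes' c := Place.resVal_const c

@[simp] lemma holoEval_apply (x : Place k F) (hx : x ∉ T) (a : holo T) :
    holoEval x hx a = x.resVal (a : F) := rfl

/-- The local determinant. -/
noncomputable def locDet (N : ℕ) (f : ℕ → F) (x : Place k F) : k[X] :=
  dp N (fun j => LinearMap.mulLeft k (x.resVal (f j)))

lemma dp_of_subsingleton (N : ℕ) {V : Type*} [AddCommGroup V] [Module k V] [Subsingleton V]
    (φ : ℕ → V →ₗ[k] V) : dp N φ = 1 := by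
  classical
  have b : Basis (Fin 0) k V := Basis.empty V
  rw [dp_eq N b]
  exact Matrix.det_isEmpty

lemma holoIdeal_step (hT : T.Nonempty) (N : ℕ) (f : ℕ → holo T) (E : Place k F →₀ ℕ)
    (x : Place k F) (hx : x ∉ T) [FiniteDimensional k (holo T ⧸ holoIdeal T E)] :
    FiniteDimensional k (holo T ⧸ holoIdeal T (E + Finsupp.single x 1)) ∧
    dp N (fun j => mulQ (k := k) (holoIdeal T (E + Finsupp.single x 1)) (f j)) =
      locDet N (fun j => (f j : F)) x *
      dp N (fun j => mulQ (k := k) (holoIdeal T E) (f j)) := by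
  classical
  obtain ⟨t, ht0, ht⟩ := exists_ord_eq x (-(E x : ℤ))
  -- the map a ↦ a t mod x
  have hring : ∀ a ∈ holoIdeal T E, ((a : F) * t) ∈ x.ring := by
    intro a ha
    rw [Place.mem_ring_iff_fil']
    have h1 := Place.mul_mem_fil x (ha x hx) (x.mem_fil_ord t)
    rw [ht] at h1
    simpa using h1
  set ψ : ((holoIdeal T E).restrictScalars k) →ₗ[k] x.ResidueField :=
    { toFun := fun a => x.resVal ((a : holo T) * t : F)
      map_add' := by
        intro a b
        rw [← Place.resVal_add (hring a a.2) (hring b b.2)]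
        congr 1
        push_cast
        ring
      map_smul' := by
        intro c a
        simp only [RingHom.id_apply]
        rw [Algebra.smul_def, ← Place.resVal_const c,
          ← Place.resVal_mul (x.const_mem c) (hring a a.2)]
        congr 1
        have : (((c • a : (holoIdeal T E).restrictScalars k) : holo T) : F) =
          algebraMap k F c * ((a : holo T) : F) := by
          rw [← Algebra.smul_def]; rfl
        rw [this]; ring } with hψ
  have hψapp : ∀ a, ψ a = x.resVal ((a : holo T) * t : F) := fun a => rfl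
  have hJI : holoIdeal T (E + Finsupp.single x 1) ≤ holoIdeal T E :=
    holoIdeal_anti (by simp)
  refine dp_ideal_step N hJI (holoEval x hx) ψ ?_ ?_ ?_ f
  · -- surjectivity
    intro y
    obtain ⟨s, hs, rfl⟩ := x.resVal_surjective y
    have hsfil : s ∈ x.fil 0 := Place.mem_ring_iff_fil'.mp hs
    set m : Div k F := E.mapRange (fun n : ℕ => (n : ℤ)) rfl with hm
    have hmx : ∀ z, m z = E z := fun z => by rw [hm, Finsupp.mapRange_apply]
    have hle : m ≤ m + Finsupp.single x 1 := by
      rw [le_add_iff_nonneg_right]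
      rw [Finsupp.single_nonneg]
      exact zero_le_one
    have hst : s * t⁻¹ ∈ x.fil (E x) := by
      have h1 := Place.mul_mem_fil x hsfil (x.mem_fil_ord t⁻¹)
      rw [x.ord_inv, ht] at h1
      simpa using h1
    obtain ⟨a, ha⟩ := strong_approx hT m (m + Finsupp.single x 1) hle
      (fun z => if z = x then s * t⁻¹ else 0) (by
        intro z
        split_ifs with hz
        · subst hz
          rw [hmx]; exact hst
        · exact Submodule.zero_mem _)
    have haT : a ∈ holo T := by
      intro z hz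
      rw [Place.mem_ring_iff_fil']
      refine z.fil_anti ?_ (ha z hz).1
      rw [hmx]; positivity
    have haI : (⟨a, haT⟩ : holo T) ∈ holoIdeal T E := by
      intro z hz
      have := (ha z hz).1
      rwa [hmx] at this
    refine ⟨⟨⟨a, haT⟩, haI⟩, ?_⟩
    rw [hψapp]
    have h1 := (ha x hx).2
    simp only [if_true, Finsupp.coe_add, Pi.add_apply, Finsupp.single_eq_same, hmx] at h1
    have h2 : a * t - s ∈ x.fil 1 := by
      have h3 := Place.mul_mem_fil x h1 (x.mem_fil_ord t)
      rw [ht] at h3
      have h4 : (a - s * t⁻¹) * t = a * t - s := by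
        rw [sub_mul, mul_assoc, inv_mul_cancel₀ ht0, mul_one]
      rw [h4] at h3
      refine x.fil_anti ?_ h3
      omega
    have h5 : a * t ∈ x.ring := hring _ haI
    have h6 : a * t - s ∈ x.ring := sub_mem h5 hs
    have h7 := (Place.resVal_eq_zero_iff h6).mpr h2
    rw [Place.resVal_sub h5 hs, sub_eq_zero] at h7
    exact h7
  · -- kernel
    intro a
    rw [hψapp, Place.resVal_eq_zero_iff (hring a a.2), mem_holoIdeal]
    constructor
    · intro h z hz
      by_cases hzx : z = x
      · subst hzx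
        have h1 := Place.mul_mem_fil z h (z.mem_fil_ord t⁻¹)
        rw [z.ord_inv, ht, mul_assoc, mul_inv_cancel₀ ht0, mul_one] at h1
        refine z.fil_anti ?_ h1
        simp
      · have := a.2 z hz
        rw [Finsupp.coe_add, Pi.add_apply, Finsupp.single_apply, if_neg (Ne.symm hzx), add_zero]
        exact this
    · intro h
      have h1 := Place.mul_mem_fil x (h x hx) (x.mem_fil_ord t)
      rw [ht] at h1
      refine x.fil_anti ?_ h1
      simp
  · -- linearity
    intro g a b hb
    rw [hψapp, hψapp, holoEval_apply, ← Place.resVal_mul (g.2 x hx) (hring a a.2)]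
    congr 1
    rw [hb]
    push_cast
    ring

/-- Product formula for the determinant. -/
theorem dp_holoIdeal (hT : T.Nonempty) (N : ℕ) (f : ℕ → holo T) (m : ℕ) :
    ∀ (E : Place k F →₀ ℕ), (E.sum fun _ n => n) = m → (∀ x ∈ T, E x = 0) →
    FiniteDimensional k (holo T ⧸ holoIdeal T E) ∧
    dp N (fun j => mulQ (k := k) (holoIdeal T E) (f j)) =
      E.prod fun x n => (locDet N (fun j => (f j : F)) x) ^ n := by
  classical
  induction m with
  | zero =>
    intro E hE _
    have hE0 : E = 0 := by
      ext x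
      by_contra hne
      have h1 : E x ≤ E.sum fun _ n => n := by
        unfold Finsupp.sum
        exact Finset.single_le_sum (f := fun x => E x) (fun _ _ => Nat.zero_le _)
          (Finsupp.mem_support_iff.mpr hne)
      simp only [Finsupp.coe_zero, Pi.zero_apply] at hne
      omega
    subst hE0
    have hsub : Subsingleton (holo T ⧸ holoIdeal T (0 : Place k F →₀ ℕ)) := by
      rw [holoIdeal_zero]
      exact Ideal.Quotient.subsingleton_iff.mpr rfl
    refine ⟨?_, ?_⟩
    · exact Module.Finite.of_finite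
    · rw [dp_of_subsingleton, Finsupp.prod_zero_index]
  | succ m ih =>
    intro E hE hET
    have hne : E ≠ 0 := by
      rintro rfl
      simp at hE
    obtain ⟨x, hx⟩ := Finsupp.ne_iff.mp hne
    simp only [Finsupp.coe_zero, Pi.zero_apply] at hx
    have hxT : x ∉ T := fun h => hx (hET x h)
    have hle : Finsupp.single x 1 ≤ E := by
      rw [Finsupp.single_le_iff]; omega
    set E' := E - Finsupp.single x 1 with hE'
    have hEE : E' + Finsupp.single x 1 = E := tsub_add_cancel_of_le hle
    have hsum : (E'.sum fun _ n => n) = m := by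
      have h1 : (E'.sum fun _ n => n) + 1 = m + 1 := by
        rw [← hE, ← hEE, Finsupp.sum_add_index']
        · simp
        · intro a; rfl
        · intro a b c; rfl
      omega
    have hE'T : ∀ y ∈ T, E' y = 0 := by
      intro y hy
      have h1 : E' y ≤ E y := by
        rw [← hEE]; simp
      rw [hET y hy] at h1
      omega
    obtain ⟨h1, h2⟩ := ih E' hsum hE'T
    have h3 := holoIdeal_step hT N f E' x hxT
    rw [hEE] at h3
    refine ⟨h3.1, ?_⟩
    rw [h3.2, h2, ← hEE, Finsupp.prod_add_index']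
    · rw [Finsupp.prod_single_index, pow_one, mul_comm]
      rw [pow_zero]
    · intro a; rw [pow_zero]
    · intro a b c; rw [pow_add]

/-- Zero divisor outside `T` of a function. -/
noncomputable def zdiv (T : Finset (Place k F)) (c : F) : Place k F →₀ ℕ :=
  open Classical in
  Finsupp.onFinset (finite_ord_ne_zero (k := k) c).toFinset
    (fun x => if x ∈ T then 0 else (x.ord c).toNat) (by
      intro x hx
      simp only [Set.Finite.mem_toFinset, Set.mem_ofPred_eq]
      intro h
      apply hx
      rw [h]; simp)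

lemma zdiv_apply (T : Finset (Place k F)) [DecidableEq (Place k F)] (c : F) (x : Place k F) :
    zdiv T c x = if x ∈ T then 0 else (x.ord c).toNat := by
  unfold zdiv
  rw [Finsupp.onFinset_apply]
  split_ifs <;> rfl

lemma span_eq_holoIdeal (c : holo T) (hc : c ≠ 0) :
    Ideal.span {c} = holoIdeal T (zdiv T (c : F)) := by
  classical
  have hc' : (c : F) ≠ 0 := fun h => hc (Subtype.ext h)
  have hord : ∀ x ∉ T, 0 ≤ x.ord (c : F) := by
    intro x hx
    exact Place.le_ord_of_mem_fil hc' (Place.mem_ring_iff_fil'.mp (c.2 x hx))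
  ext a
  rw [Ideal.mem_span_singleton, mem_holoIdeal]
  constructor
  · rintro ⟨b, rfl⟩ x hx
    rw [zdiv_apply, if_neg hx, Int.toNat_of_nonneg (hord x hx)]
    have h1 := Place.mul_mem_fil x (x.mem_fil_ord (c : F)) (Place.mem_ring_iff_fil'.mp (b.2 x hx))
    rw [add_zero] at h1
    exact h1
  · intro h
    have hb : (c : F)⁻¹ * a ∈ holo T := by
      intro x hx
      have h1 := h x hx
      rw [zdiv_apply, if_neg hx, Int.toNat_of_nonneg (hord x hx)] at h1
      have h2 := Place.mul_mem_fil x (x.mem_fil_ord (c : F)⁻¹) h1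
      rw [x.ord_inv, neg_add_cancel] at h2
      exact Place.mem_ring_iff_fil'.mpr h2
    refine ⟨⟨_, hb⟩, ?_⟩
    apply Subtype.ext
    push_cast
    rw [mul_inv_cancel_left₀ hc']

lemma zdiv_sum (T : Finset (Place k F)) (c : F) (hc : ∀ x ∉ T, 0 ≤ x.ord c) (j : Place k F → ℕ)
    (hj : ∀ x ∈ T, j x = 0) :
    (((zdiv T c).sum fun x n => n * j x : ℕ) : ℤ) = (pdiv (k := k) c).sum fun x n => n * (j x : ℤ) := by
  classical
  have h1 : ((zdiv T c).sum fun x n => n * j x) =
      ∑ x ∈ (finite_ord_ne_zero (k := k) c).toFinset, (zdiv T c x) * j x := by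
    refine Finsupp.sum_of_support_subset _ ?_ _ (by simp)
    exact Finsupp.support_onFinset_subset
  have h2 : ((pdiv (k := k) c).sum fun x n => n * (j x : ℤ)) =
      ∑ x ∈ (finite_ord_ne_zero (k := k) c).toFinset, (x.ord c) * (j x : ℤ) := by
    have := Finsupp.sum_of_support_subset (f := pdiv (k := k) c)
      (s := (finite_ord_ne_zero (k := k) c).toFinset) Finsupp.support_onFinset_subset
      (fun x n => n * (j x : ℤ)) (by simp)
    rw [this]
    rfl
  rw [h1, h2]
  push_cast
  refine Finset.sum_congr rfl fun x _ => ?_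
  rw [zdiv_apply]
  by_cases hx : x ∈ T
  · rw [hj x hx]; simp
  · rw [if_neg hx, Int.toNat_of_nonneg (hc x hx)]

/-- **Reciprocity.** -/
theorem reciprocity (hT : T.Nonempty) (p n : ℕ) [hp : Fact p.Prime] [CharP k p]
    (f : ℕ → holo T) (hf0 : f 0 = 1) (hfN : ∀ i, p ^ n ≤ i → f i = 0) (j : Place k F → ℕ)
    (hj : ∀ x ∈ T, j x = 0)
    (hf : ∀ x ∉ T, CongrMod (p ^ n) (locDet (p ^ n) (fun i => (f i : F)) x) ((1 + X) ^ (j x))) :
    ∃ m' : ℕ, 0 < m' ∧ ∀ a : F, a ≠ 0 → (∀ x ∈ T, a - 1 ∈ x.fil m') →
      ((p ^ n : ℕ) : ℤ) ∣ (pdiv (k := k) a).sum fun x e => e * (j x : ℤ) := by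
  classical
  set N := p ^ n with hN
  have hNpos : 0 < N := pow_pos hp.out.pos n
  -- choice of B
  have hexh := fun i => (holoFilt hT).exh (f i)
  choose ν hν using hexh
  set B : ℕ := 1 + (Finset.range N).sup (fun i => (ν i).toNat) with hB
  have hBpos : 0 < B := by omega
  have hfB : ∀ i : ℕ, f i ∈ (holoFilt hT).fl (i * B) := by
    intro i
    rcases Nat.eq_zero_or_pos i with h0 | h0
    · subst h0
      rw [hf0, mem_holoFilt]
      intro x hx
      simpa using x.one_mem_fil
    · rcases Nat.lt_or_ge i N with h1 | h1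
      · refine (holoFilt hT).mono ?_ (hν i)
        have h2 : ν i ≤ (ν i).toNat := Int.self_le_toNat _
        have h3 : (ν i).toNat ≤ (Finset.range N).sup (fun i => (ν i).toNat) :=
          Finset.le_sup (f := fun i => (ν i).toNat) (Finset.mem_range.mpr h1)
        have h4 : (ν i).toNat ≤ B := by omega
        have h5 : (B : ℤ) ≤ i * B := by
          have : (1 : ℤ) ≤ i := by exact_mod_cast h0
          nlinarith
        have h6 : ((ν i).toNat : ℤ) ≤ B := by exact_mod_cast h4
        linarith
      · rw [hfN i h1]; exact Submodule.zero_mem _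
  refine ⟨N * B, Nat.mul_pos hNpos hBpos, ?_⟩
  intro a ha haT
  -- denominators
  obtain ⟨r₀, c, hc0, hcT, hcE⟩ := exists_denominator hT (zdiv T a⁻¹)
  have hzx : ∀ x ∉ T, -x.ord a ≤ zdiv T a⁻¹ x := by
    intro x hx
    rw [zdiv_apply, if_neg hx, x.ord_inv]
    exact Int.self_le_toNat _
  have hcord : ∀ x ∉ T, (zdiv T a⁻¹ x : ℤ) ≤ x.ord c := fun x hx =>
    Place.le_ord_of_mem_fil hc0 (hcE x hx)
  set b := c * a with hb
  have hb0 : b ≠ 0 := mul_ne_zero hc0 ha
  have hbord : ∀ x : Place k F, x.ord b = x.ord c + x.ord a := fun x => x.ord_mul hc0 ha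
  have hcnn : ∀ x ∉ T, 0 ≤ x.ord c := fun x hx => le_trans (by positivity) (hcord x hx)
  have hbnn : ∀ x ∉ T, 0 ≤ x.ord b := fun x hx => by
    rw [hbord]; have h1 := hcord x hx; have h2 := hzx x hx; omega
  have hcH : c ∈ holo T := fun x hx => x.mem_ring_iff.mpr (Or.inr (hcnn x hx))
  have hbH : b ∈ holo T := fun x hx => x.mem_ring_iff.mpr (Or.inr (hbnn x hx))
  -- order of a at T is zero
  have haord : ∀ x ∈ T, x.ord a = 0 := by
    intro x hx
    refine (Place.ord_eq_of_sub_mem one_ne_zero x.ord_one ?_).2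
    refine x.fil_anti ?_ (haT x hx)
    have : 0 < N * B := Nat.mul_pos hNpos hBpos
    have : (0 : ℤ) < ((N * B : ℕ) : ℤ) := by exact_mod_cast this
    omega
  have hbT : ∀ x ∈ T, x.ord b = -r₀ := fun x hx => by rw [hbord, hcT x hx, haord x hx, add_zero]
  set cH : holo T := ⟨c, hcH⟩ with hcHd
  set bH : holo T := ⟨b, hbH⟩ with hbHd
  have hcH0 : cH ≠ 0 := fun h => hc0 (congrArg Subtype.val h)
  have hbH0 : bH ≠ 0 := fun h => hb0 (congrArg Subtype.val h)
  have hexact : ∀ g : holo T, (g : F) ≠ 0 → (∀ x ∈ T, x.ord (g : F) = -r₀) →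
      ∀ u r, g * u ∈ (holoFilt hT).fl r → u ∈ (holoFilt hT).fl (r - r₀) := by
    intro g hg0 hgT u r hu
    rw [mem_holoFilt] at hu ⊢
    intro x hx
    have h1 := hu x hx
    have h2 : (((g * u : holo T) : F)) = (g : F) * u := rfl
    rw [h2, show -r = x.ord (g : F) + (r₀ - r) by rw [hgT x hx]; ring,
      Place.mul_mem_fil_iff hg0] at h1
    rwa [neg_sub]
  have hclose : bH - cH ∈ (holoFilt hT).fl (r₀ - N * B) := by
    rw [mem_holoFilt]
    intro x hx
    have h1 : (((bH - cH : holo T) : F)) = c * (a - 1) := by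
      show b - c = _
      rw [hb]; ring
    rw [h1]
    have h2 := Place.mul_mem_fil x (x.mem_fil_ord c) (haT x hx)
    rw [hcT x hx] at h2
    refine x.fil_anti ?_ h2
    push_cast
    omega
  -- finite dimensionality and product formulas
  have hzT : ∀ g : F, ∀ x ∈ T, zdiv T g x = 0 := fun g x hx => by rw [zdiv_apply, if_pos hx]
  obtain ⟨hfc, hdc⟩ := dp_holoIdeal hT N f _ (zdiv T c) rfl (hzT c)
  obtain ⟨hfb, hdb⟩ := dp_holoIdeal hT N f _ (zdiv T b) rfl (hzT b)
  have hsc : Ideal.span {cH} = holoIdeal T (zdiv T c) := span_eq_holoIdeal cH hcH0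
  have hsb : Ideal.span {bH} = holoIdeal T (zdiv T b) := span_eq_holoIdeal bH hbH0
  have hfc' : FiniteDimensional k (holo T ⧸ Ideal.span {cH}) := by rw [hsc]; exact hfc
  have hfb' : FiniteDimensional k (holo T ⧸ Ideal.span {bH}) := by rw [hsb]; exact hfb
  have hmain := dp_eq_of_close (𝓕 := holoFilt hT) (B := B) (N := N) hBpos hNpos
    (c := cH) (b := bH) (r₀ := r₀)
    (hexact cH hc0 hcT) (hexact bH hb0 hbT) hclose
  rw [hsc, hsb] at hmain
  have hmain2 := hmain f hfB
  have hprod : ∀ g : F, CongrMod N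
      ((zdiv T g).prod fun x n => (locDet N (fun j => (f j : F)) x) ^ n)
      ((1 + X) ^ ((zdiv T g).sum fun x n => n * j x)) := by
    intro g
    have h1 : ((1 + X : k[X]) ^ ((zdiv T g).sum fun x n => n * j x)) =
        (zdiv T g).prod fun x n => ((1 + X : k[X]) ^ (j x)) ^ n := by
      unfold Finsupp.sum Finsupp.prod
      rw [← Finset.prod_pow_eq_pow_sum]
      refine Finset.prod_congr rfl fun x _ => ?_
      show (1 + X : k[X]) ^ ((zdiv T g) x * j x) = ((1 + X : k[X]) ^ (j x)) ^ ((zdiv T g) x)
      rw [← pow_mul, mul_comm]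
    rw [h1]
    unfold Finsupp.prod
    refine CongrMod.prod _ fun x hx => ?_
    have hxT : x ∉ T := by
      intro h
      exact (Finsupp.mem_support_iff.mp hx) (hzT g x h)
    exact (hf x hxT).pow _
  have hcongr : CongrMod N ((1 + X : k[X]) ^ ((zdiv T b).sum fun x n => n * j x))
      ((1 + X) ^ ((zdiv T c).sum fun x n => n * j x)) := by
    refine (hprod b).symm.trans (CongrMod.trans ?_ (hprod c))
    rw [← hdc, ← hdb]
    intro i hi
    exact hmain2 i hi
  have hmod := modEq_of_one_add_pow (k := k) p (n := n) hcongr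
  -- conclusion
  have e1 := zdiv_sum T b hbnn j hj
  have e2 := zdiv_sum T c hcnn j hj
  have e3 : (pdiv (k := k) b).sum (fun x e => e * (j x : ℤ)) =
      (pdiv (k := k) c).sum (fun x e => e * (j x : ℤ)) +
      (pdiv (k := k) a).sum (fun x e => e * (j x : ℤ)) := by
    have : pdiv (k := k) b = pdiv (k := k) c + pdiv (k := k) a := by
      ext x
      exact hbord x
    rw [this, Finsupp.sum_add_index']
    · intro x; simp
    · intro x m m'; ring
  have e4 : (pdiv (k := k) a).sum (fun x e => e * (j x : ℤ)) =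
      (((zdiv T b).sum fun x n => n * j x : ℕ) : ℤ) - (((zdiv T c).sum fun x n => n * j x : ℕ) : ℤ) := by
    rw [e1, e2, e3]; ring
  rw [e4]
  exact (Nat.modEq_iff_dvd.mp hmod.symm)

end HolDet

end Pool.Agent.WanRH
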