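import Pool.Agent.WanRH.Poly

/-!
# Two consecutive levels of the tower
-/

set_option linter.unusedSectionVars false
set_option linter.unusedVariables false

namespace Pool.Agent.WanRH

open Place

universe u v w w'

section Inertia

variable {k : Type u} {K : Type v} {L : Type w} [Field k] [Finite k]
  [Field K] [Algebra k K] [IsFunctionField k K]
  [Field L] [Algebra k L] [IsFunctionField k L]
  [Algebra K L] [IsScalarTower k K L] [FiniteDimensional K L]

lemma mem_ring_of_act_eq {σ : L ≃ₐ[K] L} {y : Place k L} (h : act σ y = y) {a : L}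
    (ha : a ∈ y.ring) : σ a ∈ y.ring := by
  have h1 : σ a ∈ (act σ y).ring := by
    rw [mem_act_ring, AlgEquiv.symm_apply_apply]; exact ha
  rwa [h] at h1

lemma mem_fil_of_act_eq {σ : L ≃ₐ[K] L} {y : Place k L} (h : act σ y = y) {a : L} {n : ℤ}
    (ha : a ∈ y.fil n) : σ a ∈ y.fil n := by
  have h1 : σ a ∈ (act σ y).fil n := by
    rw [mem_fil_act, AlgEquiv.symm_apply_apply]; exact ha
  rwa [h] at h1

lemma act_inv_eq {σ : L ≃ₐ[K] L} {y : Place k L} (h : act σ y = y) : act σ⁻¹ y = y := by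
  have h1 := congrArg (act σ⁻¹) h
  rw [← act_mul, inv_mul_cancel, act_one] at h1
  exact h1.symm

/-- The inertia group. -/
def inertiaSub (K : Type v) [Field K] [Algebra k K] [IsFunctionField k K] [Algebra K L]
    [IsScalarTower k K L] [FiniteDimensional K L] (y : Place k L) : Subgroup (L ≃ₐ[K] L) where
  carrier := {σ | Inert σ y}
  one_mem' := ⟨act_one y, fun a _ => by
    rw [AlgEquiv.one_apply, sub_self]; exact Submodule.zero_mem _⟩
  mul_mem' := by
    rintro σ τ ⟨h1, h2⟩ ⟨h3, h4⟩
    refine ⟨by rw [act_mul, h3, h1], fun a ha => ?_⟩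
    rw [AlgEquiv.mul_apply]
    have h5 : σ (τ a) - a = (σ (τ a) - τ a) + (τ a - a) := by ring
    rw [h5]
    exact Submodule.add_mem _ (h2 _ (mem_ring_of_act_eq h3 ha)) (h4 a ha)
  inv_mem' := by
    rintro σ ⟨h1, h2⟩
    refine ⟨act_inv_eq h1, fun a ha => ?_⟩
    have h3 : σ⁻¹ a ∈ y.ring := mem_ring_of_act_eq (act_inv_eq h1) ha
    have h4 := h2 _ h3
    have h5 : σ (σ⁻¹ a) = a := by rw [← AlgEquiv.mul_apply, mul_inv_cancel, AlgEquiv.one_apply]
    rw [h5] at h4
    have := Submodule.neg_mem _ h4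
    rwa [neg_sub] at this

lemma mem_inertiaSub {σ : L ≃ₐ[K] L} {y : Place k L} : σ ∈ inertiaSub K y ↔ Inert σ y := Iff.rfl

lemma unram_iff_inertiaSub {y : Place k L} : Unram K y ↔ inertiaSub K y = ⊥ := by
  rw [Subgroup.eq_bot_iff_forall]
  rfl

/-- Uniqueness of Frobenius elements at unramified places. -/
lemma frob_unique {y : Place k L} (hun : Unram K y) {σ τ : L ≃ₐ[K] L} (hσ : IsFrob σ y)
    (hτ : IsFrob τ y) : σ = τ := by
  have h1 : τ⁻¹ * σ = 1 := by
    apply hun
    refine ⟨by rw [act_mul, hσ.1, act_inv_eq hτ.1], fun a ha => ?_⟩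
    have h2 : σ a - τ a ∈ y.fil 1 := by
      have := Submodule.sub_mem _ (hσ.2 a ha) (hτ.2 a ha)
      have e : σ a - a ^ Nat.card k ^ (down K y).degree -
        (τ a - a ^ Nat.card k ^ (down K y).degree) = σ a - τ a := by ring
      rwa [e] at this
    have h3 := mem_fil_of_act_eq (act_inv_eq hτ.1) h2
    rw [map_sub] at h3
    have h5 : τ⁻¹ (τ a) = a := by rw [← AlgEquiv.mul_apply, inv_mul_cancel, AlgEquiv.one_apply]
    rw [h5] at h3
    exact h3
  exact (inv_mul_eq_one.mp h1).symm

/-- In a finite cyclic group of `p`-power order every nontrivial subgroup contains all elements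
of order dividing `p`. -/
lemma mem_of_pow_eq_one {G : Type*} [Group G] [Finite G] [IsCyclic G] {p n : ℕ}
    (hp : p.Prime) (hG : Nat.card G = p ^ n) (H : Subgroup G) (hH : H ≠ ⊥) (g : G)
    (hg : g ^ p = 1) : g ∈ H := by
  classical
  have := Fintype.ofFinite G
  have hfact : Fact p.Prime := ⟨hp⟩
  have hcard : p ∣ Nat.card H := by
    have h1 : Nat.card H ∣ p ^ n := hG ▸ Subgroup.card_subgroup_dvd_card H
    obtain ⟨a, ha, h2⟩ := (Nat.dvd_prime_pow hp).mp h1
    rw [h2]
    apply dvd_pow_self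
    rintro rfl
    apply hH
    rw [pow_zero] at h2
    exact Subgroup.eq_bot_of_card_eq H h2
  obtain ⟨h, hh⟩ := exists_prime_orderOf_dvd_card' p hcard
  have hle := IsCyclic.card_pow_eq_one_le (α := G) hp.pos
  have hsub : (Subgroup.zpowers (h : G) : Set G).toFinset ⊆ Finset.univ.filter (fun a : G => a ^ p = 1) := by
    intro x hx
    rw [Set.mem_toFinset, SetLike.mem_coe, Subgroup.mem_zpowers_iff] at hx
    obtain ⟨c, rfl⟩ := hx
    rw [Finset.mem_filter]
    refine ⟨Finset.mem_univ _, ?_⟩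
    have h1 : (h : G) ^ p = 1 := by
      rw [← hh]
      have := pow_orderOf_eq_one h
      exact_mod_cast congrArg Subtype.val this
    rw [← zpow_natCast, ← zpow_mul, mul_comm, zpow_mul, zpow_natCast, h1, one_zpow]
  have hcard2 : (Subgroup.zpowers (h : G) : Set G).toFinset.card = p := by
    rw [Set.toFinset_card, ← Nat.card_eq_fintype_card]
    show Nat.card (Subgroup.zpowers (h : G)) = p
    rw [Nat.card_zpowers, Subgroup.orderOf_coe, hh]
  have heq := Finset.eq_of_subset_of_card_le hsub (by rw [hcard2]; convert hle)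
  have hmem : g ∈ (Subgroup.zpowers (h : G) : Set G).toFinset := by
    rw [heq, Finset.mem_filter]
    exact ⟨Finset.mem_univ _, hg⟩
  rw [Set.mem_toFinset, SetLike.mem_coe] at hmem
  exact (Subgroup.zpowers_le.mpr h.2) hmem

end Inertia

section Level

variable {k : Type u} {K : Type v} {M : Type w'} {L : Type w} [Field k] [Finite k]
  [Field K] [Algebra k K] [IsFunctionField k K]
  [Field M] [Algebra k M] [IsFunctionField k M]
  [Field L] [Algebra k L] [IsFunctionField k L]
  [Algebra K L] [IsScalarTower k K L] [FiniteDimensional K L]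
  [Algebra K M] [IsScalarTower k K M] [FiniteDimensional K M]
  [Algebra M L] [IsScalarTower k M L] [FiniteDimensional M L]
  [IsScalarTower K M L] [IsGalois K L] [IsGalois K M]

/-- Inert elements for `L/M` from inert elements for `L/K`. -/
lemma inert_of_restrictScalars {y : Place k L} (τ : L ≃ₐ[M] L)
    (h : Inert (τ.restrictScalars K) y) : Inert τ y := by
  refine ⟨?_, h.2⟩
  have h1 := h.1
  apply Place.ext
  have h2 := congrArg Place.ring h1
  ext a
  have h3 : a ∈ (act (τ.restrictScalars K) y).ring ↔ a ∈ y.ring := by rw [h1]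
  rw [mem_act_ring] at h3 ⊢
  exact h3

/-- The zeta functions of two consecutive levels. -/
theorem zeta_step {Ω : Type*} [Field Ω] (S : Finset (Place k K))
    (hun : ∀ y : Place k L, y.down K ∉ S → Unram K y)
    (hram : ∀ y : Place k L, y.down K ∈ S → ∀ τ : L ≃ₐ[M] L, Inert τ y)
    {p n : ℕ} [hp : Fact p.Prime] (σ₀ : L ≃ₐ[K] L)
    (hσ₀ : ∀ σ : L ≃ₐ[K] L, σ ∈ Subgroup.zpowers σ₀) (hord : orderOf σ₀ = p ^ (n + 1))
    (hM : Module.finrank K M = p ^ n)
    {ζ : Ω} (hζ : IsPrimitiveRoot ζ (p ^ (n + 1))) (j : Place k K → ℕ)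
    (hj : ∀ y : Place k L, y.down K ∉ S → IsFrob (σ₀ ^ j (y.down K)) y) :
    zetaR k L Ω = zetaR k M Ω *
      ∏ i ∈ (Finset.range (p ^ (n + 1))).filter (fun i => ¬ p ∣ i), Lser S (ζ ^ i) j := by
  classical
  have hppos := hp.out.pos
  have hgalML : IsGalois M L := IsGalois.tower_top_of_isGalois K M L
  -- the middle level
  set r := AlgEquiv.restrictNormalHom (F := K) (K₁ := L) M with hr
  set σM : M ≃ₐ[K] M := r σ₀ with hσM
  have hrsurj : Function.Surjective r := AlgEquiv.restrictNormalHom_surjective L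
  have hσMgen : ∀ σ : M ≃ₐ[K] M, σ ∈ Subgroup.zpowers σM := by
    intro σ
    obtain ⟨τ, rfl⟩ := hrsurj σ
    obtain ⟨c, hc⟩ := Subgroup.mem_zpowers_iff.mp (hσ₀ τ)
    exact Subgroup.mem_zpowers_iff.mpr ⟨c, by rw [hσM, ← map_zpow, hc]⟩
  have hσMord : orderOf σM = p ^ n := by
    rw [orderOf_eq_card_of_forall_mem_zpowers hσMgen, IsGalois.card_aut_eq_finrank, hM]
  have hunM : ∀ z : Place k M, z.down K ∉ S → Unram K z := by
    intro z hz
    obtain ⟨y, hy⟩ := down_surjective k M L z
    subst hy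
    rw [down_down] at hz
    intro σ hσ
    obtain ⟨τ, hτ, hτσ⟩ := exists_inert_lift y σ hσ
    have := hun y hz τ hτ
    rw [← hτσ, this]
    exact map_one (AlgEquiv.restrictNormalHom (F := K) (K₁ := L) M)
  have hjM : ∀ z : Place k M, z.down K ∉ S → IsFrob (σM ^ j (z.down K)) z := by
    intro z hz
    obtain ⟨y, hy⟩ := down_surjective k M L z
    subst hy
    rw [down_down] at hz ⊢
    have h1 := (hj y hz).restrict (M := M)
    have h2 : AlgEquiv.restrictNormal (σ₀ ^ j (y.down K)) M = σM ^ j (y.down K) := by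
      rw [hσM, ← map_pow]; rfl
    rwa [h2] at h1
  have hζp : IsPrimitiveRoot (ζ ^ p) (p ^ n) := by
    have := hζ.pow (pow_pos hppos (n + 1)) (show p ^ (n + 1) = p * p ^ n by rw [pow_succ']) 
    exact this
  have e1 := euler_product (Ω := Ω) S hun (pow_pos hppos (n + 1)) σ₀ hσ₀ hord hζ j hj
  have e2 := euler_product (Ω := Ω) S hunM (pow_pos hppos n) σM hσMgen hσMord hζp j hjM
  -- split the product
  have hsplit : ∏ i ∈ Finset.range (p ^ (n + 1)), Lser S (ζ ^ i) j =
      (∏ i ∈ Finset.range (p ^ n), Lser S ((ζ ^ p) ^ i) j) *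
      ∏ i ∈ (Finset.range (p ^ (n + 1))).filter (fun i => ¬ p ∣ i), Lser S (ζ ^ i) j := by
    rw [← Finset.prod_filter_mul_prod_filter_not (Finset.range (p ^ (n + 1))) (fun i => p ∣ i)]
    congr 1
    symm
    refine Finset.prod_bij (fun i _ => p * i) ?_ ?_ ?_ ?_
    · intro i hi
      rw [Finset.mem_range] at hi
      rw [Finset.mem_filter, Finset.mem_range, pow_succ']
      exact ⟨Nat.mul_lt_mul_of_pos_left hi hppos, dvd_mul_right _ _⟩
    · intro a _ b _ hab
      exact Nat.eq_of_mul_eq_mul_left hppos hab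
    · intro i hi
      rw [Finset.mem_filter, Finset.mem_range, pow_succ'] at hi
      obtain ⟨hi1, c, rfl⟩ := hi
      exact ⟨c, Finset.mem_range.mpr (lt_of_mul_lt_mul_left hi1 (Nat.zero_le _)), rfl⟩
    · intro i _
      rw [pow_mul]
  have e3 : triv (above L S) Ω = triv (above M S) Ω *
      ∏ i ∈ (Finset.range (p ^ (n + 1))).filter (fun i => ¬ p ∣ i), Lser S (ζ ^ i) j := by
    unfold triv
    rw [e1, e2, hsplit]
  -- the ramified places correspond
  have hW : ∏ y ∈ above L S, ((1 : PowerSeries Ω) - PowerSeries.X ^ y.degree) =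
      ∏ z ∈ above M S, ((1 : PowerSeries Ω) - PowerSeries.X ^ z.degree) := by
    refine Finset.prod_bij (fun y _ => y.down M) ?_ ?_ ?_ ?_
    · intro y hy
      rw [mem_above] at hy ⊢
      rwa [down_down]
    · intro y hy y' hy' h
      rw [mem_above] at hy
      exact ((of_totally_inert (hram y hy)).1 y' h.symm).symm
    · intro z hz
      obtain ⟨y, hy⟩ := down_surjective k M L z
      subst hy
      refine ⟨y, ?_, rfl⟩
      rw [mem_above] at hz ⊢
      rwa [down_down] at hz
    · intro y hy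
      rw [mem_above] at hy
      rw [(of_totally_inert (hram y hy)).2]
  rw [triv_eq, triv_eq, hW] at e3
  have hW0 : (∏ z ∈ above M S, ((1 : PowerSeries Ω) - PowerSeries.X ^ z.degree)) ≠ 0 := by
    rw [Finset.prod_ne_zero_iff]
    intro z _ h
    have := congrArg (PowerSeries.coeff 0) h
    rw [map_sub, PowerSeries.coeff_zero_one, PowerSeries.coeff_X_pow, if_neg z.degree_pos.ne] at this
    simp at this
  apply mul_right_cancel₀ hW0
  rw [e3]; ring

end Level

end Pool.Agent.WanRH
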