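import Pool.Agent.WanRH.FF

/-!
# Counting effective divisors in a divisor class
-/

namespace Pool.Agent.WanRH

universe u v w

variable {k : Type u} {F : Type v} [Field k] [Finite k] [Field F] [Algebra k F]
  [IsFunctionField k F]

/-- The effective divisors linearly equivalent to `D`. -/
def effLin (D : Div k F) : Set (Div k F) := {E | 0 ≤ E ∧ ∃ f : F, f ≠ 0 ∧ E = D + pdiv f}

/-- An element with trivial divisor is a nonzero constant. -/
lemma exists_const_of_pdiv_eq {f g : F} (hf : f ≠ 0) (hg : g ≠ 0)
    (h : pdiv (k := k) f = pdiv g) : ∃ c : kˣ, f = algebraMap k F c * g := by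
  have h1 : f / g ∈ Set.range (algebraMap k F) := by
    apply mem_range_of_forall_mem_ring
    intro x
    rw [x.mem_ring_iff]
    right
    have h2 : x.ord f = x.ord g := by
      have := DFunLike.congr_fun h x
      simpa using this
    rw [x.ord_div hf hg, h2, sub_self]
  obtain ⟨c, hc⟩ := h1
  have hc0 : c ≠ 0 := by
    rintro rfl
    rw [map_zero] at hc
    exact div_ne_zero hf hg hc.symm
  refine ⟨Units.mk0 c hc0, ?_⟩
  rw [Units.val_mk0, hc, div_mul_cancel₀ _ hg]

theorem card_effLin (D : Div k F) :
    (Nat.card k - 1) * Nat.card (effLin D) = Nat.card k ^ Module.finrank k (LL D) - 1 := by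
  classical
  have hfin : Finite (LL D) := Module.finite_of_finite k
  have hex : ∀ E : effLin D, ∃ f : F, f ≠ 0 ∧ (E : Div k F) = D + pdiv f := fun E => E.2.2
  choose f hf0 hf using hex
  have hmem : ∀ E : effLin D, f E ∈ LL D := fun E => by
    rw [mem_LL_iff (hf0 E), ← hf E]; exact E.2.1
  let φ : effLin D × kˣ → {a : LL D // a ≠ 0} := fun q =>
    ⟨(q.2 : k) • ⟨f q.1, hmem q.1⟩, by
      apply smul_ne_zero q.2.ne_zero
      intro h0
      exact hf0 q.1 (congrArg Subtype.val h0)⟩
  have hφv : ∀ q, ((φ q : LL D) : F) = algebraMap k F q.2 * f q.1 := fun q => by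
    change ((q.2 : k) • (⟨f q.1, hmem q.1⟩ : LL D) : LL D).1 = _
    rw [Submodule.coe_smul, Algebra.smul_def]
  have hbij : Function.Bijective φ := by
    constructor
    · intro q q' h
      have h1 : algebraMap k F q.2 * f q.1 = algebraMap k F q'.2 * f q'.1 := by
        rw [← hφv, ← hφv, h]
      have hc : ∀ c : kˣ, algebraMap k F c ≠ 0 := fun c => by simp
      have h2 : pdiv (k := k) (f q.1) = pdiv (f q'.1) := by
        have := congrArg (pdiv (k := k)) h1
        rwa [pdiv_mul (hc _) (hf0 _), pdiv_mul (hc _) (hf0 _), pdiv_const, pdiv_const, zero_add,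
          zero_add] at this
      have h3 : q.1 = q'.1 := by
        apply Subtype.ext
        rw [hf, hf, h2]
      have h4 : q.2 = q'.2 := by
        rw [h3] at h1
        have h5 := mul_right_cancel₀ (hf0 q'.1) h1
        exact Units.ext ((algebraMap k F).injective h5)
      exact Prod.ext h3 h4
    · rintro ⟨a, ha⟩
      have ha' : (a : F) ≠ 0 := fun h => ha (Subtype.ext h)
      let E : effLin D := ⟨D + pdiv (a : F), (mem_LL_iff ha').mp a.2, a, ha', rfl⟩
      have h1 : pdiv (k := k) (a : F) = pdiv (f E) := by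
        have := hf E
        exact add_left_cancel this
      obtain ⟨c, hc⟩ := exists_const_of_pdiv_eq ha' (hf0 E) h1
      refine ⟨(E, c), ?_⟩
      apply Subtype.ext
      apply Subtype.ext
      rw [hφv]
      exact hc.symm
  have h1 := Nat.card_congr (Equiv.ofBijective φ hbij)
  rw [Nat.card_prod, Nat.card_units] at h1
  have h2 : Nat.card {a : LL D // a ≠ 0} = Nat.card (LL D) - 1 := by
    have : Fintype (LL D) := Fintype.ofFinite _
    rw [Nat.card_eq_fintype_card, Nat.card_eq_fintype_card, Fintype.card_subtype_compl,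
      Fintype.card_subtype_eq]
  rw [h2, Module.natCard_eq_pow_finrank (K := k) (V := LL D)] at h1
  rw [mul_comm]
  exact h1

end Pool.Agent.WanRH
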