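import Pool.Agent.WanRH.Compat
import Pool.Agent.WanRH.Alg

/-!
# The main theorem on `ℤ_p`-towers
-/

set_option linter.unusedSectionVars false
set_option linter.unusedVariables false

namespace Pool.Agent.WanRH

open Place

universe u v w w'

section FFinite

lemma isFunctionField_of_finite (k : Type u) (K : Type v) (L : Type w) [Field k] [Field K]
    [Field L] [Algebra k K] [IsFunctionField k K] [Algebra k L] [Algebra K L]
    [IsScalarTower k K L] [FiniteDimensional K L]
    (hconst : ∀ a : L, IsAlgebraic k a → a ∈ Set.range (algebraMap k L)) :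
    IsFunctionField k L := by
  obtain ⟨t, ht, hfin⟩ := IsFunctionField.exists_transcendental (k := k) (F := K)
  refine ⟨⟨algebraMap K L t, ?_, ?_⟩, hconst⟩
  · exact (transcendental_algebraMap_iff (algebraMap K L).injective).mpr ht
  · set E := IntermediateField.adjoin k {t} with hE
    set E' := IntermediateField.adjoin k {algebraMap K L t} with hE'
    have hmap : ∀ a : E, algebraMap K L (a : K) ∈ E' := by
      intro a
      have h1 : (E.map (IsScalarTower.toAlgHom k K L)) = E' := by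
        rw [hE, IntermediateField.adjoin_map, Set.image_singleton]
        rfl
      rw [← h1]
      exact ⟨a, a.2, rfl⟩
    let _ : Algebra E E' := RingHom.toAlgebra
      { toFun := fun a => ⟨algebraMap K L (a : K), hmap a⟩
        map_one' := Subtype.ext (by simp)
        map_mul' := fun a b => Subtype.ext (by simp)
        map_zero' := Subtype.ext (by simp)
        map_add' := fun a b => Subtype.ext (by simp) }
    have h2 : IsScalarTower E E' L := IsScalarTower.of_algebraMap_eq' rfl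
    have h3 : Module.Finite E K := hfin
    have h4 : Module.Finite E L := Module.Finite.trans K L
    exact Module.Finite.of_restrictScalars_finite E E' L

end FFinite

section ZetaMap

variable {k : Type u} {F : Type v} [Field k] [Finite k] [Field F] [Algebra k F]
  [IsFunctionField k F]

lemma coeff_zeta (m : ℕ) : PowerSeries.coeff m (zeta k F) = ((eff (goodDeg k F) m).card : ℤ) := by
  unfold zeta
  rw [PowerSeries.coeff_mk]
  congr 1
  have h : (eff (goodDeg k F) m : Set (Place k F →₀ ℕ)) =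
      {D : Place k F →₀ ℕ | (D.sum fun x n => n * x.degree) = m} := by
    ext D
    rw [Finset.mem_coe, mem_eff]
    rfl
  rw [← Set.ncard_coe_finset, h]
  rfl

lemma map_zeta (R : Type*) [CommRing R] :
    PowerSeries.map (Int.castRingHom R) (zeta k F) = zetaR k F R := by
  ext m
  rw [PowerSeries.coeff_map, coeff_zeta]
  unfold zetaR
  rw [coeff_gen]
  have : ∀ D : Place k F →₀ ℕ, wt (fun _ => (1 : R)) D = 1 := by
    intro D
    unfold wt Finsupp.prod
    exact Finset.prod_eq_one fun x _ => one_pow _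
  simp [this]

lemma coe_map_numerator {P : Polynomial ℤ} (hP : IsZetaNumerator k F P) (R : Type*) [CommRing R] :
    ((P.map (Int.castRingHom R) : Polynomial R) : PowerSeries R) =
      (1 - PowerSeries.X) * (1 - PowerSeries.C (Nat.card k : R) * PowerSeries.X) * zetaR k F R := by
  rw [Polynomial.polynomial_map_coe, hP, map_mul, map_zeta, map_mul, map_sub, map_sub, map_one,
    map_mul, PowerSeries.map_X, PowerSeries.map_C]
  simp

lemma hasNum_of_numerator {P : Polynomial ℤ} (hP : IsZetaNumerator k F P) (R : Type*)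
    [CommRing R] : HasNum k F R :=
  ⟨P.map (Int.castRingHom R), coe_map_numerator hP R⟩

end ZetaMap

section Levels

variable {k : Type u} {K : Type v} {Ω : Type w} [Field k] [Finite k]
  [Field K] [Algebra k K] [IsFunctionField k K] [Field Ω] [Algebra k Ω] [Algebra K Ω]
  [IsScalarTower k K Ω]

/-- Inclusion of intermediate fields as an algebra structure. -/
@[reducible] def inclAlg {M L : IntermediateField K Ω} (h : M ≤ L) : Algebra M L :=
  (IntermediateField.inclusion h).toRingHom.toAlgebra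

lemma not_unram_mono {M L : IntermediateField K Ω} (h : M ≤ L) [FiniteDimensional K M]
    [FiniteDimensional K L] [IsFunctionField k M] [IsFunctionField k L] [IsGalois K M]
    [IsGalois K L] {z : Place k M} (hz : ¬ Unram K z) {y : Place k L}
    (hy : y.down K = z.down K) : ¬ Unram K y := by
  let _ : Algebra M L := inclAlg h
  have : IsScalarTower K M L := IsScalarTower.of_algebraMap_eq' rfl
  have : IsScalarTower k M L := IsScalarTower.of_algebraMap_eq' rfl
  have : FiniteDimensional M L := FiniteDimensional.right K M L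
  exact not_unram_of_down hz hy

lemma phi_compat_le {M L : IntermediateField K Ω} (h : M ≤ L) [FiniteDimensional K M]
    [FiniteDimensional K L] [IsFunctionField k M] [IsFunctionField k L] [IsGalois K M]
    [IsGalois K L] {S : Finset (Place k K)}
    (hun : ∀ y : Place k L, y.down K ∉ S → Unram K y)
    {N N' : ℕ} (A : LevelData L S N) (B : LevelData M S N') (D : Div k K)
    (hD : ∀ x ∈ S, D x = 0) : (N' : ℤ) ∣ phi A.j D ↔ (N' : ℤ) ∣ phi B.j D := by
  let _ : Algebra M L := inclAlg h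
  have : IsScalarTower K M L := IsScalarTower.of_algebraMap_eq' rfl
  have : IsScalarTower k M L := IsScalarTower.of_algebraMap_eq' rfl
  have : FiniteDimensional M L := FiniteDimensional.right K M L
  exact phi_compat hun A B D hD

lemma zeta_step_le {M L : IntermediateField K Ω} (h : M ≤ L) [FiniteDimensional K M]
    [FiniteDimensional K L] [IsFunctionField k M] [IsFunctionField k L] [IsGalois K M]
    [IsGalois K L] [IsCyclic (L ≃ₐ[K] L)] {Ω' : Type*} [Field Ω'] (S : Finset (Place k K))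
    (hun : ∀ y : Place k L, y.down K ∉ S → Unram K y)
    (hram : ∀ y : Place k L, y.down K ∈ S → ¬ Unram K y)
    {p n : ℕ} [hp : Fact p.Prime] (A : LevelData L S (p ^ (n + 1)))
    (hL : Module.finrank K L = p ^ (n + 1)) (hM : Module.finrank K M = p ^ n)
    {ζ : Ω'} (hζ : IsPrimitiveRoot ζ (p ^ (n + 1))) :
    zetaR k L Ω' = zetaR k M Ω' *
      ∏ i ∈ (Finset.range (p ^ (n + 1))).filter (fun i => ¬ p ∣ i), Lser S (ζ ^ i) A.j := by
  let _ : Algebra M L := inclAlg h
  have : IsScalarTower K M L := IsScalarTower.of_algebraMap_eq' rfl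
  have : IsScalarTower k M L := IsScalarTower.of_algebraMap_eq' rfl
  have : FiniteDimensional M L := FiniteDimensional.right K M L
  exact zeta_step S hun (fun y hy τ => totally_inert_of_ramified hp.out hL hM (hram y hy) τ)
    A.σ A.gen A.ord hM hζ A.j A.frob

end Levels

section Trivial

variable {k : Type u} {K : Type v} {L : Type w} [Field k] [Finite k]
  [Field K] [Algebra k K] [IsFunctionField k K]
  [Field L] [Algebra k L] [IsFunctionField k L]
  [Algebra K L] [IsScalarTower k K L] [FiniteDimensional K L] [IsGalois K L]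

/-- A trivial extension has the same zeta function. -/
lemma zetaR_of_finrank_one (h : Module.finrank K L = 1) (R : Type*) [Field R] :
    zetaR k L R = zetaR k K R := by
  classical
  have hcard : Nat.card (L ≃ₐ[K] L) = 1 := by rw [IsGalois.card_aut_eq_finrank, h]
  have hsub : Subsingleton (L ≃ₐ[K] L) := (Nat.card_eq_one_iff_unique.mp hcard).1
  have hprim : IsPrimitiveRoot (1 : R) 1 := IsPrimitiveRoot.one
  have h1 := euler_product (Ω := R) (K := K) (L := L) (∅ : Finset (Place k K))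
    (fun (y : Place k L) _ (σ : L ≃ₐ[K] L) _ => Subsingleton.elim _ _) (N := 1) one_pos
    (1 : L ≃ₐ[K] L)
    (fun σ => by rw [Subsingleton.elim σ 1]; exact one_mem _) orderOf_one hprim (fun _ => 0)
    (fun y _ => by
      obtain ⟨φ, hφ⟩ := exists_isFrob (K := K) y
      rw [pow_zero, Subsingleton.elim 1 φ]
      exact hφ)
  rw [Finset.prod_range_one, pow_zero] at h1
  have h2 := triv_eq (k := k) (F := L) (Ω := R) (above L (∅ : Finset (Place k K)))
  have h3 := triv_eq (k := k) (F := K) (Ω := R) ∅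
  have h4 : above L (∅ : Finset (Place k K)) = ∅ := by
    ext y; simp [mem_above]
  rw [h4, Finset.prod_empty, mul_one] at h2
  rw [Finset.prod_empty, mul_one] at h3
  rw [← h2, ← h3, ← h4]
  exact h1

end Trivial

section OneLevel

/-- The numerical consequence at one level. -/
theorem bound_at_level {p : ℕ} [hp : Fact p.Prime] {k : Type u} {K : Type v} {Ω : Type w}
    [Field k] [Finite k] [CharP k p] [Field K] [Algebra k K] [IsFunctionField k K] [Field Ω]
    [Algebra k Ω] [Algebra K Ω] [IsScalarTower k K Ω]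
    {M L : IntermediateField K Ω} (h : M ≤ L) [FiniteDimensional K M]
    [FiniteDimensional K L] [IsFunctionField k M] [IsFunctionField k L] [IsGalois K M]
    [IsGalois K L] [IsCyclic (L ≃ₐ[K] L)] {n : ℕ}
    (S : Finset (Place k K)) (hun : ∀ y : Place k L, y.down K ∉ S → Unram K y)
    (hram : ∀ y : Place k L, y.down K ∈ S → ¬ Unram K y)
    (A : LevelData L S (p ^ (n + 1)))
    (hL : Module.finrank K L = p ^ (n + 1)) (hM : Module.finrank K M = p ^ n)
    {PM PL : Polynomial ℤ} (hnumK : HasNum k K (AlgebraicClosure ℚ_[p]))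
    (hPM : IsZetaNumerator k M PM)
    (hPL : IsZetaNumerator k L PL) (m : ℕ)
    (hsep : ∀ D ∈ eff (goodDeg k K) m, ∀ D' ∈ eff (goodDeg k K) m, (∀ x ∈ S, D x = 0) →
      (∀ x ∈ S, D' x = 0) → ((p ^ n : ℕ) : ℤ) ∣ phi A.j (toDiv D + -toDiv D') →
      ((p ^ (n + 1) : ℕ) : ℤ) ∣ phi A.j (toDiv D + -toDiv D'))
    (D₁ : Place k K →₀ ℕ) (hD₁ : D₁ ∈ eff (goodDeg k K) m) (hD₁S : ∀ x ∈ S, D₁ x = 0)
    (hD₁p : ¬ (p : ℤ) ∣ phi A.j (toDiv D₁)) :
    Nat.totient (p ^ (n + 1)) ≤
      Module.finrank ℚ_[p] (PL.map (Int.castRingHom ℚ_[p])).SplittingField *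
        (eff (goodDeg k K) m).card := by
  classical
  set Ω' := AlgebraicClosure ℚ_[p] with hΩ'
  have hppos := hp.out.pos
  have hN : 0 < p ^ (n + 1) := pow_pos hppos _
  have : NeZero (p ^ (n + 1)) := ⟨hN.ne'⟩
  obtain ⟨ζ, hζ⟩ : ∃ ζ : Ω', IsPrimitiveRoot ζ (p ^ (n + 1)) :=
    HasEnoughRootsOfUnity.exists_primitiveRoot Ω' (p ^ (n + 1))
  have hζ0 : ζ ≠ 0 := hζ.ne_zero hN.ne'
  have hnumL := hasNum_of_numerator hPL Ω'
  -- all L-series of faithful characters are polynomials
  have hpoly : ∀ i : ℕ, ¬ p ∣ i → ∃ B : Polynomial Ω', (B : PowerSeries Ω') = Lser S (ζ ^ i) A.j := by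
    intro i hi
    have hcop : Nat.Coprime i (p ^ (n + 1)) :=
      (Nat.Coprime.pow_right _ ((hp.out.coprime_iff_not_dvd.mpr hi).symm))
    exact exists_poly Ω' S hun (by omega) A.σ A.gen A.ord (hζ.pow_of_coprime i hcop) A.j A.j_mem
      A.frob hnumK hnumL
  choose! B hB using hpoly
  have hp1 : ¬ p ∣ 1 := by
    intro h1
    have := Nat.le_of_dvd one_pos h1
    have := hp.out.two_le
    omega
  -- factorisation of the numerator
  have hzeta := zeta_step_le h S hun hram A hL hM hζ
  have hfactor : PL.map (Int.castRingHom Ω') = PM.map (Int.castRingHom Ω') *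
      ∏ i ∈ (Finset.range (p ^ (n + 1))).filter (fun i => ¬ p ∣ i), B i := by
    apply Polynomial.coe_injective Ω'
    rw [Polynomial.coe_mul, coe_map_numerator hPL, coe_map_numerator hPM, hzeta]
    have : ((∏ i ∈ (Finset.range (p ^ (n + 1))).filter (fun i => ¬ p ∣ i), B i : Polynomial Ω') :
        PowerSeries Ω') =
        ∏ i ∈ (Finset.range (p ^ (n + 1))).filter (fun i => ¬ p ∣ i), Lser S (ζ ^ i) A.j := by
      rw [← Polynomial.coeToPowerSeries.ringHom_apply, map_prod]
      refine Finset.prod_congr rfl fun i hi => ?_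
      rw [Polynomial.coeToPowerSeries.ringHom_apply, hB i (Finset.mem_filter.mp hi).2]
    rw [this]; ring
  have hdvd : B 1 ∣ PL.map (Int.castRingHom Ω') := by
    rw [hfactor]
    refine Dvd.dvd.mul_left ?_ _
    apply Finset.dvd_prod_of_mem
    rw [Finset.mem_filter, Finset.mem_range]
    refine ⟨?_, hp1⟩
    exact Nat.one_lt_pow (by omega) hp.out.one_lt
  have hB1 : (B 1 : PowerSeries Ω') = Lser S ζ A.j := by
    rw [hB 1 hp1, pow_one]
  -- coefficients
  have hcoeff : ∀ e : ℕ, (B 1).coeff e = ∑ D ∈ (eff (goodDeg k K) e).filter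
      (fun D => ∀ x ∈ S, D x = 0), ζ ^ phi A.j (toDiv D) := by
    intro e
    rw [← Polynomial.coeff_coe, hB1]
    unfold Lser
    rw [coeff_gen, Finset.sum_filter]
    refine Finset.sum_congr rfl fun D _ => ?_
    split_ifs with h
    · exact wt_lw S hζ0 _ D h
    · push Not at h
      obtain ⟨x, hx, hx'⟩ := h
      exact wt_eq_zero_of _ hx' (by unfold lw; rw [if_pos hx])
  have hB0 : (B 1).coeff 0 = 1 := by
    rw [hcoeff 0, Finset.sum_eq_single 0]
    · have : toDiv (0 : Place k K →₀ ℕ) = 0 := by ext x; simp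
      rw [this]; simp [phi]
    · intro D hD hne
      exfalso
      apply hne
      rw [Finset.mem_filter, mem_eff] at hD
      ext x
      have h1 := mul_le_effDeg (d := Place.degree) D x
      rw [hD.1] at h1
      have h2 := x.degree_pos
      have h3 : D x * x.degree = 0 := by omega
      rcases Nat.mul_eq_zero.mp h3 with h4 | h4
      · simpa using h4
      · omega
    · intro h1
      exfalso
      apply h1
      rw [Finset.mem_filter, mem_eff]
      simp
  -- the index type
  set ι := {D // D ∈ (eff (goodDeg k K) m).filter (fun D => ∀ x ∈ S, D x = 0)} with hι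
  set φ : ι → ZMod (p ^ (n + 1)) := fun D => ((phi A.j (toDiv D.1) : ℤ) : ZMod (p ^ (n + 1))) with hφ
  have hφval : ∀ D : ι, ((p ^ (n + 1) : ℕ) : ℤ) ∣ ((φ D).val : ℤ) - phi A.j (toDiv D.1) := by
    intro D
    rw [← ZMod.intCast_zmod_eq_zero_iff_dvd, Int.cast_sub, Int.cast_natCast,
      ZMod.natCast_zmod_val, hφ, sub_self]
  have hpow : ∀ D : ι, ζ ^ (φ D).val = ζ ^ phi A.j (toDiv D.1) := by
    intro D
    have h1 : ζ ^ (((φ D).val : ℤ) - phi A.j (toDiv D.1)) = 1 :=
      (hζ.zpow_eq_one_iff_dvd _).mpr (hφval D)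
    rw [zpow_sub₀ hζ0, zpow_natCast] at h1
    have h2 : ζ ^ phi A.j (toDiv D.1) ≠ 0 := zpow_ne_zero _ hζ0
    exact (div_eq_one_iff_eq h2).mp h1
  have hsum : (B 1).coeff m = ∑ D : ι, ζ ^ (φ D).val := by
    rw [hcoeff m, ← Finset.sum_coe_sort]
    exact Finset.sum_congr rfl fun D _ => (hpow D).symm
  have hpn : ((p ^ n : ℕ) : ℤ) ∣ ((p ^ (n + 1) : ℕ) : ℤ) := by
    exact_mod_cast pow_dvd_pow p (Nat.le_succ n)
  have hphisub : ∀ D D' : ι, phi A.j (toDiv D.1 + -toDiv D'.1) =
      phi A.j (toDiv D.1) - phi A.j (toDiv D'.1) := by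
    intro D D'
    rw [phi_add, phi_neg]; ring
  have hsep' : ∀ D D' : ι, (φ D).val % p ^ n = (φ D').val % p ^ n → φ D = φ D' := by
    intro D D' hDD
    have h1 : ((p ^ n : ℕ) : ℤ) ∣ ((φ D).val : ℤ) - ((φ D').val : ℤ) :=
      (Nat.modEq_iff_dvd.mp (show (φ D').val ≡ (φ D).val [MOD p ^ n] from hDD.symm))
    have h2 : ((p ^ n : ℕ) : ℤ) ∣ phi A.j (toDiv D.1 + -toDiv D'.1) := by
      rw [hphisub]
      have h3 := hpn.trans (hφval D)
      have h4 := hpn.trans (hφval D')
      have h5 := dvd_add (dvd_sub h1 h3) h4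
      have h6 : ((φ D).val : ℤ) - ((φ D').val : ℤ) - (((φ D).val : ℤ) - phi A.j (toDiv D.1)) +
        (((φ D').val : ℤ) - phi A.j (toDiv D'.1)) =
        phi A.j (toDiv D.1) - phi A.j (toDiv D'.1) := by ring
      rwa [h6] at h5
    have hD := Finset.mem_filter.mp D.2
    have hD' := Finset.mem_filter.mp D'.2
    have h3 := hsep D.1 hD.1 D'.1 hD'.1 hD.2 hD'.2 h2
    rw [hphisub, ← ZMod.intCast_zmod_eq_zero_iff_dvd, Int.cast_sub, sub_eq_zero] at h3
    exact h3
  have hmem₁ : D₁ ∈ (eff (goodDeg k K) m).filter (fun D => ∀ x ∈ S, D x = 0) :=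
    Finset.mem_filter.mpr ⟨hD₁, hD₁S⟩
  have hi₀ : ¬ p ^ (0 + 1) ∣ (φ ⟨D₁, hmem₁⟩).val := by
    rw [zero_add, pow_one]
    intro h1
    apply hD₁p
    have h2 : (p : ℤ) ∣ ((φ ⟨D₁, hmem₁⟩).val : ℤ) := by exact_mod_cast h1
    have h3 : (p : ℤ) ∣ ((p ^ (n + 1) : ℕ) : ℤ) := by
      exact_mod_cast dvd_pow_self p (Nat.succ_ne_zero n)
    have h4 := dvd_sub h2 (h3.trans (hφval ⟨D₁, hmem₁⟩))
    simpa using h4
  have hPLne : PL.map (Int.castRingHom ℚ_[p]) ≠ 0 := by
    intro h0
    have h1 := coe_map_numerator hPL ℚ_[p]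
    rw [h0] at h1
    have h2 := congrArg (PowerSeries.coeff 0) h1
    rw [Polynomial.coe_zero, map_zero, PowerSeries.coeff_zero_eq_constantCoeff_apply, map_mul,
      map_mul] at h2
    have h3 : PowerSeries.constantCoeff (zetaR k L ℚ_[p]) = 1 := by
      rw [← PowerSeries.coeff_zero_eq_constantCoeff_apply]
      unfold zetaR
      have := hasEuler_gen (goodDeg k L) (fun _ => (1 : ℚ_[p]))
      rw [coeff_gen, Finset.sum_eq_single 0]
      · simp
      · intro D hD hne
        exfalso
        apply hne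
        rw [mem_eff] at hD
        ext x
        have h1 := mul_le_effDeg (d := Place.degree) D x
        rw [hD] at h1
        have h2 := x.degree_pos
        have h3 : D x * x.degree = 0 := by omega
        rcases Nat.mul_eq_zero.mp h3 with h4 | h4
        · simpa using h4
        · omega
      · intro h1
        exfalso
        apply h1
        rw [mem_eff]; simp
    rw [h3] at h2
    simp at h2
  have hdvd' : B 1 ∣ (PL.map (Int.castRingHom ℚ_[p])).map (algebraMap ℚ_[p] Ω') := by
    rw [Polynomial.map_map]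
    have : (algebraMap ℚ_[p] Ω').comp (Int.castRingHom ℚ_[p]) = Int.castRingHom Ω' :=
      RingHom.ext_int _ _
    rw [this]
    exact hdvd
  have hfinal := totient_le_finrank_splittingField p (n := n) (v := 0) rfl hζ φ hsep'
    ⟨D₁, hmem₁⟩ hi₀ (PL.map (Int.castRingHom ℚ_[p])) hPLne hdvd' hB0 m hsum
  refine hfinal.trans (Nat.mul_le_mul_left _ ?_)
  rw [pow_zero, mul_one, Fintype.card_coe]
  exact Finset.card_filter_le _ _

end OneLevel

section Tower

variable {p : ℕ} [hp : Fact p.Prime] {k : Type u} {K : Type v} {Ω : Type w}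
    [Field k] [Finite k] [CharP k p] [Field K] [Algebra k K] [IsFunctionField k K] [Field Ω]
    [Algebra k Ω] [Algebra K Ω] [IsScalarTower k K Ω]

/-- **Main theorem.** In a `ℤ_p`-tower with finite ramification locus the degree of the
splitting field of `P(X_n,s)` over `ℚ_p` is at least `c p^n` for large `n`. -/
theorem main (𝒯 : ZpTower p k K Ω) (hS : {x : Place k K | 𝒯.Ramified x}.Finite)
    (P : ℕ → Polynomial ℤ) (hP : ∀ n, IsZetaNumerator k (𝒯.level n) (P n)) :
    ∃ c : ℕ, 0 < c ∧ ∃ n₀ : ℕ, ∀ n, n₀ ≤ n →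
      p ^ n ≤ c * Module.finrank ℚ_[p] ((P n).map (Int.castRingHom ℚ_[p])).SplittingField := by
  classical
  have hppos := hp.out.pos
  have hgal : ∀ n, IsGalois K (𝒯.level n) := fun n => (𝒯.cyclic n).1
  have hcyc : ∀ n, IsCyclic (𝒯.level n ≃ₐ[K] 𝒯.level n) := fun n => (𝒯.cyclic n).2.1
  have hfr : ∀ n, Module.finrank K (𝒯.level n) = p ^ n := fun n => (𝒯.cyclic n).2.2
  have hfd : ∀ n, FiniteDimensional K (𝒯.level n) := fun n =>
    FiniteDimensional.of_finrank_pos (by rw [hfr]; exact pow_pos hppos n)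
  have hff : ∀ n, IsFunctionField k (𝒯.level n) := fun n =>
    isFunctionField_of_finite k K (𝒯.level n) (𝒯.const n)
  have hnumK : HasNum k K (AlgebraicClosure ℚ_[p]) := by
    obtain ⟨Q, hQ⟩ := hasNum_of_numerator (hP 0) (AlgebraicClosure ℚ_[p])
    refine ⟨Q, ?_⟩
    rw [hQ, zetaR_of_finrank_one (K := K) (L := 𝒯.level 0) (by rw [hfr, pow_zero])]
  have hle : ∀ m n, m ≤ n → 𝒯.level m ≤ 𝒯.level n := fun m n h =>
    monotone_nat_of_le_succ 𝒯.level_le h
  set S : Finset (Place k K) := hS.toFinset with hSdef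
  have hSmem : ∀ x, x ∈ S ↔ 𝒯.Ramified x := fun x => by rw [hSdef]; simp
  -- unramified outside S
  have hun : ∀ n, ∀ y : Place k (𝒯.level n), y.down K ∉ S → Unram K y := by
    intro n y hy
    by_contra h
    apply hy
    rw [hSmem]
    refine ⟨n, y, (liesAbove_iff y _).mpr rfl, ?_⟩
    rwa [Place.IsRamified, Ne, ← unram_iff]
  -- ramified at S for large n
  have hramx : ∀ x : Place k K, ∃ n₁ : ℕ, x ∈ S → ∀ n, n₁ ≤ n → ∀ y : Place k (𝒯.level n),
      y.down K = x → ¬ Unram K y := by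
    intro x
    by_cases hx : x ∈ S
    · obtain ⟨n₁, z, hz, hzr⟩ := (hSmem x).mp hx
      refine ⟨n₁, fun _ n hn y hy => ?_⟩
      rw [liesAbove_iff] at hz
      have hzr' : ¬ Unram K z := by rwa [unram_iff]
      exact not_unram_mono (hle n₁ n hn) hzr' (hy.trans hz.symm)
    · exact ⟨0, fun h => absurd h hx⟩
  choose n₁ hn₁ using hramx
  set N₁ := S.sup n₁ with hN₁
  have hram : ∀ n, N₁ ≤ n → ∀ y : Place k (𝒯.level n), y.down K ∈ S → ¬ Unram K y := by
    intro n hn y hy
    exact hn₁ _ hy n ((Finset.le_sup hy).trans hn) y rfl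
  -- level data
  have hdata : ∀ n, Nonempty (LevelData (𝒯.level n) S (p ^ n)) := by
    intro n
    have := exists_levelData (L := 𝒯.level n) S (hun n)
    rwa [hfr] at this
  set A : ∀ n, LevelData (𝒯.level n) S (p ^ n) := fun n => (hdata n).some with hA
  clear_value A
  -- a place with nontrivial Frobenius at level one
  obtain ⟨x₁, hx₁S, hx₁⟩ : ∃ x : Place k K, x ∉ S ∧ ¬ (p : ℤ) ∣ (A 1).j x := by
    set Ω' := AlgebraicClosure ℚ_[p]
    have hNe : NeZero (p ^ 1) := ⟨(pow_pos hppos 1).ne'⟩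
    obtain ⟨ζ, hζ⟩ : ∃ ζ : Ω', IsPrimitiveRoot ζ (p ^ 1) :=
      HasEnoughRootsOfUnity.exists_primitiveRoot Ω' (p ^ 1)
    obtain ⟨D₀, hD₀S, -, hD₀⟩ := exists_deg_zero Ω' S (hun 1) (N := p ^ 1)
      (by rw [pow_one]; exact hp.out.two_le) (A 1).σ (A 1).gen (A 1).ord hζ (A 1).j (A 1).frob
      hnumK (hasNum_of_numerator (hP 1) Ω')
    by_contra hno
    push Not at hno
    apply hD₀
    unfold phi Finsupp.sum
    refine Finset.dvd_sum fun x hx => ?_
    have hxS : x ∉ S := fun h => (Finsupp.mem_support_iff.mp hx) (hD₀S x h)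
    have h1 : ((p ^ 1 : ℕ) : ℤ) ∣ D₀ x * ((A 1).j x : ℤ) := by
      have h2 : (p : ℤ) ∣ D₀ x * ((A 1).j x : ℤ) := (hno x hxS).mul_left _
      simpa using h2
    exact h1
  set m := x₁.degree with hm
  set D₁ : Place k K →₀ ℕ := Finsupp.single x₁ 1 with hD₁def
  have hD₁ : D₁ ∈ eff (goodDeg k K) m := by
    rw [mem_eff, hD₁def, effDeg_single, one_mul]
  have hD₁S : ∀ x ∈ S, D₁ x = 0 := by
    intro x hx
    rw [hD₁def, Finsupp.single_apply, if_neg]
    rintro rfl
    exact hx₁S hx
  have hD₁S' : ∀ x ∈ S, toDiv D₁ x = 0 := fun x hx => by rw [toDiv_apply, hD₁S x hx]; rfl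
  have hD₁1 : ¬ (p : ℤ) ∣ phi (A 1).j (toDiv D₁) := by
    have : phi (A 1).j (toDiv D₁) = (A 1).j x₁ := by
      have h1 : toDiv D₁ = Finsupp.single x₁ (1 : ℤ) := by
        ext x
        rw [toDiv_apply, hD₁def, Finsupp.single_apply, Finsupp.single_apply]
        split_ifs <;> rfl
      rw [h1]
      unfold phi
      rw [Finsupp.sum_single_index] <;> simp
    rw [this]; exact hx₁
  have hD₁n : ∀ n, ¬ (p : ℤ) ∣ phi (A (n + 1)).j (toDiv D₁) := by
    intro n h
    apply hD₁1
    have h1 := phi_compat_le (hle 1 (n + 1) (by omega)) (hun (n + 1)) (A (n + 1)) (A 1)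
      (toDiv D₁) hD₁S'
    have h2 : ((p ^ 1 : ℕ) : ℤ) ∣ phi (A (n + 1)).j (toDiv D₁) := by simpa using h
    have h3 := h1.mp h2
    simpa using h3
  -- separation for large n
  have hpair : ∀ D D' : Place k K →₀ ℕ, ∃ n₂ : ℕ, (∀ x ∈ S, D x = 0) → (∀ x ∈ S, D' x = 0) →
      ∀ n, n₂ ≤ n → ((p ^ n : ℕ) : ℤ) ∣ phi (A (n + 1)).j (toDiv D + -toDiv D') →
      ((p ^ (n + 1) : ℕ) : ℤ) ∣ phi (A (n + 1)).j (toDiv D + -toDiv D') := by
    intro D D'
    by_cases hDD : (∀ x ∈ S, D x = 0) ∧ (∀ x ∈ S, D' x = 0)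
    · have hE0 : ∀ x ∈ S, (toDiv D + -toDiv D') x = 0 := by
        intro x hx
        rw [Finsupp.coe_add, Pi.add_apply, Finsupp.coe_neg, Pi.neg_apply, toDiv_apply,
          toDiv_apply, hDD.1 x hx, hDD.2 x hx]
        rfl
      obtain ⟨n₂, hn₂⟩ := eventually_of_antitone
        (fun n => ((p ^ n : ℕ) : ℤ) ∣ phi (A n).j (toDiv D + -toDiv D')) (by
          intro n h
          have h1 := phi_compat_le (hle n (n + 1) (Nat.le_succ n)) (hun (n + 1)) (A (n + 1)) (A n)
            (toDiv D + -toDiv D') hE0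
          refine h1.mp (dvd_trans ?_ h)
          exact_mod_cast pow_dvd_pow p (Nat.le_succ n))
      refine ⟨n₂, fun _ _ n hn h => hn₂ n hn ?_⟩
      exact (phi_compat_le (hle n (n + 1) (Nat.le_succ n)) (hun (n + 1)) (A (n + 1)) (A n)
            (toDiv D + -toDiv D') hE0).mp h
    · exact ⟨0, fun h h' => absurd ⟨h, h'⟩ hDD⟩
  choose n₂ hn₂ using hpair
  set E := eff (goodDeg k K) m with hE
  set N₂ := (E ×ˢ E).sup (fun q => n₂ q.1 q.2) with hN₂
  have hEpos : 0 < E.card := Finset.card_pos.mpr ⟨D₁, hD₁⟩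
  refine ⟨2 * E.card, by omega, max N₁ N₂ + 1, ?_⟩
  intro n' hn'
  obtain ⟨n, rfl⟩ : ∃ n, n' = n + 1 := ⟨n' - 1, by omega⟩
  have hn1 : N₁ ≤ n := by have := le_max_left N₁ N₂; omega
  have hn2 : N₂ ≤ n := by have := le_max_right N₁ N₂; omega
  have hbound := bound_at_level (hle n (n + 1) (Nat.le_succ n)) S (hun (n + 1))
    (hram (n + 1) (by omega)) (A (n + 1)) (hfr (n + 1)) (hfr n) hnumK (hP n)
    (hP (n + 1)) m (fun D hD D' hD' hDS hD'S h => by
      refine hn₂ D D' hDS hD'S n (le_trans ?_ hn2) h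
      exact Finset.le_sup (f := fun q : (Place k K →₀ ℕ) × (Place k K →₀ ℕ) => n₂ q.1 q.2)
        (Finset.mk_mem_product hD hD'))
    D₁ hD₁ hD₁S (hD₁n n)
  have htot : p ^ (n + 1) ≤ 2 * Nat.totient (p ^ (n + 1)) := by
    rw [Nat.totient_prime_pow_succ hp.out, pow_succ]
    have h2 := hp.out.two_le
    obtain ⟨q, rfl⟩ : ∃ q, p = q + 2 := ⟨p - 2, by omega⟩
    have : (q + 2) ^ n * (q + 2) ≤ (q + 2) ^ n * (2 * (q + 1)) :=
      Nat.mul_le_mul_left _ (by omega)
    calc (q + 2) ^ n * (q + 2) ≤ (q + 2) ^ n * (2 * (q + 1)) := this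
      _ = 2 * ((q + 2) ^ n * (q + 2 - 1)) := by
        rw [show q + 2 - 1 = q + 1 by omega]; ring
  calc p ^ (n + 1) ≤ 2 * Nat.totient (p ^ (n + 1)) := htot
    _ ≤ 2 * (Module.finrank ℚ_[p] ((P (n + 1)).map (Int.castRingHom ℚ_[p])).SplittingField *
        E.card) := Nat.mul_le_mul_left _ hbound
    _ = 2 * E.card * Module.finrank ℚ_[p]
        ((P (n + 1)).map (Int.castRingHom ℚ_[p])).SplittingField := by ring

end Tower

end Pool.Agent.WanRH
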