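import Pool.Agent.WanRH.Deg0

/-!
# L-series of faithful characters are polynomials
-/

set_option linter.unusedSectionVars false
set_option linter.unusedVariables false

namespace Pool.Agent.WanRH

open Place

universe u v w

section Poly

variable {k : Type u} {K : Type v} {L : Type w} [Field k] [Finite k]
  [Field K] [Algebra k K] [IsFunctionField k K]
  [Field L] [Algebra k L] [IsFunctionField k L]
  [Algebra K L] [IsScalarTower k K L] [FiniteDimensional K L] [IsGalois K L]

/-- A power series with vanishing high coefficients is a polynomial. -/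
lemma exists_poly_of_vanish {Ω : Type*} [CommRing Ω] (U : PowerSeries Ω) (d₁ : ℕ)
    (h : ∀ d, d₁ ≤ d → PowerSeries.coeff d U = 0) : ∃ A : Polynomial Ω, (A : PowerSeries Ω) = U := by
  refine ⟨PowerSeries.trunc d₁ U, ?_⟩
  ext m
  rw [Polynomial.coeff_coe, PowerSeries.coeff_trunc]
  split_ifs with hm
  · rfl
  · exact (h m (by omega)).symm

/-- Polynomiality with at least one point removed. -/
theorem exists_poly_nonempty (Ω : Type*) [Field Ω] [CharZero Ω] (T : Finset (Place k K))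
    (hT : T.Nonempty) (hun : ∀ y : Place k L, y.down K ∉ T → Unram K y) {p n : ℕ}
    [hp : Fact p.Prime] [CharP k p] (hn : 1 ≤ n) (σ₀ : L ≃ₐ[K] L)
    (hσ₀ : ∀ σ : L ≃ₐ[K] L, σ ∈ Subgroup.zpowers σ₀) (hord : orderOf σ₀ = p ^ n)
    {ζ : Ω} (hζ : IsPrimitiveRoot ζ (p ^ n)) (j : Place k K → ℕ) (hjT : ∀ x ∈ T, j x = 0)
    (hj : ∀ y : Place k L, y.down K ∉ T → IsFrob (σ₀ ^ j (y.down K)) y)
    (hnumK : HasNum k K Ω) (hnumL : HasNum k L Ω) :
    ∃ A : Polynomial Ω, (A : PowerSeries Ω) = Lser T ζ j := by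
  classical
  have hNpos : 0 < p ^ n := pow_pos hp.out.pos n
  have hN2 : 2 ≤ p ^ n := le_trans hp.out.two_le (Nat.le_self_pow (by omega) p)
  obtain ⟨f, hf0, hfN, hf⟩ := exists_twist p n T hT hun σ₀ hσ₀ hord
  have hloc : ∀ x ∉ T, CongrMod (p ^ n) (locDet (p ^ n) (fun i => (f i : K)) x)
      ((1 + Polynomial.X) ^ (j x)) := by
    intro x hx
    obtain ⟨y, hy⟩ := down_surjective k K L x
    subst hy
    exact hf y _ hx (hj y hx)
  obtain ⟨m', hm', hrec⟩ := reciprocity hT p n f hf0 hfN j hjT hloc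
  obtain ⟨D₀, hD₀T, hD₀, hD₀N⟩ := exists_deg_zero Ω T hun hN2 σ₀ hσ₀ hord hζ j hj hnumK hnumL
  have hne : ζ ^ phi j D₀ ≠ 1 := by
    intro h
    exact hD₀N ((hζ.zpow_eq_one_iff_dvd _).mp h)
  obtain ⟨d₁, hd₁⟩ := vanish hT hζ.pow_eq_one hNpos j ⟨m', hm', fun a ha haT => hrec a ha haT⟩
    D₀ hD₀T hD₀ hne
  exact exists_poly_of_vanish _ d₁ hd₁

lemma zpow_sum_aux {ι : Type*} {Ω : Type*} [Field Ω] {a : Ω} (ha : a ≠ 0) (s : Finset ι)
    (f : ι → ℤ) : ∏ i ∈ s, a ^ (f i) = a ^ (∑ i ∈ s, f i) := by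
  classical
  induction s using Finset.induction_on with
  | empty => simp
  | insert b s hb ih => rw [Finset.prod_insert hb, Finset.sum_insert hb, zpow_add₀ ha, ih]

lemma phi_congr (j j' : Place k K → ℕ) (D : Div k K) (h : ∀ x ∈ D.support, j x = j' x) :
    phi j D = phi j' D := by
  unfold phi
  refine Finsupp.sum_congr fun x hx => ?_
  rw [h x hx]

/-- **Polynomiality of L-series of faithful characters.** -/
theorem exists_poly (Ω : Type*) [Field Ω] [CharZero Ω] [IsAlgClosed Ω] (S : Finset (Place k K))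
    (hun : ∀ y : Place k L, y.down K ∉ S → Unram K y) {p n : ℕ}
    [hp : Fact p.Prime] [CharP k p] (hn : 1 ≤ n) (σ₀ : L ≃ₐ[K] L)
    (hσ₀ : ∀ σ : L ≃ₐ[K] L, σ ∈ Subgroup.zpowers σ₀) (hord : orderOf σ₀ = p ^ n)
    {ζ : Ω} (hζ : IsPrimitiveRoot ζ (p ^ n)) (j : Place k K → ℕ) (hjS : ∀ x ∈ S, j x = 0)
    (hj : ∀ y : Place k L, y.down K ∉ S → IsFrob (σ₀ ^ j (y.down K)) y)
    (hnumK : HasNum k K Ω) (hnumL : HasNum k L Ω) :
    ∃ A : Polynomial Ω, (A : PowerSeries Ω) = Lser S ζ j := by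
  classical
  have hN2 : 2 ≤ p ^ n := le_trans hp.out.two_le (Nat.le_self_pow (by omega) p)
  -- the ideal of denominators
  set J : Ideal (Polynomial Ω) :=
    { carrier := {B | ∃ A : Polynomial Ω, (A : PowerSeries Ω) = Lser S ζ j * B}
      add_mem' := by
        rintro B B' ⟨A, hA⟩ ⟨A', hA'⟩
        exact ⟨A + A', by rw [Polynomial.coe_add, hA, hA', Polynomial.coe_add]; ring⟩
      zero_mem' := ⟨0, by simp⟩
      smul_mem' := by
        rintro C B ⟨A, hA⟩
        exact ⟨C * A, by rw [Polynomial.coe_mul, hA, smul_eq_mul, Polynomial.coe_mul]; ring⟩ } with hJ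
  -- Euler factors belong to J
  have hfac : ∀ x ∉ S, (1 - Polynomial.C (ζ ^ j x) * Polynomial.X ^ x.degree) ∈ J := by
    intro x hx
    set T := insert x S with hT
    have hTne : T.Nonempty := ⟨x, Finset.mem_insert_self _ _⟩
    have hunT : ∀ y : Place k L, y.down K ∉ T → Unram K y := by
      intro y hy
      exact hun y (fun h => hy (Finset.mem_insert_of_mem h))
    set j' : Place k K → ℕ := fun z => if z ∈ T then 0 else j z with hj'
    have hj'T : ∀ z ∈ T, j' z = 0 := fun z hz => by rw [hj']; simp only; rw [if_pos hz]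
    have hj'F : ∀ y : Place k L, y.down K ∉ T → IsFrob (σ₀ ^ j' (y.down K)) y := by
      intro y hy
      rw [hj']; simp only; rw [if_neg hy]
      exact hj y (fun h => hy (Finset.mem_insert_of_mem h))
    obtain ⟨A, hA⟩ := exists_poly_nonempty Ω T hTne hunT hn σ₀ hσ₀ hord hζ j' hj'T hj'F hnumK hnumL
    refine ⟨A, ?_⟩
    rw [hA]
    have h1 : ((1 - Polynomial.C (ζ ^ j x) * Polynomial.X ^ x.degree : Polynomial Ω) :
        PowerSeries Ω) = 1 - PowerSeries.C (ζ ^ j x) * PowerSeries.X ^ x.degree := by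
      rw [Polynomial.coe_sub, Polynomial.coe_one, Polynomial.coe_mul, Polynomial.coe_C,
        Polynomial.coe_pow, Polynomial.coe_X]
    rw [h1]
    have h2 : ζ ^ j x = lw S ζ j x := by unfold lw; rw [if_neg hx]
    unfold Lser
    rw [h2, gen_remove]
    congr 1
    funext z
    by_cases hz : z = x
    · subst hz
      rw [Function.update_self]
      unfold lw
      rw [if_pos (Finset.mem_insert_self _ _)]
    · rw [Function.update_of_ne hz]
      unfold lw
      by_cases hzS : z ∈ S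
      · rw [if_pos hzS, if_pos (Finset.mem_insert_of_mem hzS)]
      · have hzT : z ∉ T := by
          rw [hT, Finset.mem_insert, not_or]; exact ⟨hz, hzS⟩
        rw [if_neg hzS, if_neg hzT, hj']
        simp only
        rw [if_neg hzT]
  -- J is everything
  have hJtop : (1 : Polynomial Ω) ∈ J := by
    by_contra hne
    have hJne : J ≠ ⊤ := fun h => hne (h ▸ Submodule.mem_top)
    obtain ⟨g, hg⟩ := (IsPrincipalIdealRing.principal J).principal
    obtain ⟨x₀, hx₀⟩ := exists_place_notMem S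
    have hgunit : ¬ IsUnit g := by
      intro h
      apply hJne
      rw [hg]
      exact Ideal.span_singleton_eq_top.mpr h
    have hgdvd : ∀ B ∈ J, g ∣ B := by
      intro B hB
      rw [hg] at hB
      exact Ideal.mem_span_singleton.mp hB
    have hgdeg : g.degree ≠ 0 := by
      intro h
      exact hgunit (Polynomial.isUnit_iff_degree_eq_zero.mpr h)
    obtain ⟨α, hα⟩ := IsAlgClosed.exists_root g hgdeg
    have hroot : ∀ x ∉ S, ζ ^ j x * α ^ x.degree = 1 := by
      intro x hx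
      obtain ⟨B, hB⟩ := hgdvd _ (hfac x hx)
      have h1 := congrArg (Polynomial.eval α) hB
      rw [Polynomial.eval_mul, hα.eq_zero, zero_mul] at h1
      simp only [Polynomial.eval_sub, Polynomial.eval_one, Polynomial.eval_mul, Polynomial.eval_C,
        Polynomial.eval_pow, Polynomial.eval_X] at h1
      exact (sub_eq_zero.mp h1).symm
    have hα0 : α ≠ 0 := by
      rintro rfl
      have h1 := hroot x₀ hx₀
      rw [zero_pow x₀.degree_pos.ne', mul_zero] at h1
      exact zero_ne_one h1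
    have hζ0 : ζ ≠ 0 := hζ.ne_zero (by omega)
    have hDiv : ∀ D : Div k K, (∀ x ∈ S, D x = 0) → ζ ^ phi j D * α ^ Div.deg D = 1 := by
      intro D hD
      have h1 : ζ ^ phi j D * α ^ Div.deg D = ∏ x ∈ D.support, (ζ ^ j x * α ^ x.degree) ^ (D x) := by
        unfold phi Div.deg Finsupp.sum
        rw [← zpow_sum_aux hζ0, ← zpow_sum_aux hα0, ← Finset.prod_mul_distrib]
        refine Finset.prod_congr rfl fun x _ => ?_
        show ζ ^ (D x * (j x : ℤ)) * α ^ (D x * (x.degree : ℤ)) = _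
        rw [mul_zpow, mul_comm (D x) (j x : ℤ), mul_comm (D x) (x.degree : ℤ), zpow_mul, zpow_mul,
          zpow_natCast, zpow_natCast]
      rw [h1]
      refine Finset.prod_eq_one fun x hx => ?_
      have hxS : x ∉ S := fun h => (Finsupp.mem_support_iff.mp hx) (hD x h)
      rw [hroot x hxS, one_zpow]
    obtain ⟨D₀, hD₀T, hD₀, hD₀N⟩ := exists_deg_zero Ω S hun hN2 σ₀ hσ₀ hord hζ j hj hnumK hnumL
    have h1 := hDiv D₀ hD₀T
    rw [hD₀, zpow_zero, mul_one] at h1
    exact hD₀N ((hζ.zpow_eq_one_iff_dvd _).mp h1)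
  obtain ⟨A, hA⟩ := hJtop
  exact ⟨A, by rw [hA]; simp⟩

end Poly

end Pool.Agent.WanRH
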