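import Mathlib

/-!
# Weighted determinants and adapted bases
-/

namespace Pool.Agent.WanRH

open Polynomial Module

section Weight

variable {k : Type*} [CommRing k]

/-- Polynomials all of whose monomials `z^j` satisfy `d ≤ j B`. -/
def wset (k : Type*) [CommRing k] (B : ℕ) (d : ℤ) : AddSubgroup k[X] where
  carrier := {g | ∀ j : ℕ, g.coeff j ≠ 0 → d ≤ j * B}
  zero_mem' := by
    intro j h
    simp at h
  add_mem' := by
    intro a b ha hb j h
    rw [coeff_add] at h
    by_cases h1 : a.coeff j = 0
    · rw [h1, zero_add] at h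
      exact hb j h
    · exact ha j h1
  neg_mem' := by
    intro a ha j h
    rw [coeff_neg, neg_ne_zero] at h
    exact ha j h

lemma mem_wset {B : ℕ} {d : ℤ} {g : k[X]} :
    g ∈ wset k B d ↔ ∀ j : ℕ, g.coeff j ≠ 0 → d ≤ j * B := Iff.rfl

lemma wset_mul {B : ℕ} {d e : ℤ} {g h : k[X]} (hg : g ∈ wset k B d) (hh : h ∈ wset k B e) :
    g * h ∈ wset k B (d + e) := by
  intro j hj
  rw [coeff_mul] at hj
  obtain ⟨⟨a, b⟩, hab, hne⟩ := Finset.exists_ne_zero_of_sum_ne_zero hj
  rw [Finset.HasAntidiagonal.mem_antidiagonal] at hab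
  have h1 := hg a (left_ne_zero_of_mul hne)
  have h2 := hh b (right_ne_zero_of_mul hne)
  have h3 : (j : ℤ) = a + b := by
    simp only at hab
    rw [← hab]; push_cast; rfl
  rw [h3, add_mul]
  linarith

lemma wset_mono {B : ℕ} {d e : ℤ} (h : d ≤ e) : wset k B e ≤ wset k B d :=
  fun _ hg j hj => h.trans (hg j hj)

lemma prod_weight {ι : Type*} (B : ℕ) (s : Finset ι) (f g : ι → k[X]) (d : ι → ℤ) (n : ℤ)
    (hn : 0 ≤ n) (hf : ∀ i ∈ s, f i ∈ wset k B (d i))
    (hfg : ∀ i ∈ s, g i - f i ∈ wset k B (d i + n)) :
    (∏ i ∈ s, g i) - ∏ i ∈ s, f i ∈ wset k B ((∑ i ∈ s, d i) + n) ∧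
    (∏ i ∈ s, f i) ∈ wset k B (∑ i ∈ s, d i) := by
  classical
  induction s using Finset.induction_on with
  | empty =>
    refine ⟨?_, ?_⟩
    · simp
    · intro j hj
      simp only [Finset.prod_empty] at hj
      rw [coeff_one] at hj
      split_ifs at hj with h
      · subst h; simp
      · exact absurd rfl hj
  | insert a s ha ih =>
    have ih' := ih (fun i hi => hf i (Finset.mem_insert_of_mem hi))
      (fun i hi => hfg i (Finset.mem_insert_of_mem hi))
    have hfa := hf a (Finset.mem_insert_self _ _)
    have hga := hfg a (Finset.mem_insert_self _ _)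
    rw [Finset.prod_insert ha, Finset.prod_insert ha, Finset.sum_insert ha]
    refine ⟨?_, ?_⟩
    · have : g a * ∏ i ∈ s, g i - f a * ∏ i ∈ s, f i =
        (g a - f a) * (∏ i ∈ s, g i - ∏ i ∈ s, f i) + (g a - f a) * (∏ i ∈ s, f i) +
          f a * (∏ i ∈ s, g i - ∏ i ∈ s, f i) := by ring
      rw [this]
      refine add_mem (add_mem ?_ ?_) ?_
      · refine wset_mono ?_ (wset_mul hga ih'.1)
        linarith
      · refine wset_mono ?_ (wset_mul hga ih'.2)
        linarith
      · refine wset_mono ?_ (wset_mul hfa ih'.1)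
        linarith
    · exact wset_mul hfa ih'.2

lemma det_weight {ι : Type*} [Fintype ι] [DecidableEq ι] (B N : ℕ) (hB : 0 < B)
    (M M' : Matrix ι ι k[X]) (r : ι → ℤ) (hM : ∀ l m, M l m ∈ wset k B (r l - r m))
    (hM' : ∀ l m, M' l m - M l m ∈ wset k B (r l - r m + N * B)) (j : ℕ) (hj : j < N) :
    M'.det.coeff j = M.det.coeff j := by
  have key : M'.det - M.det ∈ wset k B (N * B) := by
    rw [Matrix.det_apply, Matrix.det_apply, ← Finset.sum_sub_distrib]
    refine AddSubgroup.sum_mem _ fun σ _ => ?_
    rw [← smul_sub]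
    have h1 := (prod_weight B Finset.univ (fun i => M (σ i) i) (fun i => M' (σ i) i)
      (fun i => r (σ i) - r i) (N * B) (by positivity) (fun i _ => hM _ _) (fun i _ => hM' _ _)).1
    have h2 : ∑ i, (r (σ i) - r i) = 0 := by
      rw [Finset.sum_sub_distrib, Equiv.sum_comp σ r, sub_self]
    rw [h2, zero_add] at h1
    rcases Int.units_eq_one_or (Equiv.Perm.sign σ) with h | h
    · rw [h, one_smul]; exact h1
    · rw [h, Units.neg_smul, one_smul]; exact neg_mem h1
  by_contra hne
  have h1 := key j (by rwa [coeff_sub, sub_ne_zero])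
  have h2 : (N : ℤ) ≤ j := by
    have : (0 : ℤ) < B := by exact_mod_cast hB
    exact le_of_mul_le_mul_right h1 this
  omega

end Weight

section Adapted

variable {k : Type*} [Field k] {V : Type*} [AddCommGroup V] [Module k V]

/-- A basis adapted to an increasing filtration. -/
lemma exists_adapted_basis [FiniteDimensional k V] (F : ℕ → Submodule k V) (hmono : Monotone F)
    (R : ℕ) (hR : F R = ⊤) :
    ∃ (n : ℕ) (b : Basis (Fin n) k V) (r : Fin n → ℕ),
      ∀ s, F s = Submodule.span k (b '' {i | r i ≤ s}) := by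
  classical
  -- sets
  have step : ∀ s : ℕ, ∃ (S : Set V) (w : V → ℕ), LinearIndepOn k id S ∧
      (∀ t ≤ s, F t = Submodule.span k {v ∈ S | w v ≤ t}) ∧ (∀ v ∈ S, w v ≤ s) := by
    intro s
    induction s with
    | zero =>
      obtain ⟨S, hS1, hS2, hS3, hS4⟩ := exists_linearIndepOn_id_extension (K := k) (s := (∅ : Set V))
        (t := (F 0 : Set V)) (linearIndepOn_empty _ _) (Set.empty_subset _)
      refine ⟨S, fun _ => 0, hS4, ?_, ?_⟩
      · intro t ht
        obtain rfl : t = 0 := by omega
        simp only [le_refl, and_true, Set.ofPred_mem_eq]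
        apply le_antisymm
        · exact hS3
        · rw [Submodule.span_le]; exact hS1
      · intro v _; simp
    | succ s ih =>
      obtain ⟨S, w, h1, h2, h3⟩ := ih
      have hSsub : S ⊆ (F (s + 1) : Set V) := by
        intro v hv
        have : v ∈ F s := by
          rw [h2 s le_rfl]
          exact Submodule.subset_span ⟨hv, h3 v hv⟩
        exact hmono (Nat.le_succ s) this
      obtain ⟨S', hS1, hS2, hS3, hS4⟩ := exists_linearIndepOn_id_extension (K := k) h1 hSsub
      refine ⟨S', fun v => if v ∈ S then w v else s + 1, hS4, ?_, ?_⟩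
      · intro t ht
        rcases Nat.lt_or_ge t (s + 1) with hlt | hge
        · rw [h2 t (by omega)]
          congr 1
          ext v
          simp only [Set.mem_ofPred_eq]
          constructor
          · rintro ⟨hv, hw⟩
            exact ⟨hS2 hv, by rw [if_pos hv]; exact hw⟩
          · rintro ⟨hv, hw⟩
            split_ifs at hw with hvS
            · exact ⟨hvS, hw⟩
            · omega
        · obtain rfl : t = s + 1 := by omega
          have : {v ∈ S' | (if v ∈ S then w v else s + 1) ≤ s + 1} = S' := by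
            ext v
            simp only [Set.mem_ofPred_eq, and_iff_left_iff_imp]
            intro _
            split_ifs with hvS
            · exact (h3 v hvS).trans (Nat.le_succ s)
            · exact le_rfl
          rw [this]
          apply le_antisymm
          · exact hS3
          · rw [Submodule.span_le]; exact hS1
      · intro v hv
        simp only
        split_ifs with hvS
        · exact (h3 v hvS).trans (Nat.le_succ s)
        · exact le_rfl
  obtain ⟨S, w, h1, h2, h3⟩ := step R
  have hspan : ⊤ ≤ Submodule.span k (Set.range (fun v : S => (v : V))) := by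
    rw [Subtype.range_coe]
    have := h2 R le_rfl
    rw [hR] at this
    rw [this]
    apply Submodule.span_mono
    intro v hv
    exact hv.1
  have h1' : LinearIndependent k (fun v : S => (v : V)) := h1
  set b₀ : Basis S k V := Basis.mk h1' hspan with hb₀
  have hb₁ : ∀ v : S, b₀ v = (v : V) := fun v => Basis.mk_apply h1' hspan v
  have hfin : Finite S := Module.Finite.finite_basis b₀
  have := Fintype.ofFinite S
  set e := Fintype.equivFin S
  refine ⟨Fintype.card S, b₀.reindex e, fun i => w (e.symm i), fun s => ?_⟩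
  rcases Nat.lt_or_ge s R with hlt | hge
  · rw [h2 s hlt.le]
    congr 1
    ext v
    simp only [Set.mem_ofPred_eq, Set.mem_image, Basis.reindex_apply]
    constructor
    · rintro ⟨hv, hw⟩
      refine ⟨e ⟨v, hv⟩, ?_, ?_⟩
      · rw [Equiv.symm_apply_apply]; exact hw
      · rw [Equiv.symm_apply_apply, hb₁]
    · rintro ⟨i, hi, rfl⟩
      rw [hb₁]
      exact ⟨(e.symm i).2, hi⟩
  · have h4 : F s = ⊤ := top_unique (hR ▸ hmono hge)
    have h5 : {i | w (e.symm i) ≤ s} = Set.univ := by
      ext i
      simp only [Set.mem_ofPred_eq, Set.mem_univ, iff_true]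
      exact (h3 _ (e.symm i).2).trans hge
    rw [h4, h5, Set.image_univ, Basis.span_eq]

end Adapted

end Pool.Agent.WanRH
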