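import Pool.Agent.WanRH.Det
import Pool.Agent.WanRH.Weight

/-!
# Comparison of determinants on `A/c` and `A/b` for a filtered algebra `A`
-/

namespace Pool.Agent.WanRH

open Polynomial Module

section Rec

variable {k : Type*} [Field k] {A : Type*} [CommRing A] [Algebra k A]

/-- Multiplication by `a` on `A/I`. -/
noncomputable def mulQ (I : Ideal A) (a : A) : (A ⧸ I) →ₗ[k] (A ⧸ I) :=
  LinearMap.mulLeft k (Ideal.Quotient.mk I a)

@[simp] lemma mulQ_apply (I : Ideal A) (a : A) (x : A ⧸ I) :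
    mulQ (k := k) I a x = Ideal.Quotient.mk I a * x := rfl

/-- A filtration of a `k`-algebra by subspaces. -/
structure Filt (k : Type*) [Field k] (A : Type*) [CommRing A] [Algebra k A] where
  /-- the pieces -/
  fl : ℤ → Submodule k A
  mono : Monotone fl
  mul_mem : ∀ {m n : ℤ} {a b : A}, a ∈ fl m → b ∈ fl n → a * b ∈ fl (m + n)
  neg : ∀ n < 0, fl n = ⊥
  exh : ∀ a, ∃ n, a ∈ fl n

variable (𝓕 : Filt k A)

/-- Adapted data for `A/c`. -/
structure Adapted (𝓕 : Filt k A) (c : A) (r₀ : ℤ) where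
  /-- number of elements -/
  n : ℕ
  /-- basis of `A/c` -/
  w : Basis (Fin n) k (A ⧸ Ideal.span {c})
  /-- lifts -/
  W : Fin n → A
  /-- weights -/
  r : Fin n → ℕ
  hW : ∀ i, W i ∈ 𝓕.fl (r i)
  hw : ∀ i, Ideal.Quotient.mk _ (W i) = w i
  expand : ∀ (s : ℤ) (a : A), a ∈ 𝓕.fl s → ∃ (lam : Fin n → k) (u : A),
    (∀ i, lam i ≠ 0 → (r i : ℤ) ≤ s) ∧ u ∈ 𝓕.fl (s - r₀) ∧ a = ∑ i, lam i • W i + c * u

variable {𝓕}

lemma exists_adapted {c : A} {r₀ : ℤ} (hc : ∀ u r, c * u ∈ 𝓕.fl r → u ∈ 𝓕.fl (r - r₀))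
    [FiniteDimensional k (A ⧸ Ideal.span {c})] : Nonempty (Adapted 𝓕 c r₀) := by
  classical
  set I : Ideal A := Ideal.span {c} with hI
  set q : A →ₗ[k] (A ⧸ I) := (Ideal.Quotient.mkₐ k I).toLinearMap with hq
  have hqapp : ∀ a, q a = Ideal.Quotient.mk I a := fun a => rfl
  have hqsurj : Function.Surjective q := Ideal.Quotient.mk_surjective
  set F : ℕ → Submodule k (A ⧸ I) := fun s => (𝓕.fl s).map q with hF
  have hFmono : Monotone F := by
    intro s t hst
    exact Submodule.map_mono (𝓕.mono (by exact_mod_cast hst))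
  obtain ⟨R, hR⟩ : ∃ R, F R = ⊤ := by
    set b := Module.finBasis k (A ⧸ I)
    have h1 : ∀ i, ∃ m : ℕ, b i ∈ F m := by
      intro i
      obtain ⟨a, ha⟩ := hqsurj (b i)
      obtain ⟨n, hn⟩ := 𝓕.exh a
      refine ⟨n.toNat, ?_⟩
      rw [← ha]
      exact Submodule.mem_map_of_mem (𝓕.mono (Int.self_le_toNat n) hn)
    choose m hm using h1
    refine ⟨Finset.univ.sup m, ?_⟩
    rw [eq_top_iff, ← b.span_eq, Submodule.span_le]
    rintro _ ⟨i, rfl⟩
    exact hFmono (Finset.le_sup (Finset.mem_univ i)) (hm i)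
  obtain ⟨n, w, r, hwr⟩ := exists_adapted_basis F hFmono R hR
  have hlift : ∀ i, ∃ W : A, W ∈ 𝓕.fl (r i) ∧ Ideal.Quotient.mk I W = w i := by
    intro i
    have : w i ∈ F (r i) := by
      rw [hwr]
      exact Submodule.subset_span ⟨i, le_refl (r i), rfl⟩
    obtain ⟨W, hW, hW'⟩ := this
    exact ⟨W, hW, hW'⟩
  choose W hW hW' using hlift
  refine ⟨⟨n, w, W, r, hW, hW', ?_⟩⟩
  intro s a ha
  rcases lt_or_ge s 0 with hs | hs
  · rw [𝓕.neg s hs, Submodule.mem_bot] at ha
    refine ⟨0, 0, ?_, Submodule.zero_mem _, ?_⟩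
    · intro i hi; exact absurd rfl hi
    · simp [ha]
  · obtain ⟨t, rfl⟩ := Int.eq_ofNat_of_zero_le hs
    have h1 : q a ∈ F t := Submodule.mem_map_of_mem ha
    rw [hwr, Basis.mem_span_image] at h1
    refine ⟨w.repr (q a), ?_⟩
    have h2 : ∀ i, (w.repr (q a)) i ≠ 0 → (r i : ℤ) ≤ t := by
      intro i hi
      have := h1 (Finsupp.mem_support_iff.mpr hi)
      exact_mod_cast this
    have h3 : a - ∑ i, (w.repr (q a)) i • W i ∈ I := by
      have h4 : q (∑ i, (w.repr (q a)) i • W i) = q a := by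
        rw [map_sum]
        calc ∑ i, q ((w.repr (q a)) i • W i) = ∑ i, (w.repr (q a)) i • w i :=
              Finset.sum_congr rfl fun i _ => by rw [map_smul, hqapp (W i), hW']
          _ = q a := w.sum_repr (q a)
      rw [← Ideal.Quotient.eq_zero_iff_mem, ← hqapp, map_sub, h4, sub_self]
    obtain ⟨u, hu⟩ := Ideal.mem_span_singleton.mp h3
    refine ⟨u, h2, ?_, ?_⟩
    · apply hc
      rw [← hu]
      refine Submodule.sub_mem _ ha (Submodule.sum_mem _ fun i _ => ?_)
      by_cases hi : (w.repr (q a)) i = 0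
      · rw [hi, zero_smul]; exact Submodule.zero_mem _
      · exact Submodule.smul_mem _ _ (𝓕.mono (h2 i hi) (hW i))
    · rw [← hu]; abel

/-- Expansion modulo a perturbation `b` of `c`. -/
lemma Adapted.expand_mod {c : A} {r₀ : ℤ} (D : Adapted 𝓕 c r₀) {b : A} {M : ℤ} (hM : 1 ≤ M)
    (he : b - c ∈ 𝓕.fl (r₀ - M)) (s : ℤ) (a : A) (ha : a ∈ 𝓕.fl s) :
    Ideal.Quotient.mk (Ideal.span {b}) a ∈
      Submodule.span k ((fun i => Ideal.Quotient.mk (Ideal.span {b}) (D.W i)) ''
        {i | (D.r i : ℤ) ≤ s}) := by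
  have main : ∀ m : ℕ, ∀ s : ℤ, s < m → ∀ a ∈ 𝓕.fl s,
      Ideal.Quotient.mk (Ideal.span {b}) a ∈
      Submodule.span k ((fun i => Ideal.Quotient.mk (Ideal.span {b}) (D.W i)) ''
        {i | (D.r i : ℤ) ≤ s}) := by
    intro m
    induction m with
    | zero =>
      intro s hs a ha
      rw [𝓕.neg s (by exact_mod_cast hs), Submodule.mem_bot] at ha
      rw [ha, map_zero]
      exact Submodule.zero_mem _
    | succ m ih =>
      intro s hs a ha
      obtain ⟨lam, u, hlam, hu, hau⟩ := D.expand s a ha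
      have h1 : c * u = b * u - (b - c) * u := by ring
      have h2 : (b - c) * u ∈ 𝓕.fl (s - M) := by
        have := 𝓕.mul_mem he hu
        rwa [show r₀ - M + (s - r₀) = s - M by ring] at this
      have h3 := ih (s - M) (by push_cast at hs ⊢; omega) _ h2
      have h4 : Ideal.Quotient.mk (Ideal.span {b}) (b * u) = 0 :=
        Ideal.Quotient.eq_zero_iff_mem.mpr
          (Ideal.mul_mem_right _ _ (Ideal.mem_span_singleton_self b))
      rw [hau, h1, map_add, map_sub, h4, zero_sub, map_sum]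
      refine Submodule.add_mem _ (Submodule.sum_mem _ fun i _ => ?_) (Submodule.neg_mem _ ?_)
      · by_cases hi : lam i = 0
        · rw [hi, zero_smul, map_zero]; exact Submodule.zero_mem _
        · have : Ideal.Quotient.mk (Ideal.span {b}) (lam i • D.W i) =
            lam i • Ideal.Quotient.mk (Ideal.span {b}) (D.W i) := rfl
          rw [this]
          exact Submodule.smul_mem _ _ (Submodule.subset_span ⟨i, hlam i hi, rfl⟩)
      · refine Submodule.span_mono (Set.image_mono ?_) h3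
        intro i hi
        simp only [Set.mem_ofPred_eq] at hi ⊢
        omega
  refine main (s.toNat + 1) s ?_ a ha
  have := Int.self_le_toNat s
  push_cast
  omega

lemma Adapted.span_mod {c : A} {r₀ : ℤ} (D : Adapted 𝓕 c r₀) {b : A} {M : ℤ} (hM : 1 ≤ M)
    (he : b - c ∈ 𝓕.fl (r₀ - M)) :
    ⊤ ≤ Submodule.span k (Set.range fun i => Ideal.Quotient.mk (Ideal.span {b}) (D.W i)) := by
  intro x _
  obtain ⟨a, rfl⟩ := Ideal.Quotient.mk_surjective x
  obtain ⟨s, hs⟩ := 𝓕.exh a
  refine Submodule.span_mono ?_ (D.expand_mod hM he s a hs)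
  exact Set.image_subset_range _ _

lemma Adapted.finrank_le {c : A} {r₀ : ℤ} (D : Adapted 𝓕 c r₀) {b : A} {M : ℤ} (hM : 1 ≤ M)
    (he : b - c ∈ 𝓕.fl (r₀ - M)) :
    Module.finrank k (A ⧸ Ideal.span {b}) ≤ Module.finrank k (A ⧸ Ideal.span {c}) := by
  have h1 := finrank_range_le_card (R := k)
    (b := fun i => Ideal.Quotient.mk (Ideal.span {b}) (D.W i))
  unfold Set.finrank at h1
  rw [top_le_iff.mp (D.span_mod hM he), finrank_top] at h1
  rw [Module.finrank_eq_card_basis D.w]
  exact h1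

/-- **Comparison of determinants.** -/
theorem dp_eq_of_close {B N : ℕ} (hB : 0 < B) (hN : 0 < N) {c b : A} {r₀ : ℤ}
    (hc : ∀ u r, c * u ∈ 𝓕.fl r → u ∈ 𝓕.fl (r - r₀))
    (hb : ∀ u r, b * u ∈ 𝓕.fl r → u ∈ 𝓕.fl (r - r₀))
    (he : b - c ∈ 𝓕.fl (r₀ - N * B))
    [FiniteDimensional k (A ⧸ Ideal.span {c})] [FiniteDimensional k (A ⧸ Ideal.span {b})]
    (f : ℕ → A) (hf : ∀ j : ℕ, f j ∈ 𝓕.fl (j * B)) (j : ℕ) (hj : j < N) :
    (dp N (fun j => mulQ (k := k) (Ideal.span {b}) (f j))).coeff j =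
      (dp N (fun j => mulQ (k := k) (Ideal.span {c}) (f j))).coeff j := by
  classical
  obtain ⟨D⟩ := exists_adapted (𝓕 := 𝓕) hc
  obtain ⟨D'⟩ := exists_adapted (𝓕 := 𝓕) hb
  have hNB : (1 : ℤ) ≤ N * B := by
    have : 0 < N * B := Nat.mul_pos hN hB
    exact_mod_cast this
  have he' : c - b ∈ 𝓕.fl (r₀ - N * B) := by
    have := Submodule.neg_mem _ he
    rwa [neg_sub] at this
  have hfr : Module.finrank k (A ⧸ Ideal.span {b}) = Module.finrank k (A ⧸ Ideal.span {c}) :=
    le_antisymm (D.finrank_le hNB he) (D'.finrank_le hNB he')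
  have hcard : Fintype.card (Fin D.n) = Module.finrank k (A ⧸ Ideal.span {b}) := by
    rw [hfr, Module.finrank_eq_card_basis D.w]
  set wb : Basis (Fin D.n) k (A ⧸ Ideal.span {b}) :=
    basisOfTopLeSpanOfCardEqFinrank
      (fun i => Ideal.Quotient.mk (Ideal.span {b}) (D.W i)) (D.span_mod hNB he) hcard with hwb
  have hwb' : ∀ i, wb i = Ideal.Quotient.mk (Ideal.span {b}) (D.W i) := by
    intro i
    rw [hwb, coe_basisOfTopLeSpanOfCardEqFinrank]
  rw [dp_eq N wb, dp_eq N D.w]
  -- coordinates of products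
  have hexp : ∀ (j : ℕ) (m : Fin D.n), ∃ (lam : Fin D.n → k) (u : A),
      (∀ i, lam i ≠ 0 → (D.r i : ℤ) ≤ j * B + D.r m) ∧ u ∈ 𝓕.fl (j * B + D.r m - r₀) ∧
      f j * D.W m = ∑ i, lam i • D.W i + c * u := by
    intro j m
    exact D.expand _ _ (𝓕.mul_mem (hf j) (D.hW m))
  choose lam u h1 h2 h3 using hexp
  have hcoordc : ∀ j l m, LinearMap.toMatrix D.w D.w
      (mulQ (k := k) (Ideal.span {c}) (f j)) l m = lam j m l := by
    intro j l m
    rw [LinearMap.toMatrix_apply, mulQ_apply, ← D.hw, ← map_mul, h3, map_add, map_sum]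
    have h4 : Ideal.Quotient.mk (Ideal.span {c}) (c * u j m) = 0 :=
      Ideal.Quotient.eq_zero_iff_mem.mpr
        (Ideal.mul_mem_right _ _ (Ideal.mem_span_singleton_self c))
    rw [h4, add_zero]
    have h5 : ∀ i, Ideal.Quotient.mk (Ideal.span {c}) (lam j m i • D.W i) =
        lam j m i • D.w i := by
      intro i
      rw [← D.hw]; rfl
    simp only [h5, map_sum, map_smul, Basis.repr_self, Finsupp.coe_finsetSum, Finset.sum_apply,
      Finsupp.smul_apply, smul_eq_mul]
    rw [Finset.sum_eq_single l]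
    · simp
    · intro i _ hi
      rw [Finsupp.single_apply, if_neg hi, mul_zero]
    · intro h; exact absurd (Finset.mem_univ _) h
  have hcoordb : ∀ j l m, LinearMap.toMatrix wb wb
      (mulQ (k := k) (Ideal.span {b}) (f j)) l m - lam j m l ≠ 0 →
        (D.r l : ℤ) - D.r m + N * B ≤ j * B := by
    intro j l m
    have h4 : Ideal.Quotient.mk (Ideal.span {b}) (b * u j m) = 0 :=
      Ideal.Quotient.eq_zero_iff_mem.mpr
        (Ideal.mul_mem_right _ _ (Ideal.mem_span_singleton_self b))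
    have h5 : ∀ i, Ideal.Quotient.mk (Ideal.span {b}) (lam j m i • D.W i) =
        lam j m i • wb i := by
      intro i
      rw [hwb' i]; rfl
    have h6 : LinearMap.toMatrix wb wb (mulQ (k := k) (Ideal.span {b}) (f j)) l m =
        lam j m l - wb.repr (Ideal.Quotient.mk (Ideal.span {b}) ((b - c) * u j m)) l := by
      rw [LinearMap.toMatrix_apply, mulQ_apply, hwb', ← map_mul, h3, map_add,
        show c * u j m = b * u j m - (b - c) * u j m by ring, map_sub, h4, zero_sub, map_sum]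
      simp only [h5, map_add, map_neg, map_sum, map_smul, Basis.repr_self, Finsupp.coe_add,
        Finsupp.coe_neg, Pi.add_apply, Pi.neg_apply,
        Finsupp.coe_finsetSum, Finset.sum_apply, Finsupp.smul_apply, smul_eq_mul]
      rw [Finset.sum_eq_single l]
      · simp
      · intro i _ hi
        rw [Finsupp.single_apply, if_neg hi, mul_zero]
      · intro h; exact absurd (Finset.mem_univ _) h
    rw [h6]
    intro hne
    have h7 : wb.repr (Ideal.Quotient.mk (Ideal.span {b}) ((b - c) * u j m)) l ≠ 0 := by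
      intro h; apply hne; rw [h]; ring
    have h8 : (b - c) * u j m ∈ 𝓕.fl (j * B + D.r m - N * B) := by
      have := 𝓕.mul_mem he (h2 j m)
      rwa [show r₀ - (N : ℤ) * B + (j * B + D.r m - r₀) = j * B + D.r m - N * B by ring] at this
    have h9 := D.expand_mod hNB he _ _ h8
    have h10 : (fun i => Ideal.Quotient.mk (Ideal.span {b}) (D.W i)) = wb := by
      ext i; exact (hwb' i).symm
    rw [h10, Basis.mem_span_image] at h9
    have h11 := h9 (Finsupp.mem_support_iff.mpr h7)
    simp only [Set.mem_ofPred_eq] at h11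
    linarith
  have hpc : ∀ {ι : Type} [Fintype ι] [DecidableEq ι] {V : Type _} [AddCommGroup V] [Module k V]
      (w : Basis ι k V) (φ : ℕ → V →ₗ[k] V) (l m : ι) (i : ℕ),
      (polyMat N w φ l m).coeff i = if i < N then LinearMap.toMatrix w w (φ i) l m else 0 := by
    intro ι _ _ V _ _ w φ l m i
    rw [polyMat_apply, finsetSum_coeff]
    simp only [coeff_X_pow_mul', coeff_C]
    split_ifs with hi
    · rw [Finset.sum_eq_single i]
      · simp
      · intro t _ ht
        split_ifs with h h'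
        · omega
        · rfl
        · rfl
      · intro h; exact absurd (Finset.mem_range.mpr hi) h
    · refine Finset.sum_eq_zero fun t ht => ?_
      rw [Finset.mem_range] at ht
      split_ifs with h h'
      · omega
      · rfl
      · rfl
  refine det_weight B N hB _ _ (fun i => (D.r i : ℤ)) ?_ ?_ j hj
  · intro l m i hi
    rw [hpc] at hi
    split_ifs at hi with hiN
    · rw [hcoordc] at hi
      have := h1 i m l hi
      linarith
    · exact absurd rfl hi
  · intro l m i hi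
    rw [coeff_sub, hpc, hpc] at hi
    split_ifs at hi with hiN
    · rw [hcoordc] at hi
      exact hcoordb i l m hi
    · simp at hi

end Rec

end Pool.Agent.WanRH
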