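import Pool.Agent.WanRH.Gal
import Pool.Agent.WanRH.Hol

/-!
# Existence of an element of trace one regular outside the ramified places
-/

set_option linter.unusedSectionVars false
set_option linter.unusedVariables false

namespace Pool.Agent.WanRH

open Polynomial Module Place

universe u v w

section Theta

variable {k : Type u} {K : Type v} {L : Type w} [Field k] [Finite k]
  [Field K] [Algebra k K] [IsFunctionField k K]
  [Field L] [Algebra k L] [IsFunctionField k L]
  [Algebra K L] [IsScalarTower k K L] [FiniteDimensional K L] [IsGalois K L]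

lemma finite_above (T : Finset (Place k K)) : {y : Place k L | y.down K ∈ T}.Finite := by
  have : {y : Place k L | y.down K ∈ T} = ⋃ x ∈ T, {y : Place k L | y.down K = x} := by
    ext y; simp
  rw [this]
  exact Set.Finite.biUnion T.finite_toSet fun x _ => finite_fibre x

variable (L) in
/-- Places above `T`. -/
noncomputable def above (T : Finset (Place k K)) : Finset (Place k L) :=
  (finite_above (L := L) T).toFinset

lemma mem_above {T : Finset (Place k K)} {y : Place k L} : y ∈ above L T ↔ y.down K ∈ T := by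
  simp [above]

lemma above_nonempty {T : Finset (Place k K)} (hT : T.Nonempty) : (above L T).Nonempty := by
  obtain ⟨x, hx⟩ := hT
  obtain ⟨y, hy⟩ := down_surjective k K L x
  exact ⟨y, mem_above.mpr (hy ▸ hx)⟩

/-- A finite field element with nonzero trace form value. -/
lemma exists_trace_ne_zero {κ : Type*} [Field κ] [Finite κ] {q f : ℕ} (hq : 1 < q) (hf : 0 < f)
    (hcard : Nat.card κ = q ^ f) : ∃ y : κ, ∑ i ∈ Finset.range f, y ^ (q ^ i) ≠ 0 := by
  classical
  have : Fintype κ := Fintype.ofFinite κ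
  by_contra hno
  push Not at hno
  set P : κ[X] := ∑ i ∈ Finset.range f, X ^ (q ^ i) with hP
  have hdeg : P.natDegree < Fintype.card κ := by
    rw [← Nat.card_eq_fintype_card, hcard, hP]
    refine lt_of_le_of_lt (natDegree_sum_le_of_forall_le (n := q ^ (f - 1)) _ _ ?_)
      (Nat.pow_lt_pow_right hq (by omega))
    intro i hi
    rw [Finset.mem_range] at hi
    rw [natDegree_X_pow]
    exact Nat.pow_le_pow_right (by omega) (by omega)
  have hP0 : P = 0 := by
    refine Polynomial.eq_zero_of_natDegree_lt_card_of_eval_eq_zero' P Finset.univ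
      (fun y _ => ?_) (by rwa [Finset.card_univ])
    rw [hP, eval_finsetSum]
    simpa using hno y
  have h1 : P.coeff (q ^ 0) = 1 := by
    rw [hP, finsetSum_coeff, Finset.sum_eq_single 0]
    · simp
    · intro j _ hj
      rw [coeff_X_pow, if_neg]
      intro h
      apply hj
      exact (Nat.pow_right_injective (a := q) (by omega) h).symm
    · intro h; exact absurd (Finset.mem_range.mpr hf) h
  rw [hP0] at h1
  simp at h1

/-- Local surjectivity of the trace. -/
lemma exists_local_trace (T : Finset (Place k K)) (hT : T.Nonempty)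
    (hun : ∀ y : Place k L, y.down K ∉ T → Unram K y) (x : Place k K) (hx : x ∉ T) :
    ∃ b ∈ holo (above L T), Algebra.trace K L b ∈ x.ring ∧ Algebra.trace K L b ∉ x.fil 1 := by
  classical
  obtain ⟨y, hy⟩ := down_surjective k K L x
  subst hy
  obtain ⟨φ, hφ⟩ := exists_isFrob (K := K) y
  have hunr := hun y hx
  set q := Nat.card k ^ (y.down K).degree with hq
  have hk1 : 1 < Nat.card k := Finite.one_lt_card
  have hq1 : 1 < q := Nat.one_lt_pow (y.down K).degree_pos.ne' hk1
  set f := orderOf φ with hf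
  have hfpos : 0 < f := orderOf_pos φ
  have hcard : Nat.card y.ResidueField = q ^ f := by
    rw [card_residueField, degree_of_unram hunr hφ, hq, ← pow_mul, mul_comm]
  obtain ⟨ybar, hybar⟩ := exists_trace_ne_zero hq1 hfpos hcard
  obtain ⟨s, hs, hsy⟩ := y.resVal_surjective ybar
  -- approximation
  have hfib := finite_fibre (L := L) (y.down K)
  set E : Div k L := ∑ z ∈ hfib.toFinset, Finsupp.single z 1 with hE
  have hEz : ∀ z, E z = if z.down K = y.down K then 1 else 0 := by
    intro z
    rw [hE, Finsupp.finsetSum_apply]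
    simp only [Finsupp.single_apply]
    rw [Finset.sum_ite_eq' hfib.toFinset z (fun _ => (1 : ℤ))]
    simp
  have hE0 : (0 : Div k L) ≤ E := by
    intro z
    rw [hEz]; simp only [Finsupp.coe_zero, Pi.zero_apply]; split_ifs <;> omega
  obtain ⟨b, hb⟩ := strong_approx (above_nonempty (L := L) hT) 0 E hE0
    (fun z => if z = y then s else 0) (by
      intro z
      simp only [Finsupp.coe_zero, Pi.zero_apply]
      split_ifs with hz
      · subst hz
        exact mem_ring_iff_fil'.mp hs
      · exact Submodule.zero_mem _)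
  have hbH : b ∈ holo (above L T) := by
    intro z hz
    exact mem_ring_iff_fil'.mpr (hb z hz).1
  have hnot : ∀ z : Place k L, z.down K = y.down K → z ∉ above L T := by
    intro z hz h
    rw [mem_above, hz] at h
    exact hx h
  have hby : b - s ∈ y.fil 1 := by
    have := (hb y (hnot y rfl)).2
    rwa [hEz, if_pos rfl, if_pos rfl] at this
  have hbz : ∀ z : Place k L, z.down K = y.down K → z ≠ y → b ∈ z.fil 1 := by
    intro z hz hzy
    have := (hb z (hnot z hz)).2
    rwa [hEz, if_pos hz, if_neg hzy, sub_zero] at this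
  -- all conjugates are regular at y
  have hreg : ∀ σ : L ≃ₐ[K] L, σ b ∈ y.ring := by
    intro σ
    have h1 : σ b ∈ (act (σ * σ⁻¹) y).ring := by
      rw [act_mul, mem_act_ring]
      rw [AlgEquiv.symm_apply_apply]
      exact hbH _ (hnot _ (down_act _ _))
    rwa [mul_inv_cancel, act_one] at h1
  have hsmall : ∀ σ : L ≃ₐ[K] L, act σ y ≠ y → y.resVal (σ b) = 0 := by
    intro σ hσ
    rw [resVal_eq_zero_iff (hreg σ)]
    have h1 : σ b ∈ (act (σ * σ⁻¹) y).fil 1 := by
      rw [act_mul, mem_fil_act, AlgEquiv.symm_apply_apply]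
      refine hbz _ (down_act _ _) ?_
      intro h
      apply hσ
      have h2 := congrArg (act σ) h
      rw [← act_mul, mul_inv_cancel, act_one] at h2
      exact h2.symm
    rwa [mul_inv_cancel, act_one] at h1
  have hresb : y.resVal b = ybar := by
    have h1 : b ∈ y.ring := hbH y (hnot y rfl)
    have h2 := (resVal_eq_zero_iff (sub_mem h1 hs)).mpr hby
    rw [resVal_sub h1 hs, sub_eq_zero] at h2
    rw [h2, hsy]
  have hfrobpow : ∀ i : ℕ, y.resVal ((φ ^ i) b) = ybar ^ (q ^ i) := by
    intro i
    induction i with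
    | zero => simp [hresb]
    | succ i ih =>
      rw [pow_succ', AlgEquiv.mul_apply]
      have h1 : (φ ^ i) b ∈ y.ring := hreg _
      have h2 := hφ.2 _ h1
      have h3 : φ ((φ ^ i) b) ∈ y.ring := by
        have := hreg (φ * φ ^ i)
        rwa [AlgEquiv.mul_apply] at this
      have h4 : ((φ ^ i) b) ^ q ∈ y.ring := pow_mem h1 _
      have h5 := (resVal_eq_zero_iff (sub_mem h3 h4)).mpr h2
      rw [resVal_sub h3 h4, sub_eq_zero] at h5
      rw [h5]
      have h6 : ∀ (a : L) (ha : a ∈ y.ring) (m : ℕ), y.resVal (a ^ m) = (y.resVal a) ^ m := by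
        intro a ha m
        induction m with
        | zero => simp [resVal_one]
        | succ m ihm => rw [pow_succ, resVal_mul (pow_mem ha _) ha, ihm, pow_succ]
      rw [h6 _ h1, ih, ← pow_mul, pow_succ]
  have htr : algebraMap K L (Algebra.trace K L b) = ∑ σ : L ≃ₐ[K] L, σ b :=
    trace_eq_sum_automorphisms b
  have htrreg : algebraMap K L (Algebra.trace K L b) ∈ y.ring := by
    rw [htr]
    exact sum_mem fun σ _ => hreg σ
  have hressum : ∀ S : Finset (L ≃ₐ[K] L), y.resVal (∑ σ ∈ S, σ b) = ∑ σ ∈ S, y.resVal (σ b) := by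
    intro S
    induction S using Finset.induction_on with
    | empty => simp [resVal_zero]
    | insert a S ha ih =>
      rw [Finset.sum_insert ha, Finset.sum_insert ha, resVal_add (hreg a)
        (sum_mem fun σ _ => hreg σ), ih]
  have hval : y.resVal (algebraMap K L (Algebra.trace K L b)) =
      ∑ i ∈ Finset.range f, ybar ^ (q ^ i) := by
    rw [htr, hressum]
    have h1 : ∑ σ : L ≃ₐ[K] L, y.resVal (σ b) =
        ∑ σ ∈ Finset.univ.filter (fun σ : L ≃ₐ[K] L => act σ y = y), y.resVal (σ b) := by
      symm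
      apply Finset.sum_filter_of_ne
      intro σ _ hne
      by_contra h
      exact hne (hsmall σ h)
    rw [h1]
    symm
    have hpow : ∀ i : ℕ, act (φ ^ i) y = y := by
      intro i
      induction i with
      | zero => rw [pow_zero, act_one]
      | succ i ih => rw [pow_succ, act_mul, hφ.1, ih]
    refine Finset.sum_bij (fun i _ => φ ^ i) ?_ ?_ ?_ ?_
    · intro i _
      simp only [Finset.mem_filter, Finset.mem_univ, true_and]
      exact hpow i
    · intro i hi j hj hij
      exact pow_injOn_Iio_orderOf (by simpa using hi) (by simpa using hj) hij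
    · intro σ hσ
      simp only [Finset.mem_filter, Finset.mem_univ, true_and] at hσ
      have h2 := mem_zpowers_of_unram hunr hφ σ hσ
      rw [mem_zpowers_iff_mem_range_orderOf, Finset.mem_image] at h2
      obtain ⟨i, hi, rfl⟩ := h2
      exact ⟨i, hi, rfl⟩
    · intro i _
      rw [hfrobpow]
  refine ⟨b, hbH, htrreg, ?_⟩
  intro h
  have h1 : algebraMap K L (Algebra.trace K L b) ∈ y.fil 1 :=
    (algebraMap_mem_fil_one_iff y _).mpr h
  rw [← resVal_eq_zero_iff htrreg, hval] at h1
  exact hybar h1

lemma algebraMap_mem_holo {T : Finset (Place k K)} {a : K} (ha : a ∈ holo T) :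
    algebraMap K L a ∈ holo (above L T) := by
  intro y hy
  rw [algebraMap_mem_ring_iff]
  apply ha
  intro h
  exact hy (mem_above.mpr h)

lemma trace_mem_holo {T : Finset (Place k K)} {b : L} (hb : b ∈ holo (above L T)) :
    Algebra.trace K L b ∈ holo T := by
  classical
  intro x hx
  obtain ⟨y, hy⟩ := down_surjective k K L x
  subst hy
  rw [← algebraMap_mem_ring_iff, trace_eq_sum_automorphisms]
  refine sum_mem fun σ _ => ?_
  have h1 : σ b ∈ (act (σ * σ⁻¹) y).ring := by
    rw [act_mul, mem_act_ring, AlgEquiv.symm_apply_apply]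
    apply hb
    rw [mem_above, down_act]
    exact hx
  rwa [mul_inv_cancel, act_one] at h1

/-- There is an element of trace one, regular outside `T`. -/
theorem exists_theta (T : Finset (Place k K)) (hT : T.Nonempty)
    (hun : ∀ y : Place k L, y.down K ∉ T → Unram K y) :
    ∃ θ ∈ holo (above L T), Algebra.trace K L θ = 1 := by
  classical
  -- choice of t₀
  obtain ⟨x₁, hx₁⟩ := exists_place_notMem T
  obtain ⟨b₀, hb₀, -, hb₀'⟩ := exists_local_trace (L := L) T hT hun x₁ hx₁
  set t₀ := Algebra.trace K L b₀ with ht₀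
  have ht₀0 : t₀ ≠ 0 := by
    intro h
    apply hb₀'
    rw [h]
    exact Submodule.zero_mem _
  have ht₀H : t₀ ∈ holo T := trace_mem_holo hb₀
  -- the zeros of t₀
  set P : Finset (Place k K) := (finite_ord_ne_zero (k := k) t₀).toFinset.filter (fun x => x ∉ T)
    with hP
  have hPmem : ∀ x ∉ T, x ∉ P → x.ord t₀ = 0 := by
    intro x hx hxP
    by_contra hne
    apply hxP
    rw [hP, Finset.mem_filter, Set.Finite.mem_toFinset]
    exact ⟨hne, hx⟩
  have hPT : ∀ x ∈ P, x ∉ T := fun x hx => (Finset.mem_filter.mp hx).2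
  -- local elements
  have hloc : ∀ x : Place k K, ∃ b : L, b ∈ holo (above L T) ∧
      (x ∉ T → Algebra.trace K L b ∉ x.fil 1) := by
    intro x
    by_cases hx : x ∈ T
    · exact ⟨0, Subalgebra.zero_mem _, fun h => absurd hx h⟩
    · obtain ⟨b, hb, -, h⟩ := exists_local_trace (L := L) T hT hun x hx
      exact ⟨b, hb, fun _ => h⟩
  choose bl hbl hbl' using hloc
  -- idempotents
  set E1 : Div k K := ∑ x ∈ P, Finsupp.single x 1 with hE1
  have hE1x : ∀ z, E1 z = if z ∈ P then 1 else 0 := by
    intro z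
    rw [hE1, Finsupp.finsetSum_apply]
    simp only [Finsupp.single_apply]
    rw [Finset.sum_ite_eq' P z (fun _ => (1 : ℤ))]
  have hE10 : (0 : Div k K) ≤ E1 := by
    intro z
    rw [hE1x]; simp only [Finsupp.coe_zero, Pi.zero_apply]; split_ifs <;> omega
  have hidem : ∀ x : Place k K, ∃ c : K, c ∈ holo T ∧ ∀ z ∈ P, c - (if z = x then 1 else 0) ∈ z.fil 1 := by
    intro x
    obtain ⟨c, hc⟩ := strong_approx hT 0 E1 hE10 (fun z => if z = x then 1 else 0) (by
      intro z
      simp only [Finsupp.coe_zero, Pi.zero_apply]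
      split_ifs
      · exact z.one_mem_fil
      · exact Submodule.zero_mem _)
    refine ⟨c, fun z hz => mem_ring_iff_fil'.mpr (hc z hz).1, fun z hz => ?_⟩
    have := (hc z (hPT z hz)).2
    rwa [hE1x, if_pos hz] at this
  choose c hcH hc using hidem
  set b₁ : L := ∑ x ∈ P, algebraMap K L (c x) * bl x with hb₁
  have hb₁H : b₁ ∈ holo (above L T) :=
    sum_mem fun x _ => mul_mem (algebraMap_mem_holo (hcH x)) (hbl x)
  set t₁ := Algebra.trace K L b₁ with ht₁
  have ht₁H : t₁ ∈ holo T := trace_mem_holo hb₁H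
  have ht₁eq : t₁ = ∑ x ∈ P, c x * Algebra.trace K L (bl x) := by
    rw [ht₁, hb₁, map_sum]
    refine Finset.sum_congr rfl fun x _ => ?_
    rw [← Algebra.smul_def, LinearMap.map_smul, smul_eq_mul]
  have ht₁P : ∀ x ∈ P, t₁ ∉ x.fil 1 := by
    intro x hx h
    have hxT := hPT x hx
    have h1 : t₁ - Algebra.trace K L (bl x) ∈ x.fil 1 := by
      have h2 : t₁ - Algebra.trace K L (bl x) =
          ∑ z ∈ P, (c z - if x = z then 1 else 0) * Algebra.trace K L (bl z) := by
        rw [ht₁eq]
        simp only [sub_mul, Finset.sum_sub_distrib, ite_mul, one_mul, zero_mul]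
        rw [Finset.sum_ite_eq P x (fun z => Algebra.trace K L (bl z)), if_pos hx]
      rw [h2]
      refine Submodule.sum_mem _ fun z hz => ?_
      have h3 := hc z x hx
      have h4 : Algebra.trace K L (bl z) ∈ x.fil 0 :=
        mem_ring_iff_fil'.mp (trace_mem_holo (hbl z) x hxT)
      have := mul_mem_fil x h3 h4
      rwa [add_zero] at this
    apply hbl' x hxT
    have h5 : Algebra.trace K L (bl x) = t₁ - (t₁ - Algebra.trace K L (bl x)) := by ring
    rw [h5]
    exact Submodule.sub_mem _ h h1
  have ht₁ord : ∀ x ∈ P, t₁ ≠ 0 ∧ x.ord t₁ = 0 := by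
    intro x hx
    have h0 : t₁ ≠ 0 := by
      intro h
      apply ht₁P x hx
      rw [h]; exact Submodule.zero_mem _
    refine ⟨h0, le_antisymm ?_ ?_⟩
    · by_contra hlt
      exact ht₁P x hx (Or.inr (by omega))
    · exact le_ord_of_mem_fil h0 (mem_ring_iff_fil'.mp (ht₁H x (hPT x hx)))
  -- approximate inverse
  set E2 : Div k K := ∑ x ∈ P, Finsupp.single x (x.ord t₀) with hE2
  have hE2x : ∀ z, E2 z = if z ∈ P then z.ord t₀ else 0 := by
    intro z
    rw [hE2, Finsupp.finsetSum_apply]
    simp only [Finsupp.single_apply]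
    rw [Finset.sum_ite_eq' P z (fun x => x.ord t₀)]
  have hE20 : (0 : Div k K) ≤ E2 := by
    intro z
    rw [hE2x]; simp only [Finsupp.coe_zero, Pi.zero_apply]
    split_ifs with hz
    · exact le_ord_of_mem_fil ht₀0 (mem_ring_iff_fil'.mp (ht₀H z (hPT z hz)))
    · exact le_rfl
  obtain ⟨u, hu⟩ := strong_approx hT 0 E2 hE20 (fun z => if z ∈ P then t₁⁻¹ else 0) (by
    intro z
    simp only [Finsupp.coe_zero, Pi.zero_apply]
    split_ifs with hz
    · have := z.mem_fil_ord t₁⁻¹
      rwa [z.ord_inv, (ht₁ord z hz).2, neg_zero] at this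
    · exact Submodule.zero_mem _)
  have huH : u ∈ holo T := fun z hz => mem_ring_iff_fil'.mpr (hu z hz).1
  set v := (1 - u * t₁) * t₀⁻¹ with hv
  have hvH : v ∈ holo T := by
    intro z hz
    rw [mem_ring_iff_fil']
    by_cases hzP : z ∈ P
    · have h1 := (hu z hz).2
      rw [if_pos hzP, hE2x, if_pos hzP] at h1
      have h2 := mul_mem_fil z h1 (z.mem_fil_ord t₁)
      rw [(ht₁ord z hzP).2, add_zero] at h2
      have h3 : (u - t₁⁻¹) * t₁ = u * t₁ - 1 := by
        rw [sub_mul, inv_mul_cancel₀ (ht₁ord z hzP).1]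
      rw [h3] at h2
      have h4 : 1 - u * t₁ ∈ z.fil (z.ord t₀) := by
        have := Submodule.neg_mem _ h2
        rwa [neg_sub] at this
      have h5 := mul_mem_fil z h4 (z.mem_fil_ord t₀⁻¹)
      rwa [z.ord_inv, add_neg_cancel] at h5
    · have h1 : 1 - u * t₁ ∈ z.fil 0 := by
        refine Submodule.sub_mem _ z.one_mem_fil ?_
        exact mem_ring_iff_fil'.mp (mul_mem (huH z hz) (ht₁H z hz))
      have h5 := mul_mem_fil z h1 (z.mem_fil_ord t₀⁻¹)
      rwa [z.ord_inv, hPmem z hz hzP, neg_zero, add_zero] at h5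
  refine ⟨algebraMap K L u * b₁ + algebraMap K L v * b₀, ?_, ?_⟩
  · exact add_mem (mul_mem (algebraMap_mem_holo huH) hb₁H)
      (mul_mem (algebraMap_mem_holo hvH) hb₀)
  · rw [map_add, ← Algebra.smul_def, ← Algebra.smul_def, LinearMap.map_smul, LinearMap.map_smul,
      smul_eq_mul, smul_eq_mul, ← ht₁, ← ht₀, hv, mul_assoc, inv_mul_cancel₀ ht₀0]
    ring

end Theta

end Pool.Agent.WanRH
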