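import Pool.Agent.WanRH.Theta
import Pool.Agent.WanRH.HolDet

/-!
# The function `f` attached to a cyclic extension of degree `p^n`
-/

set_option linter.unusedSectionVars false
set_option linter.unusedVariables false

namespace Pool.Agent.WanRH

open Polynomial Module Place

universe u v w

section Twist

variable {k : Type u} {K : Type v} {L : Type w} [Field k] [Finite k]
  [Field K] [Algebra k K] [IsFunctionField k K]
  [Field L] [Algebra k L] [IsFunctionField k L]
  [Algebra K L] [IsScalarTower k K L] [FiniteDimensional K L] [IsGalois K L]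

/-- Galois action on functions regular outside `T`. -/
noncomputable def holoAct (T : Finset (Place k K)) (σ : L ≃ₐ[K] L) :
    holo (above L T) →+* holo (above L T) where
  toFun a := ⟨σ a, by
    intro y hy
    have h1 : σ (a : L) ∈ (act (σ * σ⁻¹) y).ring := by
      rw [act_mul, mem_act_ring, AlgEquiv.symm_apply_apply]
      apply a.2
      rw [mem_above, down_act]
      rwa [mem_above] at hy
    rwa [mul_inv_cancel, act_one] at h1⟩
  map_one' := Subtype.ext (by simp)
  map_mul' a b := Subtype.ext (by simp)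
  map_zero' := Subtype.ext (by simp)
  map_add' a b := Subtype.ext (by simp)

@[simp] lemma coe_holoAct (T : Finset (Place k K)) (σ : L ≃ₐ[K] L) (a : holo (above L T)) :
    ((holoAct T σ a : holo (above L T)) : L) = σ a := rfl

lemma holoAct_mul (T : Finset (Place k K)) (σ τ : L ≃ₐ[K] L) :
    holoAct T (σ * τ) = (holoAct T σ).comp (holoAct T τ) := by
  ext a; rfl

lemma holoAct_one (T : Finset (Place k K)) :
    holoAct T (1 : L ≃ₐ[K] L) = RingHom.id _ := by
  ext a; rfl

/-- Residue field map. -/
noncomputable def resMap (y : Place k L) : (y.down K).ResidueField →+* y.ResidueField :=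
  let f : (y.down K).ring →+* y.ring :=
    { toFun := fun a => ⟨algebraMap K L a, a.2⟩
      map_one' := Subtype.ext (by simp)
      map_mul' := fun a b => Subtype.ext (by simp)
      map_zero' := Subtype.ext (by simp)
      map_add' := fun a b => Subtype.ext (by simp) }
  haveI : IsLocalHom f := ⟨by
    intro a ha
    obtain ⟨⟨u, v, huv, hvu⟩, hu⟩ := ha
    have hu' : (u : L) = algebraMap K L a := congrArg Subtype.val hu
    have h1 : (u : L) * (v : L) = 1 := congrArg Subtype.val huv
    have ha0 : (a : K) ≠ 0 := by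
      intro h
      rw [hu', h, map_zero, zero_mul] at h1
      exact zero_ne_one h1
    have hv' : (v : L) = algebraMap K L (a : K)⁻¹ := by
      rw [map_inv₀, ← hu']
      exact eq_inv_of_mul_eq_one_right h1
    have hmem : (a : K)⁻¹ ∈ (y.down K).ring := by
      rw [← algebraMap_mem_ring_iff, ← hv']
      exact v.2
    exact IsUnit.of_mul_eq_one ⟨(a : K)⁻¹, hmem⟩ (Subtype.ext (mul_inv_cancel₀ ha0))⟩
  IsLocalRing.ResidueField.map f

lemma resMap_resVal (y : Place k L) {a : K} (ha : a ∈ (y.down K).ring) :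
    resMap y ((y.down K).resVal a) = y.resVal (algebraMap K L a) := by
  rw [resVal_of_mem ha, resVal_of_mem ((algebraMap_mem_ring_iff y a).mpr ha)]
  rfl

section Frob

variable {R : Type*} [CommRing R] (p : ℕ) [Fact p.Prime] [CharP R p]

/-- Powers of the `q`-Frobenius, `q = p^m`. -/
noncomputable def fq (R : Type*) [CommRing R] (p : ℕ) [Fact p.Prime] [CharP R p] (m i : ℕ) :
    R →+* R := iterateFrobenius R p (m * i)

lemma fq_apply (m i : ℕ) (a : R) : fq R p m i a = a ^ ((p ^ m) ^ i) := by
  unfold fq
  rw [iterateFrobenius_def, pow_mul]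

end Frob

/-- Telescoping product. -/
lemma telescope {R : Type*} [CommRing R] (p : ℕ) [Fact p.Prime] [CharP R p] (m N : ℕ)
    (g h : R[X]) (hgh : CongrMod N (g * h) (h.map (fq R p m 1))) (d : ℕ) :
    CongrMod N ((∏ i ∈ Finset.range d, g.map (fq R p m i)) * h) (h.map (fq R p m d)) := by
  induction d with
  | zero =>
    have h0 : fq R p m 0 = RingHom.id R := by
      ext a; rw [fq_apply]; simp
    rw [Finset.prod_range_zero, one_mul, h0, Polynomial.map_id]
    exact CongrMod.refl _
  | succ d ih =>
    rw [Finset.prod_range_succ]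
    have h1 : (∏ i ∈ Finset.range d, g.map (fq R p m i)) * g.map (fq R p m d) * h =
      g.map (fq R p m d) * ((∏ i ∈ Finset.range d, g.map (fq R p m i)) * h) := by ring
    rw [h1]
    refine ((CongrMod.refl (g.map (fq R p m d))).mul ih).trans ?_
    rw [← Polynomial.map_mul]
    refine (hgh.map (fq R p m d)).trans ?_
    rw [Polynomial.map_map]
    have h2 : (fq R p m d).comp (fq R p m 1) = fq R p m (d + 1) := by
      ext a
      rw [RingHom.comp_apply, fq_apply, fq_apply, fq_apply, ← pow_mul, pow_one, ← pow_succ']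
    rw [h2]
    exact CongrMod.refl _

/-- **The twisting function.** For a cyclic extension `L/K` of degree `p^n`, unramified outside
`T`, there is a family `f` of functions on `K` regular outside `T`, with `f 0 = 1`, whose local
determinant at `x ∉ T` is `(1+z)^{j_x}` modulo `z^{p^n}`, where `σ₀^{j_x}` is a Frobenius
element at `x`. -/
theorem exists_twist (p n : ℕ) [hp : Fact p.Prime] [CharP k p] (T : Finset (Place k K))
    (hT : T.Nonempty) (hun : ∀ y : Place k L, y.down K ∉ T → Unram K y) (σ₀ : L ≃ₐ[K] L)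
    (hσ₀ : ∀ σ : L ≃ₐ[K] L, σ ∈ Subgroup.zpowers σ₀) (hord : orderOf σ₀ = p ^ n) :
    ∃ f : ℕ → holo T, f 0 = 1 ∧ (∀ i, p ^ n ≤ i → f i = 0) ∧
      ∀ (y : Place k L) (j : ℕ), y.down K ∉ T → IsFrob (σ₀ ^ j) y →
        CongrMod (p ^ n) (locDet (p ^ n) (fun i => (f i : K)) (y.down K)) ((1 + X) ^ j) := by
  classical
  have : Fintype k := Fintype.ofFinite k
  obtain ⟨m, -, hm'⟩ := FiniteField.card k p
  have hm : Nat.card k = p ^ (m : ℕ) := by rw [Nat.card_eq_fintype_card]; exact hm'
  set N := p ^ n with hN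
  have hNpos : 0 < N := pow_pos hp.out.pos n
  set B := holo (above L T) with hB
  have hcharL : CharP L p := (Algebra.charP_iff k L p).mp inferInstance
  have hcharB : CharP B p := (Algebra.charP_iff k B p).mp inferInstance
  obtain ⟨θ', hθ', htr⟩ := exists_theta (L := L) T hT hun
  set θ : B := ⟨θ', hθ'⟩ with hθ
  -- the polynomial Y
  set Y : B[X] := ∑ i ∈ Finset.range N, C (holoAct T (σ₀ ^ i) θ) * (1 + X) ^ (N - i) with hY
  have hY0 : Y.coeff 0 = 1 := by
    rw [hY, finsetSum_coeff]
    have h1 : ∀ i, (C (holoAct T (σ₀ ^ i) θ) * (1 + X) ^ (N - i)).coeff 0 =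
        holoAct T (σ₀ ^ i) θ := by
      intro i
      rw [coeff_C_mul, coeff_zero_eq_eval_zero]
      simp
    simp only [h1]
    apply Subtype.ext
    have h2 : ((∑ i ∈ Finset.range N, holoAct T (σ₀ ^ i) θ : B) : L) =
        ∑ i ∈ Finset.range N, (σ₀ ^ i) θ' := by
      push_cast
      rfl
    rw [h2]
    have h3 : ∑ σ : L ≃ₐ[K] L, σ θ' = 1 := by
      rw [← trace_eq_sum_automorphisms, htr, map_one]
    have h4 : ∑ i ∈ Finset.range N, (σ₀ ^ i) θ' = ∑ σ : L ≃ₐ[K] L, σ θ' := by
      refine Finset.sum_bij (fun i _ => σ₀ ^ i) (fun _ _ => Finset.mem_univ _) ?_ ?_ ?_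
      · intro i hi j hj hij
        rw [← hord] at hi hj
        exact pow_injOn_Iio_orderOf (by simpa using hi) (by simpa using hj) hij
      · intro σ _
        have h5 := hσ₀ σ
        rw [mem_zpowers_iff_mem_range_orderOf, Finset.mem_image] at h5
        obtain ⟨i, hi, rfl⟩ := h5
        rw [hord] at hi
        exact ⟨i, hi, rfl⟩
      · intro i _; rfl
    rw [h4, h3]; rfl
  have hY1 : CongrMod N (Y.map (holoAct T σ₀)) ((1 + X) * Y) := by
    rw [congrMod_iff]
    have h1 : Y.map (holoAct T σ₀) =
        ∑ i ∈ Finset.range N, C (holoAct T (σ₀ ^ (i + 1)) θ) * (1 + X) ^ (N - i) := by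
      rw [hY, Polynomial.map_sum]
      refine Finset.sum_congr rfl fun i _ => ?_
      rw [Polynomial.map_mul, map_C, Polynomial.map_pow, Polynomial.map_add, Polynomial.map_one,
        map_X, pow_succ', holoAct_mul]
      rfl
    have h2 : (1 + X) * Y =
        ∑ i ∈ Finset.range N, C (holoAct T (σ₀ ^ i) θ) * (1 + X) ^ (N + 1 - i) := by
      rw [hY, Finset.mul_sum]
      refine Finset.sum_congr rfl fun i hi => ?_
      rw [Finset.mem_range] at hi
      have : N + 1 - i = (N - i) + 1 := by omega
      rw [this, pow_succ]; ring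
    have h3 := Finset.sum_range_succ (fun i => C (holoAct T (σ₀ ^ i) θ) * (1 + X : B[X]) ^ (N + 1 - i)) N
    have h4 := Finset.sum_range_succ' (fun i => C (holoAct T (σ₀ ^ i) θ) * (1 + X : B[X]) ^ (N + 1 - i)) N
    have h5 : ∀ i ∈ Finset.range N, C (holoAct T (σ₀ ^ (i + 1)) θ) * (1 + X : B[X]) ^ (N - i) =
        C (holoAct T (σ₀ ^ (i + 1)) θ) * (1 + X : B[X]) ^ (N + 1 - (i + 1)) := by
      intro i _
      congr 2
      omega
    rw [h1, h2, Finset.sum_congr rfl h5]
    have h6 : σ₀ ^ N = 1 := by rw [← hord]; exact pow_orderOf_eq_one σ₀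
    rw [h6] at h3
    rw [pow_zero] at h4
    have h7 : (1 + X : B[X]) ^ N = 1 + X ^ N := by
      rw [hN, add_pow_char_pow, one_pow]
    have h8 : (∑ i ∈ Finset.range N, C (holoAct T (σ₀ ^ (i + 1)) θ) * (1 + X : B[X]) ^ (N + 1 - (i + 1)))
        - ∑ i ∈ Finset.range N, C (holoAct T (σ₀ ^ i) θ) * (1 + X : B[X]) ^ (N + 1 - i)
        = C (holoAct T 1 θ) * (1 + X) ^ (N + 1 - N) - C (holoAct T 1 θ) * (1 + X) ^ (N + 1 - 0) := by
      rw [h4] at h3
      linear_combination h3
    rw [h8]
    refine ⟨- (C (holoAct T 1 θ) * (1 + X)), ?_⟩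
    have h9 : N + 1 - N = 1 := by omega
    rw [h9, Nat.sub_zero, pow_one, pow_succ (1 + X : B[X]) N, h7]
    ring
  have hYj : ∀ j : ℕ, CongrMod N (Y.map (holoAct T (σ₀ ^ j))) ((1 + X) ^ j * Y) := by
    intro j
    induction j with
    | zero =>
      rw [pow_zero, holoAct_one, Polynomial.map_id, pow_zero, one_mul]
      exact CongrMod.refl _
    | succ j ih =>
      rw [pow_succ', holoAct_mul, ← Polynomial.map_map]
      refine (ih.map (holoAct T σ₀)).trans ?_
      rw [Polynomial.map_mul, Polynomial.map_pow, Polynomial.map_add, Polynomial.map_one, map_X,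
        pow_succ, mul_assoc]
      exact (CongrMod.refl _).mul hY1
  -- the inverse
  set Z : B[X] := ∑ i ∈ Finset.range N, (1 - Y) ^ i with hZ
  have hYZ : CongrMod N (Y * Z) 1 := by
    rw [congrMod_iff]
    have h1 : Y * Z = 1 - (1 - Y) ^ N := by
      have := mul_neg_geom_sum (1 - Y) N
      rw [← hZ] at this
      rw [← this]; ring
    rw [h1]
    have h2 : (X : B[X]) ∣ 1 - Y := by
      rw [X_dvd_iff, coeff_sub, hY0, coeff_one_zero, sub_self]
    have h3 : (X : B[X]) ^ N ∣ (1 - Y) ^ N := pow_dvd_pow_of_dvd h2 N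
    have h4 : 1 - (1 - Y) ^ N - 1 = - (1 - Y) ^ N := by ring
    rw [h4, dvd_neg]
    exact h3
  set ft : B[X] := Y.map (fq B p m 1) * Z with hft
  have hftY : CongrMod N (ft * Y) (Y.map (fq B p m 1)) := by
    have h1 : ft * Y = Y.map (fq B p m 1) * (Y * Z) := by rw [hft]; ring
    rw [h1]
    have h2 := (CongrMod.refl (N := N) (Y.map (fq B p m 1))).mul hYZ
    rwa [mul_one] at h2
  have hZ0 : Z.coeff 0 = 1 := by
    have h1 := hYZ 0 hNpos
    rwa [mul_coeff_zero, hY0, one_mul, coeff_one_zero] at h1
  have hft0 : ft.coeff 0 = 1 := by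
    rw [hft, mul_coeff_zero, coeff_map, hY0, map_one, hZ0, one_mul]
  have hcomm : ∀ σ : L ≃ₐ[K] L, (holoAct T σ).comp (fq B p m 1) = (fq B p m 1).comp (holoAct T σ) := by
    intro σ
    ext a
    rw [RingHom.comp_apply, RingHom.comp_apply, fq_apply, fq_apply, map_pow]
  have hinv : CongrMod N (ft.map (holoAct T σ₀)) ft := by
    have h1 : CongrMod N (ft.map (holoAct T σ₀) * Y.map (holoAct T σ₀))
        ((Y.map (holoAct T σ₀)).map (fq B p m 1)) := by
      have := hftY.map (holoAct T σ₀)
      rw [Polynomial.map_mul, Polynomial.map_map, hcomm, ← Polynomial.map_map] at this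
      exact this
    have h2 : CongrMod N (ft.map (holoAct T σ₀) * ((1 + X) * Y)) ((1 + X) * Y.map (fq B p m 1)) := by
      refine CongrMod.trans ((CongrMod.refl _).mul hY1.symm) (h1.trans ?_)
      have := hY1.map (fq B p m 1)
      rw [Polynomial.map_mul, Polynomial.map_add, Polynomial.map_one, map_X] at this
      exact this
    have h3 : CongrMod N (((1 + X) * Y) * ft.map (holoAct T σ₀)) (((1 + X) * Y) * ft) := by
      have h4 : ((1 + X) * Y) * ft = (1 + X) * (ft * Y) := by ring
      rw [mul_comm, h4]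
      exact h2.trans ((CongrMod.refl (1 + X)).mul hftY.symm)
    refine CongrMod.cancel ?_ h3
    rw [mul_coeff_zero, hY0, mul_one]
    simp
  -- descent to K
  have hfix : ∀ i < N, ∀ σ : L ≃ₐ[K] L, σ ((ft.coeff i : B) : L) = ((ft.coeff i : B) : L) := by
    intro i hi σ
    have h1 := hinv i hi
    rw [coeff_map] at h1
    have h2 : σ₀ ((ft.coeff i : B) : L) = ((ft.coeff i : B) : L) := congrArg Subtype.val h1
    have h3 := hσ₀ σ
    rw [mem_zpowers_iff_mem_range_orderOf, Finset.mem_image] at h3
    obtain ⟨e, -, rfl⟩ := h3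
    clear h1
    induction e with
    | zero => rfl
    | succ e ih => rw [pow_succ, AlgEquiv.mul_apply, h2, ih]
  have hdesc : ∀ i < N, ∃ a : holo T, algebraMap K L (a : K) = ((ft.coeff i : B) : L) := by
    intro i hi
    obtain ⟨a, ha⟩ := (IsGalois.mem_range_algebraMap_iff_fixed (F := K) ((ft.coeff i : B) : L)).mpr
      (fun σ => hfix i hi σ)
    refine ⟨⟨a, ?_⟩, ha⟩
    intro x hx
    obtain ⟨y, hy⟩ := down_surjective k K L x
    subst hy
    rw [← algebraMap_mem_ring_iff, ha]
    refine (ft.coeff i).2 y ?_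
    rw [mem_above]; exact hx
  have hdesc' : ∀ i, ∃ a : holo T, (i < N → algebraMap K L (a : K) = ((ft.coeff i : B) : L)) ∧
      (N ≤ i → a = 0) := by
    intro i
    rcases Nat.lt_or_ge i N with h | h
    · obtain ⟨a, ha⟩ := hdesc i h
      exact ⟨a, fun _ => ha, fun h' => by omega⟩
    · exact ⟨0, fun h' => by omega, fun _ => rfl⟩
  choose f hf hfN using hdesc'
  refine ⟨f, ?_, hfN, ?_⟩
  · apply Subtype.ext
    apply (algebraMap K L).injective
    rw [hf 0 hNpos, hft0]
    simp
  · intro y j hyT hfrob
    have hyB : y ∉ above L T := by rw [mem_above]; exact hyT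
    set κx := (y.down K).ResidueField with hκx
    set κy := y.ResidueField with hκy
    have hcharκ : CharP κy p := (Algebra.charP_iff k κy p).mp inferInstance
    set d := (y.down K).degree with hd
    set ev : B →+* κy := (holoEval y hyB : B →+* κy) with hev
    have hevapp : ∀ b : B, ev b = y.resVal (b : L) := fun b => rfl
    have hevf : ∀ i, ev.comp (fq B p m i) = (fq κy p m i).comp ev := by
      intro i
      ext a
      rw [RingHom.comp_apply, RingHom.comp_apply, fq_apply, fq_apply, map_pow]
    set g : κy[X] := ft.map ev with hg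
    set h : κy[X] := Y.map ev with hh
    have hgh : CongrMod N (g * h) (h.map (fq κy p m 1)) := by
      have := hftY.map ev
      rw [Polynomial.map_mul, Polynomial.map_map, hevf, ← Polynomial.map_map] at this
      exact this
    have htel := telescope p m N g h hgh d
    -- Frobenius on Y
    have hfr : ev.comp (holoAct T (σ₀ ^ j)) = (fq κy p m d).comp ev := by
      ext a
      rw [RingHom.comp_apply, RingHom.comp_apply, fq_apply, hevapp, hevapp, coe_holoAct]
      have ha : (a : L) ∈ y.ring := a.2 y hyB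
      have h1 := hfrob.2 _ ha
      have h2 : (σ₀ ^ j) (a : L) ∈ y.ring := (holoAct T (σ₀ ^ j) a).2 y hyB
      have h3 := (resVal_eq_zero_iff (sub_mem h2 (pow_mem ha _))).mpr h1
      rw [resVal_sub h2 (pow_mem ha _), sub_eq_zero] at h3
      rw [h3, hm]
      have h6 : ∀ (e : ℕ), y.resVal ((a : L) ^ e) = (y.resVal (a : L)) ^ e := by
        intro e
        induction e with
        | zero => simp [resVal_one]
        | succ e ihm => rw [pow_succ, resVal_mul (pow_mem ha _) ha, ihm, pow_succ]
      rw [h6]
    have hYfr : CongrMod N (h.map (fq κy p m d)) ((1 + X) ^ j * h) := by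
      have h1 := (hYj j).map ev
      rw [Polynomial.map_map, hfr, ← Polynomial.map_map, Polynomial.map_mul, Polynomial.map_pow,
        Polynomial.map_add, Polynomial.map_one, map_X] at h1
      exact h1
    have hh0 : h.coeff 0 = 1 := by rw [hh, coeff_map, hY0, map_one]
    have hprod : CongrMod N (∏ i ∈ Finset.range d, g.map (fq κy p m i)) ((1 + X) ^ j) := by
      refine CongrMod.cancel (h := h) hh0 ?_
      rw [mul_comm h, mul_comm h]
      exact htel.trans hYfr
    -- comparison with the local determinant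
    apply CongrMod.of_map (φ := ((resMap (K := K) y).comp (algebraMap k κx)))
      ((resMap (K := K) y).comp (algebraMap k κx)).injective
    rw [← Polynomial.map_map]
    unfold locDet
    rw [dp_field]
    rw [Polynomial.map_prod, Polynomial.map_pow, Polynomial.map_add, Polynomial.map_one, map_X]
    refine CongrMod.trans ?_ hprod
    show CongrMod N (∏ i ∈ Finset.range d, _) _
    refine CongrMod.prod _ fun i _ => ?_
    intro e he
    rw [coeff_map, finsetSum_coeff, Finset.sum_eq_single e]
    · rw [coeff_X_pow_mul', if_pos le_rfl, Nat.sub_self, coeff_C_zero, coeff_map, hg, coeff_map,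
        fq_apply, hm, map_pow, resMap_resVal]
      · rw [hf e he, hevapp]
      · exact (f e).2 _ hyT
    · intro b _ hb
      rw [coeff_X_pow_mul', coeff_C]
      split_ifs with h1 h2
      · omega
      · rfl
      · rfl
    · intro h1
      exact absurd (Finset.mem_range.mpr he) h1

end Twist

end Pool.Agent.WanRH
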